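import Pool.Agent.Helper64.C18.Defs

set_option autoImplicit false

/-! Project C18: field facts (offer C18-B1) -/

/-!
Use the proved base library `Helper16/C18/Base.lean` (`Rat.ne_zero`, `Rat.inv`, `Rat.div`,
`coords_eq_zero`, `Dt_ne`, `lagrange`, `Rat.of_traces`): triples are written there as
`fun j => x j * y j`, here as `x * y` (definitionally equal).  `Fd.inv`: the case `x = 0` separately.
`Fd.down`: the symmetric functions are in `K`, the roots not in `E'`.  `Rat.inf`: coordinates are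
unique.  `exists_moments`: with `Dt θ` (derivative of the polynomial `f` at the roots) and
`e1 = T θ`, `e2 = T (sh θ)`, the dual basis of `1, θ, θ ^ 2` for the trace form is
`(θ ^ 2 - e1 θ + e2) / Dt θ, (θ - e1) / Dt θ, 1 / Dt θ`; so `x = m0 (θ ^ 2 - e1 θ + e2) / Dt θ +
m1 (θ - e1) / Dt θ + m2 / Dt θ`.
-/

namespace Pool.Agent.Helper16.C18.H

variable {A : Type*} [Field A] [CharZero A] {E E' K Om : Subfield A} {θ x y : Fin 3 → A}
  {Θ Θ' : Cube A}

private theorem b1_ne (hθ : Function.Injective θ) :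
    θ 0 - θ 1 ≠ 0 ∧ θ 1 - θ 2 ≠ 0 ∧ θ 2 - θ 0 ≠ 0 :=
  ⟨sub_ne_zero.2 fun e => by simpa using hθ e, sub_ne_zero.2 fun e => by simpa using hθ e,
    sub_ne_zero.2 fun e => by simpa using hθ e⟩

theorem Fd.ne (h : Fd E θ) (hx : Rat E θ x) (h0 : x ≠ 0) (i : Fin 3) : x i ≠ 0 := by
  obtain ⟨j, hj⟩ := Function.ne_iff.1 h0
  exact Rat.ne_zero h.cub h.nr hx hj i

theorem Fd.N_ne (h : Fd E θ) (hx : Rat E θ x) (h0 : x ≠ 0) : N x ≠ 0 :=
  N_ne_zero.2 fun j => h.ne hx h0 j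

theorem Fd.inv (h : Fd E θ) (hx : Rat E θ x) : Rat E θ x⁻¹ := by
  by_cases h0 : x = 0
  · have h1 : x⁻¹ = fun _ => (0 : A) := by
      funext j
      rw [Pi.inv_apply, h0, Pi.zero_apply, inv_zero]
    rw [h1]
    exact Rat.const E.zero_mem
  · exact Rat.inv h.cub hx (fun j => h.ne hx h0 j)

theorem Fd.div (h : Fd E θ) (hx : Rat E θ x) (hy : Rat E θ y) : Rat E θ (x / y) := by
  rw [div_eq_mul_inv]
  exact Rat.mul h.cub hx (h.inv hy)

theorem Fd.up (h : Fd K θ) (hKE : K ≤ E) (hi : ∀ i, θ i ∉ E) : Fd E θ :=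
  ⟨h.cub.mono hKE, hi⟩

theorem Fd.down (h : Fd K θ) (h' : Fd E' θ) (hKE : K ≤ E) (hE : E ≤ E') : Fd E θ :=
  ⟨h.cub.mono hKE, fun j hj => h'.nr j (hE hj)⟩

/-- coordinates are unique -/
theorem coord_unique (hθ : Function.Injective θ) {a b c : A}
    (h : ∀ i, a + b * θ i + c * θ i ^ 2 = 0) : a = 0 ∧ b = 0 ∧ c = 0 := by
  obtain ⟨h01, h12, h20⟩ := b1_ne hθ
  have e0 := h 0
  have e1 := h 1
  have e2 := h 2
  have f1 : b + c * (θ 0 + θ 1) = 0 := by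
    have : (θ 0 - θ 1) * (b + c * (θ 0 + θ 1)) = 0 := by linear_combination e0 - e1
    exact (mul_eq_zero.1 this).resolve_left h01
  have f2 : b + c * (θ 1 + θ 2) = 0 := by
    have : (θ 1 - θ 2) * (b + c * (θ 1 + θ 2)) = 0 := by linear_combination e1 - e2
    exact (mul_eq_zero.1 this).resolve_left h12
  have f3 : c = 0 := by
    have : (θ 2 - θ 0) * c = 0 := by linear_combination f2 - f1
    exact (mul_eq_zero.1 this).resolve_left h20
  have f4 : b = 0 := by simpa [f3] using f1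
  have f5 : a = 0 := by simpa [f3, f4] using e0
  exact ⟨f5, f4, f3⟩

theorem Rat.inf (hθ : Function.Injective θ) (hx : Rat E θ x) (hx' : Rat E' θ x) :
    Rat (E ⊓ E') θ x := by
  obtain ⟨a, ha, b, hb, c, hc, e⟩ := hx
  obtain ⟨a', ha', b', hb', c', hc', e'⟩ := hx'
  obtain ⟨h1, h2, h3⟩ := coord_unique hθ (a := a - a') (b := b - b') (c := c - c')
    (fun i => by linear_combination e' i - e i)
  rw [sub_eq_zero] at h1 h2 h3
  subst h1
  subst h2
  subst h3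
  exact ⟨a, Subfield.mem_inf.2 ⟨ha, ha'⟩, b, Subfield.mem_inf.2 ⟨hb, hb'⟩, c,
    Subfield.mem_inf.2 ⟨hc, hc'⟩, e⟩

/-- elements with given moments -/
theorem exists_moments (h : Cub E θ) {m0 m1 m2 : A} (h0 : m0 ∈ E) (h1 : m1 ∈ E)
    (h2 : m2 ∈ E) : ∃ x, Rat E θ x ∧ T x = m0 ∧ T (x * θ) = m1 ∧ T (x * θ ^ 2) = m2 := by
  have hD0 := Dt_ne h.inj
  have hD := (Rat.self (L := E) (θ := θ)).Dt h
  obtain ⟨h01, h12, h20⟩ := b1_ne h.inj
  have h10 : θ 1 - θ 0 ≠ 0 := by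
    rw [← neg_sub]
    exact neg_ne_zero.2 h01
  have h21 : θ 2 - θ 1 ≠ 0 := by
    rw [← neg_sub]
    exact neg_ne_zero.2 h12
  have h02 : θ 0 - θ 2 ≠ 0 := by
    rw [← neg_sub]
    exact neg_ne_zero.2 h20
  have e0 : Dt θ 0 = (θ 0 - θ 1) * (θ 0 - θ 2) := rfl
  have e1 : Dt θ 1 = (θ 1 - θ 2) * (θ 1 - θ 0) := rfl
  have e2 : Dt θ 2 = (θ 2 - θ 0) * (θ 2 - θ 1) := rfl
  have s0 : sh θ 0 = θ 1 * θ 2 := rfl
  have s1 : sh θ 1 = θ 2 * θ 0 := rfl
  have s2 : sh θ 2 = θ 0 * θ 1 := rfl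
  refine ⟨fun j => ((m0 * sh θ j + m1 * (θ j - T θ)) + m2) / Dt θ j, ?_, ?_, ?_, ?_⟩
  · exact Rat.div h (((Rat.self.sh h).smul h0).add ((Rat.self.sub (Rat.const h.e1)).smul h1) |>.add
      (Rat.const h2)) hD hD0
  · simp only [T, e0, e1, e2, s0, s1, s2]
    field_simp
    ring
  · simp only [T, Pi.mul_apply, e0, e1, e2, s0, s1, s2]
    field_simp
    ring
  · simp only [T, Pi.mul_apply, Pi.pow_apply, e0, e1, e2, s0, s1, s2]
    field_simp
    ring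

theorem moments_unique (hθ : Function.Injective θ) (h0 : T x = T y)
    (h1 : T (x * θ) = T (y * θ)) (h2 : T (x * θ ^ 2) = T (y * θ ^ 2)) : x = y := by
  obtain ⟨h01, h12, h20⟩ := b1_ne hθ
  simp only [T, Pi.mul_apply, Pi.pow_apply] at h0 h1 h2
  have f0 : x 0 = y 0 := by
    have h3 : (θ 0 - θ 1) * (θ 2 - θ 0) * (x 0 - y 0) = 0 := by
      linear_combination (-1 : A) * h2 + (θ 1 + θ 2) * h1 - θ 1 * θ 2 * h0
    exact sub_eq_zero.1 ((mul_eq_zero.1 h3).resolve_left (mul_ne_zero h01 h20))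
  have f1 : x 1 = y 1 := by
    have h3 : (θ 1 - θ 2) * (θ 0 - θ 1) * (x 1 - y 1) = 0 := by
      linear_combination (-1 : A) * h2 + (θ 0 + θ 2) * h1 - θ 0 * θ 2 * h0
    exact sub_eq_zero.1 ((mul_eq_zero.1 h3).resolve_left (mul_ne_zero h12 h01))
  have f2 : x 2 = y 2 := by
    have h3 : (θ 2 - θ 0) * (θ 1 - θ 2) * (x 2 - y 2) = 0 := by
      linear_combination (-1 : A) * h2 + (θ 0 + θ 1) * h1 - θ 0 * θ 1 * h0
    exact sub_eq_zero.1 ((mul_eq_zero.1 h3).resolve_left (mul_ne_zero h20 h12))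
  funext j
  fin_cases j
  · exact f0
  · exact f1
  · exact f2

end Pool.Agent.Helper16.C18.H
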