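import Pool.Agent.Helper16.CubicEngine

set_option autoImplicit false

/-! Project C18: rationality from a generating point (offer C18-RR) -/

/-!
`E = ℂ(r 0, ..., r 3)`, `z` a point of `F = 0` whose coordinate ratios generate `E`.
`z 0 ≠ 0`: otherwise `(z 1 : ... : z 5)` is a zero of the form `F(0, x 1, ..., x 5)`, which is not the zero
polynomial (`F` is irreducible / smooth, `not_factor`), and the ratios generate a field of transcendence
degree at most 3, but `E` has transcendence degree 4 (`hr`).  So `x i ↦ z (i + 1) / z 0` defines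
`ℂ[x 1, ..., x 5] / (dh F) → E`; it is injective: a nonzero element of the kernel, together with `dh F`
(irreducible, `irreducible_dh`), would again force the transcendence degree of `ℂ(z i / z 0)` to be at
most 3 (four of the five `z i / z 0` are algebraically independent over `ℂ`, they are a
transcendence basis of `E`; the corresponding four coordinate functions are independent in the
quotient ring, of which every nonzero element is algebraic over them, compare `exists_indep` in
`CubicEngine.lean`).  So the fraction field of the quotient is isomorphic to `E` (by `h2` the ratios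
generate `E`), and `E ≅ FractionRing (MvPolynomial (Fin 4) ℂ)` (`equiv_of_gen` or
`AlgebraicIndependent.aevalEquivField`).
-/

namespace Pool.Agent.Helper16.C18.H

open MvPolynomial

variable {A : Type} [Field A] [Algebra ℂ A] {F : MvPolynomial (Fin 6) ℂ}

private theorem rr_smul {σ : Type*} {p : MvPolynomial σ ℂ} {d : ℕ} (hp : p.IsHomogeneous d)
    {K : Type*} [CommRing K] [Algebra ℂ K] (a : K) (z : σ → K) :
    aeval (a • z) p = a ^ d * aeval z p := by
  rw [aeval_def, eval₂_eq, aeval_def, eval₂_eq, Finset.mul_sum]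
  refine Finset.sum_congr rfl fun m hm => ?_
  have hn := hp.degree_eq_sum_deg_support hm
  simp only [Pi.smul_apply, smul_eq_mul, mul_pow]
  rw [Finset.prod_mul_distrib, Finset.prod_pow_eq_pow_sum, ← hn]
  ring

private theorem rr_alg {ι K : Type} [Field K] [Algebra ℂ K] (y : ι → K)
    (hr : IntermediateField.adjoin ℂ (Set.range y) = ⊤) :
    Algebra.IsAlgebraic (Algebra.adjoin ℂ (Set.range y)) K := by
  constructor
  intro a
  have hy : a ∈ IntermediateField.adjoin ℂ (Set.range y) := by rw [hr]; trivial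
  obtain ⟨c, hc, b, hb, hab⟩ := IntermediateField.mem_adjoin_iff_div.mp hy
  by_cases hb0 : b = 0
  · have hy0 : a = 0 := by rw [hab, hb0, div_zero]
    rw [hy0]; exact isAlgebraic_zero
  · refine ⟨Polynomial.C ⟨b, hb⟩ * Polynomial.X - Polynomial.C ⟨c, hc⟩, ?_, ?_⟩
    · intro h0
      have h1 := congrArg (fun p => Polynomial.coeff p 1) h0
      simp [Polynomial.coeff_C] at h1
      exact hb0 (congrArg Subtype.val h1)
    · simp only [map_sub, map_mul, Polynomial.aeval_C, Polynomial.aeval_X]
      change b * a - c = 0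
      rw [hab]; field_simp; ring

private theorem rr_four {K : Type} [Field K] [Algebra ℂ K] (x y : Fin 4 → K)
    (hx : AlgebraicIndependent ℂ x) (hy : IntermediateField.adjoin ℂ (Set.range y) = ⊤) :
    AlgebraicIndependent ℂ y := by
  have halg := rr_alg y hy
  have hle : Cardinal.lift.{0} (Cardinal.mk (Fin 4)) ≤ Cardinal.lift.{0} (Algebra.trdeg ℂ K) :=
    hx.lift_cardinalMk_le_trdeg
  exact (Algebra.IsAlgebraic.isTranscendenceBasis_of_lift_le_trdeg_of_finite ℂ y hle).1

private theorem rr_sel {K : Type} [Field K] [Algebra ℂ K] (x : Fin 4 → K) (y : Fin 5 → K)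
    (hx : AlgebraicIndependent ℂ x) (hy : IntermediateField.adjoin ℂ (Set.range y) = ⊤)
    {f : MvPolynomial (Fin 5) ℂ} (hf : f ≠ 0) (h0 : aeval y f = 0) :
    ∃ i : Fin 5, AlgebraicIndependent ℂ (fun k => y (i.succAbove k)) := by
  classical
  have halg := rr_alg y hy
  obtain ⟨u, hu, hb⟩ := exists_isTranscendenceBasis_subset (R := ℂ) (Set.range y)
  choose g hg using fun a : u => hu a.2
  have hginj : Function.Injective g := by
    intro a b hab
    apply Subtype.ext
    rw [← hg a, ← hg b, hab]
  have hfin : Finite u := Finite.of_injective g hginj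
  have h4 : 4 ≤ Nat.card u := by
    have h5 : Cardinal.lift.{0} (Cardinal.mk (Fin 4)) ≤ Cardinal.lift.{0} (Algebra.trdeg ℂ K) :=
      hx.lift_cardinalMk_le_trdeg
    rw [Cardinal.lift_id, Cardinal.lift_id, ← hb.cardinalMk_eq_trdeg, Cardinal.mk_fin,
      ← Nat.cast_card] at h5
    exact_mod_cast h5
  obtain ⟨i, hi⟩ : ∃ i, ∀ a, g a ≠ i := by
    by_contra hcon
    push Not at hcon
    choose e he using hcon
    have h5 : AlgebraicIndependent ℂ y := by
      have h6 := hb.1.comp e (fun a b hab => by rw [← he a, ← he b, hab])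
      have h7 : (Subtype.val ∘ e) = y := by
        funext k
        rw [Function.comp_apply, ← hg (e k), he]
      rwa [h7] at h6
    exact hf ((algebraicIndependent_iff.1 h5) f h0)
  refine ⟨i, ?_⟩
  let g' : u → {j : Fin 5 // j ≠ i} := fun a => ⟨g a, hi a⟩
  have hg' : Function.Injective g' := fun a b hab => hginj (congrArg Subtype.val hab)
  have hcard : Nat.card {j : Fin 5 // j ≠ i} ≤ Nat.card u := by
    have h5 : Nat.card {j : Fin 5 // j ≠ i} = 4 := by
      rw [Nat.card_eq_fintype_card, Fintype.card_subtype_compl]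
      simp
    rw [h5]
    exact h4
  have hbij := hg'.bijective_of_nat_card_le hcard
  have hsur : ∀ k : Fin 4, ∃ a : u, g a = i.succAbove k := by
    intro k
    obtain ⟨a, ha⟩ := hbij.2 ⟨i.succAbove k, Fin.succAbove_ne i k⟩
    exact ⟨a, congrArg Subtype.val ha⟩
  choose e he using hsur
  have h6 := hb.1.comp e (fun a b hab => Fin.succAbove_right_injective (p := i)
    (by rw [← he a, ← he b, hab]))
  have h7 : (Subtype.val ∘ e) = fun k => y (i.succAbove k) := by
    funext k
    rw [Function.comp_apply, ← hg (e k), he]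
  rwa [h7] at h6

private theorem rr_dvd {K : Type} [Field K] [Algebra ℂ K] {n : ℕ}
    {f : MvPolynomial (Fin (n + 1)) ℂ} (hf : Irreducible f) {y : Fin (n + 1) → K}
    (h0 : aeval y f = 0) {i : Fin (n + 1)}
    (hi : AlgebraicIndependent ℂ (fun k => y (i.succAbove k)))
    {q : MvPolynomial (Fin (n + 1)) ℂ} (hq : aeval y q = 0) : f ∣ q := by
  classical
  by_contra hnd
  have hprime : (Ideal.span {f}).IsPrime := (Ideal.span_singleton_prime hf.ne_zero).mpr hf.prime
  have hdom : IsDomain (MvPolynomial (Fin (n + 1)) ℂ ⧸ Ideal.span {f}) := Ideal.Quotient.isDomain _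
  let π : MvPolynomial (Fin (n + 1)) ℂ →ₐ[ℂ] MvPolynomial (Fin (n + 1)) ℂ ⧸ Ideal.span {f} :=
    Ideal.Quotient.mkₐ ℂ _
  let φ : (MvPolynomial (Fin (n + 1)) ℂ ⧸ Ideal.span {f}) →ₐ[ℂ] K :=
    Ideal.Quotient.liftₐ _ (aeval y) (by
      intro a ha
      obtain ⟨b, rfl⟩ := Ideal.mem_span_singleton.1 ha
      rw [map_mul, h0, zero_mul])
  have hφ : ∀ p, φ (π p) = aeval y p := fun p => rfl
  let xb : Fin (n + 1) → MvPolynomial (Fin (n + 1)) ℂ ⧸ Ideal.span {f} := fun j => π (X j)
  have hxb : ∀ p, aeval xb p = π p := by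
    intro p
    have h1 : (aeval xb : MvPolynomial (Fin (n + 1)) ℂ →ₐ[ℂ] _) = π := by
      apply MvPolynomial.algHom_ext
      intro j
      rw [aeval_X]
    rw [h1]
  have h1 : AlgebraicIndependent ℂ (fun k => xb (i.succAbove k)) := by
    refine AlgebraicIndependent.of_comp φ ?_
    have h2 : (φ ∘ fun k => xb (i.succAbove k)) = fun k => y (i.succAbove k) := by
      funext k
      change φ (π (X _)) = _
      rw [hφ, aeval_X]
    rw [h2]
    exact hi
  set C0 := Algebra.adjoin ℂ (Set.range fun k => xb (i.succAbove k)) with hC0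
  have h2 : IsAlgebraic C0 (xb i) := by
    by_contra h3
    have h4 := (h1.option_iff_transcendental (xb i)).2 h3
    have h5 := h4.comp (finSuccEquiv' i) (finSuccEquiv' i).injective
    have h6 : ((fun o : Option (Fin n) => o.elim (xb i) fun k => xb (i.succAbove k)) ∘
        (finSuccEquiv' i)) = xb := by
      funext j
      rw [Function.comp_apply]
      rcases Fin.eq_self_or_eq_succAbove i j with rfl | ⟨k, rfl⟩
      · rw [finSuccEquiv'_at]
        rfl
      · rw [finSuccEquiv'_succAbove]
        rfl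
    rw [h6] at h5
    refine hf.ne_zero ((algebraicIndependent_iff.1 h5) f ?_)
    rw [hxb]
    exact Ideal.Quotient.eq_zero_iff_mem.mpr (Ideal.mem_span_singleton_self _)
  have h3 : ∀ p, IsAlgebraic C0 (π p) := by
    intro p
    induction p using MvPolynomial.induction_on with
    | C a =>
      have h4 : π (C a) = algebraMap C0 _ (algebraMap ℂ C0 a) := π.commutes a
      rw [h4]
      exact isAlgebraic_algebraMap _
    | add p q hp hq => rw [map_add]; exact hp.add hq
    | mul_X p j hp =>
      rw [map_mul]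
      refine hp.mul ?_
      rcases Fin.eq_self_or_eq_succAbove i j with rfl | ⟨k, rfl⟩
      · exact h2
      · have h4 : xb (i.succAbove k) ∈ C0 := Algebra.subset_adjoin ⟨k, rfl⟩
        exact isAlgebraic_algebraMap (⟨_, h4⟩ : C0)
  have h4 : π q ≠ 0 := by
    intro h5
    exact hnd (Ideal.mem_span_singleton.1 (Ideal.Quotient.eq_zero_iff_mem.1 h5))
  obtain ⟨c, hc, hdvd⟩ := (h3 q).exists_nonzero_dvd (mem_nonZeroDivisors_of_ne_zero h4)
  have h5 : φ (c : MvPolynomial (Fin (n + 1)) ℂ ⧸ Ideal.span {f}) = 0 := by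
    obtain ⟨b, hb⟩ := hdvd
    change φ (algebraMap C0 _ c) = 0
    rw [hb, map_mul, hφ, hq, zero_mul]
  have h6 : ∀ a ∈ C0, ∃ p : MvPolynomial (Fin n) ℂ,
      aeval (fun k => xb (i.succAbove k)) p = a := by
    rw [hC0, Algebra.adjoin_range_eq_range_aeval]
    rintro a ⟨p, hp⟩
    exact ⟨p, hp⟩
  obtain ⟨p, hp⟩ := h6 _ c.2
  have hp' : aeval (fun k => xb (i.succAbove k)) p
      = (c : MvPolynomial (Fin (n + 1)) ℂ ⧸ Ideal.span {f}) := hp
  have h7 : aeval (fun k => y (i.succAbove k)) p = 0 := by
    rw [← h5, ← hp']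
    have h8 : (aeval (fun k => y (i.succAbove k)) : MvPolynomial (Fin n) ℂ →ₐ[ℂ] K)
        = φ.comp (aeval (fun k => xb (i.succAbove k))) := by
      apply MvPolynomial.algHom_ext
      intro k
      rw [AlgHom.comp_apply, aeval_X, aeval_X]
      change _ = φ (π (X _))
      rw [hφ, aeval_X]
    rw [h8]
    rfl
  have h8 := (algebraicIndependent_iff.1 hi) p h7
  apply hc
  apply Subtype.ext
  rw [← hp', h8, map_zero]
  rfl

private theorem rr_coe {E : IntermediateField ℂ A} {ι : Type} (y : ι → E) (a : E)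
    (h : a ∈ IntermediateField.adjoin ℂ (Set.range y)) :
    (a : A) ∈ IntermediateField.adjoin ℂ (Set.range fun i => (y i : A)) := by
  have h2 : (IntermediateField.adjoin ℂ (Set.range y)).map E.val
      = IntermediateField.adjoin ℂ (Set.range fun i => (y i : A)) := by
    rw [IntermediateField.adjoin_map, ← Set.range_comp]
    rfl
  rw [← h2]
  exact ⟨a, h, rfl⟩

private theorem rr_top {E : IntermediateField ℂ A} {ι : Type} (y : ι → E)
    (h : E ≤ IntermediateField.adjoin ℂ (Set.range fun i => (y i : A))) :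
    IntermediateField.adjoin ℂ (Set.range y) = ⊤ := by
  rw [eq_top_iff]
  rintro ⟨a, ha⟩ _
  have h1 := h ha
  have h2 : (IntermediateField.adjoin ℂ (Set.range y)).map E.val
      = IntermediateField.adjoin ℂ (Set.range fun i => (y i : A)) := by
    rw [IntermediateField.adjoin_map, ← Set.range_comp]
    rfl
  rw [← h2] at h1
  obtain ⟨b, hb, hba⟩ := h1
  have h3 : b = ⟨a, ha⟩ := Subtype.ext hba
  rw [← h3]
  exact hb

/-- `F(0, x) = 0` implies that `x 0` divides `F` -/
private theorem rr_X {F : MvPolynomial (Fin 6) ℂ}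
    (h : aeval (Fin.cons 0 X : Fin 6 → MvPolynomial (Fin 5) ℂ) F = 0) : ∃ H, F = X 0 * H := by
  have h1 : Polynomial.eval 0 (finSuccEquiv ℂ 5 F) = 0 := by
    have h2 : ((Polynomial.aeval (0 : MvPolynomial (Fin 5) ℂ)).restrictScalars ℂ).comp
        (finSuccEquiv ℂ 5).toAlgHom = aeval (Fin.cons 0 X : Fin 6 → MvPolynomial (Fin 5) ℂ) := by
      apply MvPolynomial.algHom_ext
      intro i
      rw [aeval_X]
      refine Fin.cases ?_ (fun k => ?_) i
      · change Polynomial.aeval _ (finSuccEquiv ℂ 5 (X 0)) = _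
        rw [finSuccEquiv_X_zero, Polynomial.aeval_X]
        rfl
      · change Polynomial.aeval _ (finSuccEquiv ℂ 5 (X k.succ)) = _
        rw [finSuccEquiv_X_succ, Polynomial.aeval_C]
        rfl
    rw [← h2] at h
    exact h
  rw [← Polynomial.coeff_zero_eq_eval_zero, ← Polynomial.X_dvd_iff] at h1
  obtain ⟨q, hq⟩ := h1
  refine ⟨(finSuccEquiv ℂ 5).symm q, ?_⟩
  apply (finSuccEquiv ℂ 5).injective
  rw [map_mul, finSuccEquiv_X_zero, AlgEquiv.apply_symm_apply, hq]

theorem rational_of_gen (hF : F.IsHomogeneous 3) (hs : Smooth F) {r : Fin 4 → A}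
    (hr : AlgebraicIndependent ℂ r) {z : Fin 6 → A} (hz : z ≠ 0) (h0 : aeval z F = 0)
    (h1 : ∃ t : A, t ≠ 0 ∧ ∀ m, t * z m ∈ IntermediateField.adjoin ℂ (Set.range r))
    (h2 : ∀ L : IntermediateField ℂ A, L ≤ IntermediateField.adjoin ℂ (Set.range r) →
      (∃ t : A, t ≠ 0 ∧ ∀ m, t * z m ∈ L) → IntermediateField.adjoin ℂ (Set.range r) ≤ L) :
    (Ideal.span {dh F}).IsPrime ∧
      Nonempty (FractionRing (MvPolynomial (Fin 5) ℂ ⧸ Ideal.span {dh F}) ≃ₐ[ℂ]
        FractionRing (MvPolynomial (Fin 4) ℂ)) := by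
  classical
  have hirr := irreducible_dh hF hs
  have hprime : (Ideal.span {dh F}).IsPrime :=
    (Ideal.span_singleton_prime hirr.ne_zero).mpr hirr.prime
  refine ⟨hprime, ?_⟩
  obtain ⟨t, ht, htz⟩ := h1
  set E := IntermediateField.adjoin ℂ (Set.range r) with hE
  let w : Fin 6 → E := fun m => ⟨t * z m, htz m⟩
  have hwv : ∀ m, ((w m : E) : A) = t * z m := fun m => rfl
  let r' : Fin 4 → E := fun i => ⟨r i, IntermediateField.subset_adjoin _ _ ⟨i, rfl⟩⟩
  have hr' : AlgebraicIndependent ℂ r' := AlgebraicIndependent.of_comp E.val hr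
  have hgen : IntermediateField.adjoin ℂ (Set.range r') = ⊤ := rr_top r' le_rfl
  have hw0 : w ≠ 0 := by
    intro h
    apply hz
    funext m
    have h3 := congrArg Subtype.val (congrFun h m)
    change t * z m = 0 at h3
    exact (mul_eq_zero.1 h3).resolve_left ht
  have hwF : aeval w F = 0 := by
    apply Subtype.ext
    have h3 : ((aeval w F : E) : A) = aeval (t • z) F := by
      have h4 : (E.val.comp (aeval w) : MvPolynomial (Fin 6) ℂ →ₐ[ℂ] A) = aeval (t • z) := by
        apply MvPolynomial.algHom_ext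
        intro m
        rw [AlgHom.comp_apply, aeval_X, aeval_X]
        rfl
      rw [← h4]
      rfl
    rw [h3, rr_smul hF, h0, mul_zero]
    rfl
  have key : ∀ (j : Fin 6), w j ≠ 0 → ∀ (n : ℕ) (y : Fin n → E),
      (∀ m, w m / w j ∈ IntermediateField.adjoin ℂ (Set.range y)) →
      IntermediateField.adjoin ℂ (Set.range y) = ⊤ := by
    intro j hj n y hy
    apply rr_top
    apply h2
    · rw [IntermediateField.adjoin_le_iff]
      rintro _ ⟨i, rfl⟩
      exact (y i).2
    · have hzj : z j ≠ 0 := by
        intro h3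
        apply hj
        apply Subtype.ext
        change t * z j = 0
        rw [h3, mul_zero]
      refine ⟨(z j)⁻¹, inv_ne_zero hzj, fun m => ?_⟩
      have h3 : (z j)⁻¹ * z m = ((w m / w j : E) : A) := by
        change _ = (t * z m) / (t * z j)
        field_simp
      rw [h3]
      exact rr_coe y _ (hy m)
  have hw00 : w 0 ≠ 0 := by
    intro hcon
    obtain ⟨m, hm⟩ : ∃ m, w m ≠ 0 := by
      by_contra h3
      push Not at h3
      exact hw0 (funext h3)
    obtain ⟨j, rfl⟩ : ∃ j : Fin 5, m = j.succ := by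
      refine ⟨m.pred ?_, (Fin.succ_pred m _).symm⟩
      rintro rfl
      exact hm hcon
    let y : Fin 4 → E := fun k => w (j.succAbove k).succ / w j.succ
    have hy : IntermediateField.adjoin ℂ (Set.range y) = ⊤ := by
      apply key j.succ hm
      intro m
      refine Fin.cases ?_ (fun k => ?_) m
      · rw [hcon, zero_div]
        exact zero_mem _
      · rcases Fin.eq_self_or_eq_succAbove j k with rfl | ⟨k, rfl⟩
        · rw [div_self hm]
          exact one_mem _
        · exact IntermediateField.subset_adjoin _ _ ⟨k, rfl⟩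
    have hind := rr_four r' y hr' hy
    have hG : aeval y (aeval (Fin.cons 0 (j.insertNth 1 X) :
        Fin 6 → MvPolynomial (Fin 4) ℂ) F) = 0 := by
      have h3 : ((aeval y : MvPolynomial (Fin 4) ℂ →ₐ[ℂ] E).comp
          (aeval (Fin.cons 0 (j.insertNth 1 X) : Fin 6 → MvPolynomial (Fin 4) ℂ)))
          = aeval ((w j.succ)⁻¹ • w) := by
        apply MvPolynomial.algHom_ext
        intro m
        rw [AlgHom.comp_apply, aeval_X, aeval_X, Pi.smul_apply, smul_eq_mul]
        refine Fin.cases ?_ (fun k => ?_) m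
        · rw [Fin.cons_zero, map_zero, hcon, mul_zero]
        · rw [Fin.cons_succ]
          rcases Fin.eq_self_or_eq_succAbove j k with rfl | ⟨k, rfl⟩
          · rw [Fin.insertNth_apply_same, map_one, inv_mul_cancel₀ hm]
          · rw [Fin.insertNth_apply_succAbove, aeval_X]
            change _ / _ = _
            rw [div_eq_inv_mul]
      have h4 := DFunLike.congr_fun h3 F
      rw [AlgHom.comp_apply] at h4
      rw [h4, rr_smul hF, hwF, mul_zero]
    have hG0 := (algebraicIndependent_iff.1 hind) _ hG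
    have hF0 : aeval (Fin.cons 0 X : Fin 6 → MvPolynomial (Fin 5) ℂ) F = 0 := by
      have h3 : X j * aeval (Fin.cons 0 X : Fin 6 → MvPolynomial (Fin 5) ℂ) F = 0 := by
        apply MvPolynomial.funext
        intro v
        rw [map_mul, eval_X, map_zero]
        by_cases hv : v j = 0
        · rw [hv, zero_mul]
        · have h4 : eval v (aeval (Fin.cons 0 X : Fin 6 → MvPolynomial (Fin 5) ℂ) F)
              = aeval (Fin.cons 0 v : Fin 6 → ℂ) F := by
            have h5 : ((aeval v : MvPolynomial (Fin 5) ℂ →ₐ[ℂ] ℂ).comp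
                (aeval (Fin.cons 0 X : Fin 6 → MvPolynomial (Fin 5) ℂ)))
                = aeval (Fin.cons 0 v : Fin 6 → ℂ) := by
              apply MvPolynomial.algHom_ext
              intro m
              rw [AlgHom.comp_apply, aeval_X, aeval_X]
              refine Fin.cases ?_ (fun k => ?_) m
              · rw [Fin.cons_zero, Fin.cons_zero, map_zero]
              · rw [Fin.cons_succ, Fin.cons_succ, aeval_X]
            have h6 := DFunLike.congr_fun h5 F
            rw [AlgHom.comp_apply] at h6
            rw [← h6, aeval_eq_eval]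
          have h5 : (Fin.cons 0 v : Fin 6 → ℂ) = v j • (Fin.cons 0 (j.insertNth 1
              (fun k => (v j)⁻¹ * v (j.succAbove k))) : Fin 6 → ℂ) := by
            funext m
            rw [Pi.smul_apply, smul_eq_mul]
            refine Fin.cases ?_ (fun k => ?_) m
            · rw [Fin.cons_zero, Fin.cons_zero, mul_zero]
            · rw [Fin.cons_succ, Fin.cons_succ]
              rcases Fin.eq_self_or_eq_succAbove j k with rfl | ⟨k, rfl⟩
              · rw [Fin.insertNth_apply_same, mul_one]
              · rw [Fin.insertNth_apply_succAbove, ← mul_assoc, mul_inv_cancel₀ hv, one_mul]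
          have h6 : aeval (Fin.cons 0 (j.insertNth 1
              (fun k => (v j)⁻¹ * v (j.succAbove k))) : Fin 6 → ℂ) F = 0 := by
            have h7 : ((aeval (fun k => (v j)⁻¹ * v (j.succAbove k)) :
                MvPolynomial (Fin 4) ℂ →ₐ[ℂ] ℂ).comp
                (aeval (Fin.cons 0 (j.insertNth 1 X) : Fin 6 → MvPolynomial (Fin 4) ℂ)))
                = aeval (Fin.cons 0 (j.insertNth 1
                  (fun k => (v j)⁻¹ * v (j.succAbove k))) : Fin 6 → ℂ) := by
              apply MvPolynomial.algHom_ext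
              intro m
              rw [AlgHom.comp_apply, aeval_X, aeval_X]
              refine Fin.cases ?_ (fun k => ?_) m
              · rw [Fin.cons_zero, Fin.cons_zero, map_zero]
              · rw [Fin.cons_succ, Fin.cons_succ]
                rcases Fin.eq_self_or_eq_succAbove j k with rfl | ⟨k, rfl⟩
                · rw [Fin.insertNth_apply_same, Fin.insertNth_apply_same, map_one]
                · rw [Fin.insertNth_apply_succAbove, Fin.insertNth_apply_succAbove, aeval_X]
            have h8 := DFunLike.congr_fun h7 F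
            rw [AlgHom.comp_apply, hG0, map_zero] at h8
            exact h8.symm
          rw [h4, h5, rr_smul hF, h6, mul_zero, mul_zero]
      exact (mul_eq_zero.1 h3).resolve_left (X_ne_zero j)
    obtain ⟨H, hH⟩ := rr_X hF0
    exact not_factor hF hs (isHomogeneous_X ℂ (0 : Fin 6)) hH
  let y : Fin 5 → E := fun k => w k.succ / w 0
  have hy : IntermediateField.adjoin ℂ (Set.range y) = ⊤ := by
    apply key 0 hw00
    intro m
    refine Fin.cases ?_ (fun k => ?_) m
    · rw [div_self hw00]
      exact one_mem _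
    · exact IntermediateField.subset_adjoin _ _ ⟨k, rfl⟩
  have hyF : aeval y (dh F) = 0 := by
    have h3 : ((aeval y : MvPolynomial (Fin 5) ℂ →ₐ[ℂ] E).comp dh) = aeval ((w 0)⁻¹ • w) := by
      apply MvPolynomial.algHom_ext
      intro m
      rw [AlgHom.comp_apply, aeval_X, Pi.smul_apply, smul_eq_mul]
      unfold dh
      rw [aeval_X]
      refine Fin.cases ?_ (fun k => ?_) m
      · rw [Fin.cons_zero, map_one, inv_mul_cancel₀ hw00]
      · rw [Fin.cons_succ, aeval_X]
        change _ / _ = _
        rw [div_eq_inv_mul]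
    have h4 := DFunLike.congr_fun h3 F
    rw [AlgHom.comp_apply] at h4
    rw [h4, rr_smul hF, hwF, mul_zero]
  obtain ⟨i, hi⟩ := rr_sel r' y hr' hy hirr.ne_zero hyF
  have hdvd : ∀ q, aeval y q = 0 → dh F ∣ q := fun q hq => rr_dvd hirr hyF hi hq
  have hdom : IsDomain (MvPolynomial (Fin 5) ℂ ⧸ Ideal.span {dh F}) := Ideal.Quotient.isDomain _
  let φ : (MvPolynomial (Fin 5) ℂ ⧸ Ideal.span {dh F}) →ₐ[ℂ] E :=
    Ideal.Quotient.liftₐ _ (aeval y) (by
      intro a ha
      obtain ⟨b, rfl⟩ := Ideal.mem_span_singleton.1 ha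
      rw [map_mul, hyF, zero_mul])
  have hφ : ∀ p, φ (Ideal.Quotient.mk _ p) = aeval y p := fun p => rfl
  have hφi : Function.Injective φ := by
    rw [injective_iff_map_eq_zero]
    intro a ha
    obtain ⟨p, rfl⟩ := Ideal.Quotient.mk_surjective a
    rw [hφ] at ha
    exact Ideal.Quotient.eq_zero_iff_mem.2 (Ideal.mem_span_singleton.2 (hdvd p ha))
  let ψ : FractionRing (MvPolynomial (Fin 5) ℂ ⧸ Ideal.span {dh F}) →ₐ[ℂ] E :=
    IsFractionRing.liftAlgHom (g := φ) hφi
  have hψ : ∀ a : MvPolynomial (Fin 5) ℂ ⧸ Ideal.span {dh F},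
      ψ (algebraMap _ _ a) = φ a := fun a => IsFractionRing.lift_algebraMap hφi a
  have hψs : Function.Surjective ψ := by
    have h3 : ψ.fieldRange = ⊤ := by
      rw [eq_top_iff, ← hy, IntermediateField.adjoin_le_iff]
      rintro _ ⟨k, rfl⟩
      refine ⟨algebraMap (MvPolynomial (Fin 5) ℂ ⧸ Ideal.span {dh F}) _
        (Ideal.Quotient.mk _ (X k)), ?_⟩
      change ψ (algebraMap _ _ _) = _
      rw [hψ, hφ, aeval_X]
    intro a
    have h4 : a ∈ ψ.fieldRange := by rw [h3]; trivial
    exact h4
  obtain ⟨e2⟩ := equiv_of_gen r' r' hr' hgen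
  exact ⟨(AlgEquiv.ofBijective ψ ⟨ψ.toRingHom.injective, hψs⟩).trans e2⟩

end Pool.Agent.Helper16.C18.H
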