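import Pool.Agent.Helper64.C18.B1

set_option autoImplicit false

/-! Project C18: cubes and Moebius transformations (offer C18-B2) -/

/-!
Everything is a polynomial identity in the coordinates (`simp [Cube.ev, N, T, sh, ...]; ring`) plus
closure of `Rat E θ` under the operations.  `over_of_ev`: put `x = 0, y = 1` (gives `c`), `x = 1, y = 0`
(gives `d`); for `x` replace `x` by `x, -x, 2 x` to see that `T (a x)`, `T (b sh x)` are in `E` for
all `x` in `E[θ]`; `Rat.of_traces` gives `a`; for `b` polarise: `sh (x + 1) = sh x + (T x - x) + 1`, so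
`T (b (T x - x))` is in `E` for `x = 1` (so `T b` is), then for `x = θ, θ ^ 2`.  `Pt.congr`: if `y ≠ 0`
then all `y i ≠ 0`, `y' ≠ 0` (else `x' y = 0`, so `x' = 0`), and `(x', y') = m (x, y)` with
`m = y' / y`; if `y = 0` then `x i ≠ 0` for all `i`, `y' = 0` and `m = x' / x`; use `ev_smul`.
`act_over`: by `over_of_ev` and `act_ev`.
-/

namespace Pool.Agent.Helper16.C18.H

variable {A : Type*} [Field A] [CharZero A] {E E' K Om : Subfield A} {θ x y : Fin 3 → A}
  {Θ Θ' : Cube A}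

theorem Cube.ev_smul (Θ : Cube A) (m x y : Fin 3 → A) :
    Θ.ev (m * x) (m * y) = N m * Θ.ev x y := by
  simp only [Cube.ev, N, T, sh, Pi.mul_apply, Matrix.cons_val_zero, Matrix.cons_val_one,
    Matrix.cons_val]
  ring

theorem Cube.Over.mono (h : Θ.Over E θ) (hE : E ≤ E') : Θ.Over E' θ :=
  ⟨hE h.hc, h.ha.mono hE, h.hb.mono hE, hE h.hd⟩

theorem Cube.Over.ev_mem (h : Θ.Over E θ) (hC : Cub E θ) (hx : Rat E θ x) (hy : Rat E θ y) :
    Θ.ev x y ∈ E := by
  have h1 : T (Θ.a * x * sh y) ∈ E := (((h.ha.mul hC hx).mul hC (hy.sh hC))).T_mem hC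
  have h2 : T (Θ.b * sh x * y) ∈ E := (((h.hb.mul hC (hx.sh hC)).mul hC hy)).T_mem hC
  exact E.add_mem (E.add_mem (E.add_mem (E.mul_mem h.hc (hy.N_mem hC)) h1) h2)
    (E.mul_mem h.hd (hx.N_mem hC))

/-- a triple with traces of products in `E` -/
theorem B2_of_tr (hC : Cub E θ) (h : ∀ t, Rat E θ t → T (x * t) ∈ E) : Rat E θ x := by
  refine Rat.of_traces hC ?_ (h θ Rat.self) (h _ (Rat.self.pow hC 2))
  have h1 := h (fun _ => 1) (Rat.const E.one_mem)
  have h2 : x * (fun _ => 1) = x := by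
    funext j
    exact mul_one _
  rwa [h2] at h1

/-- a cube with values in `E` on `E[θ]` is defined over `E` -/
theorem Cube.over_of_ev (hC : Cub E θ)
    (h : ∀ x y, Rat E θ x → Rat E θ y → Θ.ev x y ∈ E) : Θ.Over E θ := by
  have r1 : Rat E θ 1 := Rat.const E.one_mem
  have r0 : Rat E θ 0 := Rat.const E.zero_mem
  have h2 : (2 : A) ∈ E := ofNat_mem E 2
  have hc : Θ.c ∈ E := by
    have h1 := h 0 1 r0 r1
    simpa [Cube.ev, N, T, sh] using h1
  have hd : Θ.d ∈ E := by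
    have h1 := h 1 0 r1 r0
    simpa [Cube.ev, N, T, sh] using h1
  have hab : ∀ t, Rat E θ t → T (Θ.a * t) ∈ E ∧ T (Θ.b * sh t) ∈ E := by
    intro t ht
    have h3 := h t 1 ht r1
    have h4 := h (fun j => - t j) 1 ht.neg r1
    have hN := E.mul_mem hd (ht.N_mem hC)
    have e3 : Θ.ev t 1 = Θ.c + T (Θ.a * t) + T (Θ.b * sh t) + Θ.d * N t := by
      simp only [Cube.ev, N, T, sh, Pi.mul_apply, Pi.one_apply, Matrix.cons_val_zero,
        Matrix.cons_val_one, Matrix.cons_val]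
      ring
    have e4 : Θ.ev (fun j => - t j) 1 = Θ.c - T (Θ.a * t) + T (Θ.b * sh t) - Θ.d * N t := by
      simp only [Cube.ev, N, T, sh, Pi.mul_apply, Pi.one_apply, Matrix.cons_val_zero,
        Matrix.cons_val_one, Matrix.cons_val]
      ring
    rw [e3] at h3
    rw [e4] at h4
    constructor
    · have e5 : T (Θ.a * t) = ((Θ.c + T (Θ.a * t) + T (Θ.b * sh t) + Θ.d * N t)
          - (Θ.c - T (Θ.a * t) + T (Θ.b * sh t) - Θ.d * N t)) / 2 - Θ.d * N t := by
        field_simp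
        ring
      rw [e5]
      exact E.sub_mem (E.div_mem (E.sub_mem h3 h4) h2) hN
    · have e5 : T (Θ.b * sh t) = ((Θ.c + T (Θ.a * t) + T (Θ.b * sh t) + Θ.d * N t)
          + (Θ.c - T (Θ.a * t) + T (Θ.b * sh t) - Θ.d * N t)) / 2 - Θ.c := by
        field_simp
        ring
      rw [e5]
      exact E.sub_mem (E.div_mem (E.add_mem h3 h4) h2) hc
  have hb1 : T Θ.b ∈ E := by
    have h3 := (hab 1 r1).2
    simpa [T, sh] using h3
  refine ⟨hc, B2_of_tr hC fun t ht => (hab t ht).1, B2_of_tr hC fun t ht => ?_, hd⟩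
  -- polarisation: `sh (t + 1) = sh t + (T t - t) + 1`
  have h3 := (hab t ht).2
  have h4 := (hab (fun j => t j + 1) (ht.add r1)).2
  have e5 : T (Θ.b * t) = T t * T Θ.b + T Θ.b + T (Θ.b * sh t)
      - T (Θ.b * sh (fun j => t j + 1)) := by
    simp only [T, sh, Pi.mul_apply, Matrix.cons_val_zero, Matrix.cons_val_one, Matrix.cons_val]
    ring
  rw [e5]
  exact E.sub_mem (E.add_mem (E.add_mem (E.mul_mem (ht.T_mem hC) hb1) hb1) h3) h4

/-- a point in other coordinates -/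
theorem Pt.congr (hC : Fd E θ) (h : Pt Θ E θ x y) {x' y' : Fin 3 → A} (hx : Rat E θ x')
    (hy : Rat E θ y') (hne : x' ≠ 0 ∨ y' ≠ 0) (hp : x * y' = x' * y) : Pt Θ E θ x' y' := by
  refine ⟨hx, hy, hne, ?_⟩
  by_cases h0 : y = 0
  · have hx0 : x ≠ 0 := h.ne.resolve_right (fun h1 => h1 h0)
    have hxi := hC.ne h.hx hx0
    have hy' : y' = 0 := by
      funext i
      have h1 := congrFun hp i
      rw [h0] at h1
      simp only [Pi.mul_apply, Pi.zero_apply, mul_zero] at h1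
      exact (mul_eq_zero.1 h1).resolve_left (hxi i)
    have e1 : x' = (x' / x) * x := by
      funext i
      simp only [Pi.mul_apply, Pi.div_apply]
      exact (div_mul_cancel₀ _ (hxi i)).symm
    have e2 : y' = (x' / x) * y := by rw [h0, hy', mul_zero]
    have e3 : Θ.ev x' y' = Θ.ev ((x' / x) * x) ((x' / x) * y) := by rw [← e1, ← e2]
    rw [e3, Cube.ev_smul, h.ev, mul_zero]
  · have hyi := hC.ne h.hy h0
    have e1 : x' = (y' / y) * x := by
      funext i
      have h1 := congrFun hp i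
      simp only [Pi.mul_apply, Pi.div_apply] at h1 ⊢
      rw [div_mul_eq_mul_div, eq_div_iff (hyi i), ← h1, mul_comm]
    have e2 : y' = (y' / y) * y := by
      funext i
      simp only [Pi.mul_apply, Pi.div_apply]
      exact (div_mul_cancel₀ _ (hyi i)).symm
    have e3 : Θ.ev x' y' = Θ.ev ((y' / y) * x) ((y' / y) * y) := by rw [← e1, ← e2]
    rw [e3, Cube.ev_smul, h.ev, mul_zero]

/-- the transformed cube with formulas for the coefficients -/
def Mob.act (h : Mob K θ) (Θ : Cube A) : Cube A where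
  c := Θ.ev h.q h.s
  a := ![Θ.ev ![h.p 0, h.q 1, h.q 2] ![h.r 0, h.s 1, h.s 2],
    Θ.ev ![h.q 0, h.p 1, h.q 2] ![h.s 0, h.r 1, h.s 2],
    Θ.ev ![h.q 0, h.q 1, h.p 2] ![h.s 0, h.s 1, h.r 2]]
  b := ![Θ.ev ![h.q 0, h.p 1, h.p 2] ![h.s 0, h.r 1, h.r 2],
    Θ.ev ![h.p 0, h.q 1, h.p 2] ![h.r 0, h.s 1, h.r 2],
    Θ.ev ![h.p 0, h.p 1, h.q 2] ![h.r 0, h.r 1, h.s 2]]
  d := Θ.ev h.p h.r

theorem Mob.act_ev (h : Mob K θ) (Θ : Cube A) (x y : Fin 3 → A) :
    (h.act Θ).ev x y = Θ.ev (h.p * x + h.q * y) (h.r * x + h.s * y) := by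
  simp only [Mob.act, Cube.ev, N, T, sh, Pi.mul_apply, Pi.add_apply, Matrix.cons_val_zero,
    Matrix.cons_val_one, Matrix.cons_val]
  ring

theorem Mob.act_over (hC : Cub K θ) (h : Mob K θ) (hΘ : Θ.Over K θ) : (h.act Θ).Over K θ := by
  refine Cube.over_of_ev hC fun x y hx hy => ?_
  rw [Mob.act_ev]
  exact hΘ.ev_mem hC ((h.hp.mul hC hx).add (h.hq.mul hC hy))
    ((h.hr.mul hC hx).add (h.hs.mul hC hy))

end Pool.Agent.Helper16.C18.H
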