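import Pool.Agent.Helper64.C18.B2

set_option autoImplicit false

/-! Project C18: transport of points and generating points (offer C18-B3) -/

/-!
`exists_inv`: `g = (s, -q; -r, p) / (p s - q r)`.  `Pt.map`, `Pt.comap`: `act_ev` and the inverse
(nonzero vectors go to nonzero vectors as the determinant has no zero component).  `Gen.map`: if `L`
contains a representative `(x', y')` of the image, it contains the representative `g (x', y')` of
`(x, y)`.  `Gen.toA`: all `y i ≠ 0`; for `L` with `Rat L θ (x / y)` use `x' = x / y`, `y' = 1`.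
`GenA.toGen`: if `x y' = x'` with `(x', y') ≠ 0` then `y' ≠ 0` and `x = x' / y'`
(`Fd L θ` by `Fd.down`).
-/

namespace Pool.Agent.Helper16.C18.H

variable {A : Type*} [Field A] [CharZero A] {E E' K Om : Subfield A} {θ x y : Fin 3 → A}
  {Θ Θ' : Cube A}

/-- the inverse transformation -/
theorem Mob.exists_inv (hC : Fd K θ) (h : Mob K θ) : ∃ g : Mob K θ, ∀ x y : Fin 3 → A,
    (g.p * (h.p * x + h.q * y) + g.q * (h.r * x + h.s * y) = x ∧
      g.r * (h.p * x + h.q * y) + g.s * (h.r * x + h.s * y) = y) ∧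
    (h.p * (g.p * x + g.q * y) + h.q * (g.r * x + g.s * y) = x ∧
      h.r * (g.p * x + g.q * y) + h.s * (g.r * x + g.s * y) = y) := by
  have hD : Rat K θ (h.p * h.s - h.q * h.r) :=
    (h.hp.mul hC.cub h.hs).sub (h.hq.mul hC.cub h.hr)
  have hDi : ∀ i, (h.p * h.s - h.q * h.r) i ≠ 0 := h.det
  have hI := hC.inv hD
  have d0 := h.det
  refine ⟨⟨h.s * (h.p * h.s - h.q * h.r)⁻¹, (fun j => - h.q j) * (h.p * h.s - h.q * h.r)⁻¹,
    (fun j => - h.r j) * (h.p * h.s - h.q * h.r)⁻¹, h.p * (h.p * h.s - h.q * h.r)⁻¹,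
    h.hs.mul hC.cub hI, h.hq.neg.mul hC.cub hI, h.hr.neg.mul hC.cub hI,
    h.hp.mul hC.cub hI, fun i => ?_⟩, fun x y => ⟨⟨?_, ?_⟩, ⟨?_, ?_⟩⟩⟩
  · have h1 := d0 i
    simp only [Pi.mul_apply, Pi.sub_apply, Pi.inv_apply]
    have h2 : h.s i * (h.p i * h.s i - h.q i * h.r i)⁻¹ * (h.p i *
        (h.p i * h.s i - h.q i * h.r i)⁻¹) - - h.q i * (h.p i * h.s i - h.q i * h.r i)⁻¹ *
        (- h.r i * (h.p i * h.s i - h.q i * h.r i)⁻¹) =
        (h.p i * h.s i - h.q i * h.r i)⁻¹ := by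
      linear_combination (h.p i * h.s i - h.q i * h.r i)⁻¹ * mul_inv_cancel₀ h1
    rw [h2]
    exact inv_ne_zero h1
  all_goals
    funext i
    have h1 := mul_inv_cancel₀ (d0 i)
    simp only [Pi.mul_apply, Pi.add_apply, Pi.sub_apply, Pi.inv_apply]
  · linear_combination x i * h1
  · linear_combination y i * h1
  · linear_combination x i * h1
  · linear_combination y i * h1

theorem B3_rat {p q : Fin 3 → A} (hC' : Cub E θ) (hKE : K ≤ E) (hp : Rat K θ p)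
    (hq : Rat K θ q) (hx : Rat E θ x) (hy : Rat E θ y) : Rat E θ (p * x + q * y) :=
  ((hp.mono hKE).mul hC' hx).add ((hq.mono hKE).mul hC' hy)

theorem B3_ne (hC : Fd K θ) (h : Mob K θ) (hne : x ≠ 0 ∨ y ≠ 0) :
    h.p * x + h.q * y ≠ 0 ∨ h.r * x + h.s * y ≠ 0 := by
  by_contra hcon
  rw [not_or, not_not, not_not] at hcon
  obtain ⟨g, hg⟩ := Mob.exists_inv hC h
  have h1 := (hg x y).1
  rw [hcon.1, hcon.2, mul_zero, mul_zero, add_zero, mul_zero, mul_zero, add_zero] at h1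
  rcases hne with h2 | h2
  · exact h2 h1.1.symm
  · exact h2 h1.2.symm

/-- points of the transformed cube -/
theorem Pt.map (hC : Fd K θ) (hC' : Fd E θ) (hKE : K ≤ E) (h : Mob K θ)
    (hp : Pt (h.act Θ) E θ x y) :
    Pt Θ E θ (h.p * x + h.q * y) (h.r * x + h.s * y) := by
  refine ⟨B3_rat hC'.cub hKE h.hp h.hq hp.hx hp.hy, B3_rat hC'.cub hKE h.hr h.hs hp.hx hp.hy,
    B3_ne hC h hp.ne, ?_⟩
  rw [← Mob.act_ev]
  exact hp.ev

/-- points of the cube give points of the transformed cube -/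
theorem Pt.comap (hC : Fd K θ) (hC' : Fd E θ) (hKE : K ≤ E) (h : Mob K θ)
    (hp : Pt Θ E θ x y) : ∃ x' y' : Fin 3 → A, Pt (h.act Θ) E θ x' y' ∧
      h.p * x' + h.q * y' = x ∧ h.r * x' + h.s * y' = y := by
  obtain ⟨g, hg⟩ := Mob.exists_inv hC h
  have h1 := (hg x y).2
  refine ⟨g.p * x + g.q * y, g.r * x + g.s * y, ⟨B3_rat hC'.cub hKE g.hp g.hq hp.hx hp.hy,
    B3_rat hC'.cub hKE g.hr g.hs hp.hx hp.hy, B3_ne hC g hp.ne, ?_⟩, h1.1, h1.2⟩
  rw [Mob.act_ev, h1.1, h1.2]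
  exact hp.ev

theorem Gen.map (hC : Fd K θ) (hC' : Fd Om θ) (hK : K ≤ Om) (h : Mob K θ)
    (hx : Rat Om θ x) (hy : Rat Om θ y) (hne : x ≠ 0 ∨ y ≠ 0) (hg : Gen K Om θ x y) :
    Gen K Om θ (h.p * x + h.q * y) (h.r * x + h.s * y) := by
  intro L hKL hLO x' y' hx' hy' hne' he
  obtain ⟨g, hgi⟩ := Mob.exists_inv hC h
  have hL : Fd L θ := hC.down hC' hKL hLO
  refine hg L hKL hLO (g.p * x' + g.q * y') (g.r * x' + g.s * y')
    (B3_rat hL.cub hKL g.hp g.hq hx' hy') (B3_rat hL.cub hKL g.hr g.hs hx' hy')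
    (B3_ne hC g hne') ?_
  obtain ⟨⟨h1, h2⟩, -⟩ := hgi x y
  set X := h.p * x + h.q * y with hX
  set Y := h.r * x + h.s * y with hY
  rw [← h1, ← h2]
  linear_combination (g.p * g.s - g.q * g.r) * he

theorem Gen.comap (hC : Fd K θ) (hC' : Fd Om θ) (hK : K ≤ Om) (h : Mob K θ)
    (hx : Rat Om θ x) (hy : Rat Om θ y) (hne : x ≠ 0 ∨ y ≠ 0)
    (hg : Gen K Om θ (h.p * x + h.q * y) (h.r * x + h.s * y)) : Gen K Om θ x y := by
  obtain ⟨g, hgi⟩ := Mob.exists_inv hC h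
  have h1 := Gen.map hC hC' hK g (B3_rat hC'.cub hK h.hp h.hq hx hy)
    (B3_rat hC'.cub hK h.hr h.hs hx hy) (B3_ne hC h hne) hg
  rw [(hgi x y).1.1, (hgi x y).1.2] at h1
  exact h1

theorem Gen.toA (hC : Fd K θ) (hC' : Fd Om θ) (hK : K ≤ Om) (hx : Rat Om θ x)
    (hy : Rat Om θ y) (h0 : y ≠ 0) (hg : Gen K Om θ x y) : GenA K Om θ (x / y) := by
  intro L hKL hLO hxy
  have hyi := hC'.ne hy h0
  refine hg L hKL hLO (x / y) 1 hxy (Rat.const L.one_mem) (Or.inr one_ne_zero) ?_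
  funext i
  simp only [Pi.mul_apply, Pi.div_apply, Pi.one_apply, mul_one]
  exact (div_mul_cancel₀ _ (hyi i)).symm

theorem GenA.toGen (hC : Fd K θ) (hC' : Fd Om θ) (hK : K ≤ Om) (hx : Rat Om θ x)
    (hg : GenA K Om θ x) : Gen K Om θ x 1 := by
  intro L hKL hLO x' y' hx' hy' hne he
  rw [mul_one] at he
  have hL : Fd L θ := hC.down hC' hKL hLO
  have hy0 : y' ≠ 0 := by
    intro h1
    rw [h1, mul_zero] at he
    rcases hne with h2 | h2
    · exact h2 he.symm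
    · exact h2 h1
  have hyi := hL.ne hy' hy0
  have hxe : x = x' / y' := by
    funext i
    have h1 := congrFun he i
    simp only [Pi.mul_apply, Pi.div_apply] at h1 ⊢
    rw [eq_div_iff (hyi i), h1]
  refine hg L hKL hLO ?_
  rw [hxe]
  exact hL.div hx' hy'

end Pool.Agent.Helper16.C18.H
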