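import Pool.Agent.Helper64.C18.T1

set_option autoImplicit false

/-! Project C18: purely transcendental extensions are algebraically closed (offer C18-T2) -/

namespace Pool.Agent.Helper16.C18.H

variable {A : Type*} [Field A] [CharZero A] {K C Om E : Subfield A}

/-- elements of a rational function field which are algebraic over the constants are constants -/
private theorem T2_const {k : Type*} [Field k] {g : FractionRing (MvPolynomial (Fin 2) k)}
    (hg : IsAlgebraic k g) : ∃ a : k, g = algebraMap k _ a := by
  have key : ∀ f : FractionRing (MvPolynomial (Fin 2) k), IsAlgebraic k f →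
      ∃ p : MvPolynomial (Fin 2) k, algebraMap _ _ p = f := by
    intro f hf
    have h1 : IsIntegral k f := hf.isIntegral
    have h2 : IsIntegral (MvPolynomial (Fin 2) k) f := h1.tower_top
    exact IsIntegrallyClosed.isIntegral_iff.1 h2
  by_cases h0 : g = 0
  · exact ⟨0, by rw [h0, map_zero]⟩
  · obtain ⟨p, hp⟩ := key g hg
    obtain ⟨q, hq⟩ := key g⁻¹ (IsAlgebraic.inv hg)
    have inj := IsFractionRing.injective (MvPolynomial (Fin 2) k)
      (FractionRing (MvPolynomial (Fin 2) k))
    have h1 : p * q = 1 := by
      apply inj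
      rw [map_mul, hp, hq, mul_inv_cancel₀ h0, map_one]
    have h2 : IsUnit p := IsUnit.of_mul_eq_one _ h1
    obtain ⟨r, hr, e1⟩ := (MvPolynomial.isUnit_iff_eq_C_of_isReduced).1 h2
    refine ⟨r, ?_⟩
    rw [← hp, e1, IsScalarTower.algebraMap_apply k (MvPolynomial (Fin 2) k)]
    rfl

/-- a field is algebraically closed in a purely transcendental extension -/
theorem mem_of_isAlgebraic {x0 x1 z : A} (h : AlgebraicIndependent C ![x0, x1])
    (hz : z ∈ ad C {x0, x1}) (ha : IsAlgebraic C z) : z ∈ C := by
  classical
  let R := MvPolynomial (Fin 2) C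
  let Q := FractionRing R
  have hinj : Function.Injective (MvPolynomial.aeval ![x0, x1] : R →ₐ[C] A) := h
  let φ : Q →ₐ[C] A := IsFractionRing.liftAlgHom (K := Q) hinj
  have hφ : ∀ r : R, φ (algebraMap R Q r) = MvPolynomial.aeval ![x0, x1] r := fun r =>
    IsFractionRing.lift_algebraMap (g := (MvPolynomial.aeval ![x0, x1] : R →ₐ[C] A).toRingHom)
      hinj r
  have hrange : ad C {x0, x1} ≤ φ.toRingHom.fieldRange := by
    apply ad_le
    · intro c hc
      exact ⟨algebraMap C Q ⟨c, hc⟩, φ.commutes ⟨c, hc⟩⟩
    · rintro y (rfl | rfl)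
      · exact ⟨algebraMap R Q (MvPolynomial.X 0), by
          change φ _ = _
          rw [hφ]; simp⟩
      · exact ⟨algebraMap R Q (MvPolynomial.X 1), by
          change φ _ = _
          rw [hφ]; simp⟩
  obtain ⟨g, hg⟩ := hrange hz
  have hg' : φ g = z := hg
  have halg : IsAlgebraic C g := by
    rw [← hg'] at ha
    exact (isAlgebraic_algHom_iff φ φ.toRingHom.injective).1 ha
  obtain ⟨a, rfl⟩ := T2_const halg
  rw [← hg', φ.commutes]
  exact a.2

end Pool.Agent.Helper16.C18.H
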