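import Pool.Agent.Helper64.C18.NF
import Pool.Agent.Helper64.C18.T2
import Pool.Agent.Helper16.C18.AC

set_option autoImplicit false

/-! Project C18: `K` is algebraically closed in the function field of `W` (offer C18-CL) -/

/-!
`normal_form` for `Θ'`.  (1) norm form: `N (ξ + m) = 0`, so `ξ = -m` by `Fd Om ϑ`, so `Om ≤ K` by `hg`,
against `htr`.  (2) double point: the point `(x : y) = h⁻¹ (ξ, 1)` (`Gen.comap`, `GenA.toGen`) has `y ≠ 0`
(otherwise it is the point `(1 : 0)` over `K`), `X = x / y` generates `Om` (`Gen.toA`) and satisfies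
`1 + T (m X) = 0` (divide by `N y`): a nontrivial linear relation over `K` between the three
coordinates of `X`, so `Om = ad K {s0, s1}` with two of them, independent by `Tr2.indep`
(`C = K`), and `mem_of_isAlgebraic` applies.  (3) normal form `nf n c`: the point `h⁻¹ (ξ, 1)` has `y ≠ 0`,
`X = x / y` satisfies `nf n c X = 0` and generates `Om`, use `ac`.
-/

namespace Pool.Agent.Helper16.C18.H

variable {A : Type*} [Field A] [CharZero A] {K Om : Subfield A} {ϑ ξ : Fin 3 → A}
  {Θ' : Cube A}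

theorem core_closed [IsAlgClosed A] (hK : K ≤ Om) (htr : Tr2 K Om) (hϑ : Fd K ϑ)
    (hϑO : Fd Om ϑ) (hY : Θ'.Over K ϑ) (hd : Θ'.d ≠ 0) (hξ : Rat Om ϑ ξ)
    (h0 : Θ'.ev ξ 1 = 0) (hg : GenA K Om ϑ ξ) {z : A} (hz : z ∈ Om) (ha : IsAlgebraic K z) :
    z ∈ K := by
  have hnK : ¬ Om ≤ K := fun h => htr.not_one (C := K) (x0 := 0) le_rfl
    (fun w hw => isAlgebraic_algebraMap (⟨w, hw⟩ : K)) fun w hw =>
      isAlgebraic_algebraMap (⟨w, le_ad K _ (h hw)⟩ : ad K {(0 : A)})
  have hG1 : Gen K Om ϑ ξ 1 := GenA.toGen hϑ hϑO hK hξ hg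
  have hP1 : Pt Θ' Om ϑ ξ 1 := ⟨hξ, Rat.const Om.one_mem, Or.inr one_ne_zero, h0⟩
  -- pull back by a transformation to an affine generating point
  have back : ∀ h : Mob K ϑ, ∃ X : Fin 3 → A, Rat Om ϑ X ∧ (h.act Θ').ev X 1 = 0 ∧
      GenA K Om ϑ X := by
    intro h
    obtain ⟨x', y', hp', ex, ey⟩ := Pt.comap hϑ hϑO hK h hP1
    have hg' : Gen K Om ϑ x' y' := by
      refine Gen.comap hϑ hϑO hK h hp'.hx hp'.hy hp'.ne ?_
      rw [ex, ey]
      exact hG1
    have hy' : y' ≠ 0 := by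
      intro h1
      apply hnK
      refine hg' K le_rfl hK 1 0 (Rat.const K.one_mem) (Rat.const K.zero_mem)
        (Or.inl one_ne_zero) ?_
      rw [h1, mul_zero, mul_zero]
    have hyi := hϑO.ne hp'.hy hy'
    have hX' : Rat Om ϑ (x' / y') := hϑO.div hp'.hx hp'.hy
    refine ⟨x' / y', hX', ?_, Gen.toA hϑ hϑO hK hp'.hx hp'.hy hy' hg'⟩
    have hp2 : Pt (h.act Θ') Om ϑ (x' / y') 1 := by
      refine hp'.congr hϑO hX' (Rat.const Om.one_mem) (Or.inr one_ne_zero) ?_
      funext i
      simp only [Pi.mul_apply, Pi.div_apply, Pi.one_apply, mul_one]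
      exact (div_mul_cancel₀ _ (hyi i)).symm
    exact hp2.ev
  rcases normal_form hϑ hY hd with ⟨m, hm, e⟩ | ⟨h, k, m, hk, hk0, hm, hm0, e⟩ |
    ⟨h, k, n, c, hk, hk0, hn, hc, hn0, hD, e⟩
  · -- norm form
    exfalso
    rw [e] at h0
    have h1 : N (ξ + m * 1) = 0 := (mul_eq_zero.1 h0).resolve_left hd
    have h2 : Rat Om ϑ (ξ + m * 1) := by
      rw [mul_one]
      exact hξ.add (hm.mono hK)
    have h3 : ξ + m * 1 = 0 := by
      by_contra h4
      exact hϑO.N_ne h2 h4 h1
    have h4 : ξ = -m := by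
      rw [mul_one] at h3
      exact eq_neg_of_add_eq_zero_left h3
    exact hnK (hg K le_rfl hK (by rw [h4]; exact hm.neg))
  · -- double point
    obtain ⟨X, hXr, hX0, hXg⟩ := back h
    rw [Mob.act_ev, e] at hX0
    have h1 : 1 + T (m * X) = 0 := by
      have h2 := (mul_eq_zero.1 hX0).resolve_left hk0
      rw [← h2]
      simp only [N, T, sh, Pi.mul_apply, Pi.one_apply, Matrix.cons_val_zero,
        Matrix.cons_val_one, Matrix.cons_val]
      ring
    obtain ⟨a, ha', b, hb, d, hd', eX⟩ := hXr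
    have m0 : T m ∈ K := hm.T_mem hϑ.cub
    have m1 : T (fun j => m j * ϑ j) ∈ K := (Rat.mul hϑ.cub hm Rat.self).T_mem hϑ.cub
    have m2 : T (fun j => m j * ϑ j ^ 2) ∈ K :=
      (Rat.mul hϑ.cub hm (Rat.self.pow hϑ.cub 2)).T_mem hϑ.cub
    have rel : 1 + a * T m + b * T (fun j => m j * ϑ j) + d * T (fun j => m j * ϑ j ^ 2) = 0 := by
      rw [← h1]
      simp only [T, Pi.mul_apply, eX]
      ring
    have fin : ∀ s0 s1 : A, a ∈ ad K {s0, s1} → b ∈ ad K {s0, s1} →
        d ∈ ad K {s0, s1} → s0 ∈ Om → s1 ∈ Om → z ∈ K := by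
      intro s0 s1 ha'' hb' hd'' hs0 hs1
      have hle : ad K {s0, s1} ≤ Om := ad_le hK (by
        rintro z (rfl | hz)
        · exact hs0
        · rw [Set.mem_singleton_iff.1 hz]
          exact hs1)
      have hO : Om ≤ ad K {s0, s1} := hXg _ (le_ad K _) hle ⟨a, ha'', b, hb', d, hd'', eX⟩
      have hi : AlgebraicIndependent K ![s0, s1] := htr.indep (C := K) le_rfl
        (fun w hw => isAlgebraic_algebraMap (⟨w, hw⟩ : K)) hO
      exact mem_of_isAlgebraic hi (hO hz) ha
    by_cases t0 : T m = 0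
    · by_cases t1 : T (fun j => m j * ϑ j) = 0
      · have t2 : T (fun j => m j * ϑ j ^ 2) ≠ 0 := by
          intro t2
          rw [t0, t1, t2] at rel
          simp at rel
        refine fin a b (mem_ad (Or.inl rfl)) (mem_ad (Or.inr rfl)) ?_ ha' hb
        have : d = -(1 + a * T m + b * T (fun j => m j * ϑ j)) / T (fun j => m j * ϑ j ^ 2) := by
          rw [eq_div_iff t2]
          linear_combination rel
        rw [this]
        have ka : a ∈ ad K {a, b} := mem_ad (Or.inl rfl)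
        have kb : b ∈ ad K {a, b} := mem_ad (Or.inr rfl)
        exact div_mem (neg_mem (add_mem (add_mem (one_mem _) (mul_mem ka (le_ad K _ m0)))
          (mul_mem kb (le_ad K _ m1)))) (le_ad K _ m2)
      · refine fin a d (mem_ad (Or.inl rfl)) ?_ (mem_ad (Or.inr rfl)) ha' hd'
        have : b = -(1 + a * T m + d * T (fun j => m j * ϑ j ^ 2)) / T (fun j => m j * ϑ j) := by
          rw [eq_div_iff t1]
          linear_combination rel
        rw [this]
        have ka : a ∈ ad K {a, d} := mem_ad (Or.inl rfl)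
        have kd : d ∈ ad K {a, d} := mem_ad (Or.inr rfl)
        exact div_mem (neg_mem (add_mem (add_mem (one_mem _) (mul_mem ka (le_ad K _ m0)))
          (mul_mem kd (le_ad K _ m2)))) (le_ad K _ m1)
    · refine fin b d ?_ (mem_ad (Or.inl rfl)) (mem_ad (Or.inr rfl)) hb hd'
      have : a = -(1 + b * T (fun j => m j * ϑ j) + d * T (fun j => m j * ϑ j ^ 2)) / T m := by
        rw [eq_div_iff t0]
        linear_combination rel
      rw [this]
      have kb : b ∈ ad K {b, d} := mem_ad (Or.inl rfl)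
      have kd : d ∈ ad K {b, d} := mem_ad (Or.inr rfl)
      exact div_mem (neg_mem (add_mem (add_mem (one_mem _) (mul_mem kb (le_ad K _ m1)))
        (mul_mem kd (le_ad K _ m2)))) (le_ad K _ m0)
  · -- normal form
    obtain ⟨X, hXr, hX0', hXg⟩ := back h
    have hX0 : nf n c X = 0 := by
      rw [Mob.act_ev, e] at hX0'
      have h2 := (mul_eq_zero.1 hX0').resolve_left hk0
      rw [← h2]
      simp only [nf, N, T, sh, Pi.mul_apply, Pi.one_apply, Matrix.cons_val_zero,
        Matrix.cons_val_one, Matrix.cons_val]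
      ring
    exact ac hK hϑ hn hc hn0 hXr hX0 hXg htr hz ha

end Pool.Agent.Helper16.C18.H
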