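import Pool.Agent.Helper64.C18.B1

set_option autoImplicit false

/-! Project C18: transcendence degree (offer C18-T1) -/

/-!
`ad K S` is the subfield generated by `K` and `S`; `K : Subfield A` is used as the base ring of `A`
(the instance `Algebra K A`).  Use the Mathlib theory: `IsAlgebraic`, `IntermediateField.adjoin K S`
(its underlying subfield is `ad K S`), `algebraicClosure K A`, `Algebra.trdeg`,
`AlgebraicIndependent`, `IsTranscendenceBasis`.  For `Tr2.indep`: if `x0, x1` were dependent over `C`,
one of them is algebraic over `C` adjoined the other (or both algebraic over `C`), hence over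
`K(x)` for one element `x`; then `s0, s1` are algebraic over `K(x)`, contradiction to their
independence over `K` (exchange lemma, or `trdeg`).  It may be convenient to prove `Tr2.not_one`
first.  Dependence of `![x0, x1]` over `C` means dependence over `K` up to algebraic elements:
`AlgebraicIndependent` over `K` implies it over the algebraic extension `C`
(compare transcendence degrees, or a norm argument).
-/

namespace Pool.Agent.Helper16.C18.H

variable {A : Type*} [Field A] [CharZero A] {K C Om E : Subfield A}

theorem le_ad (K : Subfield A) (S : Set A) : K ≤ ad K S :=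
  fun _ hx => Subfield.subset_closure (Or.inl hx)

theorem mem_ad {K : Subfield A} {S : Set A} {x : A} (hx : x ∈ S) : x ∈ ad K S :=
  Subfield.subset_closure (Or.inr hx)

theorem ad_le {S : Set A} (hK : K ≤ E) (hS : S ⊆ E) : ad K S ≤ E := by
  rw [ad, Subfield.closure_le]
  exact Set.union_subset hK hS

/-- adjoining algebraic elements gives an algebraic extension -/
theorem algOver_ad {S : Set A} (h : ∀ x ∈ S, IsAlgebraic K x) : AlgOver K (ad K S) := by
  intro x hx
  rw [ad] at hx
  induction hx using Subfield.closure_induction with
  | mem x hx =>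
    rcases hx with hx | hx
    · exact isAlgebraic_algebraMap (A := A) (⟨x, hx⟩ : K)
    · exact h x hx
  | one => exact isAlgebraic_one
  | add x y _ _ hx hy => exact hx.add hy
  | neg x _ hx => exact hx.neg
  | inv x _ hx => exact hx.inv
  | mul x y _ _ hx hy => exact hx.mul hy

omit [CharZero A] in
/-- the extension `C` of `K` is algebraic if all its elements are algebraic over `K` -/
private theorem T1_restrict (h : AlgOver K C) (hKC : K ≤ C) {x : A} (hx : IsAlgebraic C x) :
    IsAlgebraic K x := by
  let _ : Algebra K C := (Subfield.inclusion hKC).toAlgebra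
  have _ : IsScalarTower K C A := .of_algebraMap_eq fun _ => rfl
  have _ : Algebra.IsAlgebraic K C := ⟨fun c =>
    (isAlgebraic_algebraMap_iff (algebraMap C A).injective).mp (h c c.2)⟩
  exact hx.restrictScalars K

omit [CharZero A] in
private theorem T1_extend (hKC : K ≤ C) {x : A} (hx : IsAlgebraic K x) : IsAlgebraic C x := by
  let _ : Algebra K C := (Subfield.inclusion hKC).toAlgebra
  have _ : IsScalarTower K C A := .of_algebraMap_eq fun _ => rfl
  exact hx.tower_top C

omit [CharZero A] in
private theorem T1_indep_extend (h : AlgOver K C) (hKC : K ≤ C) {ι : Type} {v : ι → A}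
    (hv : AlgebraicIndependent K v) : AlgebraicIndependent C v := by
  let _ : Algebra K C := (Subfield.inclusion hKC).toAlgebra
  have _ : IsScalarTower K C A := .of_algebraMap_eq fun _ => rfl
  have _ : Algebra.IsAlgebraic K C := ⟨fun c =>
    (isAlgebraic_algebraMap_iff (algebraMap C A).injective).mp (h c c.2)⟩
  exact hv.extendScalars C

omit [CharZero A] in
/-- elements algebraic over `ad C S` are algebraic over the ring generated by `K` and `S` -/
private theorem T1_closure (h : AlgOver K C) (hKC : K ≤ C) {S : Set A} {z : A}
    (hz : IsAlgebraic (ad C S) z) : z ∈ (AlgebraicIndependent.matroid K A).closure S := by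
  have hmem : ∀ y ∈ ad C S, IsAlgebraic (Algebra.adjoin K S) y := by
    intro y hy
    rw [ad] at hy
    induction hy using Subfield.closure_induction with
    | mem x hx =>
      rcases hx with hx | hx
      · exact (h x hx).extendScalars (FaithfulSMul.algebraMap_injective K (Algebra.adjoin K S))
      · exact isAlgebraic_algebraMap (A := A)
          (⟨x, Algebra.subset_adjoin hx⟩ : Algebra.adjoin K S)
    | one => exact isAlgebraic_one
    | add x y _ _ hx hy => exact hx.add hy
    | neg x _ hx => exact hx.neg
    | inv x _ hx => exact hx.inv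
    | mul x y _ _ hx hy => exact hx.mul hy
  have hle : ∀ y : Algebra.adjoin K S, (Algebra.adjoin K S).val.toRingHom y ∈ ad C S := by
    rintro ⟨y, hy⟩
    show y ∈ ad C S
    induction hy using Algebra.adjoin_induction with
    | mem x hx => exact Subfield.subset_closure (Or.inr hx)
    | algebraMap r => exact Subfield.subset_closure (Or.inl (hKC r.2))
    | add x y _ _ hx hy => exact (ad C S).add_mem hx hy
    | mul x y _ _ hx hy => exact (ad C S).mul_mem hx hy
  let _ : Algebra (Algebra.adjoin K S) (ad C S) :=
    (RingHom.codRestrict (Algebra.adjoin K S).val.toRingHom (ad C S) hle).toAlgebra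
  have _ : IsScalarTower (Algebra.adjoin K S) (ad C S) A := .of_algebraMap_eq fun _ => rfl
  have _ : Algebra.IsAlgebraic (Algebra.adjoin K S) (ad C S) := ⟨fun c =>
    (isAlgebraic_algebraMap_iff (algebraMap (ad C S) A).injective).mp (hmem c c.2)⟩
  rw [AlgebraicIndependent.matroid_closure_eq]
  exact hz.restrictScalars (Algebra.adjoin K S)

omit [CharZero A] in
private theorem T1_rank (h : AlgOver K C) (hKC : K ≤ C) {S : Set A} {v : Fin 2 → A}
    (hv : AlgebraicIndependent K v) (hz : ∀ i, IsAlgebraic (ad C S) (v i)) :
    2 ≤ (AlgebraicIndependent.matroid K A).eRk S := by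
  have h1 : (AlgebraicIndependent.matroid K A).Indep (Set.range v) :=
    AlgebraicIndependent.matroid_indep_iff.mpr hv.to_subtype_range
  have h2 : (Set.range v).encard = 2 := by
    rw [← Set.image_univ, hv.injective.injOn.encard_image, Set.encard_univ]
    simp
  have h3 : Set.range v ⊆ (AlgebraicIndependent.matroid K A).closure S := by
    rintro _ ⟨i, rfl⟩
    exact T1_closure h hKC (hz i)
  calc (2 : ℕ∞) = (AlgebraicIndependent.matroid K A).eRk (Set.range v) := by
        rw [h1.eRk_eq_encard, h2]
    _ ≤ (AlgebraicIndependent.matroid K A).eRk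
        ((AlgebraicIndependent.matroid K A).closure S) := Matroid.eRk_mono _ h3
    _ = (AlgebraicIndependent.matroid K A).eRk S := Matroid.eRk_closure_eq _ _

theorem AlgOver.trans (h : AlgOver K C) (hKC : K ≤ C) (h' : AlgOver C E) : AlgOver K E := by
  intro x hx
  exact T1_restrict h hKC (h' x hx)

theorem AlgOver.mono (h : AlgOver K C) (hK : K ≤ E) : AlgOver E C := by
  intro x hx
  exact T1_extend hK (h x hx)

/-- two generators of a field of transcendence degree two are independent, also over an algebraic
extension of the base -/
theorem Tr2.indep (h : Tr2 K Om) (hKC : K ≤ C) (hC : AlgOver K C) {x0 x1 : A}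
    (hO : Om ≤ ad C {x0, x1}) : AlgebraicIndependent C ![x0, x1] := by
  obtain ⟨s0, h0, s1, h1, hs⟩ := h
  have hr : Set.range ![x0, x1] = {x0, x1} := by
    simp [Set.pair_comm]
  have h2 : 2 ≤ (AlgebraicIndependent.matroid K A).eRk (Set.range ![x0, x1]) := by
    rw [hr]
    refine T1_rank hC hKC hs fun i => ?_
    fin_cases i
    · exact isAlgebraic_algebraMap (A := A) (⟨s0, hO h0⟩ : ad C {x0, x1})
    · exact isAlgebraic_algebraMap (A := A) (⟨s1, hO h1⟩ : ad C {x0, x1})
  have h3 : (Set.range ![x0, x1]).encard ≤ 2 := by
    rw [hr]
    refine (Set.encard_insert_le _ _).trans ?_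
    rw [Set.encard_singleton]
    norm_num
  have h4 : (AlgebraicIndependent.matroid K A).eRk (Set.range ![x0, x1]) =
      (Set.range ![x0, x1]).encard :=
    le_antisymm (Matroid.eRk_le_encard _ _) (h3.trans h2)
  have h5 : (AlgebraicIndependent.matroid K A).Indep (Set.range ![x0, x1]) :=
    (Matroid.indep_iff_eRk_eq_encard_of_finite (Set.finite_range _)).mpr h4
  have hne : x0 ≠ x1 := by
    rintro rfl
    have h6 : (Set.range ![x0, x0]).encard = 1 := by
      rw [hr, Set.pair_eq_singleton, Set.encard_singleton]
    rw [h4, h6] at h2
    exact absurd h2 (by norm_num)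
  have hinj : Function.Injective ![x0, x1] := by
    intro i j hij
    fin_cases i <;> fin_cases j <;> simp_all
  apply T1_indep_extend hC hKC
  rw [← algebraicIndependent_subtype_range hinj]
  exact AlgebraicIndependent.matroid_indep_iff.mp h5

/-- `Om` is not algebraic over the field generated by one element -/
theorem Tr2.not_one (h : Tr2 K Om) (hKC : K ≤ C) (hC : AlgOver K C) {x0 : A}
    (hO : ∀ z ∈ Om, IsAlgebraic (ad C {x0}) z) : False := by
  obtain ⟨s0, h0, s1, h1, hs⟩ := h
  have h2 : 2 ≤ (AlgebraicIndependent.matroid K A).eRk {x0} := by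
    refine T1_rank hC hKC hs fun i => ?_
    fin_cases i
    · exact hO s0 h0
    · exact hO s1 h1
  have h3 : (AlgebraicIndependent.matroid K A).eRk {x0} ≤ 1 :=
    (Matroid.eRk_le_encard _ _).trans (Set.encard_singleton x0).le
  exact absurd (h2.trans h3) (by norm_num)

end Pool.Agent.Helper16.C18.H
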