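import Pool.Agent.Helper64.C18.Q2
import Pool.Agent.Helper64.C18.T1

set_option autoImplicit false

/-! Project C18: comparison, quadratic descents (offer C18-CP2) -/

/-!
`z = (c + δ) / (c - δ)`, `z2 = (c2 + δ2) / (c2 - δ2)`; note that `δ ↦ -δ` replaces `z` by `1 / z`.
`cp2`: let `K2 = qext K δ2`.
(i) `δ ∉ K2`.  `ad K {δ, δ2} = qext K2 δ`, write the element as `p + r δ` with `p, r` in `K2[θ]`
(`rat_qext`); `N (p + r δ) = z2 / z` and the conjugate is `N (p - r δ) = z2 * z` (`N_conj'`: write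
`z2 / z = s + t δ` with `s, t ∈ K2`, then `s - t δ = z2 * z`).  So `N ((p + r δ) (p - r δ)) = z2 ^ 2` and
`z2 = N (z2 / ((p + r δ) (p - r δ)))` (see also `Nm.of_sq`).
(ii) `δ ∈ K2`: `δ = s + t δ2`; squaring, `s t = 0` if `δ2 ∉ K` (characteristic not two), and `s = 0` is
excluded by `δ δ2 ∉ K`, so `δ ∈ K`; if `δ2 ∈ K` then `K2 = K`, `δ ∈ K`, contradiction.  So `δ ∈ K`,
`δ2 ∉ K`, `ad K {δ, δ2} = K2`, the element is `v = p + r δ2`, with conjugate `v' = p - r δ2`,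
`N v = z2 / z`, `N v' = 1 / (z2 z)`, `N (v / v') = z2 ^ 2`, `Nm.of_sq`.
`cp3`: `ad K {δ, δ2} = qext (qext K δ2) δ`, so `z2` is a norm from `(qext K δ2)[θ]` (`Nm.descend`), so
`nf n2 c2` has a point over `qext K δ2` (`nf_of_w` with `e = (c2 + δ2) / 2`, `e' = (c2 - δ2) / 2`), so over
`K` (`nf_descend`).
-/

namespace Pool.Agent.Helper16.C18.H

variable {A : Type*} [Field A] [CharZero A] {K : Subfield A} {θ : Fin 3 → A}
  {n c δ n2 c2 δ2 : A}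

private theorem CP2_ad (h2 : δ2 ^ 2 ∈ K) (h1 : δ ^ 2 ∈ qext K δ2 h2) :
    ad K {δ, δ2} = qext (qext K δ2 h2) δ h1 := by
  apply le_antisymm
  · refine ad_le (le_qext.trans le_qext) ?_
    rintro z hz
    rcases hz with rfl | hz
    · exact self_mem_qext
    · rw [Set.mem_singleton_iff.1 hz]
      exact le_qext self_mem_qext
  · refine qext_le (qext_le (le_ad K _) (mem_ad ?_)) (mem_ad ?_)
    · exact Or.inr rfl
    · exact Or.inl rfl

private theorem CP2_ne (hn0 : n ≠ 0) (hδ : δ ^ 2 = c ^ 2 + 4 * n) : c + δ ≠ 0 ∧ c - δ ≠ 0 := by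
  have h : (c + δ) * (c - δ) = -4 * n := by linear_combination -hδ
  have h0 : (c + δ) * (c - δ) ≠ 0 := by
    rw [h]
    exact mul_ne_zero (by norm_num) hn0
  exact ⟨left_ne_zero_of_mul h0, right_ne_zero_of_mul h0⟩

private theorem CP2_z_mem (hc : c ∈ K) (h : δ ^ 2 ∈ K) :
    (c + δ) / (c - δ) ∈ qext K δ h :=
  (qext K δ h).div_mem ((qext K δ h).add_mem (le_qext hc) self_mem_qext)
    ((qext K δ h).sub_mem (le_qext hc) self_mem_qext)

theorem cp2 (hθ : Fd K θ)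
    (hn : n ∈ K) (hc : c ∈ K) (hn0 : n ≠ 0) (hδ : δ ^ 2 = c ^ 2 + 4 * n) (hδ0 : δ ≠ 0)
    (hn2 : n2 ∈ K) (hc2 : c2 ∈ K) (hn20 : n2 ≠ 0) (hδ2 : δ2 ^ 2 = c2 ^ 2 + 4 * n2)
    (hδ20 : δ2 ≠ 0) (hdd : δ * δ2 ∉ K)
    (hN : Nm (ad K {δ, δ2}) θ ((c2 + δ2) / (c2 - δ2) / ((c + δ) / (c - δ)))) :
    Nm (ad K {δ, δ2}) θ ((c2 + δ2) / (c2 - δ2)) := by
  have hs : δ ^ 2 ∈ K := by
    rw [hδ]
    exact K.add_mem (K.pow_mem hc 2) (K.mul_mem (ofNat_mem K 4) hn)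
  have hs2 : δ2 ^ 2 ∈ K := by
    rw [hδ2]
    exact K.add_mem (K.pow_mem hc2 2) (K.mul_mem (ofNat_mem K 4) hn2)
  obtain ⟨a1, a2⟩ := CP2_ne hn0 hδ
  obtain ⟨b1, b2⟩ := CP2_ne hn20 hδ2
  have hn' : n = (δ ^ 2 - c ^ 2) / 4 := by
    rw [hδ]
    ring
  have hn2' : n2 = (δ2 ^ 2 - c2 ^ 2) / 4 := by
    rw [hδ2]
    ring
  have e1 : ((c + δ) / (c - δ))⁻¹ = (c - δ) ^ 2 / (-4 * n) := by
    have h : (c + δ) * (c - δ) = -4 * n := by linear_combination -hδ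
    rw [← h]
    field_simp
  have e2 : (c + δ) / (c - δ) = (c + δ) ^ 2 / (-4 * n) := by
    have h : (c + δ) * (c - δ) = -4 * n := by linear_combination -hδ
    rw [← h]
    field_simp
  have f1 : ((c2 + δ2) / (c2 - δ2))⁻¹ = (c2 - δ2) ^ 2 / (-4 * n2) := by
    have h : (c2 + δ2) * (c2 - δ2) = -4 * n2 := by linear_combination -hδ2
    rw [← h]
    field_simp
  have f2 : (c2 + δ2) / (c2 - δ2) = (c2 + δ2) ^ 2 / (-4 * n2) := by
    have h : (c2 + δ2) * (c2 - δ2) = -4 * n2 := by linear_combination -hδ2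
    rw [← h]
    field_simp
  have hz2 := CP2_z_mem hc2 hs2
  have hK2 : Cub (qext K δ2 hs2) θ := hθ.cub.mono le_qext
  have hK2ad : qext K δ2 hs2 ≤ ad K {δ, δ2} :=
    qext_le (le_ad K _) (mem_ad (Or.inr rfl))
  by_cases hd : δ ∈ qext K δ2 hs2
  · -- the second case
    have hd2 : δ2 ∉ K := by
      intro h
      exact hdd (K.mul_mem (qext_le le_rfl h hd) h)
    have hdK : δ ∈ K := by
      obtain ⟨s, hs', t, ht, e⟩ := hd
      have m1 : s ^ 2 + t ^ 2 * δ2 ^ 2 - δ ^ 2 ∈ K :=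
        K.sub_mem (K.add_mem (K.pow_mem hs' 2) (K.mul_mem (K.pow_mem ht 2) hs2)) hs
      have m2 : 2 * s * t ∈ K := K.mul_mem (K.mul_mem (ofNat_mem K 2) hs') ht
      obtain ⟨_, g⟩ := qext_coords hd2 m1 m2 (by rw [e]; ring)
      rcases mul_eq_zero.1 g with g1 | g1
      · exfalso
        have g2 : s = 0 := (mul_eq_zero.1 g1).resolve_left two_ne_zero
        apply hdd
        rw [e, g2]
        have : (0 + t * δ2) * δ2 = t * δ2 ^ 2 := by ring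
        rw [this]
        exact K.mul_mem ht hs2
      · rw [e, g1]
        simpa using hs'
    have hle : ad K {δ, δ2} ≤ qext K δ2 hs2 := by
      refine ad_le le_qext ?_
      rintro z hz
      rcases hz with rfl | hz
      · exact le_qext hdK
      · rw [Set.mem_singleton_iff.1 hz]
        exact self_mem_qext
    obtain ⟨v, hv, hNv⟩ := hN.mono hle
    obtain ⟨p, r, hp, hr, hve⟩ := rat_qext.1 hv
    have hzK : ((c + δ) / (c - δ))⁻¹ ∈ K :=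
      K.inv_mem (K.div_mem (K.add_mem hc hdK) (K.sub_mem hc hdK))
    have m1 : ((c + δ) / (c - δ))⁻¹ * ((c2 ^ 2 + δ2 ^ 2) / (-4 * n2)) ∈ K :=
      K.mul_mem hzK (K.div_mem (K.add_mem (K.pow_mem hc2 2) hs2)
        (K.mul_mem (K.neg_mem (ofNat_mem K 4)) hn2))
    have m2 : ((c + δ) / (c - δ))⁻¹ * ((2 * c2) / (-4 * n2)) ∈ K :=
      K.mul_mem hzK (K.div_mem (K.mul_mem (ofNat_mem K 2) hc2)
        (K.mul_mem (K.neg_mem (ofNat_mem K 4)) hn2))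
    have g1 : N (fun j => p j + r j * δ2) =
        ((c + δ) / (c - δ))⁻¹ * ((c2 ^ 2 + δ2 ^ 2) / (-4 * n2)) +
          ((c + δ) / (c - δ))⁻¹ * ((2 * c2) / (-4 * n2)) * δ2 := by
      rw [← funext hve, hNv, div_eq_mul_inv ((c2 + δ2) / (c2 - δ2)), f2]
      ring
    have g2 := N_conj' hθ.cub hp hr hs2 hd2 m1 m2 g1
    have g3 : N (fun j => p j - r j * δ2) =
        ((c + δ) / (c - δ))⁻¹ * ((c2 + δ2) / (c2 - δ2))⁻¹ := by
      rw [g2, f1]
      ring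
    have hv' : Nm (qext K δ2 hs2) θ (((c + δ) / (c - δ))⁻¹ * ((c2 + δ2) / (c2 - δ2))⁻¹) := by
      refine ⟨fun j => p j - r j * δ2, ?_, g3⟩
      refine (hp.mono le_qext).sub ?_
      have h5 := Rat.smul (self_mem_qext (L := K) (s := δ2) (hs := hs2)) (hr.mono le_qext)
      have h6 : (fun j => r j * δ2) = fun j => δ2 * r j := by
        funext j
        ring
      rw [h6]
      exact h5
    have h7 := (show Nm (qext K δ2 hs2) θ _ from ⟨v, hv, hNv⟩).div hK2 hv'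
    have h8 : (c2 + δ2) / (c2 - δ2) / ((c + δ) / (c - δ)) /
        (((c + δ) / (c - δ))⁻¹ * ((c2 + δ2) / (c2 - δ2))⁻¹) =
        ((c2 + δ2) / (c2 - δ2)) ^ 2 := by
      field_simp
    rw [h8] at h7
    exact (Nm.of_sq hK2 hz2 h7).mono hK2ad
  · -- the first case
    have hsq : δ ^ 2 ∈ qext K δ2 hs2 := le_qext hs
    rw [CP2_ad hs2 hsq] at hN
    obtain ⟨v, hv, hNv⟩ := hN
    obtain ⟨p, r, hp, hr, hve⟩ := rat_qext.1 hv
    have q4 : (-4 * n) ∈ qext K δ2 hs2 :=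
      le_qext (K.mul_mem (K.neg_mem (ofNat_mem K 4)) hn)
    have m1 : (c2 + δ2) / (c2 - δ2) * ((c ^ 2 + δ ^ 2) / (-4 * n)) ∈ qext K δ2 hs2 :=
      Subfield.mul_mem _ hz2 (Subfield.div_mem _ (le_qext (K.add_mem (K.pow_mem hc 2) hs)) q4)
    have m2 : (c2 + δ2) / (c2 - δ2) * ((-2 * c) / (-4 * n)) ∈ qext K δ2 hs2 :=
      Subfield.mul_mem _ hz2 (Subfield.div_mem _
        (le_qext (K.mul_mem (K.neg_mem (ofNat_mem K 2)) hc)) q4)
    have g1 : N (fun j => p j + r j * δ) =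
        (c2 + δ2) / (c2 - δ2) * ((c ^ 2 + δ ^ 2) / (-4 * n)) +
          (c2 + δ2) / (c2 - δ2) * ((-2 * c) / (-4 * n)) * δ := by
      rw [← funext hve, hNv, div_eq_mul_inv ((c2 + δ2) / (c2 - δ2)), e1]
      ring
    have g2 := N_conj' hK2 hp hr hsq hd m1 m2 g1
    have g3 : N (fun j => p j - r j * δ) =
        (c2 + δ2) / (c2 - δ2) * ((c + δ) / (c - δ)) := by
      rw [g2, e2]
      ring
    have g4 : N (fun j => p j + r j * δ) =
        (c2 + δ2) / (c2 - δ2) / ((c + δ) / (c - δ)) := by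
      rw [← funext hve, hNv]
    have h7 : Nm (qext K δ2 hs2) θ (((c2 + δ2) / (c2 - δ2)) ^ 2) := by
      refine ⟨fun j => p j ^ 2 - δ ^ 2 * r j ^ 2,
        (hp.pow hK2 2).sub (Rat.smul hsq (hr.pow hK2 2)), ?_⟩
      have h8 : N (fun j => p j ^ 2 - δ ^ 2 * r j ^ 2)
          = N (fun j => p j + r j * δ) * N (fun j => p j - r j * δ) := by
        simp only [N]
        ring
      rw [h8, g3, g4]
      field_simp
    exact (Nm.of_sq hK2 hz2 h7).mono hK2ad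

theorem cp3 (hθ : Fd K θ) (hδ : δ ^ 2 ∈ K)
    (hn2 : n2 ∈ K) (hc2 : c2 ∈ K) (hn20 : n2 ≠ 0) (hδ2 : δ2 ^ 2 = c2 ^ 2 + 4 * n2)
    (hδ20 : δ2 ≠ 0) (hN : Nm (ad K {δ, δ2}) θ ((c2 + δ2) / (c2 - δ2))) :
    ∃ x, Rat K θ x ∧ nf n2 c2 x = 0 := by
  have hs2 : δ2 ^ 2 ∈ K := by
    rw [hδ2]
    exact K.add_mem (K.pow_mem hc2 2) (K.mul_mem (ofNat_mem K 4) hn2)
  obtain ⟨b1, b2⟩ := CP2_ne hn20 hδ2
  have hz2 := CP2_z_mem hc2 hs2
  have hK2 : Cub (qext K δ2 hs2) θ := hθ.cub.mono le_qext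
  have hF2 : Fd (qext K δ2 hs2) θ := ⟨hK2, noroot_qext hθ.cub hθ.nr⟩
  have hsq : δ ^ 2 ∈ qext K δ2 hs2 := le_qext hδ
  rw [CP2_ad hs2 hsq] at hN
  obtain ⟨v, hv, hNv⟩ := Nm.descend hK2 hz2 hN
  have h1 : (c2 + δ2) / 2 + (c2 - δ2) / 2 = c2 := by ring
  have h2 : (c2 + δ2) / 2 * ((c2 - δ2) / 2) = -n2 := by
    linear_combination (-1 / 4 : A) * hδ2
  have hne : (c2 + δ2) / 2 ≠ (c2 - δ2) / 2 := by
    intro h
    apply hδ20
    linear_combination h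
  have he : (c2 + δ2) / 2 ∈ qext K δ2 hs2 :=
    Subfield.div_mem _ (Subfield.add_mem _ (le_qext hc2) self_mem_qext)
      (le_qext (ofNat_mem K 2))
  have he' : (c2 - δ2) / 2 ∈ qext K δ2 hs2 :=
    Subfield.div_mem _ (Subfield.sub_mem _ (le_qext hc2) self_mem_qext)
      (le_qext (ofNat_mem K 2))
  have hNv' : N v = (c2 + δ2) / 2 / ((c2 - δ2) / 2) := by
    rw [hNv]
    field_simp
  obtain ⟨y, hy, hy0⟩ := nf_of_w hF2 hn20 h1 h2 he he' hne hv hNv'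
  exact nf_descend hθ hn2 hc2 hn20 h1 h2 hne hs2 hy hy0

end Pool.Agent.Helper16.C18.H
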