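import Pool.Agent.Helper64.C18.Q2
import Pool.Agent.Helper64.C18.T1

set_option autoImplicit false

/-! Project C18: comparison, the isomorphism (offer C18-CP4) -/

/-!
Put `e = (c + δ) / 2`, `e' = (c - δ) / 2`, `e2 = (c2 + δ2) / 2`, `e2' = (c2 - δ2) / 2`, `z = e / e'`,
`z2 = e2 / e2'`, `η = z2 / z`.  If `u` has norm `η` then `w ↦ u w` maps `N w = z` to `N w = z2`; in the
original coordinates `x = (e2' u (ξ + e) - e2 (ξ + e')) / ((ξ + e') - u (ξ + e))`, so `nf n2 c2 x = 0`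
by `nf_w`, `nf_id` (the denominator is not zero, else `ξ` is algebraic over `K`, against `hg`, `htr`).
(i) `δ ∈ K`, so `δ2 ∈ K`, `ad K {δ, δ2} = K` and `u` is in `K[θ]`.  `x` is a fractional linear function of
`ξ` with coefficients in `K[θ]`, nonzero determinant, so `GenA` is inherited.
(ii) `δ ∉ K`.  `ad K {δ, δ2} = qext K δ`, `δ2 = k δ` with `k ∈ K`.  Let `y = p + r δ` be the given element,
`N y = η`, `y' = p - r δ`; `N y' = 1 / η` (`N_conj'`: conjugation replaces `z` by `1 / z`, `z2` by `1 / z2`).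
`u = η y' / y` has norm `η`; put `g = e2 e' y'`, `g' = e2' e y` (conjugate), `u = g / g'`;
`x = (e2' g (ξ + e) - e2 g' (ξ + e')) / (g' (ξ + e') - g (ξ + e))`.  Write `e2' g = m1 + m2 δ`
(so `e2 g' = m1 - m2 δ`), `g = g1 + g2 δ`, `g' = g1 - g2 δ` with `m1, m2, g1, g2` in `K[θ]` and
`X = ξ + c / 2`: the numerator is `δ (2 m2 X + m1)`, the denominator `-δ (2 g2 X + g1)`, so
`x = -(2 m2 X + m1) / (2 g2 X + g1)` is defined over `Om`, with determinant
`2 δ (m2 g1 - m1 g2) = (e2' - e2) g g' ≠ 0`.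
`GenA`: if `Rat L θ x`, `K ≤ L ≤ Om`, then `ξ` is the inverse fractional linear function of `x`, so
`Rat L θ ξ` (`Fd L θ` by `Fd.down`).
-/

namespace Pool.Agent.Helper16.C18.H

variable {A : Type*} [Field A] [CharZero A] {K Om : Subfield A} {θ ξ : Fin 3 → A}
  {n c δ n2 c2 δ2 : A}

/-- fractional linear transformations over `K` preserve generators of `Om` -/
private theorem cp4_mob (hK : K ≤ Om) (hθ : Fd K θ) (hΩ : Fd Om θ) (htr : Tr2 K Om)
    (hξ : Rat Om θ ξ) (hg : GenA K Om θ ξ) {a b p q : Fin 3 → A} (ha : Rat K θ a)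
    (hb : Rat K θ b) (hp : Rat K θ p) (hq : Rat K θ q) (hdet : ∀ j, a j * q j - b j * p j ≠ 0) :
    (∀ j, p j * ξ j + q j ≠ 0) ∧ Rat Om θ (fun j => (a j * ξ j + b j) / (p j * ξ j + q j)) ∧
      GenA K Om θ (fun j => (a j * ξ j + b j) / (p j * ξ j + q j)) := by
  have hcubL : ∀ L : Subfield A, K ≤ L → Cub L θ := fun L hL => hθ.cub.mono hL
  have hden : ∀ j, p j * ξ j + q j ≠ 0 := by
    intro j hj
    have hR : Rat Om θ (fun j => p j * ξ j + q j) :=
      (Rat.mul hΩ.cub (hp.mono hK) hξ).add (hq.mono hK)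
    have hall : ∀ i, p i * ξ i + q i = 0 := by
      intro i
      by_contra hi
      exact Rat.ne_zero hΩ.cub hΩ.nr hR hi j hj
    have hp0 : ∀ i, p i ≠ 0 := by
      intro i hi
      have h1 : q i = 0 := by
        have := hall i
        rw [hi] at this
        simpa using this
      apply hdet i
      rw [hi, h1]
      ring
    have hξK : Rat K θ ξ := by
      have h1 : ξ = fun i => (-q i) / p i := by
        funext i
        rw [eq_div_iff (hp0 i)]
        linear_combination hall i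
      rw [h1]
      exact Rat.div hθ.cub hq.neg hp hp0
    have hO : Om ≤ K := hg K le_rfl hK hξK
    refine Tr2.not_one (x0 := (0 : A)) htr le_rfl
      (fun x hx => isAlgebraic_algebraMap (A := A) (⟨x, hx⟩ : K)) (fun z hz => ?_)
    exact isAlgebraic_algebraMap (A := A) (⟨z, le_ad K _ (hO hz)⟩ : ad K {0})
  refine ⟨hden, ?_, ?_⟩
  · exact Rat.div hΩ.cub ((Rat.mul hΩ.cub (ha.mono hK) hξ).add (hb.mono hK))
      ((Rat.mul hΩ.cub (hp.mono hK) hξ).add (hq.mono hK)) hden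
  · intro L hKL hLO hL
    apply hg L hKL hLO
    set x : Fin 3 → A := fun j => (a j * ξ j + b j) / (p j * ξ j + q j) with hx
    have hxe : ∀ j, x j * (p j * ξ j + q j) = a j * ξ j + b j := by
      intro j
      rw [hx]
      simp only
      rw [div_mul_cancel₀ _ (hden j)]
    have h1 : ∀ j, p j * x j - a j ≠ 0 := by
      intro j hj
      apply hdet j
      have h2 : b j - q j * x j = 0 := by linear_combination (-1 : A) * hxe j + ξ j * hj
      linear_combination (-q j) * hj - p j * h2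
    have h2 : ξ = fun j => (b j - q j * x j) / (p j * x j - a j) := by
      funext j
      rw [eq_div_iff (h1 j)]
      linear_combination hxe j
    rw [h2]
    exact Rat.div (hcubL L hKL) ((hb.mono hKL).sub (Rat.mul (hcubL L hKL) (hq.mono hKL) hL))
      ((Rat.mul (hcubL L hKL) (hp.mono hKL) hL).sub (ha.mono hKL)) h1

/-- the new point satisfies the equation -/
private theorem cp4_eq {e e' e2 e2' : A} {g g' : Fin 3 → A} (h1 : e + e' = c)
    (h2 : e * e' = -n) (h1' : e2 + e2' = c2) (h2' : e2 * e2' = -n2) (hne2 : e2 ≠ e2')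
    (hee : e * e' ≠ 0) (h0 : nf n c ξ = 0) (hN : (e2' * e) * N g = (e2 * e') * N g')
    (hd : ∀ j, g' j * (ξ j + e') - g j * (ξ j + e) ≠ 0) :
    nf n2 c2 (fun j => (e2' * (g j * (ξ j + e)) - e2 * (g' j * (ξ j + e'))) /
      (g' j * (ξ j + e') - g j * (ξ j + e))) = 0 := by
  set x : Fin 3 → A := fun j => (e2' * (g j * (ξ j + e)) - e2 * (g' j * (ξ j + e'))) /
      (g' j * (ξ j + e') - g j * (ξ j + e)) with hx
  have hid := nf_id ξ h1 h2
  rw [h0, mul_zero] at hid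
  have hid2 := nf_id x h1' h2'
  have ha : ∀ j, x j + e2 = (e2' - e2) * (g j * (ξ j + e)) *
      (g' j * (ξ j + e') - g j * (ξ j + e))⁻¹ := by
    intro j
    have := hd j
    rw [hx]
    simp only
    field_simp
    ring
  have hb : ∀ j, x j + e2' = (e2' - e2) * (g' j * (ξ j + e')) *
      (g' j * (ξ j + e') - g j * (ξ j + e))⁻¹ := by
    intro j
    have := hd j
    rw [hx]
    simp only
    field_simp
    ring
  have h3 : e' * ((ξ 0 + e) * (ξ 1 + e) * (ξ 2 + e)) = e * ((ξ 0 + e') * (ξ 1 + e') * (ξ 2 + e')) := by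
    have h4 : e' * ((ξ 0 + e) * (ξ 1 + e) * (ξ 2 + e)) -
      e * ((ξ 0 + e') * (ξ 1 + e') * (ξ 2 + e')) = 0 := hid
    linear_combination h4
  have h5 : e2' * (N g * ((ξ 0 + e) * (ξ 1 + e) * (ξ 2 + e))) =
      e2 * (N g' * ((ξ 0 + e') * (ξ 1 + e') * (ξ 2 + e'))) := by
    apply mul_left_cancel₀ hee
    linear_combination (e2' * e * N g) * h3 + (e * ((ξ 0 + e') * (ξ 1 + e') * (ξ 2 + e'))) * hN
  have h6 : e2' * N (x + cst e2) - e2 * N (x + cst e2') = 0 := by
    have h7 : e2' * N (x + cst e2) - e2 * N (x + cst e2') = (e2' - e2) ^ 3 *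
        (e2' * (N g * ((ξ 0 + e) * (ξ 1 + e) * (ξ 2 + e))) -
          e2 * (N g' * ((ξ 0 + e') * (ξ 1 + e') * (ξ 2 + e')))) *
        ((g' 0 * (ξ 0 + e') - g 0 * (ξ 0 + e))⁻¹ * (g' 1 * (ξ 1 + e') - g 1 * (ξ 1 + e))⁻¹ *
          (g' 2 * (ξ 2 + e') - g 2 * (ξ 2 + e))⁻¹) := by
      simp only [N, cst, Pi.add_apply, ha, hb]
      ring
    rw [h7, h5]
    ring
  rw [h6] at hid2
  exact (mul_eq_zero.1 hid2.symm).resolve_left (sub_ne_zero.2 hne2.symm)

theorem cp4 (hK : K ≤ Om) (hθ : Fd K θ) (hΩ : Fd Om θ) (htr : Tr2 K Om)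
    (hn : n ∈ K) (hc : c ∈ K) (hn0 : n ≠ 0) (hδ : δ ^ 2 = c ^ 2 + 4 * n) (hδ0 : δ ≠ 0)
    (hξ : Rat Om θ ξ) (h0 : nf n c ξ = 0) (hg : GenA K Om θ ξ)
    (hn2 : n2 ∈ K) (hc2 : c2 ∈ K) (hn20 : n2 ≠ 0) (hδ2 : δ2 ^ 2 = c2 ^ 2 + 4 * n2)
    (hδ20 : δ2 ≠ 0) (hdd : δ * δ2 ∈ K)
    (hN : Nm (ad K {δ, δ2}) θ ((c2 + δ2) / (c2 - δ2) / ((c + δ) / (c - δ)))) :
    ∃ x, Rat Om θ x ∧ nf n2 c2 x = 0 ∧ GenA K Om θ x := by
  have two : (2 : A) ∈ K := ofNat_mem K 2
  have hp1 : (c + δ) * (c - δ) ≠ 0 := by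
    have h : (c + δ) * (c - δ) = -4 * n := by linear_combination (-1 : A) * hδ
    rw [h]
    exact mul_ne_zero (by norm_num) hn0
  have hp2 : (c2 + δ2) * (c2 - δ2) ≠ 0 := by
    have h : (c2 + δ2) * (c2 - δ2) = -4 * n2 := by linear_combination (-1 : A) * hδ2
    rw [h]
    exact mul_ne_zero (by norm_num) hn20
  have a1 : c + δ ≠ 0 := left_ne_zero_of_mul hp1
  have a2 : c - δ ≠ 0 := right_ne_zero_of_mul hp1
  have a3 : c2 + δ2 ≠ 0 := left_ne_zero_of_mul hp2
  have a4 : c2 - δ2 ≠ 0 := right_ne_zero_of_mul hp2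
  have h1 : (c + δ) / 2 + (c - δ) / 2 = c := by ring
  have h2 : (c + δ) / 2 * ((c - δ) / 2) = -n := by linear_combination (-1 / 4 : A) * hδ
  have h1' : (c2 + δ2) / 2 + (c2 - δ2) / 2 = c2 := by ring
  have h2' : (c2 + δ2) / 2 * ((c2 - δ2) / 2) = -n2 := by linear_combination (-1 / 4 : A) * hδ2
  have hne2 : (c2 + δ2) / 2 ≠ (c2 - δ2) / 2 := by
    intro h
    exact hδ20 (by linear_combination h)
  have hee : (c + δ) / 2 * ((c - δ) / 2) ≠ 0 := by rw [h2]; exact neg_ne_zero.2 hn0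
  have hδK2 : δ ^ 2 ∈ K := by
    rw [hδ]
    exact K.add_mem (K.pow_mem hc 2) (K.mul_mem (ofNat_mem K 4) hn)
  obtain ⟨v, hv, hNv⟩ := hN
  by_cases hδK : δ ∈ K
  · have hδ2K : δ2 ∈ K := by
      have h : δ2 = δ * δ2 / δ := by field_simp
      rw [h]
      exact K.div_mem hdd hδK
    have hvK : Rat K θ v := by
      refine hv.mono (ad_le le_rfl ?_)
      rintro z (hz | hz)
      · rw [hz]; exact hδK
      · rw [hz]; exact hδ2K
    have hN' : ((c2 - δ2) / 2 * ((c + δ) / 2)) * N v =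
        ((c2 + δ2) / 2 * ((c - δ) / 2)) * N (fun _ => (1 : A)) := by
      rw [hNv]
      simp only [N]
      field_simp
    have hv0 : ∀ j, v j ≠ 0 := by
      rw [← N_ne_zero, hNv]
      exact div_ne_zero (div_ne_zero a3 a4) (div_ne_zero a1 a2)
    have k1 : (c + δ) / 2 ∈ K := K.div_mem (K.add_mem hc hδK) two
    have k2 : (c - δ) / 2 ∈ K := K.div_mem (K.sub_mem hc hδK) two
    have k3 : (c2 + δ2) / 2 ∈ K := K.div_mem (K.add_mem hc2 hδ2K) two
    have k4 : (c2 - δ2) / 2 ∈ K := K.div_mem (K.sub_mem hc2 hδ2K) two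
    obtain ⟨m1, m2, m3⟩ := cp4_mob hK hθ hΩ htr hξ hg
      (a := fun j => (c2 - δ2) / 2 * v j - (c2 + δ2) / 2)
      (b := fun j => ((c2 - δ2) / 2 * ((c + δ) / 2)) * v j - (c2 + δ2) / 2 * ((c - δ) / 2))
      (p := fun j => 1 - v j) (q := fun j => (c - δ) / 2 - (c + δ) / 2 * v j)
      ((Rat.smul k4 hvK).sub (Rat.const k3))
      ((Rat.smul (K.mul_mem k4 k1) hvK).sub (Rat.const (K.mul_mem k3 k2)))
      ((Rat.const K.one_mem).sub hvK) ((Rat.const k2).sub (Rat.smul k1 hvK)) (by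
        intro j
        have h : ((c2 - δ2) / 2 * v j - (c2 + δ2) / 2) * ((c - δ) / 2 - (c + δ) / 2 * v j) -
            (((c2 - δ2) / 2 * ((c + δ) / 2)) * v j - (c2 + δ2) / 2 * ((c - δ) / 2)) *
            (1 - v j) = v j * δ * δ2 := by ring
        rw [h]
        exact mul_ne_zero (mul_ne_zero (hv0 j) hδ0) hδ20)
    have hxe : (fun j => ((c2 - δ2) / 2 * (v j * (ξ j + (c + δ) / 2)) -
        (c2 + δ2) / 2 * ((fun _ => (1 : A)) j * (ξ j + (c - δ) / 2))) /
        ((fun _ => (1 : A)) j * (ξ j + (c - δ) / 2) - v j * (ξ j + (c + δ) / 2))) =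
        fun j => (((c2 - δ2) / 2 * v j - (c2 + δ2) / 2) * ξ j +
          (((c2 - δ2) / 2 * ((c + δ) / 2)) * v j - (c2 + δ2) / 2 * ((c - δ) / 2))) /
          ((1 - v j) * ξ j + ((c - δ) / 2 - (c + δ) / 2 * v j)) := by
      funext j
      congr 1
      · ring
      · ring
    have heq := cp4_eq (g := v) (g' := fun _ => (1 : A)) h1 h2 h1' h2' hne2 hee h0 hN' (by
      intro j
      have h := m1 j
      intro h'
      apply h
      linear_combination h')
    rw [hxe] at heq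
    exact ⟨_, m2, heq, m3⟩
  · -- the second case
    obtain ⟨k, hk⟩ : ∃ k, k = δ * δ2 / δ ^ 2 := ⟨_, rfl⟩
    have hkK : k ∈ K := by rw [hk]; exact K.div_mem hdd hδK2
    have hδ2e : δ2 = k * δ := by
      rw [hk]
      field_simp
    subst hδ2e
    have hvq : Rat (qext K δ hδK2) θ v := by
      refine hv.mono (ad_le le_qext ?_)
      rintro z (hz | hz)
      · rw [hz]; exact self_mem_qext
      · rw [hz]
        exact (qext K δ hδK2).mul_mem (le_qext hkK) self_mem_qext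
    obtain ⟨p, r, hp, hr, hvpr⟩ := rat_qext.1 hvq
    obtain ⟨m, hm⟩ : ∃ m, m = c2 * c - k * δ ^ 2 := ⟨_, rfl⟩
    obtain ⟨l, hl⟩ : ∃ l, l = c2 - k * c := ⟨_, rfl⟩
    have hmK : m ∈ K := by
      rw [hm]
      exact K.sub_mem (K.mul_mem hc2 hc) (K.mul_mem hkK hδK2)
    have hlK : l ∈ K := by
      rw [hl]
      exact K.sub_mem hc2 (K.mul_mem hkK hc)
    have hml : (c2 + k * δ) * (c - δ) = m - l * δ := by rw [hm, hl]; ring
    have hml' : (c2 - k * δ) * (c + δ) = m + l * δ := by rw [hm, hl]; ring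
    have b1 : m - l * δ ≠ 0 := by rw [← hml]; exact mul_ne_zero a3 a2
    have b2 : m + l * δ ≠ 0 := by rw [← hml']; exact mul_ne_zero a4 a1
    have hNv1 : N (fun j => p j + r j * δ) = (m - l * δ) / (m + l * δ) := by
      have h : (fun j => p j + r j * δ) = v := (funext hvpr).symm
      rw [h, hNv, ← hml, ← hml', div_div_div_eq, mul_comm (c2 - k * δ)]
    have hqq : m ^ 2 - l ^ 2 * δ ^ 2 ≠ 0 := by
      have h : m ^ 2 - l ^ 2 * δ ^ 2 = (m - l * δ) * (m + l * δ) := by ring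
      rw [h]
      exact mul_ne_zero b1 b2
    have hqK : m ^ 2 - l ^ 2 * δ ^ 2 ∈ K :=
      K.sub_mem (K.pow_mem hmK 2) (K.mul_mem (K.pow_mem hlK 2) hδK2)
    have hNv2 : N (fun j => p j - r j * δ) = (m + l * δ) / (m - l * δ) := by
      have h := N_conj' hθ.cub hp hr hδK2 hδK
        (η := (m ^ 2 + l ^ 2 * δ ^ 2) / (m ^ 2 - l ^ 2 * δ ^ 2))
        (ζ := -(2 * m * l) / (m ^ 2 - l ^ 2 * δ ^ 2))
        (K.div_mem (K.add_mem (K.pow_mem hmK 2) (K.mul_mem (K.pow_mem hlK 2) hδK2)) hqK)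
        (K.div_mem (K.neg_mem (K.mul_mem (K.mul_mem two hmK) hlK)) hqK) (by
          rw [hNv1, div_eq_iff b2]
          have h3 : (m ^ 2 + l ^ 2 * δ ^ 2) / (m ^ 2 - l ^ 2 * δ ^ 2) +
              -(2 * m * l) / (m ^ 2 - l ^ 2 * δ ^ 2) * δ =
              (m - l * δ) ^ 2 / (m ^ 2 - l ^ 2 * δ ^ 2) := by
            field_simp
            ring
          rw [h3, div_mul_eq_mul_div, eq_div_iff hqq]
          ring)
      rw [h, eq_div_iff b1]
      have h3 : (m ^ 2 + l ^ 2 * δ ^ 2) / (m ^ 2 - l ^ 2 * δ ^ 2) -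
          -(2 * m * l) / (m ^ 2 - l ^ 2 * δ ^ 2) * δ =
          (m + l * δ) ^ 2 / (m ^ 2 - l ^ 2 * δ ^ 2) := by
        field_simp
        ring
      rw [h3, div_mul_eq_mul_div, div_eq_iff hqq]
      ring
    have hy : ∀ j, p j + r j * δ ≠ 0 := by
      have h := (N_ne_zero (x := fun j => p j + r j * δ)).1 (by
        rw [hNv1]; exact div_ne_zero b1 b2)
      exact h
    have hy' : ∀ j, p j - r j * δ ≠ 0 := by
      have h := (N_ne_zero (x := fun j => p j - r j * δ)).1 (by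
        rw [hNv2]; exact div_ne_zero b2 b1)
      exact h
    -- coordinates
    obtain ⟨g1, hg1⟩ : ∃ g1 : Fin 3 → A, g1 = fun j => m * p j + l * δ ^ 2 * r j := ⟨_, rfl⟩
    obtain ⟨g2, hg2⟩ : ∃ g2 : Fin 3 → A, g2 = fun j => -(l * p j + m * r j) := ⟨_, rfl⟩
    have hg1K : Rat K θ g1 := by
      rw [hg1]
      exact (Rat.smul hmK hp).add (Rat.smul (K.mul_mem hlK hδK2) hr)
    have hg2K : Rat K θ g2 := by
      rw [hg2]
      exact ((Rat.smul hlK hp).add (Rat.smul hmK hr)).neg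
    have hgg : ∀ j, g1 j + g2 j * δ = (m - l * δ) * (p j - r j * δ) := by
      intro j
      rw [hg1, hg2]
      ring
    have hgg' : ∀ j, g1 j - g2 j * δ = (m + l * δ) * (p j + r j * δ) := by
      intro j
      rw [hg1, hg2]
      ring
    have hN' : ((c2 - k * δ) / 2 * ((c + δ) / 2)) * N (fun j => g1 j + g2 j * δ) =
        ((c2 + k * δ) / 2 * ((c - δ) / 2)) * N (fun j => g1 j - g2 j * δ) := by
      have e1 : N (fun j => g1 j + g2 j * δ) = (m - l * δ) ^ 3 * N (fun j => p j - r j * δ) := by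
        simp only [N, hgg]
        ring
      have e2 : N (fun j => g1 j - g2 j * δ) = (m + l * δ) ^ 3 * N (fun j => p j + r j * δ) := by
        simp only [N, hgg']
        ring
      have e3 : (c2 - k * δ) / 2 * ((c + δ) / 2) = (m + l * δ) / 4 := by
        rw [← hml']
        ring
      have e4 : (c2 + k * δ) / 2 * ((c - δ) / 2) = (m - l * δ) / 4 := by
        rw [← hml]
        ring
      rw [e1, e2, e3, e4, hNv1, hNv2]
      field_simp
    obtain ⟨m1, m2, m3⟩ := cp4_mob hK hθ hΩ htr hξ hg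
      (a := fun j => -(c2 * g2 j - k * g1 j))
      (b := fun j => -(((c / 2) * (c2 * g2 j - k * g1 j)) +
        (1 / 2) * (c2 * g1 j - (k * δ ^ 2) * g2 j)))
      (p := fun j => 2 * g2 j) (q := fun j => c * g2 j + g1 j)
      ((Rat.smul hc2 hg2K).sub (Rat.smul hkK hg1K)).neg
      ((Rat.smul (K.div_mem hc two) ((Rat.smul hc2 hg2K).sub (Rat.smul hkK hg1K))).add
        (Rat.smul (K.div_mem K.one_mem two) ((Rat.smul hc2 hg1K).sub
          (Rat.smul (K.mul_mem hkK hδK2) hg2K)))).neg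
      (Rat.smul two hg2K) ((Rat.smul hc hg2K).add hg1K) (by
        intro j h
        have h3 : (k * δ) * ((g1 j + g2 j * δ) * (g1 j - g2 j * δ)) = 0 := by
          linear_combination δ * h
        rw [hgg, hgg'] at h3
        exact (mul_ne_zero hδ20 (mul_ne_zero (mul_ne_zero b1 (hy' j))
          (mul_ne_zero b2 (hy j)))) h3)
    have hden : ∀ j, (g1 j - g2 j * δ) * (ξ j + (c - δ) / 2) -
        (g1 j + g2 j * δ) * (ξ j + (c + δ) / 2) =
        -δ * (2 * g2 j * ξ j + (c * g2 j + g1 j)) := by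
      intro j
      ring
    have hnum : ∀ j, (c2 - k * δ) / 2 * ((g1 j + g2 j * δ) * (ξ j + (c + δ) / 2)) -
        (c2 + k * δ) / 2 * ((g1 j - g2 j * δ) * (ξ j + (c - δ) / 2)) =
        -δ * (-(c2 * g2 j - k * g1 j) * ξ j + -(((c / 2) * (c2 * g2 j - k * g1 j)) +
        (1 / 2) * (c2 * g1 j - (k * δ ^ 2) * g2 j))) := by
      intro j
      ring
    have heq := cp4_eq (g := fun j => g1 j + g2 j * δ) (g' := fun j => g1 j - g2 j * δ)
      h1 h2 h1' h2' hne2 hee h0 hN' (by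
      intro j
      rw [hden]
      exact mul_ne_zero (neg_ne_zero.2 hδ0) (m1 j))
    have hxe : (fun j => ((c2 - k * δ) / 2 * ((g1 j + g2 j * δ) * (ξ j + (c + δ) / 2)) -
        (c2 + k * δ) / 2 * ((g1 j - g2 j * δ) * (ξ j + (c - δ) / 2))) /
        ((g1 j - g2 j * δ) * (ξ j + (c - δ) / 2) - (g1 j + g2 j * δ) * (ξ j + (c + δ) / 2))) =
        fun j => (-(c2 * g2 j - k * g1 j) * ξ j + -(((c / 2) * (c2 * g2 j - k * g1 j)) +
        (1 / 2) * (c2 * g1 j - (k * δ ^ 2) * g2 j))) /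
        (2 * g2 j * ξ j + (c * g2 j + g1 j)) := by
      funext j
      rw [hnum, hden, mul_div_mul_left _ _ (neg_ne_zero.2 hδ0)]
    rw [hxe] at heq
    exact ⟨_, m2, heq, m3⟩

end Pool.Agent.Helper16.C18.H
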