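import Pool.Agent.Helper64.C18.B3

set_option autoImplicit false

/-! Project C18: normal forms of twisted cubes (offer C18-NF) -/

/-!
Let `d ≠ 0`.  The translation `x ↦ x - (b / d) y` removes the coefficient `b`: so up to `d` the cube is
`N x + T (a x sh y) + c N y` with `a` in `K[θ]`, `c` in `K`
(for `Θ = (c, a, b, d)` with `d = 1`: new `a' = a - sh b`, new `c' = c - T (a b) + 2 N b`).
(1) `a = 0`, `c = 0`: `Θ.ev x y = d N (x + (b / d) y)`.
(2) `a ≠ 0`: the substitution `x = x' / a` (`a` is invertible in the field `K[θ]`) gives, up to the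
factor `1 / N a`, the cube `N x' + n T (x' sh y) + n c N y` with `n = N a`, i.e. the normal form
`nfc n c`.  If `c ^ 2 + 4 n ≠ 0` this is the third alternative.  If `c ^ 2 = - 4 n`: `x = -c / 2` is a
double point; put `x' = -(c/2) y' + x''`, ...: with `(x', y') = (p x'' + q y'', r x'' + s y'')` where the
point `(1 : 0)` goes to `(-c / 2 : 1)`, i.e. `x' = -(c/2) x'' + y''`, `y' = x''`, the form becomes
`N y'' - (c / 2) T (x'' sh y'')` (check: `d = 0`, `b = 0`), second alternative with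
`m = -c / 2`, `c ≠ 0`.
(3) `a = 0`, `c ≠ 0`: the substitution `x = x'`, `y = y' + k x'` (`k = 1` or `k = 2` with
`1 + c k ^ 3 ≠ 0`) gives the cube `(1 + c k ^ 3) N x' + c k ^ 2 T (y' sh x') + c k T (x' sh y') + c N y'`,
whose depressed form has `a` proportional to `c k ≠ 0`
(with `d' = 1 + c k ^ 3`: `a' = c k / d' - (c k ^ 2 / d') ^ 2 = c k / d' ^ 2 ≠ 0`); so we are in case (2).
Compositions of fractional linear transformations: it is enough to compose the substitutions in the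
statement `∀ x y, Θ.ev (p x + q y) (r x + s y) = ...`, you may want a lemma on the composition.
-/

namespace Pool.Agent.Helper16.C18.H

variable {A : Type*} [Field A] [CharZero A] {K : Subfield A} {θ : Fin 3 → A} {Θ : Cube A}

private def NFgood (K : Subfield A) (θ : Fin 3 → A)
    (F : (Fin 3 → A) → (Fin 3 → A) → A) : Prop :=
  (∃ (h : Mob K θ) (k : A) (m : Fin 3 → A), k ∈ K ∧ k ≠ 0 ∧ Rat K θ m ∧ m ≠ 0 ∧
      ∀ x y, F (h.p * x + h.q * y) (h.r * x + h.s * y) =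
        k * (N y + T (m * x * sh y))) ∨
    (∃ (h : Mob K θ) (k n c : A), k ∈ K ∧ k ≠ 0 ∧ n ∈ K ∧ c ∈ K ∧ n ≠ 0 ∧ c ^ 2 + 4 * n ≠ 0 ∧
      ∀ x y, F (h.p * x + h.q * y) (h.r * x + h.s * y) =
        k * (N x + n * T (x * sh y) + n * c * N y))

private theorem nf_comp (hC : Cub K θ) (g h : Mob K θ) : ∃ f : Mob K θ, ∀ x y : Fin 3 → A,
    f.p * x + f.q * y = g.p * (h.p * x + h.q * y) + g.q * (h.r * x + h.s * y) ∧
    f.r * x + f.s * y = g.r * (h.p * x + h.q * y) + g.s * (h.r * x + h.s * y) := by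
  refine ⟨⟨g.p * h.p + g.q * h.r, g.p * h.q + g.q * h.s, g.r * h.p + g.s * h.r,
    g.r * h.q + g.s * h.s, (g.hp.mul hC h.hp).add (g.hq.mul hC h.hr),
    (g.hp.mul hC h.hq).add (g.hq.mul hC h.hs), (g.hr.mul hC h.hp).add (g.hs.mul hC h.hr),
    (g.hr.mul hC h.hq).add (g.hs.mul hC h.hs), fun i => ?_⟩, fun x y => ⟨?_, ?_⟩⟩
  · have e : (g.p * h.p + g.q * h.r) i * (g.r * h.q + g.s * h.s) i -
        (g.p * h.q + g.q * h.s) i * (g.r * h.p + g.s * h.r) i =
        (g.p i * g.s i - g.q i * g.r i) * (h.p i * h.s i - h.q i * h.r i) := by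
      simp only [Pi.add_apply, Pi.mul_apply]
      ring
    rw [e]
    exact mul_ne_zero (g.det i) (h.det i)
  · simp only
    ring
  · simp only
    ring

private theorem nf_tr (hC : Cub K θ) (g : Mob K θ) {k0 : A} (hk0 : k0 ∈ K) (h0 : k0 ≠ 0)
    {F G : (Fin 3 → A) → (Fin 3 → A) → A}
    (hFG : ∀ x y, F (g.p * x + g.q * y) (g.r * x + g.s * y) = k0 * G x y)
    (h : NFgood K θ G) : NFgood K θ F := by
  rcases h with ⟨h, k, m, h1, h2, h3, h4, h5⟩ | ⟨h, k, n, c, h1, h2, h3, h4, h5, h6, h7⟩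
  · obtain ⟨f, hf⟩ := nf_comp hC g h
    refine Or.inl ⟨f, k0 * k, m, K.mul_mem hk0 h1, mul_ne_zero h0 h2, h3, h4, fun x y => ?_⟩
    rw [(hf x y).1, (hf x y).2, hFG, h5]
    ring
  · obtain ⟨f, hf⟩ := nf_comp hC g h
    refine Or.inr ⟨f, k0 * k, n, c, K.mul_mem hk0 h1, mul_ne_zero h0 h2, h3, h4, h5, h6,
      fun x y => ?_⟩
    rw [(hf x y).1, (hf x y).2, hFG, h7]
    ring

private theorem nf_dbl {n c : A} (hc : c ∈ K) (hn0 : n ≠ 0) (h : c ^ 2 + 4 * n = 0) :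
    NFgood K θ (fun x y => N x + n * T (x * sh y) + n * c * N y) := by
  have hc0 : c ≠ 0 := by
    rintro rfl
    apply hn0
    have h4 : (4 : A) * n = 0 := by linear_combination h
    exact (mul_eq_zero.1 h4).resolve_left (by norm_num)
  have hm : -(c / 2) ∈ K := K.neg_mem (K.div_mem hc (ofNat_mem K 2))
  have hn : n = -(c / 2) ^ 2 := by
    linear_combination (1 / 4 : A) * h
  refine Or.inl ⟨⟨fun _ => -(c / 2), 1, 1, 0, Rat.const hm, Rat.const K.one_mem,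
    Rat.const K.one_mem, Rat.const K.zero_mem, fun i => ?_⟩, 1, fun _ => -(c / 2), K.one_mem,
    one_ne_zero, Rat.const hm, ?_, fun x y => ?_⟩
  · simp
  · intro h1
    have h2 := congrFun h1 0
    simp only [Pi.zero_apply, neg_eq_zero, div_eq_zero_iff] at h2
    rcases h2 with h2 | h2
    · exact hc0 h2
    · norm_num at h2
  · simp only [N, T, sh, Pi.add_apply, Pi.mul_apply, Pi.one_apply, Pi.zero_apply,
      Matrix.cons_val_zero, Matrix.cons_val_one, Matrix.cons_val]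
    rw [hn]
    ring

private theorem nf_a (hC : Fd K θ) {a : Fin 3 → A} (ha : Rat K θ a) (ha0 : a ≠ 0) {c : A}
    (hc : c ∈ K) : NFgood K θ (fun x y => N x + T (a * x * sh y) + c * N y) := by
  have hn0 : N a ≠ 0 := hC.N_ne ha ha0
  have hnK : N a ∈ K := ha.N_mem hC.cub
  have hai := hC.ne ha ha0
  obtain ⟨n, hn⟩ : ∃ n, n = N a := ⟨_, rfl⟩
  have hn' : n = a 0 * a 1 * a 2 := hn
  rw [← hn] at hn0 hnK
  have h0 := hai 0
  have h1 := hai 1
  have h2 := hai 2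
  obtain ⟨g, hg⟩ : ∃ g : Mob K θ, ∀ x y : Fin 3 → A, (N (g.p * x + g.q * y) +
      T (a * (g.p * x + g.q * y) * sh (g.r * x + g.s * y)) + c * N (g.r * x + g.s * y)) =
      n⁻¹ * (N x + n * T (x * sh y) + n * c * N y) := by
    refine ⟨⟨a⁻¹, 0, 0, 1, hC.inv ha, Rat.const K.zero_mem, Rat.const K.zero_mem,
      Rat.const K.one_mem, fun i => ?_⟩, fun x y => ?_⟩
    · simpa using hai i
    · simp only [N, T, sh, Pi.add_apply, Pi.mul_apply, Pi.one_apply, Pi.zero_apply, Pi.inv_apply,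
        Matrix.cons_val_zero, Matrix.cons_val_one, Matrix.cons_val]
      rw [hn']
      field_simp
      ring
  by_cases h : c ^ 2 + 4 * n = 0
  · exact nf_tr hC.cub g (K.inv_mem hnK) (inv_ne_zero hn0) hg (nf_dbl hc hn0 h)
  · exact Or.inr ⟨g, n⁻¹, n, c, K.inv_mem hnK, inv_ne_zero hn0, hnK, hc, hn0, h, hg⟩

private theorem nf_c (hC : Fd K θ) {c : A} (hc : c ∈ K) (hc0 : c ≠ 0) :
    NFgood K θ (fun x y => N x + c * N y) := by
  obtain ⟨k, hk, hk0, hd0⟩ : ∃ k : A, k ∈ K ∧ k ≠ 0 ∧ 1 + c * k ^ 3 ≠ 0 := by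
    by_cases h : 1 + c = 0
    · refine ⟨2, ofNat_mem K 2, two_ne_zero, ?_⟩
      have h1 : (1 : A) + c * 2 ^ 3 = -7 := by linear_combination 8 * h
      rw [h1]
      norm_num
    · exact ⟨1, K.one_mem, one_ne_zero, by simpa using h⟩
  obtain ⟨d, hd⟩ : ∃ d, d = 1 + c * k ^ 3 := ⟨_, rfl⟩
  rw [← hd] at hd0
  have hdK : d ∈ K := by
    rw [hd]
    exact K.add_mem K.one_mem (K.mul_mem hc (K.pow_mem hk 3))
  have heK : c * k ^ 2 / d ∈ K := K.div_mem (K.mul_mem hc (K.pow_mem hk 2)) hdK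
  have haK : c * k / d ^ 2 ∈ K := K.div_mem (K.mul_mem hc hk) (K.pow_mem hdK 2)
  have hcK : c * (1 - c * k ^ 3) / d ^ 3 ∈ K :=
    K.div_mem (K.mul_mem hc (K.sub_mem K.one_mem (K.mul_mem hc (K.pow_mem hk 3))))
      (K.pow_mem hdK 3)
  obtain ⟨g, hg⟩ : ∃ g : Mob K θ, ∀ x y : Fin 3 → A, (N (g.p * x + g.q * y) +
      c * N (g.r * x + g.s * y)) = d * (N x + T ((fun _ => c * k / d ^ 2) * x * sh y) +
        c * (1 - c * k ^ 3) / d ^ 3 * N y) := by
    refine ⟨⟨1, fun _ => -(c * k ^ 2 / d), fun _ => k, fun _ => d⁻¹, Rat.const K.one_mem,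
      Rat.const (K.neg_mem heK), Rat.const hk, Rat.const (K.inv_mem hdK), fun i => ?_⟩,
      fun x y => ?_⟩
    · have h1 : (1 : Fin 3 → A) i * d⁻¹ - -(c * k ^ 2 / d) * k = 1 := by
        simp only [Pi.one_apply]
        field_simp
        rw [hd]
        ring
      exact h1 ▸ one_ne_zero
    · simp only [N, T, sh, Pi.add_apply, Pi.mul_apply, Pi.one_apply,
        Matrix.cons_val_zero, Matrix.cons_val_one, Matrix.cons_val]
      field_simp
      rw [hd]
      ring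
  refine nf_tr hC.cub g hdK hd0 hg (nf_a hC (Rat.const haK) ?_ hcK)
  intro h1
  have h2 := congrFun h1 0
  simp only [Pi.zero_apply] at h2
  exact div_ne_zero (mul_ne_zero hc0 hk0) (pow_ne_zero 2 hd0) h2

/-- a twisted cube with `d ≠ 0`: a norm form, or a cube with a double point, or a cube in
the normal form `N x + n (T x + c)` -/
theorem normal_form (hC : Fd K θ) (hΘ : Θ.Over K θ) (hd : Θ.d ≠ 0) :
    (∃ m, Rat K θ m ∧ ∀ x y, Θ.ev x y = Θ.d * N (x + m * y)) ∨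
    (∃ (h : Mob K θ) (k : A) (m : Fin 3 → A), k ∈ K ∧ k ≠ 0 ∧ Rat K θ m ∧ m ≠ 0 ∧
      ∀ x y, Θ.ev (h.p * x + h.q * y) (h.r * x + h.s * y) =
        k * (N y + T (m * x * sh y))) ∨
    (∃ (h : Mob K θ) (k n c : A), k ∈ K ∧ k ≠ 0 ∧ n ∈ K ∧ c ∈ K ∧ n ≠ 0 ∧ c ^ 2 + 4 * n ≠ 0 ∧
      ∀ x y, Θ.ev (h.p * x + h.q * y) (h.r * x + h.s * y) =
        k * (N x + n * T (x * sh y) + n * c * N y)) := by
  obtain ⟨hcK, haK, hbK, hdK⟩ := hΘ
  obtain ⟨d, hd'⟩ : ∃ d, d = Θ.d := ⟨_, rfl⟩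
  rw [← hd'] at hd hdK
  obtain ⟨b, hb⟩ : ∃ b : Fin 3 → A, b = fun i => d⁻¹ * Θ.b i := ⟨_, rfl⟩
  obtain ⟨a, ha⟩ : ∃ a : Fin 3 → A, a = fun i => d⁻¹ * Θ.a i - sh b i := ⟨_, rfl⟩
  obtain ⟨c, hc⟩ : ∃ c : A, c = d⁻¹ * Θ.c - T (fun i => (d⁻¹ * Θ.a i) * b i) + 2 * N b :=
    ⟨_, rfl⟩
  have hdi := K.inv_mem hdK
  have hbR : Rat K θ b := by
    rw [hb]
    exact hbK.smul hdi
  have haR : Rat K θ a := by
    rw [ha]
    exact (haK.smul hdi).sub (hbR.sh hC.cub)
  have hcR : c ∈ K := by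
    rw [hc]
    exact K.add_mem (K.sub_mem (K.mul_mem hdi hcK) (((haK.smul hdi).mul hC.cub hbR).T_mem
      hC.cub)) (K.mul_mem (ofNat_mem K 2) (hbR.N_mem hC.cub))
  obtain ⟨g, hgp, hg⟩ : ∃ g : Mob K θ, (∀ x y, g.p * x + g.q * y = x - b * y) ∧
      ∀ x y, Θ.ev (g.p * x + g.q * y) (g.r * x + g.s * y) =
        d * (N x + T (a * x * sh y) + c * N y) := by
    refine ⟨⟨1, fun j => - b j, 0, 1, Rat.const K.one_mem, hbR.neg, Rat.const K.zero_mem,
      Rat.const K.one_mem, fun i => ?_⟩, fun x y => ?_, fun x y => ?_⟩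
    · simp
    · funext i
      simp only [Pi.add_apply, Pi.mul_apply, Pi.one_apply, Pi.sub_apply]
      ring
    · simp only [Cube.ev, N, T, sh, Pi.add_apply, Pi.mul_apply, Pi.one_apply, Pi.zero_apply,
        Matrix.cons_val_zero, Matrix.cons_val_one, Matrix.cons_val, ha, hc, hb, ← hd']
      field_simp
      ring
  by_cases ha0 : a = 0
  · by_cases hc0 : c = 0
    · left
      refine ⟨b, hbR, fun x y => ?_⟩
      have h1 : ∀ x y, Θ.ev (x - b * y) y = d * (N x + T (a * x * sh y) + c * N y) := by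
        intro x y
        simp only [Cube.ev, N, T, sh, Pi.sub_apply, Pi.mul_apply,
          Matrix.cons_val_zero, Matrix.cons_val_one, Matrix.cons_val, ha, hc, hb, ← hd']
        field_simp
        ring
      have h2 := h1 (x + b * y) y
      rw [add_sub_cancel_right] at h2
      rw [h2, ha0, hc0, ← hd']
      simp [T]
    · right
      refine nf_tr hC.cub g hdK hd ?_ (nf_c hC hcR hc0)
      intro x y
      rw [hg, ha0]
      simp [T]
  · right
    exact nf_tr hC.cub g hdK hd hg (nf_a hC haR ha0 hcR)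

end Pool.Agent.Helper16.C18.H
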