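import Pool.Agent.Helper64.C18.CP1
import Pool.Agent.Helper64.C18.CP2
import Pool.Agent.Helper64.C18.CP4
import Pool.Agent.Helper64.C18.NF

set_option autoImplicit false

/-! Project C18: comparison over one cubic field (offer C18-COMP, helper16) -/

namespace Pool.Agent.Helper16.C18.H

variable {A : Type*} [Field A] [CharZero A] {K Om : Subfield A} {θ ξ x2 x y : Fin 3 → A}
  {n c n2 c2 : A} {Θ : Cube A}

/-- choose square roots `δ`, `δ2`; `cp1`; the third alternative is the second one for `-δ`; if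
`δ δ2 ∉ K` use `cp2`, `cp3`, otherwise `cp4` -/
theorem comp [IsAlgClosed A] (hK : K ≤ Om) (hθ : Fd K θ) (hΩ : Fd Om θ) (htr : Tr2 K Om)
    (hn : n ∈ K) (hc : c ∈ K) (hn0 : n ≠ 0) (hD : c ^ 2 + 4 * n ≠ 0)
    (hξ : Rat Om θ ξ) (h0 : nf n c ξ = 0) (hg : GenA K Om θ ξ)
    (hn2 : n2 ∈ K) (hc2 : c2 ∈ K) (hn20 : n2 ≠ 0) (hD2 : c2 ^ 2 + 4 * n2 ≠ 0)
    (hx2 : Rat Om θ x2) (h02 : nf n2 c2 x2 = 0) :
    (∃ x, Rat K θ x ∧ nf n2 c2 x = 0) ∨
      ∃ x, Rat Om θ x ∧ nf n2 c2 x = 0 ∧ GenA K Om θ x := by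
  obtain ⟨δ, hδ⟩ := IsAlgClosed.exists_pow_nat_eq (c ^ 2 + 4 * n) (n := 2) (by norm_num)
  obtain ⟨δ2, hδ2⟩ := IsAlgClosed.exists_pow_nat_eq (c2 ^ 2 + 4 * n2) (n := 2) (by norm_num)
  have hδ0 : δ ≠ 0 := by
    rintro rfl
    apply hD
    rw [← hδ]
    ring
  have hδ20 : δ2 ≠ 0 := by
    rintro rfl
    apply hD2
    rw [← hδ2]
    ring
  -- the second alternative of `cp1`
  have key : ∀ δ : A, δ ^ 2 = c ^ 2 + 4 * n → δ ≠ 0 →
      Nm (ad K {δ, δ2}) θ ((c2 + δ2) / (c2 - δ2) / ((c + δ) / (c - δ))) →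
      (∃ x, Rat K θ x ∧ nf n2 c2 x = 0) ∨
        ∃ x, Rat Om θ x ∧ nf n2 c2 x = 0 ∧ GenA K Om θ x := by
    intro δ hδ hδ0 hN
    by_cases hdd : δ * δ2 ∈ K
    · exact Or.inr (cp4 hK hθ hΩ htr hn hc hn0 hδ hδ0 hξ h0 hg hn2 hc2 hn20 hδ2 hδ20 hdd hN)
    · have h1 := cp2 hθ hn hc hn0 hδ hδ0 hn2 hc2 hn20 hδ2 hδ20 hdd hN
      have h2 : δ ^ 2 ∈ K := by
        rw [hδ]
        exact K.add_mem (K.pow_mem hc 2) (K.mul_mem (ofNat_mem K 4) hn)
      exact Or.inl (cp3 hθ h2 hn2 hc2 hn20 hδ2 hδ20 h1)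
  rcases cp1 hK hθ hΩ htr hn hc hn0 hδ hδ0 hξ h0 hg hn2 hc2 hn20 hδ2 hδ20 hx2 h02 with
    h1 | h1 | h1
  · have h2 : δ ^ 2 ∈ K := by
      rw [hδ]
      exact K.add_mem (K.pow_mem hc 2) (K.mul_mem (ofNat_mem K 4) hn)
    exact Or.inl (cp3 hθ h2 hn2 hc2 hn20 hδ2 hδ20 h1)
  · exact key δ hδ hδ0 h1
  · refine key (-δ) (by rw [neg_sq, hδ]) (neg_ne_zero.2 hδ0) ?_
    have e1 : ad K {-δ, δ2} = ad K {δ, δ2} := by
      apply le_antisymm
      · refine ad_le (le_ad K _) ?_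
        rintro z (rfl | hz)
        · exact Subfield.neg_mem _ (mem_ad (Or.inl rfl))
        · exact mem_ad (Or.inr hz)
      · refine ad_le (le_ad K _) ?_
        rintro z (rfl | hz)
        · have h9 : -(-z) ∈ ad K {-z, δ2} := Subfield.neg_mem _ (mem_ad (Or.inl rfl))
          rwa [neg_neg] at h9
        · exact mem_ad (Or.inr hz)
    have e2 : (c2 + δ2) / (c2 - δ2) / ((c + -δ) / (c - -δ))
        = (c2 + δ2) / (c2 - δ2) * ((c + δ) / (c - δ)) := by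
      rw [div_eq_mul_inv _ ((c + -δ) / (c - -δ)), inv_div, sub_neg_eq_add, ← sub_eq_add_neg]
    rw [e1, e2]
    exact h1

/-- the same for an arbitrary twisted cube `Θ` in place of the second normal form: `Θ.d = 0` gives
the point `(1 : 0)`; `normal_form` otherwise (first alternative: the point `(-m : 1)`, second:
`h (1, 0)`, third: `comp`, points over `Om` of the normal form have `y ≠ 0`) -/
theorem comp_cube [IsAlgClosed A] (hK : K ≤ Om) (hθ : Fd K θ) (hΩ : Fd Om θ) (htr : Tr2 K Om)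
    (hn : n ∈ K) (hc : c ∈ K) (hn0 : n ≠ 0) (hD : c ^ 2 + 4 * n ≠ 0)
    (hξ : Rat Om θ ξ) (h0 : nf n c ξ = 0) (hg : GenA K Om θ ξ)
    (hΘ : Θ.Over K θ) (hp : Pt Θ Om θ x y) :
    (∃ x' y', Pt Θ K θ x' y') ∨ ∃ x' y', Pt Θ Om θ x' y' ∧ Gen K Om θ x' y' := by
  have evx : ∀ (Θ : Cube A) (x : Fin 3 → A), Θ.ev x 0 = Θ.d * N x := by
    intro Θ x
    simp only [Cube.ev, N, T, sh, Pi.mul_apply, Pi.zero_apply, Matrix.cons_val_zero,
      Matrix.cons_val_one, Matrix.cons_val]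
    ring
  by_cases hd : Θ.d = 0
  · left
    refine ⟨1, 0, Rat.const K.one_mem, Rat.const K.zero_mem, Or.inl one_ne_zero, ?_⟩
    rw [evx, hd, zero_mul]
  rcases normal_form hθ hΘ hd with ⟨m, hm, e⟩ | ⟨h, k, m, hk, hk0, hm, hm0, e⟩ |
    ⟨h, k, n2, c2, hk, hk0, hn2, hc2, hn20, hD2, e⟩
  · left
    refine ⟨-m, 1, hm.neg, Rat.const K.one_mem, Or.inr one_ne_zero, ?_⟩
    rw [e]
    simp [N]
  · left
    have hpt : Pt (h.act Θ) K θ 1 0 := by
      refine ⟨Rat.const K.one_mem, Rat.const K.zero_mem, Or.inl one_ne_zero, ?_⟩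
      rw [Mob.act_ev, e]
      simp [N, T, sh]
    exact ⟨_, _, Pt.map hθ hθ le_rfl h hpt⟩
  · obtain ⟨x', y', hp', ex, ey⟩ := Pt.comap hθ hΩ hK h hp
    have hy' : y' ≠ 0 := by
      intro h0'
      have h1 := hp'.ev
      rw [Mob.act_ev, e, h0'] at h1
      have h2 : N x' = 0 := by
        have h3 : k * N x' = 0 := by
          rw [← h1]
          simp [N, T, sh]
        exact (mul_eq_zero.1 h3).resolve_left hk0
      rcases hp'.ne with h4 | h4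
      · exact hΩ.N_ne hp'.hx h4 h2
      · exact h4 h0'
    have hyi := hΩ.ne hp'.hy hy'
    have hx2 : Rat Om θ (x' / y') := hΩ.div hp'.hx hp'.hy
    have hp2 : Pt (h.act Θ) Om θ (x' / y') 1 := by
      refine hp'.congr hΩ hx2 (Rat.const Om.one_mem) (Or.inr one_ne_zero) ?_
      funext i
      simp only [Pi.mul_apply, Pi.div_apply, Pi.one_apply, mul_one]
      exact (div_mul_cancel₀ _ (hyi i)).symm
    have evn : ∀ x : Fin 3 → A, (h.act Θ).ev x 1 = k * nf n2 c2 x := by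
      intro x
      rw [Mob.act_ev, e]
      simp only [nf, N, T, sh, Pi.mul_apply, Pi.one_apply, Matrix.cons_val_zero,
        Matrix.cons_val_one, Matrix.cons_val]
      ring
    have h02 : nf n2 c2 (x' / y') = 0 := by
      have h1 := hp2.ev
      rw [evn] at h1
      exact (mul_eq_zero.1 h1).resolve_left hk0
    rcases comp hK hθ hΩ htr hn hc hn0 hD hξ h0 hg hn2 hc2 hn20 hD2 hx2 h02 with
      ⟨w, hw, hw0⟩ | ⟨w, hw, hw0, hwg⟩
    · left
      have hpt : Pt (h.act Θ) K θ w 1 :=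
        ⟨hw, Rat.const K.one_mem, Or.inr one_ne_zero, by rw [evn, hw0, mul_zero]⟩
      exact ⟨_, _, Pt.map hθ hθ le_rfl h hpt⟩
    · right
      have hpt : Pt (h.act Θ) Om θ w 1 :=
        ⟨hw, Rat.const Om.one_mem, Or.inr one_ne_zero, by rw [evn, hw0, mul_zero]⟩
      exact ⟨_, _, Pt.map hθ hΩ hK h hpt, Gen.map hθ hΩ hK h hw (Rat.const Om.one_mem)
        (Or.inr one_ne_zero) (GenA.toGen hθ hΩ hK hw hwg)⟩

end Pool.Agent.Helper16.C18.H
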