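import Pool.Agent.Helper64.C18.B3
import Pool.Agent.Helper64.C18.T1

set_option autoImplicit false

/-! Project C18: moving a point over the other cubic field to the diagonal (offer C18-H1) -/

/-!
`K1 = ad K {ϑ 0}`; as `ϑ 0` is a root of a cubic polynomial over `K`, `K1 = {a + b ϑ 0 + c (ϑ 0) ^ 2}` with
unique coordinates (`coords_eq_zero`), and every element of `K1[θ]` is uniquely
`X0 + ϑ 0 X1 + (ϑ 0) ^ 2 X2` with `Xi` in `K[θ]`.  Let `(x : y)` be the point over `K1`.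
If `y = 0` then `Θ.d = 0` and `(1 : 0)` is a point over `K`.  Else divide by `y` (`Pt.congr`,
`Fd K1 θ`): `y = 1`, `x = X0 + ϑ 0 X1 + (ϑ 0) ^ 2 X2`.
If `X2 = 0`: if `X1 = 0` then `x = X0` gives a point over `K`; else `h = (X1, X0; 0, 1)`, i.e.
`(s0, s1) ↦ (X1 s0 + X0 s1, s1)`, maps `(ϑ 0, 1)` to `(x, 1)`.
If `X2 ≠ 0`: put `m = ϑ 0 + μ`, `μ = -(X1 + e1 X2) / X2` in `K[θ]`, `e1 = T ϑ`, `e2 = T (sh ϑ)`, `e3 = N ϑ`,
so that by `(ϑ 0) ^ 3 = e1 (ϑ 0) ^ 2 - e2 ϑ 0 + e3` one has `m x = a + ϑ 0 b` with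
`a = μ X0 + e3 X2`, `b = X0 + μ X1 - e2 X2`, and `m 1 = μ + ϑ 0`.  `h = (b, a; 1, μ)` maps `(ϑ 0, 1)` to
`m (x, 1)`.  Its determinant is `b μ - a`; if it is zero at one component then identically, so
`m x = b m`, and (`m ≠ 0` in the field `K1[θ]`) `x = b` is a point over `K`.
In both cases `g (p, q) = (h.act Θ).ev (cst p) (cst q)` is `c q³ + T a p q² + T b p² q + d p³` with
coefficients in `K` which vanishes at `(ϑ 0, 1)` (`Cube.ev_smul`), so it is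
`d (p³ - e1 p² q + e2 p q² - e3 q³)` (`coords_eq_zero` for the remainder of degree `≤ 2`), which is
`d N (p - q ϑ)`.  If `d = 0` then `(1 : 0)` is a point of `h.act Θ` over `K`, use `Pt.map`.
-/

namespace Pool.Agent.Helper16.C18.H

variable {A : Type*} [Field A] [CharZero A] {K : Subfield A} {θ ϑ x y : Fin 3 → A} {Θ : Cube A}

/-- the first components of the rational triples form a field -/
private def h1_S (hϑ : Fd K ϑ) : Subfield A where
  carrier := {z | ∃ w, Rat K ϑ w ∧ w 0 = z}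
  mul_mem' := by
    rintro _ _ ⟨w, hw, rfl⟩ ⟨v, hv, rfl⟩
    exact ⟨_, Rat.mul hϑ.cub hw hv, rfl⟩
  one_mem' := ⟨_, Rat.const K.one_mem, rfl⟩
  add_mem' := by
    rintro _ _ ⟨w, hw, rfl⟩ ⟨v, hv, rfl⟩
    exact ⟨_, hw.add hv, rfl⟩
  zero_mem' := ⟨_, Rat.const K.zero_mem, rfl⟩
  neg_mem' := by
    rintro _ ⟨w, hw, rfl⟩
    exact ⟨_, hw.neg, rfl⟩
  inv_mem' := by
    rintro _ ⟨w, hw, rfl⟩
    exact ⟨_, hϑ.inv hw, rfl⟩

private theorem h1_mem (hϑ : Fd K ϑ) {z : A} (hz : z ∈ ad K {ϑ 0}) :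
    ∃ a ∈ K, ∃ b ∈ K, ∃ c ∈ K, z = a + b * ϑ 0 + c * ϑ 0 ^ 2 := by
  have h1 : ad K {ϑ 0} ≤ h1_S hϑ := by
    refine ad_le (fun k hk => ⟨_, Rat.const hk, rfl⟩) ?_
    rintro _ rfl
    exact ⟨ϑ, Rat.self, rfl⟩
  obtain ⟨w, ⟨a, ha, b, hb, c, hc, e⟩, rfl⟩ := h1 hz
  exact ⟨a, ha, b, hb, c, hc, e 0⟩

private theorem h1_dec (hϑ : Fd K ϑ) (hx : Rat (ad K {ϑ 0}) θ x) :
    ∃ X0 X1 X2 : Fin 3 → A, Rat K θ X0 ∧ Rat K θ X1 ∧ Rat K θ X2 ∧
      ∀ j, x j = X0 j + ϑ 0 * X1 j + ϑ 0 ^ 2 * X2 j := by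
  obtain ⟨u, hu, v, hv, w, hw, e⟩ := hx
  obtain ⟨u0, hu0, u1, hu1, u2, hu2, eu⟩ := h1_mem hϑ hu
  obtain ⟨v0, hv0, v1, hv1, v2, hv2, ev⟩ := h1_mem hϑ hv
  obtain ⟨w0, hw0, w1, hw1, w2, hw2, ew⟩ := h1_mem hϑ hw
  refine ⟨fun j => u0 + v0 * θ j + w0 * θ j ^ 2, fun j => u1 + v1 * θ j + w1 * θ j ^ 2,
    fun j => u2 + v2 * θ j + w2 * θ j ^ 2, ⟨u0, hu0, v0, hv0, w0, hw0, fun j => rfl⟩,
    ⟨u1, hu1, v1, hv1, w1, hw1, fun j => rfl⟩, ⟨u2, hu2, v2, hv2, w2, hw2, fun j => rfl⟩, ?_⟩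
  intro j
  rw [e j, eu, ev, ew]
  ring

private theorem h1_fin (hθ : Fd K θ) (hϑ : Fd K ϑ) (hΘ : Θ.Over K θ) (h : Mob K θ)
    (h0 : (h.act Θ).ev (cst (ϑ 0)) (cst 1) = 0) : (∃ x' y', Pt Θ K θ x' y') ∨
      ∃ (h : Mob K θ) (ε : A), ε ∈ K ∧ ε ≠ 0 ∧
        ∀ p q : A, (h.act Θ).ev (cst p) (cst q) = ε * N (cst p - cst q * ϑ) := by
  have hO := Mob.act_over hθ.cub h hΘ
  set F := h.act Θ with hF
  have hev : ∀ p q : A, F.ev (cst p) (cst q) =
      F.c * q ^ 3 + T F.a * (p * q ^ 2) + T F.b * (p ^ 2 * q) + F.d * p ^ 3 := by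
    intro p q
    simp only [Cube.ev, N, T, sh, cst, Pi.mul_apply, Matrix.cons_val_zero, Matrix.cons_val_one,
      Matrix.cons_val]
    ring
  have h1 : F.c + T F.a * ϑ 0 + T F.b * ϑ 0 ^ 2 + F.d * ϑ 0 ^ 3 = 0 := by
    rw [hev] at h0
    linear_combination h0
  have h2 := Cub.cube ϑ 0
  have h3 : (F.c + F.d * N ϑ) + (T F.a - F.d * T (sh ϑ)) * ϑ 0 +
      (T F.b + F.d * T ϑ) * ϑ 0 ^ 2 = 0 := by
    linear_combination h1 - F.d * h2
  have ma : T F.a ∈ K := hO.ha.T_mem hθ.cub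
  have mb : T F.b ∈ K := hO.hb.T_mem hθ.cub
  obtain ⟨z1, z2, z3⟩ := coords_eq_zero hϑ.cub hϑ.nr
    (K.add_mem hO.hc (K.mul_mem hO.hd hϑ.cub.e3))
    (K.sub_mem ma (K.mul_mem hO.hd hϑ.cub.e2))
    (K.add_mem mb (K.mul_mem hO.hd hϑ.cub.e1)) h3
  by_cases hd : F.d = 0
  · left
    have hpt : Pt F K θ 1 0 := by
      refine ⟨Rat.const K.one_mem, Rat.const K.zero_mem, Or.inl one_ne_zero, ?_⟩
      have h4 := hev 1 0
      have e1 : (cst 1 : Fin 3 → A) = 1 := rfl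
      have e0 : (cst 0 : Fin 3 → A) = 0 := rfl
      rw [e1, e0, hd] at h4
      rw [h4]
      ring
    exact ⟨_, _, Pt.map hθ hθ le_rfl h hpt⟩
  · right
    refine ⟨h, F.d, hO.hd, hd, fun p q => ?_⟩
    rw [← hF, hev]
    have h5 : N (cst p - cst q * ϑ) = p ^ 3 - T ϑ * (p ^ 2 * q) + T (sh ϑ) * (p * q ^ 2) -
        N ϑ * q ^ 3 := by
      simp only [N, T, sh, cst, Pi.mul_apply, Pi.sub_apply, Matrix.cons_val_zero,
        Matrix.cons_val_one, Matrix.cons_val]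
      ring
    rw [h5]
    linear_combination q ^ 3 * z1 + (p * q ^ 2) * z2 + (p ^ 2 * q) * z3

theorem to_diagonal (hθ : Fd K θ) (hϑ : Fd K ϑ) (h1 : Fd (ad K {ϑ 0}) θ) (hΘ : Θ.Over K θ)
    (hp : Pt Θ (ad K {ϑ 0}) θ x y) : (∃ x' y', Pt Θ K θ x' y') ∨
      ∃ (h : Mob K θ) (ε : A), ε ∈ K ∧ ε ≠ 0 ∧
        ∀ p q : A, (h.act Θ).ev (cst p) (cst q) = ε * N (cst p - cst q * ϑ) := by
  by_cases hy0 : y = 0
  · left
    have hx0 : x ≠ 0 := hp.ne.resolve_right (fun h => h hy0)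
    have hN := h1.N_ne hp.hx hx0
    have hev := hp.ev
    rw [hy0] at hev
    have e1 : Θ.ev x 0 = Θ.d * N x := by
      simp only [Cube.ev, N, T, sh, Pi.mul_apply, Pi.zero_apply, Matrix.cons_val_zero,
        Matrix.cons_val_one, Matrix.cons_val]
      ring
    rw [e1] at hev
    have hd := (mul_eq_zero.1 hev).resolve_right hN
    refine ⟨1, 0, Rat.const K.one_mem, Rat.const K.zero_mem, Or.inl one_ne_zero, ?_⟩
    have e2 : Θ.ev 1 0 = Θ.d := by
      simp only [Cube.ev, N, T, sh, Pi.mul_apply, Pi.zero_apply, Pi.one_apply,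
        Matrix.cons_val_zero, Matrix.cons_val_one, Matrix.cons_val]
      ring
    rw [e2, hd]
  have hyi := h1.ne hp.hy hy0
  have hR : Rat (ad K {ϑ 0}) θ (x / y) := h1.div hp.hx hp.hy
  have hp1 : Pt Θ (ad K {ϑ 0}) θ (x / y) 1 := by
    refine hp.congr h1 hR (Rat.const (ad K {ϑ 0}).one_mem) (Or.inr one_ne_zero) ?_
    funext i
    simp only [Pi.mul_apply, Pi.div_apply, Pi.one_apply, mul_one]
    exact (div_mul_cancel₀ _ (hyi i)).symm
  obtain ⟨X0, X1, X2, hX0, hX1, hX2, hX⟩ := h1_dec hϑ hR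
  set z : Fin 3 → A := x / y with hz
  have hnr : ϑ 0 ∉ K := hϑ.nr 0
  by_cases hX20 : X2 = 0
  · by_cases hX10 : X1 = 0
    · left
      have hze : z = X0 := by
        funext j
        rw [hX j, hX20, hX10]
        simp
      have hev := hp1.ev
      rw [hze] at hev
      exact ⟨X0, 1, hX0, Rat.const K.one_mem, Or.inr one_ne_zero, hev⟩
    · have hi := hθ.ne hX1 hX10
      let h : Mob K θ := ⟨X1, X0, 0, 1, hX1, hX0, Rat.const K.zero_mem, Rat.const K.one_mem, by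
        intro i
        have : X1 i * (1 : Fin 3 → A) i - X0 i * (0 : Fin 3 → A) i = X1 i := by
          simp
        rw [this]
        exact hi i⟩
      refine h1_fin hθ hϑ hΘ h ?_
      rw [Mob.act_ev]
      have e1 : h.p * cst (ϑ 0) + h.q * cst 1 = z := by
        funext j
        change X1 j * ϑ 0 + X0 j * 1 = z j
        rw [hX j, hX20, Pi.zero_apply]
        ring
      have e2 : h.r * cst (ϑ 0) + h.s * cst 1 = 1 := by
        funext j
        change (0 : A) * ϑ 0 + 1 * 1 = 1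
        ring
      rw [e1, e2]
      exact hp1.ev
  · have hi := hθ.ne hX2 hX20
    have hμ : Rat K θ (fun j => -(X1 j + T ϑ * X2 j) / X2 j) :=
      Rat.div hθ.cub (hX1.add (Rat.smul hϑ.cub.e1 hX2)).neg hX2 hi
    set μ : Fin 3 → A := fun j => -(X1 j + T ϑ * X2 j) / X2 j with hμd
    have hμX : ∀ j, X1 j + μ j * X2 j + T ϑ * X2 j = 0 := by
      intro j
      have := hi j
      simp only [hμd]
      field_simp
      ring
    have hcube := Cub.cube ϑ 0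
    have ha : Rat K θ (fun j => μ j * X0 j + N ϑ * X2 j) :=
      (Rat.mul hθ.cub hμ hX0).add (Rat.smul hϑ.cub.e3 hX2)
    have hb : Rat K θ (fun j => X0 j + μ j * X1 j - T (sh ϑ) * X2 j) :=
      (hX0.add (Rat.mul hθ.cub hμ hX1)).sub (Rat.smul hϑ.cub.e2 hX2)
    set a : Fin 3 → A := fun j => μ j * X0 j + N ϑ * X2 j with had
    set b : Fin 3 → A := fun j => X0 j + μ j * X1 j - T (sh ϑ) * X2 j with hbd
    have hm : ∀ j, (ϑ 0 + μ j) * z j = a j + ϑ 0 * b j := by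
      intro j
      rw [hX j]
      simp only [had, hbd]
      linear_combination X2 j * hcube + ϑ 0 ^ 2 * hμX j
    have hDR : Rat K θ (fun j => b j * μ j - a j * 1) :=
      (Rat.mul hθ.cub hb hμ).sub (Rat.mul hθ.cub ha (Rat.const K.one_mem))
    by_cases hD : (fun j => b j * μ j - a j * 1) = 0
    · left
      have hmR : Rat (ad K {ϑ 0}) θ (fun j => ϑ 0 + μ j) :=
        (Rat.const (mem_ad (Set.mem_singleton _))).add (hμ.mono (le_ad _ _))
      have hm0 : (fun j => ϑ 0 + μ j) ≠ 0 := by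
        intro h0
        have h2 : μ = fun _ => -ϑ 0 := by
          funext j
          have h3 : ϑ 0 + μ j = 0 := congrFun h0 j
          linear_combination h3
        rw [h2] at hμ
        have h4 := hμ.const_mem hθ.cub.inj
        exact hnr (by simpa using K.neg_mem h4)
      have hmi := h1.ne hmR hm0
      have hze : z = b := by
        funext j
        have h3 : b j * μ j - a j * 1 = 0 := congrFun hD j
        have h4 : (ϑ 0 + μ j) * z j = (ϑ 0 + μ j) * b j := by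
          rw [hm j]
          linear_combination -h3
        exact mul_left_cancel₀ (hmi j) h4
      have hev := hp1.ev
      rw [hze] at hev
      exact ⟨b, 1, hb, Rat.const K.one_mem, Or.inr one_ne_zero, hev⟩
    · have hDi := hθ.ne hDR hD
      let h : Mob K θ := ⟨b, a, 1, μ, hb, ha, Rat.const K.one_mem, hμ, fun i => hDi i⟩
      refine h1_fin hθ hϑ hΘ h ?_
      rw [Mob.act_ev]
      have e1 : h.p * cst (ϑ 0) + h.q * cst 1 = (cst (ϑ 0) + μ) * z := by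
        funext j
        change b j * ϑ 0 + a j * 1 = (ϑ 0 + μ j) * z j
        rw [hm j]
        ring
      have e2 : h.r * cst (ϑ 0) + h.s * cst 1 = (cst (ϑ 0) + μ) * 1 := by
        funext j
        change (1 : A) * ϑ 0 + μ j * 1 = (ϑ 0 + μ j) * 1
        ring
      rw [e1, e2, Cube.ev_smul, hp1.ev, mul_zero]

end Pool.Agent.Helper16.C18.H
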