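import Pool.Agent.Helper64.C18.B3
import Pool.Agent.Helper64.C18.T1

set_option autoImplicit false

/-! Project C18: isomorphic cubic fields (offer C18-ISO) -/

/-!
`iso_or`: `K1 = ad K {ϑ 0} = {a + b ϑ 0 + c (ϑ 0) ^ 2}`.  If no `θ i` is in `K1` then `Fd K1 θ`.  If
`θ i = a + b ϑ 0 + c (ϑ 0) ^ 2 ` with `a, b, c ∈ K`, put `ψ j = a + b ϑ j + c (ϑ j) ^ 2` (so `Rat K ϑ ψ`).
The polynomial `∏ (X - ψ j)` has coefficients in `K` and the root `θ i`, whose minimal polynomial over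
`K` is `∏ (X - θ j)` (`cubP_irreducible`); both are monic of degree three, so they are equal, and
`ψ = θ ∘ π` for a permutation `π` (both injective or compare roots with multiplicity).
The rest: `Rat.change`, `Rat.back` of the base library for the change of generator, and
`T, N` are symmetric, `sh (x ∘ π) = (sh x) ∘ π`.
-/

namespace Pool.Agent.Helper16.C18.H

variable {A : Type*} [Field A] [CharZero A] {K E Om : Subfield A} {θ ϑ x y : Fin 3 → A}
  {Θ : Cube A}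

private theorem iso_mem_ad (hϑ : Fd K ϑ) {z : A} (hz : z ∈ ad K {ϑ 0}) :
    ∃ ψ : Fin 3 → A, Rat K ϑ ψ ∧ ψ 0 = z := by
  rw [ad] at hz
  induction hz using Subfield.closure_induction with
  | mem z hz =>
    rcases hz with hz | hz
    · exact ⟨fun _ => z, Rat.const hz, rfl⟩
    · exact ⟨ϑ, Rat.self, (Set.mem_singleton_iff.1 hz).symm⟩
  | one => exact ⟨fun _ => 1, Rat.const K.one_mem, rfl⟩
  | add x y _ _ hx hy =>
    obtain ⟨a, ha, rfl⟩ := hx
    obtain ⟨b, hb, rfl⟩ := hy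
    exact ⟨_, ha.add hb, rfl⟩
  | neg x _ hx =>
    obtain ⟨a, ha, rfl⟩ := hx
    exact ⟨_, ha.neg, rfl⟩
  | inv x _ hx =>
    obtain ⟨a, ha, rfl⟩ := hx
    exact ⟨a⁻¹, hϑ.inv ha, rfl⟩
  | mul x y _ _ hx hy =>
    obtain ⟨a, ha, rfl⟩ := hx
    obtain ⟨b, hb, rfl⟩ := hy
    exact ⟨_, Rat.mul hϑ.cub ha hb, rfl⟩

omit [CharZero A] in
private theorem iso_eval (x : Fin 3 → A) (z : A) :
    z ^ 3 - T x * z ^ 2 + T (sh x) * z - N x = (z - x 0) * (z - x 1) * (z - x 2) := by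
  simp only [T, C18.sh, N, Matrix.cons_val_zero, Matrix.cons_val_one, Matrix.cons_val]
  ring

omit [CharZero A] in
private theorem iso_root {x : Fin 3 → A} {z : A}
    (h : (z - x 0) * (z - x 1) * (z - x 2) = 0) : ∃ j, z = x j := by
  rcases mul_eq_zero.1 h with h1 | h1
  · rcases mul_eq_zero.1 h1 with h2 | h2
    · exact ⟨0, sub_eq_zero.1 h2⟩
    · exact ⟨1, sub_eq_zero.1 h2⟩
  · exact ⟨2, sub_eq_zero.1 h1⟩

theorem iso_or (hθ : Fd K θ) (hϑ : Fd K ϑ) :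
    (∃ π : Equiv.Perm (Fin 3), Rat K ϑ (θ ∘ π)) ∨ Fd (ad K {ϑ 0}) θ := by
  by_cases h : ∀ i, θ i ∉ ad K {ϑ 0}
  · exact Or.inr (hθ.up (le_ad K _) h)
  · left
    push Not at h
    obtain ⟨i, hi⟩ := h
    obtain ⟨ψ, hψ, h0⟩ := iso_mem_ad hϑ hi
    have m1 := hψ.T_mem hϑ.cub
    have m2 := hψ.Tsh_mem hϑ.cub
    have m3 := hψ.N_mem hϑ.cub
    have e1 := iso_eval ψ (θ i)
    rw [← h0, sub_self, zero_mul, zero_mul, h0] at e1
    have e2 := Cub.root (θ := θ) i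
    obtain ⟨g1, g2, g3⟩ := coords_eq_zero (j := i) hθ.cub hθ.nr
      (K.sub_mem hθ.cub.e3 m3) (K.sub_mem m2 hθ.cub.e2) (K.sub_mem hθ.cub.e1 m1)
      (by linear_combination e1 - e2)
    have key : ∀ z : A, (z - ψ 0) * (z - ψ 1) * (z - ψ 2) =
        (z - θ 0) * (z - θ 1) * (z - θ 2) := by
      intro z
      rw [← iso_eval, ← iso_eval]
      linear_combination z ^ 2 * g3 + z * g2 + g1
    have k1 : ∀ j, ∃ l, ψ j = θ l := by
      intro j
      apply iso_root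
      rw [← key]
      fin_cases j <;> simp
    have k2 : ∀ j, ∃ l, θ j = ψ l := by
      intro j
      apply iso_root
      rw [key]
      fin_cases j <;> simp
    choose p hp using k1
    choose q hq using k2
    have hs : Function.Surjective p := by
      intro j
      refine ⟨q j, hθ.cub.inj ?_⟩
      rw [← hp, ← hq]
    have hb : Function.Bijective p := ⟨Finite.injective_iff_surjective.2 hs, hs⟩
    refine ⟨Equiv.ofBijective p hb, ?_⟩
    have e3 : θ ∘ (Equiv.ofBijective p hb) = ψ := by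
      funext j
      exact (hp j).symm
    rw [e3]
    exact hψ

/-- permutation of the three factors -/
def Cube.perm (Θ : Cube A) (π : Equiv.Perm (Fin 3)) : Cube A := ⟨Θ.c, Θ.a ∘ π, Θ.b ∘ π, Θ.d⟩

omit [CharZero A] in
private theorem iso_T (π : Equiv.Perm (Fin 3)) (x : Fin 3 → A) : T (x ∘ π) = T x := by
  have h : ∀ z : Fin 3 → A, T z = ∑ j, z j := by
    intro z
    rw [Fin.sum_univ_three]
    rfl
  rw [h, h]
  exact Equiv.sum_comp π x

omit [CharZero A] in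
private theorem iso_N (π : Equiv.Perm (Fin 3)) (x : Fin 3 → A) : N (x ∘ π) = N x := by
  have h : ∀ z : Fin 3 → A, N z = ∏ j, z j := by
    intro z
    rw [Fin.prod_univ_three]
    rfl
  rw [h, h]
  exact Equiv.prod_comp π x

omit [CharZero A] in
private theorem iso_sh (π : Equiv.Perm (Fin 3)) (x : Fin 3 → A) : sh (x ∘ π) = sh x ∘ π := by
  have h : ∀ (z : Fin 3 → A) (j : Fin 3), sh z j = ∏ i ∈ Finset.univ.erase j, z i := by
    intro z j
    fin_cases j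
    · rw [show (Finset.univ.erase (⟨0, by omega⟩ : Fin 3)) = {1, 2} by decide,
        Finset.prod_pair (by decide)]
      rfl
    · rw [show (Finset.univ.erase (⟨1, by omega⟩ : Fin 3)) = {2, 0} by decide,
        Finset.prod_pair (by decide)]
      rfl
    · rw [show (Finset.univ.erase (⟨2, by omega⟩ : Fin 3)) = {0, 1} by decide,
        Finset.prod_pair (by decide)]
      rfl
  funext j
  rw [Function.comp_apply, h, h]
  exact Finset.prod_equiv π (fun i => by simp) (fun i _ => rfl)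

theorem Cube.perm_ev (Θ : Cube A) (π : Equiv.Perm (Fin 3)) (x y : Fin 3 → A) :
    (Θ.perm π).ev (x ∘ π) (y ∘ π) = Θ.ev x y := by
  have e1 : (Θ.a ∘ π) * (x ∘ π) * (sh y ∘ π) = (Θ.a * x * sh y) ∘ π := rfl
  have e2 : (Θ.b ∘ π) * (sh x ∘ π) * (y ∘ π) = (Θ.b * sh x * y) ∘ π := rfl
  simp only [Cube.ev, Cube.perm, iso_N, iso_sh, e1, e2, iso_T]

theorem rat_iso (hθ : Fd K θ) (hϑ : Fd K ϑ) (hKE : K ≤ E) {π : Equiv.Perm (Fin 3)}
    (hπ : Rat K ϑ (θ ∘ π)) : Rat E ϑ (x ∘ π) ↔ Rat E θ x := by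
  have hC : Cub E ϑ := hϑ.cub.mono hKE
  have hinj : Function.Injective (θ ∘ π) := hθ.cub.inj.comp π.injective
  constructor
  · intro h
    obtain ⟨a, ha, b, hb, c, hc, e⟩ := Rat.change hC (hπ.mono hKE) hinj h
    refine ⟨a, ha, b, hb, c, hc, fun j => ?_⟩
    have h1 := e (π.symm j)
    simpa using h1
  · rintro ⟨a, ha, b, hb, c, hc, e⟩
    exact Rat.back hC (hπ.mono hKE) ⟨a, ha, b, hb, c, hc, fun j => e (π j)⟩

theorem Cube.perm_over (hθ : Fd K θ) (hϑ : Fd K ϑ) {π : Equiv.Perm (Fin 3)}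
    (hπ : Rat K ϑ (θ ∘ π)) (hΘ : Θ.Over K θ) : (Θ.perm π).Over K ϑ :=
  ⟨hΘ.hc, (rat_iso hθ hϑ le_rfl hπ).2 hΘ.ha, (rat_iso hθ hϑ le_rfl hπ).2 hΘ.hb, hΘ.hd⟩

omit [CharZero A] in
private theorem iso_zero (π : Equiv.Perm (Fin 3)) (x : Fin 3 → A) : x ∘ π ≠ 0 ↔ x ≠ 0 := by
  rw [not_iff_not]
  constructor
  · intro h
    funext j
    have h1 := congrFun h (π.symm j)
    simpa using h1
  · rintro rfl
    rfl

theorem pt_iso (hθ : Fd K θ) (hϑ : Fd K ϑ) (hKE : K ≤ E) {π : Equiv.Perm (Fin 3)}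
    (hπ : Rat K ϑ (θ ∘ π)) : Pt (Θ.perm π) E ϑ (x ∘ π) (y ∘ π) ↔ Pt Θ E θ x y := by
  constructor
  · rintro ⟨h1, h2, h3, h4⟩
    rw [rat_iso hθ hϑ hKE hπ] at h1 h2
    rw [iso_zero, iso_zero] at h3
    rw [Cube.perm_ev] at h4
    exact ⟨h1, h2, h3, h4⟩
  · rintro ⟨h1, h2, h3, h4⟩
    refine ⟨(rat_iso hθ hϑ hKE hπ).2 h1, (rat_iso hθ hϑ hKE hπ).2 h2, ?_, ?_⟩
    · rw [iso_zero, iso_zero]
      exact h3
    · rw [Cube.perm_ev]
      exact h4

theorem gen_iso (hθ : Fd K θ) (hϑ : Fd K ϑ) (hK : K ≤ Om) {π : Equiv.Perm (Fin 3)}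
    (hπ : Rat K ϑ (θ ∘ π)) : Gen K Om ϑ (x ∘ π) (y ∘ π) ↔ Gen K Om θ x y := by
  constructor
  · intro h L hKL hLO x' y' hx' hy' hne he
    refine h L hKL hLO (x' ∘ π) (y' ∘ π) ((rat_iso hθ hϑ hKL hπ).2 hx')
      ((rat_iso hθ hϑ hKL hπ).2 hy') ?_ ?_
    · rw [iso_zero, iso_zero]
      exact hne
    · funext j
      exact congrFun he (π j)
  · intro h L hKL hLO x' y' hx' hy' hne he
    obtain ⟨x'', rfl⟩ : ∃ x'' : Fin 3 → A, x' = x'' ∘ π :=
      ⟨x' ∘ π.symm, by funext j; simp⟩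
    obtain ⟨y'', rfl⟩ : ∃ y'' : Fin 3 → A, y' = y'' ∘ π :=
      ⟨y' ∘ π.symm, by funext j; simp⟩
    rw [iso_zero, iso_zero] at hne
    refine h L hKL hLO x'' y'' ((rat_iso hθ hϑ hKL hπ).1 hx')
      ((rat_iso hθ hϑ hKL hπ).1 hy') hne ?_
    funext j
    have h1 := congrFun he (π.symm j)
    simpa using h1

end Pool.Agent.Helper16.C18.H
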