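import Pool.Agent.Helper64.C18.T4

set_option autoImplicit false

/-! Project C18: points over the cubic field of the other cube (offer C18-MP) -/

/-!
`K1 = ad K {ϑ 0}`.  Put `S = ξ 1 + ξ 2`, `D = (ξ 1 - ξ 2) / (ϑ 1 - ϑ 2)`.  Writing
`ξ i = a + b ϑ i + c (ϑ i) ^ 2` with `a, b, c ∈ Om`, `D = b + c (ϑ 1 + ϑ 2)` and `S` are polynomials in
`a, b, c` with coefficients in `K1` (`ϑ 1 + ϑ 2 = T ϑ - ϑ 0`, etc.), and `ξ 1 ξ 2` is a polynomial in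
`S`, `D` over `K1` (`(ϑ 1 - ϑ 2) ^ 2 ∈ K1`).  The equation `nf n c ξ = 0` reads
`ξ 0 (ξ 1 ξ 2 + n) = -n (S + c)`; here `ξ 1 ξ 2 + n ≠ 0`, since otherwise also `S = -c` and `ξ 1, ξ 2`
are algebraic over `K`, so every element of `Om` is algebraic over `ad K {ξ 0}`-ish field, against
`Tr2.not_one`.  So `ξ 0`, and then `a, b, c` (linear system with determinant a Vandermonde) are in
`ad K1 {S, D}`, so `Om ≤ ad K1 {S, D}` (by `hg` for the intersection with `Om`).  `S, D` are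
algebraically independent over `K1` (`Tr2.indep`, `K1` is algebraic over `K`: `algOver_ad`), so
`spec_two` over `K1` applies (`Θ.Over K1 θ`, `Pt Θ (ad K1 {S, D}) θ x y` by monotonicity).
-/

namespace Pool.Agent.Helper16.C18.H

variable {A : Type*} [Field A] [CharZero A] {K Om : Subfield A} {θ ϑ ξ x y : Fin 3 → A}
  {Θ : Cube A} {n c : A}

omit [CharZero A] in
private theorem MP_sum {L : Subfield A} (hϑ : Cub L ϑ) (h0 : ϑ 0 ∈ L) : ϑ 1 + ϑ 2 ∈ L := by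
  have h : ϑ 1 + ϑ 2 = T ϑ - ϑ 0 := by
    simp only [T]
    ring
  rw [h]
  exact L.sub_mem hϑ.e1 h0

omit [CharZero A] in
private theorem MP_prod {L : Subfield A} (hϑ : Cub L ϑ) (h0 : ϑ 0 ∈ L) : ϑ 1 * ϑ 2 ∈ L := by
  have h : ϑ 1 * ϑ 2 = T (sh ϑ) - ϑ 0 * (ϑ 1 + ϑ 2) := by
    simp only [T, sh, Matrix.cons_val_zero, Matrix.cons_val_one, Matrix.cons_val]
    ring
  rw [h]
  exact L.sub_mem hϑ.e2 (L.mul_mem h0 (MP_sum hϑ h0))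

/-- the linear system for the coordinates -/
private theorem MP_lin {L : Subfield A} (hϑ : Cub L ϑ) (h0 : ϑ 0 ∈ L) (hξ : Rat Om ϑ ξ)
    (hx : ξ 0 ∈ L) (hS : ξ 1 + ξ 2 ∈ L) (hD : (ξ 1 - ξ 2) / (ϑ 1 - ϑ 2) ∈ L) : Rat L ϑ ξ := by
  obtain ⟨a, -, b, -, c, -, e⟩ := hξ
  have h12 : ϑ 1 - ϑ 2 ≠ 0 := sub_ne_zero.2 hϑ.ne.2.1
  have ht1 := MP_sum hϑ h0
  have ht2 := MP_prod hϑ h0
  have hDt : (ϑ 0 - ϑ 1) * (ϑ 0 - ϑ 2) ≠ 0 :=
    mul_ne_zero (sub_ne_zero.2 hϑ.ne.1) (sub_ne_zero.2 hϑ.ne.2.2.symm)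
  have hDtm : (ϑ 0 - ϑ 1) * (ϑ 0 - ϑ 2) ∈ L := by
    have h : (ϑ 0 - ϑ 1) * (ϑ 0 - ϑ 2) = ϑ 0 ^ 2 - ϑ 0 * (ϑ 1 + ϑ 2) + ϑ 1 * ϑ 2 := by ring
    rw [h]
    exact L.add_mem (L.sub_mem (L.pow_mem h0 2) (L.mul_mem h0 ht1)) ht2
  have hDe : (ξ 1 - ξ 2) / (ϑ 1 - ϑ 2) = b + c * (ϑ 1 + ϑ 2) := by
    rw [div_eq_iff h12, e 1, e 2]
    ring
  set D := (ξ 1 - ξ 2) / (ϑ 1 - ϑ 2) with hDd
  have h2 : (2 : A) ∈ L := ofNat_mem L 2
  have hc : c ∈ L := by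
    have h : c = (ξ 0 - ϑ 0 * D - (ξ 1 + ξ 2 - (ϑ 1 + ϑ 2) * D) / 2) /
        ((ϑ 0 - ϑ 1) * (ϑ 0 - ϑ 2)) := by
      rw [eq_div_iff hDt, hDe, e 0, e 1, e 2]
      ring
    rw [h]
    exact L.div_mem (L.sub_mem (L.sub_mem hx (L.mul_mem h0 hD))
      (L.div_mem (L.sub_mem hS (L.mul_mem ht1 hD)) h2)) hDtm
  have hb : b ∈ L := by
    have h : b = D - c * (ϑ 1 + ϑ 2) := by
      rw [hDe]
      ring
    rw [h]
    exact L.sub_mem hD (L.mul_mem hc ht1)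
  have ha : a ∈ L := by
    have h : a = ξ 0 - b * ϑ 0 - c * ϑ 0 ^ 2 := by
      rw [e 0]
      ring
    rw [h]
    exact L.sub_mem (L.sub_mem hx (L.mul_mem hb h0)) (L.mul_mem hc (L.pow_mem h0 2))
  exact ⟨a, ha, b, hb, c, hc, e⟩

/-- the field of a generating point is in every field with the three sums -/
private theorem MP_le (hK : K ≤ Om) (hϑ : Cub K ϑ) (hξ : Rat Om ϑ ξ) (hg : GenA K Om ϑ ξ)
    {L : Subfield A} (hL : K ≤ L) (h0 : ϑ 0 ∈ L)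
    (hx : ξ 0 ∈ L) (hS : ξ 1 + ξ 2 ∈ L) (hD : (ξ 1 - ξ 2) / (ϑ 1 - ϑ 2) ∈ L) : Om ≤ L := by
  have h1 := MP_lin (hϑ.mono hL) h0 hξ hx hS hD
  have h2 := Rat.inf hϑ.inj h1 hξ
  exact (hg (L ⊓ Om) (le_inf hL hK) inf_le_right h2).trans inf_le_left

theorem mpoint (hK : K ≤ Om) (hϑ : Fd K ϑ) (hn : n ∈ K) (hc : c ∈ K) (hn0 : n ≠ 0)
    (hξ : Rat Om ϑ ξ) (h0 : nf n c ξ = 0) (hg : GenA K Om ϑ ξ) (htr : Tr2 K Om)
    (h1 : Fd (ad K {ϑ 0}) θ) (hΘ : Θ.Over K θ) (hp : Pt Θ Om θ x y) :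
    ∃ x' y', Pt Θ (ad K {ϑ 0}) θ x' y' := by
  have hC := hϑ.cub
  have h12 : ϑ 1 - ϑ 2 ≠ 0 := sub_ne_zero.2 hC.ne.2.1
  have hK1 : K ≤ ad K {ϑ 0} := le_ad K _
  have hϑ0 : ϑ 0 ∈ ad K {ϑ 0} := mem_ad rfl
  have halg : IsAlgebraic K (ϑ 0) :=
    ⟨cubP hC, (cubP_monic hC).ne_zero, by rw [cubP_aeval]; simp⟩
  have hAK1 : AlgOver K (ad K {ϑ 0}) := by
    refine algOver_ad fun z hz => ?_
    rw [Set.mem_singleton_iff.1 hz]
    exact halg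
  have heq : ξ 0 * (ξ 1 * ξ 2 + n) = - (n * (ξ 1 + ξ 2 + c)) := by
    have h2 : ξ 0 * ξ 1 * ξ 2 + n * (ξ 0 + ξ 1 + ξ 2 + c) = 0 := h0
    linear_combination h2
  set S := ξ 1 + ξ 2 with hS
  set D := (ξ 1 - ξ 2) / (ϑ 1 - ϑ 2) with hD
  -- the discriminant
  have hdisc : (ϑ 1 - ϑ 2) ^ 2 ∈ ad K {ϑ 0} := by
    have h : (ϑ 1 - ϑ 2) ^ 2 = (ϑ 1 + ϑ 2) ^ 2 - 4 * (ϑ 1 * ϑ 2) := by ring
    rw [h]
    have h4 : (4 : A) ∈ ad K {ϑ 0} := ofNat_mem _ 4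
    exact Subfield.sub_mem _ (Subfield.pow_mem _ (MP_sum (hC.mono hK1) hϑ0) 2)
      (Subfield.mul_mem _ h4 (MP_prod (hC.mono hK1) hϑ0))
  have hP : ξ 1 * ξ 2 = (S ^ 2 - D ^ 2 * (ϑ 1 - ϑ 2) ^ 2) / 4 := by
    have h : D ^ 2 * (ϑ 1 - ϑ 2) ^ 2 = (ξ 1 - ξ 2) ^ 2 := by
      rw [hD]
      field_simp
    rw [h, hS]
    ring
  have hne : ξ 1 * ξ 2 + n ≠ 0 := by
    intro hcon
    rw [hcon, mul_zero] at heq
    have hS0 : S + c = 0 := by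
      have := mul_eq_zero.1 (neg_eq_zero.1 heq.symm)
      exact this.resolve_left hn0
    have hSc : S = - c := eq_neg_of_add_eq_zero_left hS0
    have hD2 : D ^ 2 = (c ^ 2 + 4 * n) / (ϑ 1 - ϑ 2) ^ 2 := by
      rw [eq_div_iff (pow_ne_zero 2 h12)]
      have h := hP
      rw [eq_neg_of_add_eq_zero_left hcon, hSc] at h
      have h' := (eq_div_iff (by norm_num : (4 : A) ≠ 0)).1 h
      linear_combination h'
    have hDK : D ^ 2 ∈ ad K {ϑ 0} := by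
      rw [hD2]
      have h4 : (4 : A) ∈ ad K {ϑ 0} := ofNat_mem _ 4
      exact Subfield.div_mem _ (Subfield.add_mem _ (Subfield.pow_mem _ (hK1 hc) 2)
        (Subfield.mul_mem _ h4 (hK1 hn))) hdisc
    have hDa : IsAlgebraic K D := IsAlgebraic.of_pow (by norm_num : 0 < 2) (hAK1 _ hDK)
    have hAC : AlgOver K (ad K {ϑ 0, D}) := by
      refine algOver_ad fun z hz => ?_
      rcases hz with hz | hz
      · rw [hz]
        exact halg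
      · rw [Set.mem_singleton_iff.1 hz]
        exact hDa
    have hKC : K ≤ ad K {ϑ 0, D} := le_ad K _
    have hCL : ad K {ϑ 0, D} ≤ ad (ad K {ϑ 0, D}) {ξ 0} := le_ad _ _
    have hO : Om ≤ ad (ad K {ϑ 0, D}) {ξ 0} := by
      refine MP_le hK hC hξ hg (hKC.trans hCL) (hCL (mem_ad (Or.inl rfl))) (mem_ad rfl) ?_
        (hCL (mem_ad (Or.inr rfl)))
      rw [← hS, hSc]
      exact Subfield.neg_mem _ (hCL (hKC hc))
    exact htr.not_one hKC hAC fun z hz =>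
      isAlgebraic_algebraMap (A := A) (⟨z, hO hz⟩ : ad (ad K {ϑ 0, D}) {ξ 0})
  -- the field is generated by `S` and `D`
  have hKL : ad K {ϑ 0} ≤ ad (ad K {ϑ 0}) {S, D} := le_ad _ _
  have hSL : S ∈ ad (ad K {ϑ 0}) {S, D} := mem_ad (Or.inl rfl)
  have hDL : D ∈ ad (ad K {ϑ 0}) {S, D} := mem_ad (Or.inr rfl)
  have hO : Om ≤ ad (ad K {ϑ 0}) {S, D} := by
    refine MP_le hK hC hξ hg (hK1.trans hKL) (hKL hϑ0) ?_ hSL hDL
    have h : ξ 0 = - (n * (S + c)) / (ξ 1 * ξ 2 + n) := by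
      rw [eq_div_iff hne]
      exact heq
    rw [h]
    have h4 : (4 : A) ∈ ad (ad K {ϑ 0}) {S, D} := ofNat_mem _ 4
    have hn' := hKL (hK1 hn)
    have hc' := hKL (hK1 hc)
    refine Subfield.div_mem _ (Subfield.neg_mem _ (Subfield.mul_mem _ hn'
      (Subfield.add_mem _ hSL hc'))) (Subfield.add_mem _ ?_ hn')
    rw [hP]
    exact Subfield.div_mem _ (Subfield.sub_mem _ (Subfield.pow_mem _ hSL 2)
      (Subfield.mul_mem _ (Subfield.pow_mem _ hDL 2) (hKL hdisc))) h4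
  have hind := htr.indep hK1 hAK1 hO
  exact spec_two h1 (hΘ.mono hK1) hind ⟨hp.hx.mono hO, hp.hy.mono hO, hp.ne, hp.ev⟩

end Pool.Agent.Helper16.C18.H
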