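import Pool.Agent.Helper64.C18.B2
import Pool.Agent.Helper64.C18.T1

set_option autoImplicit false

/-! Project C18: specialisation (offer C18-T4) -/

/-!
`spec_one`: write `x = Σ a_k θ ^ k`, `y = Σ b_k θ ^ k` with `a_k, b_k` in `E(s)`, all of them
quotients of elements `P(s)`, `P` in `E[X]` (`ad E {s}` is the field generated by `E` and `s`).  Clear
the denominators and divide the six polynomials by the common power of `X`: so `a_k = P_k(s)`,
`b_k = Q_k(s)` up to a common factor of `A`, not all constant terms zero.  The identity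
`Θ.ev (Σ P_k(s) θ ^ k) (Σ Q_k(s) θ ^ k) = 0` is a polynomial identity in `s` with coefficients in
`E(θ 0, θ 1, θ 2)`, over which `s` is still transcendental, so it can be evaluated at `s = 0`.  The
result is nonzero as the coordinates are unique (`coord_unique`).
`spec_two`: `ad E {s0, s1} = ad (ad E {s0}) {s1}`, `s1` is transcendental over `ad E {s0}`, and
`Fd (ad E {s0}) θ`, since `θ j` is algebraic over `E`, not in `E`, and `E(s0)` is purely transcendental
over `E`.
-/

namespace Pool.Agent.Helper16.C18.H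

variable {A : Type*} [Field A] [CharZero A] {K C Om E : Subfield A}

omit [CharZero A] in
private theorem T4_ad_le {s z : A} (hz : z ∈ ad E {s}) : z ∈ IntermediateField.adjoin E {s} := by
  have h2 : ad E {s} ≤ (IntermediateField.adjoin E {s}).toSubfield := by
    rw [ad, Subfield.closure_le]
    rintro w (hw | hw)
    · exact (IntermediateField.adjoin E {s}).algebraMap_mem ⟨w, hw⟩
    · exact IntermediateField.subset_adjoin E {s} hw
  exact h2 hz

omit [CharZero A] in
private theorem T4_down {L : Subfield A} {M : IntermediateField E A} (h : ∀ z ∈ L, z ∈ M) {z : A}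
    (hz : Transcendental M z) : Transcendental L z := by
  rintro ⟨p, hp0, hp1⟩
  let f : L →+* M :=
    { toFun := fun z => ⟨z, h z z.2⟩
      map_one' := rfl
      map_mul' := fun _ _ => rfl
      map_zero' := rfl
      map_add' := fun _ _ => rfl }
  refine hz ⟨p.map f, ?_, ?_⟩
  · rwa [Ne, Polynomial.map_eq_zero]
  · rw [Polynomial.aeval_def, Polynomial.eval₂_map]
    rw [Polynomial.aeval_def] at hp1
    exact hp1

open Polynomial in
omit [CharZero A] in
private theorem T4_mem_ad {s z : A} (hz : z ∈ ad E {s}) :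
    ∃ P R : E[X], aeval s R ≠ 0 ∧ aeval s R * z = aeval s P := by
  have h1 : z ∈ IntermediateField.adjoin E {s} := T4_ad_le hz
  obtain ⟨P, R, e⟩ := (IntermediateField.mem_adjoin_simple_iff E z).1 h1
  by_cases hR : aeval s R = 0
  · refine ⟨0, 1, by simp, ?_⟩
    rw [e, hR]
    simp
  · refine ⟨P, R, hR, ?_⟩
    rw [e]
    field_simp

open Polynomial in
omit [CharZero A] in
private theorem T4_common {ι : Type*} [Fintype ι] {s : A} (f : ι → A)
    (hf : ∀ k, f k ∈ ad E {s}) :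
    ∃ (R : E[X]) (P : ι → E[X]), aeval s R ≠ 0 ∧ ∀ k, aeval s R * f k = aeval s (P k) := by
  classical
  choose P R hR e using fun k => T4_mem_ad (hf k)
  refine ⟨∏ k, R k, fun k => (∏ j ∈ Finset.univ.erase k, R j) * P k, ?_, fun k => ?_⟩
  · rw [map_prod]
    exact Finset.prod_ne_zero_iff.2 fun k _ => hR k
  · rw [map_mul, ← e k, ← Finset.prod_erase_mul Finset.univ R (Finset.mem_univ k), map_mul]
    ring

open Polynomial in
private theorem T4_power {F : Type*} [Field F] {ι : Type*} (P : ι → F[X])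
    (hP : ∃ k, P k ≠ 0) :
    ∃ (n : ℕ) (g : ι → F[X]), (∀ k, P k = X ^ n * g k) ∧ ∃ k, (g k).coeff 0 ≠ 0 := by
  classical
  have hex : ∃ n, ∃ k, (P k).coeff n ≠ 0 := by
    obtain ⟨k, hk⟩ := hP
    by_contra h
    push Not at h
    exact hk (Polynomial.ext fun n => by simpa using h n k)
  have hd : ∀ k, X ^ (Nat.find hex) ∣ P k := fun k => X_pow_dvd_iff.2 fun d hdlt => by
    by_contra h
    exact Nat.find_min hex hdlt ⟨k, h⟩
  choose g hg using hd
  refine ⟨Nat.find hex, g, hg, ?_⟩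
  obtain ⟨k, hk⟩ := Nat.find_spec hex
  refine ⟨k, fun h0 => hk ?_⟩
  have h2 := coeff_X_pow_mul (g k) (Nat.find hex) 0
  rw [zero_add] at h2
  rw [hg k, h2, h0]

open Polynomial in
omit [CharZero A] in
private theorem T4_key {θ : Fin 3 → A} {Θ : Cube A} (hC : Cub E θ) (hΘ : Θ.Over E θ) {s : A}
    (hs : Transcendental E s) (P Q : Fin 3 → E[X])
    (h : Θ.ev (fun i => aeval s (P 0) + aeval s (P 1) * θ i + aeval s (P 2) * θ i ^ 2)
      (fun i => aeval s (Q 0) + aeval s (Q 1) * θ i + aeval s (Q 2) * θ i ^ 2) = 0) (z : A) :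
    Θ.ev (fun i => aeval z (P 0) + aeval z (P 1) * θ i + aeval z (P 2) * θ i ^ 2)
      (fun i => aeval z (Q 0) + aeval z (Q 1) * θ i + aeval z (Q 2) * θ i ^ 2) = 0 := by
  set F : IntermediateField E A := algebraicClosure E A with hF
  have hsF : Transcendental F s := hs.algebraicClosure
  have hE : ∀ w ∈ E, w ∈ F := fun w hw => F.algebraMap_mem ⟨w, hw⟩
  have hθ : ∀ j, θ j ∈ F := fun j => mem_algebraicClosure_iff.2
    ⟨cubP hC, (cubP_monic hC).ne_zero, by rw [cubP_aeval]; fin_cases j <;> simp⟩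
  have hR : ∀ w : Fin 3 → A, Rat E θ w → ∀ j, w j ∈ F := by
    rintro w ⟨a, ha, b, hb, c, hc, e⟩ j
    rw [e j]
    exact F.add_mem (F.add_mem (hE a ha) (F.mul_mem (hE b hb) (hθ j)))
      (F.mul_mem (hE c hc) (pow_mem (hθ j) 2))
  have ha := hR _ hΘ.ha
  have hb := hR _ hΘ.hb
  have hc := hE _ hΘ.hc
  have hd := hE _ hΘ.hd
  let L : (Fin 3 → E[X]) → Fin 3 → F[X] := fun P i =>
    (P 0).map (algebraMap E F) + (P 1).map (algebraMap E F) * Polynomial.C ⟨θ i, hθ i⟩
      + (P 2).map (algebraMap E F) * Polynomial.C ⟨θ i, hθ i⟩ ^ 2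
  have hL : ∀ (z : A) (P : Fin 3 → E[X]) (i : Fin 3), aeval z (L P i) =
      aeval z (P 0) + aeval z (P 1) * θ i + aeval z (P 2) * θ i ^ 2 := by
    intro z P i
    simp only [L, map_add, map_mul, map_pow, aeval_map_algebraMap, aeval_C]
    rfl
  let G : F[X] := Polynomial.C ⟨Θ.c, hc⟩ * (L Q 0 * L Q 1 * L Q 2)
    + (Polynomial.C ⟨Θ.a 0, ha 0⟩ * L P 0 * (L Q 1 * L Q 2)
      + Polynomial.C ⟨Θ.a 1, ha 1⟩ * L P 1 * (L Q 2 * L Q 0)
      + Polynomial.C ⟨Θ.a 2, ha 2⟩ * L P 2 * (L Q 0 * L Q 1))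
    + (Polynomial.C ⟨Θ.b 0, hb 0⟩ * (L P 1 * L P 2) * L Q 0
      + Polynomial.C ⟨Θ.b 1, hb 1⟩ * (L P 2 * L P 0) * L Q 1
      + Polynomial.C ⟨Θ.b 2, hb 2⟩ * (L P 0 * L P 1) * L Q 2)
    + Polynomial.C ⟨Θ.d, hd⟩ * (L P 0 * L P 1 * L P 2)
  have hG : ∀ z : A, aeval z G =
      Θ.ev (fun i => aeval z (P 0) + aeval z (P 1) * θ i + aeval z (P 2) * θ i ^ 2)
      (fun i => aeval z (Q 0) + aeval z (Q 1) * θ i + aeval z (Q 2) * θ i ^ 2) := by
    intro z
    simp only [G, map_add, map_mul, aeval_C, hL, Cube.ev, N, T, sh, Pi.mul_apply,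
      Matrix.cons_val_zero, Matrix.cons_val_one, Matrix.cons_val]
    rfl
  have h0 : G = 0 := by
    by_contra hne
    exact hsF ⟨G, hne, (hG s).trans h⟩
  rw [← hG z, h0, map_zero]

open Polynomial in
private theorem T4_one {θ : Fin 3 → A} {Θ : Cube A} (hC : Cub E θ) (hΘ : Θ.Over E θ) {s : A}
    (hs : Transcendental E s) {x y : Fin 3 → A} (hp : Pt Θ (ad E {s}) θ x y) :
    ∃ x' y' : Fin 3 → A, Pt Θ E θ x' y' := by
  obtain ⟨a0, ha0, a1, ha1, a2, ha2, ex⟩ := hp.hx
  obtain ⟨b0, hb0, b1, hb1, b2, hb2, ey⟩ := hp.hy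
  obtain ⟨R, P, hR, hP⟩ := T4_common (E := E) (s := s)
    (Sum.elim ![a0, a1, a2] ![b0, b1, b2] : Fin 3 ⊕ Fin 3 → A) (by
      rintro (k | k) <;> fin_cases k
      · exact ha0
      · exact ha1
      · exact ha2
      · exact hb0
      · exact hb1
      · exact hb2)
  have e0 := hP (Sum.inl 0)
  have e1 := hP (Sum.inl 1)
  have e2 := hP (Sum.inl 2)
  have f0 := hP (Sum.inr 0)
  have f1 := hP (Sum.inr 1)
  have f2 := hP (Sum.inr 2)
  simp only [Sum.elim_inl, Sum.elim_inr, Matrix.cons_val_zero, Matrix.cons_val_one,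
    Matrix.cons_val] at e0 e1 e2 f0 f1 f2
  have hne : ∃ k, P k ≠ 0 := by
    by_contra h
    push Not at h
    rw [h] at e0 e1 e2 f0 f1 f2
    simp only [map_zero, mul_eq_zero, hR, false_or] at e0 e1 e2 f0 f1 f2
    rcases hp.ne with h1 | h1
    · exact h1 (funext fun j => by rw [ex j, e0, e1, e2]; simp)
    · exact h1 (funext fun j => by rw [ey j, f0, f1, f2]; simp)
  obtain ⟨n, g, hg, k, hk⟩ := T4_power P hne
  have hs0 : s ≠ 0 := fun h => hs (h ▸ isAlgebraic_zero)
  have key : ∀ (c : A) (k : Fin 3 ⊕ Fin 3), aeval s R * c = aeval s (P k) →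
      c = (s ^ n / aeval s R) * aeval s (g k) := by
    intro c k hc
    rw [hg k, map_mul, map_pow, aeval_X] at hc
    field_simp
    linear_combination hc
  have hm : s ^ n / aeval s R ≠ 0 := div_ne_zero (pow_ne_zero n hs0) hR
  have hev := hp.ev
  have hx' : x = (fun _ => s ^ n / aeval s R) * fun i => aeval s (g (Sum.inl 0))
      + aeval s (g (Sum.inl 1)) * θ i + aeval s (g (Sum.inl 2)) * θ i ^ 2 := by
    funext j
    rw [Pi.mul_apply, ex j, key a0 _ e0, key a1 _ e1, key a2 _ e2]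
    ring
  have hy' : y = (fun _ => s ^ n / aeval s R) * fun i => aeval s (g (Sum.inr 0))
      + aeval s (g (Sum.inr 1)) * θ i + aeval s (g (Sum.inr 2)) * θ i ^ 2 := by
    funext j
    rw [Pi.mul_apply, ey j, key b0 _ f0, key b1 _ f1, key b2 _ f2]
    ring
  rw [hx', hy', Cube.ev_smul] at hev
  have hev2 := (mul_eq_zero.1 hev).resolve_left (N_ne_zero.2 fun _ => hm)
  have hev3 := T4_key hC hΘ hs (fun i => g (Sum.inl i)) (fun i => g (Sum.inr i)) hev2 0
  have hE : ∀ p : E[X], aeval (0 : A) p ∈ E := fun p => by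
    rw [← coeff_zero_eq_aeval_zero']
    exact (p.coeff 0).2
  have hE0 : ∀ p : E[X], aeval (0 : A) p = 0 → p.coeff 0 = 0 := fun p hp => by
    rw [← coeff_zero_eq_aeval_zero'] at hp
    exact Subtype.ext hp
  refine ⟨_, _, ⟨⟨_, hE _, _, hE _, _, hE _, fun j => rfl⟩,
    ⟨_, hE _, _, hE _, _, hE _, fun j => rfl⟩, ?_, hev3⟩⟩
  by_contra hcon
  push Not at hcon
  obtain ⟨c1, c2⟩ := hcon
  obtain ⟨p0, p1, p2⟩ := coord_unique hC.inj (fun i => congrFun c1 i)
  obtain ⟨q0, q1, q2⟩ := coord_unique hC.inj (fun i => congrFun c2 i)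
  apply hk
  rcases k with k | k <;> fin_cases k
  · exact hE0 _ p0
  · exact hE0 _ p1
  · exact hE0 _ p2
  · exact hE0 _ q0
  · exact hE0 _ q1
  · exact hE0 _ q2

/-- a projective point of a twisted cube over `E(s)`, `s` transcendental, gives one over `E` -/
theorem spec_one {θ : Fin 3 → A} {Θ : Cube A} (hC : Fd E θ) (hΘ : Θ.Over E θ) {s : A}
    (hs : Transcendental E s) {x y : Fin 3 → A} (hp : Pt Θ (ad E {s}) θ x y) :
    ∃ x' y' : Fin 3 → A, Pt Θ E θ x' y' :=
  T4_one hC.cub hΘ hs hp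

/-- the same for two variables -/
theorem spec_two {θ : Fin 3 → A} {Θ : Cube A} (hC : Fd E θ) (hΘ : Θ.Over E θ) {s0 s1 : A}
    (hs : AlgebraicIndependent E ![s0, s1]) {x y : Fin 3 → A}
    (hp : Pt Θ (ad E {s0, s1}) θ x y) : ∃ x' y' : Fin 3 → A, Pt Θ E θ x' y' := by
  have h0 : Transcendental E s0 := hs.transcendental 0
  have h1 : Transcendental (Algebra.adjoin E {s0}) s1 := by
    have h2 := hs.transcendental_adjoin (s := {0}) (i := 1) (by simp)
    rw [Set.image_singleton] at h2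
    exact h2
  have h2 : Transcendental (ad E {s0}) s1 :=
    T4_down (M := IntermediateField.adjoin E {s0}) (fun z hz => T4_ad_le hz)
      (IntermediateField.transcendental_adjoin_iff.2 h1)
  have hle : ad E {s0, s1} ≤ ad (ad E {s0}) {s1} := by
    refine ad_le ((le_ad E {s0}).trans (le_ad _ _)) ?_
    rintro w (rfl | rfl)
    · exact le_ad _ _ (mem_ad rfl)
    · exact mem_ad rfl
  have hp2 : Pt Θ (ad (ad E {s0}) {s1}) θ x y := ⟨hp.hx.mono hle, hp.hy.mono hle, hp.ne, hp.ev⟩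
  obtain ⟨x', y', hp3⟩ := T4_one (hC.cub.mono (le_ad E {s0})) (hΘ.mono (le_ad E {s0})) h2 hp2
  exact T4_one hC.cub hΘ h0 hp3

end Pool.Agent.Helper16.C18.H
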