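import Pool.Agent.Helper64.C18.LK

set_option autoImplicit false

/-! Project C18: points and generating points through the link (offer C18-TR) -/

/-!
Let `Y = (p, q; r, s)`.  (R) for `x, y` in `E[θ]`, not both zero, there are `p, q, r, s` in `E`, not all
zero, with `x (q + s θ) = (p + r θ) y`: look for `m = m0 + m1 θ + m2 θ²` in `E[θ]`, `m ≠ 0`, such that the
`θ²`-coordinates of `m x` and `m y` vanish (two linear equations for `(m0, m1, m2)` in `E³`), then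
`p + r θ = m x`, `q + s θ = m y`.  The same for `ϑ`: `x (r - s ϑ) = (p - q ϑ) y`.
(U) uniqueness: if `m (p + r θ) = p' + r' θ`, `m (q + s θ) = q' + s' θ` with `m` in `E[θ]` and
`det Y ≠ 0` then `m` is a constant: the `θ²`-coordinates give `m2 (p + e1 r) + m1 r = 0`,
`m2 (q + e1 s) + m1 s = 0`, determinant `p s - q r` up to sign.  If `det Y = 0` then `Y` has rank one,
`(p, q) = α (t0, t1)`, `(r, s) = β (t0, t1)` with all entries in `E`, and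
`Θ.ev (p + r θ) (q + s θ) = N (α + β θ) * ε * N (t0 - t1 ϑ) ≠ 0` by `Fd E θ`, `Fd E ϑ`; so for points of
the surface `det Y ≠ 0`.
`link_pt`, `link_pt'`: (R) and `Cube.ev_smul`, `Linked`; `(p - q ϑ, r - s ϑ) ≠ 0` since `ϑ j ∉ E`.
`link_gen`: let `L` contain a representative `(x', y')` of the point `(p + r θ : q + s θ)`.  It is a
point of `Θ` over `L` (`Pt.congr` over `Om` gives the value zero), so by (R) over `L` there are
`p', ...` in `L` with `(x' : y') = (p' + r' θ : q' + s' θ)`; by (U) over `Om` `Y' ` is a multiple of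
`Y`, so `(p' - q' ϑ, r' - s' ϑ)` represents the point `(p - q ϑ : r - s ϑ)`, and `Om ≤ L` by `hg`.
-/

namespace Pool.Agent.Helper16.C18.H

variable {A : Type*} [Field A] [CharZero A] {K E Om : Subfield A} {θ ϑ : Fin 3 → A}
  {Θ Θ' : Cube A} {x y : Fin 3 → A}

private theorem tr_rat {p r : A} (hp : p ∈ E) (hr : r ∈ E) : Rat E θ (cst p + cst r * θ) :=
  ⟨p, hp, r, hr, 0, E.zero_mem, fun j => by
    show p + r * θ j = p + r * θ j + 0 * θ j ^ 2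
    ring⟩

private theorem tr_rat' {p r : A} (hp : p ∈ E) (hr : r ∈ E) : Rat E θ (cst p - cst r * θ) :=
  ⟨p, hp, -r, E.neg_mem hr, 0, E.zero_mem, fun j => by
    show p - r * θ j = p + -r * θ j + 0 * θ j ^ 2
    ring⟩

private theorem tr_zero (hθ : Fd E θ) {p r : A} (hp : p ∈ E) (hr : r ∈ E) {j : Fin 3}
    (h : p + r * θ j = 0) : p = 0 ∧ r = 0 := by
  have h1 : r = 0 := by
    by_contra hr0
    apply hθ.nr j
    have : θ j = -p / r := by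
      rw [eq_div_iff hr0]
      linear_combination h
    rw [this]
    exact E.div_mem (E.neg_mem hp) hr
  refine ⟨?_, h1⟩
  rw [h1, zero_mul, add_zero] at h
  exact h

private theorem tr_zero' (hθ : Fd E θ) {p r : A} (hp : p ∈ E) (hr : r ∈ E) {j : Fin 3}
    (h : p - r * θ j = 0) : p = 0 ∧ r = 0 := by
  obtain ⟨h1, h2⟩ := tr_zero (j := j) hθ hp (E.neg_mem hr) (by linear_combination h)
  exact ⟨h1, neg_eq_zero.1 h2⟩

/-- two linear equations in three unknowns -/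
private theorem tr_lin {a b c a' b' c' : A} (ha : a ∈ E) (hb : b ∈ E) (hc : c ∈ E)
    (ha' : a' ∈ E) (hb' : b' ∈ E) (hc' : c' ∈ E) : ∃ m0 ∈ E, ∃ m1 ∈ E, ∃ m2 ∈ E,
      (m0 ≠ 0 ∨ m1 ≠ 0 ∨ m2 ≠ 0) ∧ m0 * a + m1 * b + m2 * c = 0 ∧
        m0 * a' + m1 * b' + m2 * c' = 0 := by
  by_cases h : b * c' - c * b' ≠ 0 ∨ c * a' - a * c' ≠ 0 ∨ a * b' - b * a' ≠ 0
  · exact ⟨_, E.sub_mem (E.mul_mem hb hc') (E.mul_mem hc hb'), _,
      E.sub_mem (E.mul_mem hc ha') (E.mul_mem ha hc'), _,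
      E.sub_mem (E.mul_mem ha hb') (E.mul_mem hb ha'), h, by ring, by ring⟩
  · push Not at h
    obtain ⟨h1, h2, h3⟩ := h
    by_cases h4 : a ≠ 0 ∨ b ≠ 0
    · refine ⟨b, hb, -a, E.neg_mem ha, 0, E.zero_mem, ?_, by ring, by linear_combination -h3⟩
      rcases h4 with h4 | h4
      · exact Or.inr (Or.inl (neg_ne_zero.2 h4))
      · exact Or.inl h4
    · push Not at h4
      by_cases h5 : a' ≠ 0 ∨ b' ≠ 0
      · refine ⟨b', hb', -a', E.neg_mem ha', 0, E.zero_mem, ?_, by rw [h4.1, h4.2]; ring,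
          by ring⟩
        rcases h5 with h5 | h5
        · exact Or.inr (Or.inl (neg_ne_zero.2 h5))
        · exact Or.inl h5
      · push Not at h5
        exact ⟨1, E.one_mem, 0, E.zero_mem, 0, E.zero_mem, Or.inl one_ne_zero,
          by rw [h4.1]; ring, by rw [h5.1]; ring⟩

/-- the statement (R) -/
private theorem tr_R (hθ : Fd E θ) (hx : Rat E θ x) (hy : Rat E θ y) (hne : x ≠ 0 ∨ y ≠ 0) :
    ∃ m : Fin 3 → A, Rat E θ m ∧ m ≠ 0 ∧ ∃ p ∈ E, ∃ q ∈ E, ∃ r ∈ E, ∃ s ∈ E,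
      m * x = cst p + cst r * θ ∧ m * y = cst q + cst s * θ ∧
        (p ≠ 0 ∨ q ≠ 0 ∨ r ≠ 0 ∨ s ≠ 0) := by
  obtain ⟨x0, hx0, x1, hx1, x2, hx2, ex⟩ := hx
  obtain ⟨y0, hy0, y1, hy1, y2, hy2, ey⟩ := hy
  have e1 := hθ.cub.e1
  have e2 := hθ.cub.e2
  have e3 := hθ.cub.e3
  have hc : ∀ {z0 z1 z2 : A}, z0 ∈ E → z1 ∈ E → z2 ∈ E →
      z1 + T θ * z2 ∈ E ∧ z0 + T θ * z1 + (T θ ^ 2 - T (sh θ)) * z2 ∈ E := by
    intro z0 z1 z2 h0 h1 h2
    exact ⟨E.add_mem h1 (E.mul_mem e1 h2), E.add_mem (E.add_mem h0 (E.mul_mem e1 h1))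
      (E.mul_mem (E.sub_mem (E.pow_mem e1 2) e2) h2)⟩
  obtain ⟨cx1, cx2⟩ := hc hx0 hx1 hx2
  obtain ⟨cy1, cy2⟩ := hc hy0 hy1 hy2
  obtain ⟨m0, hm0, m1, hm1, m2, hm2, hm, l1, l2⟩ := tr_lin hx2 cx1 cx2 hy2 cy1 cy2
  have key : ∀ {z0 z1 z2 : A} {z : Fin 3 → A}, z0 ∈ E → z1 ∈ E → z2 ∈ E →
      (∀ j, z j = z0 + z1 * θ j + z2 * θ j ^ 2) →
      m0 * z2 + m1 * (z1 + T θ * z2) + m2 * (z0 + T θ * z1 + (T θ ^ 2 - T (sh θ)) * z2) = 0 →
      ∃ p ∈ E, ∃ r ∈ E, (fun j => m0 + m1 * θ j + m2 * θ j ^ 2) * z = cst p + cst r * θ := by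
    intro z0 z1 z2 z h0 h1 h2 hz hl
    refine ⟨m0 * z0 + (m1 * z2 + m2 * z1) * N θ + m2 * z2 * (T θ * N θ), ?_,
      m0 * z1 + m1 * z0 - (m1 * z2 + m2 * z1) * T (sh θ) + m2 * z2 * (N θ - T θ * T (sh θ)),
      ?_, ?_⟩
    · exact E.add_mem (E.add_mem (E.mul_mem hm0 h0) (E.mul_mem (E.add_mem (E.mul_mem hm1 h2)
        (E.mul_mem hm2 h1)) e3)) (E.mul_mem (E.mul_mem hm2 h2) (E.mul_mem e1 e3))
    · exact E.add_mem (E.sub_mem (E.add_mem (E.mul_mem hm0 h1) (E.mul_mem hm1 h0))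
        (E.mul_mem (E.add_mem (E.mul_mem hm1 h2) (E.mul_mem hm2 h1)) e2))
        (E.mul_mem (E.mul_mem hm2 h2) (E.sub_mem e3 (E.mul_mem e1 e2)))
    · funext j
      show (m0 + m1 * θ j + m2 * θ j ^ 2) * z j =
        m0 * z0 + (m1 * z2 + m2 * z1) * N θ + m2 * z2 * (T θ * N θ) +
        (m0 * z1 + m1 * z0 - (m1 * z2 + m2 * z1) * T (sh θ) +
          m2 * z2 * (N θ - T θ * T (sh θ))) * θ j
      rw [hz j]
      have e3 := Cub.cube θ j
      have e4 : θ j ^ 4 = (T θ ^ 2 - T (sh θ)) * θ j ^ 2 + (N θ - T θ * T (sh θ)) * θ j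
          + T θ * N θ := by
        linear_combination (θ j + T θ) * e3
      linear_combination (m1 * z2 + m2 * z1) * e3 + m2 * z2 * e4 + θ j ^ 2 * hl
  obtain ⟨p, hp, r, hr, hpr⟩ := key hx0 hx1 hx2 ex l1
  obtain ⟨q, hq, s, hs, hqs⟩ := key hy0 hy1 hy2 ey l2
  have hmR : Rat E θ (fun j => m0 + m1 * θ j + m2 * θ j ^ 2) :=
    ⟨m0, hm0, m1, hm1, m2, hm2, fun j => rfl⟩
  have hmne : (fun j => m0 + m1 * θ j + m2 * θ j ^ 2) ≠ 0 := by
    intro h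
    have h0 := congrFun h 0
    obtain ⟨a1, a2, a3⟩ := coords_eq_zero hθ.cub hθ.nr hm0 hm1 hm2 (j := 0) h0
    tauto
  refine ⟨_, hmR, hmne, p, hp, q, hq, r, hr, s, hs, hpr, hqs, ?_⟩
  by_contra hcon
  push Not at hcon
  obtain ⟨c1, c2, c3, c4⟩ := hcon
  have hmi := hθ.ne hmR hmne
  rw [c1, c3] at hpr
  rw [c2, c4] at hqs
  rcases hne with h | h
  · apply h
    funext j
    have h1 := congrFun hpr j
    have h2 : (m0 + m1 * θ j + m2 * θ j ^ 2) * x j = 0 := by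
      refine h1.trans ?_
      show (0 : A) + 0 * θ j = 0
      ring
    exact (mul_eq_zero.1 h2).resolve_left (hmi j)
  · apply h
    funext j
    have h1 := congrFun hqs j
    have h2 : (m0 + m1 * θ j + m2 * θ j ^ 2) * y j = 0 := by
      refine h1.trans ?_
      show (0 : A) + 0 * θ j = 0
      ring
    exact (mul_eq_zero.1 h2).resolve_left (hmi j)

/-- the statement (R) for the other side -/
private theorem tr_R' (hϑ : Fd E ϑ) (hx : Rat E ϑ x) (hy : Rat E ϑ y) (hne : x ≠ 0 ∨ y ≠ 0) :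
    ∃ m : Fin 3 → A, Rat E ϑ m ∧ m ≠ 0 ∧ ∃ p ∈ E, ∃ q ∈ E, ∃ r ∈ E, ∃ s ∈ E,
      m * x = cst p - cst q * ϑ ∧ m * y = cst r - cst s * ϑ ∧
        (p ≠ 0 ∨ q ≠ 0 ∨ r ≠ 0 ∨ s ≠ 0) := by
  obtain ⟨m, hm, hm0, p, hp, q, hq, r, hr, s, hs, h1, h2, h3⟩ := tr_R hϑ hx hy hne
  refine ⟨m, hm, hm0, p, hp, -r, E.neg_mem hr, q, hq, -s, E.neg_mem hs, ?_, ?_, ?_⟩
  · rw [h1]
    funext j
    show p + r * ϑ j = p - (-r) * ϑ j
    ring
  · rw [h2]
    funext j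
    show q + s * ϑ j = q - (-s) * ϑ j
    ring
  · rcases h3 with h3 | h3 | h3 | h3
    · exact Or.inl h3
    · exact Or.inr (Or.inr (Or.inl h3))
    · exact Or.inr (Or.inl (neg_ne_zero.2 h3))
    · exact Or.inr (Or.inr (Or.inr (neg_ne_zero.2 h3)))

private theorem tr_ne {p q r s : A} (hθ : Fd E θ) (hp : p ∈ E) (hq : q ∈ E) (hr : r ∈ E)
    (hs : s ∈ E) (h : p ≠ 0 ∨ q ≠ 0 ∨ r ≠ 0 ∨ s ≠ 0) :
    cst p + cst r * θ ≠ 0 ∨ cst q + cst s * θ ≠ 0 := by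
  by_contra hcon
  rw [not_or, not_not, not_not] at hcon
  obtain ⟨h1, h2⟩ := tr_zero (j := 0) hθ hp hr (congrFun hcon.1 0)
  obtain ⟨h3, h4⟩ := tr_zero (j := 0) hθ hq hs (congrFun hcon.2 0)
  tauto

private theorem tr_ne' {p q r s : A} (hϑ : Fd E ϑ) (hp : p ∈ E) (hq : q ∈ E) (hr : r ∈ E)
    (hs : s ∈ E) (h : p ≠ 0 ∨ q ≠ 0 ∨ r ≠ 0 ∨ s ≠ 0) :
    cst p - cst q * ϑ ≠ 0 ∨ cst r - cst s * ϑ ≠ 0 := by
  by_contra hcon
  rw [not_or, not_not, not_not] at hcon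
  obtain ⟨h1, h2⟩ := tr_zero' (j := 0) hϑ hp hq (congrFun hcon.1 0)
  obtain ⟨h3, h4⟩ := tr_zero' (j := 0) hϑ hr hs (congrFun hcon.2 0)
  tauto

/-- points of the surface have nonzero determinant -/
private theorem tr_det {p q r s : A} (hθ : Fd E θ) (hϑ : Fd E ϑ) {ε : A} (hε0 : ε ≠ 0)
    (hg : ∀ p q : A, Θ.ev (cst p) (cst q) = ε * N (cst p - cst q * ϑ)) (hp : p ∈ E) (hq : q ∈ E)
    (hr : r ∈ E) (hs : s ∈ E) (h : p ≠ 0 ∨ q ≠ 0 ∨ r ≠ 0 ∨ s ≠ 0)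
    (hev : Θ.ev (cst p + cst r * θ) (cst q + cst s * θ) = 0) : p * s - q * r ≠ 0 := by
  intro hd
  obtain ⟨α, hα, β, hβ, t0, ht0, t1, ht1, hαβ, ht, k1, k2, k3, k4⟩ : ∃ α ∈ E, ∃ β ∈ E,
      ∃ t0 ∈ E, ∃ t1 ∈ E, (α ≠ 0 ∨ β ≠ 0) ∧ (t0 ≠ 0 ∨ t1 ≠ 0) ∧ p = α * t0 ∧ q = α * t1 ∧
        r = β * t0 ∧ s = β * t1 := by
    by_cases hp0 : p = 0
    · by_cases hq0 : q = 0
      · refine ⟨0, E.zero_mem, 1, E.one_mem, r, hr, s, hs, Or.inr one_ne_zero, ?_, ?_, ?_, ?_,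
          ?_⟩
        · tauto
        · rw [hp0, zero_mul]
        · rw [hq0, zero_mul]
        · rw [one_mul]
        · rw [one_mul]
      · refine ⟨1, E.one_mem, s / q, E.div_mem hs hq, p, hp, q, hq, Or.inl one_ne_zero,
          Or.inr hq0, ?_, ?_, ?_, ?_⟩
        · rw [one_mul]
        · rw [one_mul]
        · field_simp
          linear_combination -hd
        · field_simp
    · refine ⟨1, E.one_mem, r / p, E.div_mem hr hp, p, hp, q, hq, Or.inl one_ne_zero,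
        Or.inl hp0, ?_, ?_, ?_, ?_⟩
      · rw [one_mul]
      · rw [one_mul]
      · field_simp
      · field_simp
        linear_combination hd
  have e1 : cst p + cst r * θ = (cst α + cst β * θ) * cst t0 := by
    funext j
    show p + r * θ j = (α + β * θ j) * t0
    rw [k1, k3]
    ring
  have e2 : cst q + cst s * θ = (cst α + cst β * θ) * cst t1 := by
    funext j
    show q + s * θ j = (α + β * θ j) * t1
    rw [k2, k4]
    ring
  rw [e1, e2, Cube.ev_smul, hg] at hev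
  have n1 : N (cst α + cst β * θ) ≠ 0 := by
    apply N_ne_zero.2
    intro j hj
    obtain ⟨h1, h2⟩ := tr_zero hθ hα hβ hj
    tauto
  have n2 : N (cst t0 - cst t1 * ϑ) ≠ 0 := by
    apply N_ne_zero.2
    intro j hj
    obtain ⟨h1, h2⟩ := tr_zero' hϑ ht0 ht1 hj
    tauto
  exact mul_ne_zero n1 (mul_ne_zero hε0 n2) hev

/-- the statement (U) -/
private theorem tr_U (hθ : Fd E θ) {p q r s p' q' r' s' : A} (hd : p * s - q * r ≠ 0)
    (he : (cst p + cst r * θ) * (cst q' + cst s' * θ) =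
      (cst p' + cst r' * θ) * (cst q + cst s * θ)) :
    ∃ μ : A, p' = μ * p ∧ q' = μ * q ∧ r' = μ * r ∧ s' = μ * s := by
  obtain ⟨c1, c2, c3⟩ := coord_unique hθ.cub.inj (a := p * q' - p' * q)
    (b := p * s' + r * q' - p' * s - r' * q) (c := r * s' - r' * s) (by
      intro j
      have h1 : (p + r * θ j) * (q' + s' * θ j) = (p' + r' * θ j) * (q + s * θ j) :=
        congrFun he j
      linear_combination h1)
  refine ⟨(p' * s - q' * r) / (p * s - q * r), ?_, ?_, ?_, ?_⟩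
  · rw [div_mul_eq_mul_div, eq_div_iff hd]
    linear_combination r * c1
  · rw [div_mul_eq_mul_div, eq_div_iff hd]
    linear_combination s * c1
  · rw [div_mul_eq_mul_div, eq_div_iff hd]
    linear_combination r * c2 - p * c3
  · rw [div_mul_eq_mul_div, eq_div_iff hd]
    linear_combination s * c2 - q * c3

theorem link_pt (hθ : Fd E θ) (hϑ : Fd E ϑ) (hL : Linked θ ϑ Θ Θ') (hp : Pt Θ E θ x y) :
    ∃ x' y', Pt Θ' E ϑ x' y' := by
  obtain ⟨m, -, -, p, hp', q, hq, r, hr, s, hs, h1, h2, h3⟩ := tr_R hθ hp.hx hp.hy hp.ne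
  refine ⟨cst p - cst q * ϑ, cst r - cst s * ϑ, tr_rat' hp' hq, tr_rat' hr hs,
    tr_ne' hϑ hp' hq hr hs h3, ?_⟩
  rw [← hL, ← h1, ← h2, Cube.ev_smul, hp.ev, mul_zero]

theorem link_pt' (hθ : Fd E θ) (hϑ : Fd E ϑ) (hL : Linked θ ϑ Θ Θ') (hp : Pt Θ' E ϑ x y) :
    ∃ x' y', Pt Θ E θ x' y' := by
  obtain ⟨m, -, -, p, hp', q, hq, r, hr, s, hs, h1, h2, h3⟩ := tr_R' hϑ hp.hx hp.hy hp.ne
  refine ⟨cst p + cst r * θ, cst q + cst s * θ, tr_rat hp' hr, tr_rat hq hs,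
    tr_ne hθ hp' hq hr hs h3, ?_⟩
  rw [hL, ← h1, ← h2, Cube.ev_smul, hp.ev, mul_zero]

/-- a generating point of the linked cube gives a generating point -/
theorem link_gen (hK : K ≤ Om) (hθK : Fd K θ) (hϑK : Fd K ϑ) (hθ : Fd Om θ) (hϑ : Fd Om ϑ)
    (hL : Linked θ ϑ Θ Θ') {ε : A} (hε : ε ∈ K) (hε0 : ε ≠ 0)
    (hg : ∀ p q : A, Θ.ev (cst p) (cst q) = ε * N (cst p - cst q * ϑ))
    (hp : Pt Θ' Om ϑ x y) (hG : Gen K Om ϑ x y) :
    ∃ x' y', Pt Θ Om θ x' y' ∧ Gen K Om θ x' y' := by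
  obtain ⟨m, -, -, p, hp', q, hq, r, hr, s, hs, h1, h2, h3⟩ := tr_R' hϑ hp.hx hp.hy hp.ne
  have hev : Θ.ev (cst p + cst r * θ) (cst q + cst s * θ) = 0 := by
    rw [hL, ← h1, ← h2, Cube.ev_smul, hp.ev, mul_zero]
  have hP : Pt Θ Om θ (cst p + cst r * θ) (cst q + cst s * θ) :=
    ⟨tr_rat hp' hr, tr_rat hq hs, tr_ne hθ hp' hq hr hs h3, hev⟩
  have hdet := tr_det hθ hϑ hε0 hg hp' hq hr hs h3 hev
  refine ⟨_, _, hP, ?_⟩
  intro L hKL hLO x'' y'' hx'' hy'' hne he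
  have hLθ : Fd L θ := hθK.down hθ hKL hLO
  have hLϑ : Fd L ϑ := hϑK.down hϑ hKL hLO
  obtain ⟨m', -, -, p', kp, q', kq, r', kr, s', ks, g1, g2, g3⟩ := tr_R hLθ hx'' hy'' hne
  have he' : (cst p + cst r * θ) * (cst q' + cst s' * θ) =
      (cst p' + cst r' * θ) * (cst q + cst s * θ) := by
    rw [← g1, ← g2]
    linear_combination m' * he
  obtain ⟨μ, u1, u2, u3, u4⟩ := tr_U hθ hdet he'
  refine hG L hKL hLO (cst p' - cst q' * ϑ) (cst r' - cst s' * ϑ) (tr_rat' kp kq)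
    (tr_rat' kr ks) (tr_ne' hLϑ kp kq kr ks g3) ?_
  have v1 : cst p' - cst q' * ϑ = cst μ * (m * x) := by
    rw [h1]
    funext j
    show p' - q' * ϑ j = μ * (p - q * ϑ j)
    rw [u1, u2]
    ring
  have v2 : cst r' - cst s' * ϑ = cst μ * (m * y) := by
    rw [h2]
    funext j
    show r' - s' * ϑ j = μ * (r - s * ϑ j)
    rw [u3, u4]
    ring
  rw [v1, v2]
  ring

end Pool.Agent.Helper16.C18.H
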