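import Pool.Agent.Helper64.C18.COMP
import Pool.Agent.Helper64.C18.TR
import Pool.Agent.Helper64.C18.H1
import Pool.Agent.Helper64.C18.ISO
import Pool.Agent.Helper64.C18.MP
import Pool.Agent.Helper64.C18.T4

set_option autoImplicit false

/-! Project C18: the core theorem (offer C18-CORE, helper16) -/

namespace Pool.Agent.Helper16.C18.H

variable {A : Type*} [Field A] [CharZero A] {K Om : Subfield A} {θ ϑ ξ x y : Fin 3 → A}
  {Θ Θ' : Cube A}

omit [CharZero A] in
theorem core_alg {L : Subfield A} (hC : Cub L θ) (j : Fin 3) : IsAlgebraic L (θ j) := by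
  refine ⟨cubP hC, (cubP_monic hC).ne_zero, ?_⟩
  rw [cubP_aeval]
  fin_cases j <;> simp

/-- `normal_form` for `Θ'`.  (1) `Θ'` a norm form: `ξ = -m` is over `K`, against `hg`, `htr`.
(2) double point: the point `(x : y) = h⁻¹ (ξ, 1)` has `y ≠ 0` (otherwise it is over `K`), `X = x / y`
satisfies `1 + T (m X) = 0` (divide by `N y`), generates `Om`; a nontrivial linear relation over
`K` between the three coordinates of `X`, so `Om = ad K {s0, s1}` with two of them, independent by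
`Tr2.indep`, and `spec_two` gives a point of `Θ` over `K`.
(3) normal form `nf n c` with a generating point `ξ'` (`Gen.comap`, `Gen.toA`); `K` is algebraically
closed in `Om` (`ac`), so `Fd Om ϑ`, `Fd Om θ`.  `iso_or`: in the isomorphic case apply `comp_cube` to
`Θ.perm π` over `ϑ`; otherwise `mpoint`, `to_diagonal` (a `K`-point or `h`), `exists_link` for
`h.act Θ`, `link_pt` over `Om`, `comp_cube` for the linked cube, then `link_pt'` or `link_gen`, `Pt.map`,
`Gen.map` back. -/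
theorem core [IsAlgClosed A] (hK : K ≤ Om) (hac : ∀ z ∈ Om, IsAlgebraic K z → z ∈ K)
    (htr : Tr2 K Om) (hϑ : Fd K ϑ) (hθ : Fd K θ)
    (hY : Θ'.Over K ϑ) (hd : Θ'.d ≠ 0) (hξ : Rat Om ϑ ξ) (h0 : Θ'.ev ξ 1 = 0)
    (hg : GenA K Om ϑ ξ) (hX : Θ.Over K θ) (hp : Pt Θ Om θ x y) :
    (∃ x' y', Pt Θ K θ x' y') ∨
      (Fd Om θ ∧ ∃ x' y', Pt Θ Om θ x' y' ∧ Gen K Om θ x' y') := by
  have hΩϑ : Fd Om ϑ := hϑ.up hK fun i hi => hϑ.nr i (hac _ hi (core_alg hϑ.cub i))
  have hΩθ : Fd Om θ := hθ.up hK fun i hi => hθ.nr i (hac _ hi (core_alg hθ.cub i))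
  have hnK : ¬ Om ≤ K := fun h => htr.not_one (C := K) (x0 := 0) le_rfl
    (fun w hw => isAlgebraic_algebraMap (⟨w, hw⟩ : K)) fun w hw =>
      isAlgebraic_algebraMap (⟨w, le_ad K _ (h hw)⟩ : ad K {(0 : A)})
  have evx : ∀ (Θ : Cube A) (x : Fin 3 → A), Θ.ev x 0 = Θ.d * N x := by
    intro Θ x
    simp only [Cube.ev, N, T, sh, Pi.mul_apply, Pi.zero_apply, Matrix.cons_val_zero,
      Matrix.cons_val_one, Matrix.cons_val]
    ring
  have hG1 : Gen K Om ϑ ξ 1 := GenA.toGen hϑ hΩϑ hK hξ hg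
  have hP1 : Pt Θ' Om ϑ ξ 1 := ⟨hξ, Rat.const Om.one_mem, Or.inr one_ne_zero, h0⟩
  -- pull back by a transformation to an affine generating point
  have back : ∀ h : Mob K ϑ, ∃ X : Fin 3 → A, Rat Om ϑ X ∧ (h.act Θ').ev X 1 = 0 ∧
      GenA K Om ϑ X := by
    intro h
    obtain ⟨x', y', hp', ex, ey⟩ := Pt.comap hϑ hΩϑ hK h hP1
    have hg' : Gen K Om ϑ x' y' := by
      refine Gen.comap hϑ hΩϑ hK h hp'.hx hp'.hy hp'.ne ?_
      rw [ex, ey]
      exact hG1
    have hy' : y' ≠ 0 := by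
      intro h1
      apply hnK
      refine hg' K le_rfl hK 1 0 (Rat.const K.one_mem) (Rat.const K.zero_mem)
        (Or.inl one_ne_zero) ?_
      rw [h1, mul_zero, mul_zero]
    have hyi := hΩϑ.ne hp'.hy hy'
    have hX' : Rat Om ϑ (x' / y') := hΩϑ.div hp'.hx hp'.hy
    refine ⟨x' / y', hX', ?_, Gen.toA hϑ hΩϑ hK hp'.hx hp'.hy hy' hg'⟩
    have hp2 : Pt (h.act Θ') Om ϑ (x' / y') 1 := by
      refine hp'.congr hΩϑ hX' (Rat.const Om.one_mem) (Or.inr one_ne_zero) ?_
      funext i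
      simp only [Pi.mul_apply, Pi.div_apply, Pi.one_apply, mul_one]
      exact (div_mul_cancel₀ _ (hyi i)).symm
    exact hp2.ev
  rcases normal_form hϑ hY hd with ⟨m, hm, e⟩ | ⟨h, k, m, hk, hk0, hm, hm0, e⟩ |
    ⟨h, k, n, c, hk, hk0, hn, hc, hn0, hD, e⟩
  · -- norm form
    exfalso
    rw [e] at h0
    have h1 : N (ξ + m * 1) = 0 := (mul_eq_zero.1 h0).resolve_left hd
    have h2 : Rat Om ϑ (ξ + m * 1) := by
      rw [mul_one]
      exact hξ.add (hm.mono hK)
    have h3 : ξ + m * 1 = 0 := by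
      by_contra h4
      exact hΩϑ.N_ne h2 h4 h1
    have h4 : ξ = -m := by
      rw [mul_one] at h3
      exact eq_neg_of_add_eq_zero_left h3
    exact hnK (hg K le_rfl hK (by rw [h4]; exact hm.neg))
  · -- double point
    left
    obtain ⟨X, hXr, hX0, hXg⟩ := back h
    rw [Mob.act_ev, e] at hX0
    have h1 : 1 + T (m * X) = 0 := by
      have h2 := (mul_eq_zero.1 hX0).resolve_left hk0
      rw [← h2]
      simp only [N, T, sh, Pi.mul_apply, Pi.one_apply, Matrix.cons_val_zero,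
        Matrix.cons_val_one, Matrix.cons_val]
      ring
    obtain ⟨a, ha, b, hb, d, hd', eX⟩ := hXr
    have m0 : T m ∈ K := hm.T_mem hϑ.cub
    have m1 : T (fun j => m j * ϑ j) ∈ K := (Rat.mul hϑ.cub hm Rat.self).T_mem hϑ.cub
    have m2 : T (fun j => m j * ϑ j ^ 2) ∈ K :=
      (Rat.mul hϑ.cub hm (Rat.self.pow hϑ.cub 2)).T_mem hϑ.cub
    have rel : 1 + a * T m + b * T (fun j => m j * ϑ j) + d * T (fun j => m j * ϑ j ^ 2) = 0 := by
      rw [← h1]
      simp only [T, Pi.mul_apply, eX]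
      ring
    have fin : ∀ s0 s1 : A, s0 ∈ Om → s1 ∈ Om → a ∈ ad K {s0, s1} → b ∈ ad K {s0, s1} →
        d ∈ ad K {s0, s1} → ∃ x' y', Pt Θ K θ x' y' := by
      intro s0 s1 hs0 hs1 ha' hb' hd''
      have hle : ad K {s0, s1} ≤ Om := ad_le hK (by
        rintro z (rfl | hz)
        · exact hs0
        · rw [Set.mem_singleton_iff.1 hz]
          exact hs1)
      have hO : Om ≤ ad K {s0, s1} := hXg _ (le_ad K _) hle ⟨a, ha', b, hb', d, hd'', eX⟩
      have hi : AlgebraicIndependent K ![s0, s1] := htr.indep (C := K) le_rfl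
        (fun w hw => isAlgebraic_algebraMap (⟨w, hw⟩ : K)) hO
      exact spec_two hθ hX hi ⟨hp.hx.mono hO, hp.hy.mono hO, hp.ne, hp.ev⟩
    by_cases t0 : T m = 0
    · by_cases t1 : T (fun j => m j * ϑ j) = 0
      · have t2 : T (fun j => m j * ϑ j ^ 2) ≠ 0 := by
          intro t2
          rw [t0, t1, t2] at rel
          simp at rel
        refine fin a b ha hb (mem_ad (Or.inl rfl)) (mem_ad (Or.inr rfl)) ?_
        have : d = -(1 + a * T m + b * T (fun j => m j * ϑ j)) / T (fun j => m j * ϑ j ^ 2) := by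
          rw [eq_div_iff t2]
          linear_combination rel
        rw [this]
        have ka : a ∈ ad K {a, b} := mem_ad (Or.inl rfl)
        have kb : b ∈ ad K {a, b} := mem_ad (Or.inr rfl)
        exact div_mem (neg_mem (add_mem (add_mem (one_mem _) (mul_mem ka (le_ad K _ m0)))
          (mul_mem kb (le_ad K _ m1)))) (le_ad K _ m2)
      · refine fin a d ha hd' (mem_ad (Or.inl rfl)) ?_ (mem_ad (Or.inr rfl))
        have : b = -(1 + a * T m + d * T (fun j => m j * ϑ j ^ 2)) / T (fun j => m j * ϑ j) := by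
          rw [eq_div_iff t1]
          linear_combination rel
        rw [this]
        have ka : a ∈ ad K {a, d} := mem_ad (Or.inl rfl)
        have kd : d ∈ ad K {a, d} := mem_ad (Or.inr rfl)
        exact div_mem (neg_mem (add_mem (add_mem (one_mem _) (mul_mem ka (le_ad K _ m0)))
          (mul_mem kd (le_ad K _ m2)))) (le_ad K _ m1)
    · refine fin b d hb hd' ?_ (mem_ad (Or.inl rfl)) (mem_ad (Or.inr rfl))
      have : a = -(1 + b * T (fun j => m j * ϑ j) + d * T (fun j => m j * ϑ j ^ 2)) / T m := by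
        rw [eq_div_iff t0]
        linear_combination rel
      rw [this]
      have kb : b ∈ ad K {b, d} := mem_ad (Or.inl rfl)
      have kd : d ∈ ad K {b, d} := mem_ad (Or.inr rfl)
      exact div_mem (neg_mem (add_mem (add_mem (one_mem _) (mul_mem kb (le_ad K _ m1)))
        (mul_mem kd (le_ad K _ m2)))) (le_ad K _ m0)
  · -- normal form
    obtain ⟨X, hXr, hX0', hXg⟩ := back h
    have hX0 : nf n c X = 0 := by
      rw [Mob.act_ev, e] at hX0'
      have h2 := (mul_eq_zero.1 hX0').resolve_left hk0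
      rw [← h2]
      simp only [nf, N, T, sh, Pi.mul_apply, Pi.one_apply, Matrix.cons_val_zero,
        Matrix.cons_val_one, Matrix.cons_val]
      ring
    rcases iso_or hθ hϑ with ⟨π, hπ⟩ | h1
    · -- isomorphic cubic fields
      have hp' : Pt (Θ.perm π) Om ϑ (x ∘ π) (y ∘ π) := (pt_iso hθ hϑ hK hπ).2 hp
      rcases comp_cube hK hϑ hΩϑ htr hn hc hn0 hD hXr hX0 hXg
          (Cube.perm_over hθ hϑ hπ hX) hp' with ⟨x', y', hq⟩ | ⟨x', y', hq, hqg⟩
      · left
        refine ⟨x' ∘ π.symm, y' ∘ π.symm, (pt_iso (π := π) hθ hϑ le_rfl hπ).1 ?_⟩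
        have ex : (x' ∘ π.symm) ∘ π = x' := by
          funext i
          simp
        have ey : (y' ∘ π.symm) ∘ π = y' := by
          funext i
          simp
        rw [ex, ey]
        exact hq
      · right
        have ex : (x' ∘ π.symm) ∘ π = x' := by
          funext i
          simp
        have ey : (y' ∘ π.symm) ∘ π = y' := by
          funext i
          simp
        refine ⟨hΩθ, x' ∘ π.symm, y' ∘ π.symm, (pt_iso (π := π) hθ hϑ hK hπ).1 ?_,
          (gen_iso (π := π) hθ hϑ hK hπ).1 ?_⟩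
        · rw [ex, ey]
          exact hq
        · rw [ex, ey]
          exact hqg
    · -- the link
      obtain ⟨x1, y1, hp1⟩ := mpoint hK hϑ hn hc hn0 hXr hX0 hXg htr h1 hX hp
      rcases to_diagonal hθ hϑ h1 hX hp1 with hl | ⟨h2, ε, hε, hε0, hgd⟩
      · exact Or.inl hl
      have hO2 := Mob.act_over hθ.cub h2 hX
      obtain ⟨Θ2, hΘ2, hL⟩ := exists_link hθ hϑ hO2 hε hgd
      obtain ⟨x2, y2, hp2, -, -⟩ := Pt.comap hθ hΩθ hK h2 hp
      obtain ⟨x3, y3, hp3⟩ := link_pt hΩθ hΩϑ hL hp2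
      rcases comp_cube hK hϑ hΩϑ htr hn hc hn0 hD hXr hX0 hXg hΘ2 hp3 with
        ⟨x4, y4, hp4⟩ | ⟨x4, y4, hp4, hg4⟩
      · left
        obtain ⟨x5, y5, hp5⟩ := link_pt' hθ hϑ hL hp4
        exact ⟨_, _, Pt.map hθ hθ le_rfl h2 hp5⟩
      · right
        obtain ⟨x5, y5, hp5, hg5⟩ := link_gen hK hθ hϑ hΩθ hΩϑ hL hε hε0 hgd hp4 hg4
        exact ⟨hΩθ, _, _, Pt.map hθ hΩθ hK h2 hp5,
          Gen.map hθ hΩθ hK h2 hp5.hx hp5.hy hp5.ne hg5⟩

end Pool.Agent.Helper16.C18.H
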