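import Pool.Agent.Helper64.C18.Q2
import Pool.Agent.Helper64.C18.T1
import Pool.Agent.Helper16.C18.AmApp
import Pool.Agent.Helper16.C18.QC

set_option autoImplicit false

/-! Project C18: comparison, Amitsur step (offer C18-CP1) -/

/-!
Put `e = (c + δ) / 2`, `e' = (c - δ) / 2` (so `e + e' = c`, `e e' = -n`, `e ≠ e'`, both nonzero), in the same
way `e2, e2'`, `z = e / e'`, `z2 = e2 / e2'`.  Let `Q` be the quadratic closure of `K` in `A`
(`exists_QC`), `QO` that of `Om`; `Q ≤ QO` (induction principle `QC.ind`), `Φ` the subfield generated by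
`Q` and `Om`, `Φ ≤ QO`, so `θ j ∉ Φ` (`QC.noroot`).  `e, e', e2, e2', dis θ ∈ Q` (closed under square
roots; `dis_sq` or `Cub`: the square of `dis θ` is in `K`).  With `w = (ξ + e) / (ξ + e')`,
`v = (x2 + e2) / (x2 + e2')` (`nf_den`, `nf_w` over `Φ`) apply `amitsur_app`:
`Φ` is contained in the field generated by `C = Q(θ 0)` and `w 0, w 1`, since `w 2 = z / (w 0 w 1)`,
`ξ i = (e' w i - e) / (1 - w i)`, the coordinates of `ξ` are in that field (`lagrange`; all `θ j ∈ C`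
because `dis θ ∈ Q`), so `Om` is (by `hg` applied to the intersection with `Om`); the independence of
`w 0, w 1` over `C` is `Tr2.indep` (`C` is algebraic over `K` by `QC.alg`).  So
`z2 = N u * z ^ j` with `u` in `Q[θ]`; as `z ^ 3 = N (cst z)` one may take `j` in `{0, 1, -1}`; descend
from `Q` to `ad K {δ, δ2}` by `QC.descend`.
-/

namespace Pool.Agent.Helper16.C18.H

variable {A : Type*} [Field A] [CharZero A] {K Om : Subfield A} {θ ξ x2 : Fin 3 → A}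
  {n c δ n2 c2 δ2 : A}

private theorem CP1_params (hδ : δ ^ 2 = c ^ 2 + 4 * n) (hδ0 : δ ≠ 0) (hn0 : n ≠ 0) :
    (c + δ) / 2 + (c - δ) / 2 = c ∧ (c + δ) / 2 * ((c - δ) / 2) = -n ∧
      (c + δ) / 2 ≠ (c - δ) / 2 ∧ (c + δ) / 2 ≠ 0 ∧ (c - δ) / 2 ≠ 0 ∧
      (c + δ) / 2 / ((c - δ) / 2) = (c + δ) / (c - δ) := by
  have h1 : (c + δ) / 2 + (c - δ) / 2 = c := by ring
  have h2 : (c + δ) / 2 * ((c - δ) / 2) = -n := by linear_combination (-1 / 4 : A) * hδ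
  have h3 : (c + δ) / 2 * ((c - δ) / 2) ≠ 0 := by
    rw [h2]
    exact neg_ne_zero.2 hn0
  refine ⟨h1, h2, ?_, left_ne_zero_of_mul h3, right_ne_zero_of_mul h3,
    div_div_div_cancel_right₀ two_ne_zero _ _⟩
  intro h
  apply hδ0
  linear_combination h

private theorem CP1_point {E : Subfield A} (h : Fd E θ) (hn0 : n ≠ 0)
    (hδ : δ ^ 2 = c ^ 2 + 4 * n) (hδ0 : δ ≠ 0) (hcE : c ∈ E) (hδE : δ ∈ E) {x : Fin 3 → A}
    (hx : Rat E θ x) (h0 : nf n c x = 0) :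
    Rat E θ ((x + cst ((c + δ) / 2)) / (x + cst ((c - δ) / 2))) ∧
      N ((x + cst ((c + δ) / 2)) / (x + cst ((c - δ) / 2))) = (c + δ) / (c - δ) ∧
      (∀ i, x i + (c - δ) / 2 ≠ 0) := by
  obtain ⟨h1, h2, hne, -, -, hz⟩ := CP1_params hδ hδ0 hn0
  have he : (c + δ) / 2 ∈ E := E.div_mem (E.add_mem hcE hδE) (ofNat_mem E 2)
  have he' : (c - δ) / 2 ∈ E := E.div_mem (E.sub_mem hcE hδE) (ofNat_mem E 2)
  refine ⟨h.div (hx.add (Rat.const he)) (hx.add (Rat.const he')), ?_, fun i =>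
    (nf_den h hn0 h1 h2 he he' hne hx h0 i).2⟩
  rw [nf_w h hn0 h1 h2 he he' hne hx h0, hz]

private theorem CP1_residue (z : A) (hz : z ≠ 0) (j : ℤ) {Q : Subfield A} (hzQ : z ∈ Q)
    (hC : Cub Q θ) {η : A} {u : Fin 3 → A} (hu : Rat Q θ u) (hj : η = N u * z ^ j) :
    Nm Q θ η ∨ Nm Q θ (η / z) ∨ Nm Q θ (η * z) := by
  have hz1 : ∀ m : ℤ, Nm Q θ (N u * (z ^ m) ^ 3) := fun m =>
    Nm.mul hC ⟨u, hu, rfl⟩ (Nm.cube (Q.zpow_mem hzQ m))
  have hc : j % 3 = 0 ∨ j % 3 = 1 ∨ j % 3 = 2 := by omega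
  rcases hc with hc | hc | hc
  · left
    have e : j = (j / 3) * 3 := by omega
    have e2 : z ^ j = (z ^ (j / 3)) ^ 3 := by
      conv_lhs => rw [e, zpow_mul]
      norm_cast
    rw [hj, e2]
    exact hz1 _
  · right; left
    have e : j = (j / 3) * 3 + 1 := by omega
    have e2 : z ^ j = (z ^ (j / 3)) ^ 3 * z := by
      conv_lhs => rw [e, zpow_add₀ hz, zpow_one, zpow_mul]
      norm_cast
    rw [hj, e2, ← mul_assoc, mul_div_cancel_right₀ _ hz]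
    exact hz1 _
  · right; right
    have e : j + 1 = (j / 3 + 1) * 3 := by omega
    have e2 : z ^ j * z = (z ^ (j / 3 + 1)) ^ 3 := by
      rw [← zpow_add_one₀ hz, e, zpow_mul]
      norm_cast
    rw [hj, mul_assoc, e2]
    exact hz1 _

theorem cp1 (hK : K ≤ Om) (hθ : Fd K θ) (hΩ : Fd Om θ) (htr : Tr2 K Om)
    (hn : n ∈ K) (hc : c ∈ K) (hn0 : n ≠ 0) (hδ : δ ^ 2 = c ^ 2 + 4 * n) (hδ0 : δ ≠ 0)
    (hξ : Rat Om θ ξ) (h0 : nf n c ξ = 0) (hg : GenA K Om θ ξ)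
    (hn2 : n2 ∈ K) (hc2 : c2 ∈ K) (hn20 : n2 ≠ 0) (hδ2 : δ2 ^ 2 = c2 ^ 2 + 4 * n2)
    (hδ20 : δ2 ≠ 0) (hx2 : Rat Om θ x2) (h02 : nf n2 c2 x2 = 0) :
    Nm (ad K {δ, δ2}) θ ((c2 + δ2) / (c2 - δ2)) ∨
    Nm (ad K {δ, δ2}) θ ((c2 + δ2) / (c2 - δ2) / ((c + δ) / (c - δ))) ∨
    Nm (ad K {δ, δ2}) θ ((c2 + δ2) / (c2 - δ2) * ((c + δ) / (c - δ))) := by
  obtain ⟨h1, h2, hne, he0, he0', hz⟩ := CP1_params hδ hδ0 hn0
  obtain ⟨h12, h22, hne2, he20, he20', hz2⟩ := CP1_params hδ2 hδ20 hn20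
  -- the quadratic closures
  obtain ⟨Q, hQ⟩ := exists_QC K
  obtain ⟨QO, hQO⟩ := exists_QC Om
  have hQQO : Q ≤ QO := by
    refine hQ.ind K (fun M => M ≤ QO) le_rfl hQ.le (hK.trans hQO.le) ?_ ?_
    · intro M s hs _ _ hM
      exact qext_le hM (hQO.sq s (hM hs))
    · intro ch _ _ hP
      exact sSup_le fun M hM => (hP M hM).2.2
  have hC : Cub Q θ := hθ.cub.mono hQ.le
  set Φ : Subfield A := Q ⊔ Om with hΦdef
  have hQΦ : Q ≤ Φ := le_sup_left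
  have hOΦ : Om ≤ Φ := le_sup_right
  have hΦQO : Φ ≤ QO := sup_le hQQO hQO.le
  have hΦ : ∀ j, θ j ∉ Φ := fun j hj => hQO.noroot hΩ.cub hΩ.nr j (hΦQO hj)
  have hFd : Fd Φ θ := ⟨hC.mono hQΦ, hΦ⟩
  have hδQ : δ ∈ Q := hQ.sq δ (by
    rw [hδ]
    exact hQ.le (K.add_mem (K.pow_mem hc 2) (K.mul_mem (ofNat_mem K 4) hn)))
  have hδ2Q : δ2 ∈ Q := hQ.sq δ2 (by
    rw [hδ2]
    exact hQ.le (K.add_mem (K.pow_mem hc2 2) (K.mul_mem (ofNat_mem K 4) hn2)))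
  have hρ : dis θ ∈ Q := hQ.sq _ (hQ.le (dis_sq hθ.cub))
  have hcQ := hQ.le hc
  have hc2Q := hQ.le hc2
  obtain ⟨hw, hNw, hdw⟩ := CP1_point hFd hn0 hδ hδ0 (hQΦ hcQ) (hQΦ hδQ) (hξ.mono hOΦ) h0
  obtain ⟨hv, hNv, hdv⟩ := CP1_point hFd hn20 hδ2 hδ20 (hQΦ hc2Q) (hQΦ hδ2Q) (hx2.mono hOΦ) h02
  set w : Fin 3 → A := (ξ + cst ((c + δ) / 2)) / (ξ + cst ((c - δ) / 2)) with hwdef
  set v : Fin 3 → A := (x2 + cst ((c2 + δ2) / 2)) / (x2 + cst ((c2 - δ2) / 2)) with hvdef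
  have hzQ : (c + δ) / (c - δ) ∈ Q := Q.div_mem (Q.add_mem hcQ hδQ) (Q.sub_mem hcQ hδQ)
  have hηQ : (c2 + δ2) / (c2 - δ2) ∈ Q := Q.div_mem (Q.add_mem hc2Q hδ2Q) (Q.sub_mem hc2Q hδ2Q)
  have hz0 : (c + δ) / (c - δ) ≠ 0 := by
    rw [← hz]
    exact div_ne_zero he0 he0'
  have hη0 : (c2 + δ2) / (c2 - δ2) ≠ 0 := by
    rw [← hz2]
    exact div_ne_zero he20 he20'
  -- the field `C = Q(θ 0)` and the field generated by it and `w 0, w 1`
  set C : Subfield A := ad Q {θ 0} with hCdef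
  have hQC : Q ≤ C := le_ad Q _
  have hθ0 : θ 0 ∈ C := mem_ad (Set.mem_singleton _)
  have hθ1 : θ 1 ∈ C := by
    obtain ⟨a, ha, b, hb, d, hd, e⟩ := Rat.shift_self hC hρ
    have e0 : θ 1 = a + b * θ 0 + d * θ 0 ^ 2 := e 0
    rw [e0]
    exact C.add_mem (C.add_mem (hQC ha) (C.mul_mem (hQC hb) hθ0))
      (C.mul_mem (hQC hd) (C.pow_mem hθ0 2))
  have hθ2 : θ 2 ∈ C := by
    have e0 : θ 2 = T θ - θ 0 - θ 1 := by
      simp only [T]
      ring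
    rw [e0]
    exact C.sub_mem (C.sub_mem (hQC hC.e1) hθ0) hθ1
  set D : Subfield A := ad C {w 0, w 1} with hDdef
  have hCD : C ≤ D := le_ad C _
  have hθD : ∀ j, θ j ∈ D := by
    intro j
    fin_cases j
    · exact hCD hθ0
    · exact hCD hθ1
    · exact hCD hθ2
  have hw0D : w 0 ∈ D := mem_ad (Or.inl rfl)
  have hw1D : w 1 ∈ D := mem_ad (Or.inr rfl)
  have hN0 : N w ≠ 0 := by
    rw [hNw]
    exact hz0
  have hwne := N_ne_zero.1 hN0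
  have hw2D : w 2 ∈ D := by
    have e0 : w 2 = (c + δ) / (c - δ) / (w 0 * w 1) := by
      rw [← hNw, N, mul_div_cancel_left₀ _ (mul_ne_zero (hwne 0) (hwne 1))]
    rw [e0]
    exact D.div_mem (hCD (hQC hzQ)) (D.mul_mem hw0D hw1D)
  have hwD : ∀ j, w j ∈ D := by
    intro j
    fin_cases j
    · exact hw0D
    · exact hw1D
    · exact hw2D
  have heD : (c + δ) / 2 ∈ D := hCD (hQC (Q.div_mem (Q.add_mem hcQ hδQ) (ofNat_mem Q 2)))
  have heD' : (c - δ) / 2 ∈ D := hCD (hQC (Q.div_mem (Q.sub_mem hcQ hδQ) (ofNat_mem Q 2)))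
  have hξD : ∀ j, ξ j ∈ D := by
    intro j
    have hd := hdw j
    have e1 : w j * (ξ j + (c - δ) / 2) = ξ j + (c + δ) / 2 := by
      have : w j = (ξ j + (c + δ) / 2) / (ξ j + (c - δ) / 2) := rfl
      rw [this, div_mul_cancel₀ _ hd]
    have e2 : w j - 1 ≠ 0 := by
      intro h
      have h' : w j = 1 := sub_eq_zero.1 h
      rw [h', one_mul] at e1
      exact hne (add_left_cancel e1).symm
    have e3 : ξ j = ((c + δ) / 2 - (c - δ) / 2 * w j) / (w j - 1) := by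
      rw [eq_div_iff e2]
      linear_combination e1
    rw [e3]
    exact D.div_mem (D.sub_mem heD (D.mul_mem heD' (hwD j))) (D.sub_mem (hwD j) D.one_mem)
  have hξRat : Rat D θ ξ := by
    have hT : ∀ f : Fin 3 → A, (∀ i, f i ∈ D) → T f ∈ D := fun f hf =>
      D.add_mem (D.add_mem (hf 0) (hf 1)) (hf 2)
    have hCubD : Cub D θ := hC.mono (hQC.trans hCD)
    exact Rat.of_traces hCubD (hT _ hξD) (hT _ fun i => D.mul_mem (hξD i) (hθD i))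
      (hT _ fun i => D.mul_mem (hξD i) (D.pow_mem (hθD i) 2))
  have hOD : Om ≤ D := by
    have h5 : Om ≤ Om ⊓ D := hg (Om ⊓ D) (le_inf hK (hQ.le.trans (hQC.trans hCD))) inf_le_left
      (Rat.inf hθ.cub.inj hξ hξRat)
    exact h5.trans inf_le_right
  have hgen : Φ ≤ D := sup_le (hQC.trans hCD) hOD
  have halg : AlgOver K C := by
    have a1 : AlgOver K Q := hQ.alg
    have a2 : AlgOver Q C := algOver_ad fun x hx => by
      rw [Set.mem_singleton_iff] at hx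
      rw [hx]
      exact ⟨cubP hC, (cubP_monic hC).ne_zero, by rw [cubP_aeval]; simp⟩
    exact a1.trans hQ.le a2
  have hind : AlgebraicIndependent C ![w 0, w 1] := htr.indep (hQ.le.trans hQC) halg hOD
  obtain ⟨u, hu, j, hj⟩ := amitsur_app hQΦ hC hΦ hρ hw hNw hzQ hz0 hind hgen hv hNv hηQ hη0
  -- descent
  have hLQ : ad K {δ, δ2} ≤ Q := ad_le hQ.le (by
    rintro x (rfl | hx)
    · exact hδQ
    · rw [Set.mem_singleton_iff] at hx
      rw [hx]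
      exact hδ2Q)
  have hKL : K ≤ ad K {δ, δ2} := le_ad K _
  have hδL : δ ∈ ad K {δ, δ2} := mem_ad (Or.inl rfl)
  have hδ2L : δ2 ∈ ad K {δ, δ2} := mem_ad (Or.inr rfl)
  have hzL : (c + δ) / (c - δ) ∈ ad K {δ, δ2} :=
    Subfield.div_mem _ (Subfield.add_mem _ (hKL hc) hδL) (Subfield.sub_mem _ (hKL hc) hδL)
  have hηL : (c2 + δ2) / (c2 - δ2) ∈ ad K {δ, δ2} :=
    Subfield.div_mem _ (Subfield.add_mem _ (hKL hc2) hδ2L) (Subfield.sub_mem _ (hKL hc2) hδ2L)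
  have hCL : Cub (ad K {δ, δ2}) θ := hθ.cub.mono hKL
  rcases CP1_residue _ hz0 j hzQ hC hu hj with h3 | h3 | h3
  · exact Or.inl (hQ.descend hKL hLQ hCL hηL h3)
  · exact Or.inr (Or.inl (hQ.descend hKL hLQ hCL (Subfield.div_mem _ hηL hzL) h3))
  · exact Or.inr (Or.inr (hQ.descend hKL hLQ hCL (Subfield.mul_mem _ hηL hzL) h3))

end Pool.Agent.Helper16.C18.H
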