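import Pool.Agent.Helper64.C18.B1

set_option autoImplicit false

/-! Project C18: the surfaces `nf n c = 0`, `w`-coordinate, third point (offer C18-Q2) -/

/-!
`nf n c x = N x + n (T x + c)`; with `e + e' = c`, `e e' = -n` the identity `nf_id` holds (ring).
`nf_den`: if `x i + e' = 0` then `x + e'` is a zero divisor in the field `E[θ]`, so `x = -e'`
identically (`Fd.ne`), and then `nf_id` gives `N (x + e) = 0`, so `x = -e`, `e = e'`.
`nf_w`: from `nf_id`.  `nf_of_w`: `y = (e' x - e) / (1 - x)` (if `x = 1` then `e = e'`).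
`nf_third`: if `x i y i + n = 0` then `x y = -n` identically, `w(x) w(y)` is the constant `e / e'`
(as `(x + e) (y + e) = e (c + x + y)` and `(x + e') (y + e') = e' (c + x + y)`, where
`c + x + y ≠ 0` because of `nf_den`); norms: `(e / e') ^ 2 = (e / e') ^ 3`, so `e = e'`.  Here `E` is
replaced by `qext E (e - e')`, `(e - e') ^ 2 = c ^ 2 + 4 n`, over which `θ` still has no root
(`noroot_qext`).  The third point has `w = (e / e') / (w(x) w(y))`; in the original coordinate this
is the given formula; its equation follows from `nf_id` and `nf_w` for `x`, `y` (or directly by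
`field_simp` and `linear_combination`).
`nf_descend`: if `d ∈ E` trivial; else `x = p + r d` (`rat_qext`), the conjugate `y = p - r d` is again
a point (coordinates: the equation is `a + b d = 0` with `a, b` in `E`, so `a = b = 0`), and the
third point of `x, y` is symmetric, so it is defined over `E`
(`x + y = 2 p`, `x y = p ^ 2 - r ^ 2 d ^ 2`).
-/

namespace Pool.Agent.Helper16.C18.H

variable {A : Type*} [Field A] [CharZero A] {E : Subfield A} {θ x y : Fin 3 → A}
  {n c e e' d : A}

private theorem q2_zero (h : Fd E θ) {z : Fin 3 → A} (hz : Rat E θ z) {i : Fin 3}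
    (hi : z i = 0) (j : Fin 3) : z j = 0 := by
  by_contra hj
  have h0 : z ≠ 0 := fun h0 => hj (by rw [h0]; rfl)
  exact h.ne hz h0 i hi

/-- the cube equation in the coordinate `w = (x + e) / (x + e')` -/
theorem nf_id (x : Fin 3 → A) (h1 : e + e' = c) (h2 : e * e' = -n) :
    e' * N (x + cst e) - e * N (x + cst e') = (e' - e) * nf n c x := by
  have hn : n = -(e * e') := by rw [h2]; ring
  simp only [N, T, nf, cst, Pi.add_apply]
  rw [← h1, hn]
  ring

/-- the denominator and the numerator of `w` do not vanish -/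
theorem nf_den (h : Fd E θ) (hn : n ≠ 0) (h1 : e + e' = c) (h2 : e * e' = -n)
    (he : e ∈ E) (he' : e' ∈ E) (hne : e ≠ e') (hx : Rat E θ x) (h0 : nf n c x = 0) (i : Fin 3) :
    x i + e ≠ 0 ∧ x i + e' ≠ 0 := by
  have hee : e * e' ≠ 0 := by rw [h2]; exact neg_ne_zero.2 hn
  have he0 : e ≠ 0 := left_ne_zero_of_mul hee
  have he0' : e' ≠ 0 := right_ne_zero_of_mul hee
  have hid := nf_id x h1 h2
  rw [h0, mul_zero] at hid
  constructor
  · intro hi
    have hz := q2_zero h (z := fun j => x j + e) (hx.add (Rat.const he)) hi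
    have g0 : N (x + cst e) = 0 := by
      change (x 0 + e) * (x 1 + e) * (x 2 + e) = 0
      have : x 0 + e = 0 := hz 0
      rw [this]
      ring
    rw [g0, mul_zero, zero_sub, neg_eq_zero] at hid
    have g1 := (mul_eq_zero.1 hid).resolve_left he0
    have g1' : (x 0 + e') * (x 1 + e') * (x 2 + e') = 0 := g1
    have hx' : ∀ j, x j = -e := fun j => by
      have : x j + e = 0 := hz j
      linear_combination this
    rw [hx' 0, hx' 1, hx' 2] at g1'
    have g2 : (e - e') ^ 3 = 0 := by linear_combination -g1'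
    exact hne (sub_eq_zero.1 (pow_eq_zero_iff (by norm_num : (3 : ℕ) ≠ 0) |>.1 g2))
  · intro hi
    have hz := q2_zero h (z := fun j => x j + e') (hx.add (Rat.const he')) hi
    have g0 : N (x + cst e') = 0 := by
      change (x 0 + e') * (x 1 + e') * (x 2 + e') = 0
      have : x 0 + e' = 0 := hz 0
      rw [this]
      ring
    rw [g0, mul_zero, sub_zero] at hid
    have g1 := (mul_eq_zero.1 hid).resolve_left he0'
    have g1' : (x 0 + e) * (x 1 + e) * (x 2 + e) = 0 := g1
    have hx' : ∀ j, x j = -e' := fun j => by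
      have : x j + e' = 0 := hz j
      linear_combination this
    rw [hx' 0, hx' 1, hx' 2] at g1'
    have g2 : (e - e') ^ 3 = 0 := by linear_combination g1'
    exact hne (sub_eq_zero.1 (pow_eq_zero_iff (by norm_num : (3 : ℕ) ≠ 0) |>.1 g2))

theorem nf_w (h : Fd E θ) (hn : n ≠ 0) (h1 : e + e' = c) (h2 : e * e' = -n)
    (he : e ∈ E) (he' : e' ∈ E) (hne : e ≠ e') (hx : Rat E θ x) (h0 : nf n c x = 0) :
    N ((x + cst e) / (x + cst e')) = e / e' := by
  have hee : e * e' ≠ 0 := by rw [h2]; exact neg_ne_zero.2 hn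
  have he0' : e' ≠ 0 := right_ne_zero_of_mul hee
  have hid := nf_id x h1 h2
  rw [h0, mul_zero] at hid
  have hden : N (x + cst e') ≠ 0 :=
    N_ne_zero.2 fun j => (nf_den h hn h1 h2 he he' hne hx h0 j).2
  have h3 : N ((x + cst e) / (x + cst e')) = N (x + cst e) / N (x + cst e') := by
    simp only [N, Pi.div_apply]
    rw [div_mul_div_comm, div_mul_div_comm]
  rw [h3, div_eq_div_iff hden he0']
  linear_combination hid

/-- a point from an element of norm `e / e'` -/
theorem nf_of_w (h : Fd E θ) (hn : n ≠ 0) (h1 : e + e' = c) (h2 : e * e' = -n)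
    (he : e ∈ E) (he' : e' ∈ E) (hne : e ≠ e') (hx : Rat E θ x) (h0 : N x = e / e') :
    ∃ y, Rat E θ y ∧ nf n c y = 0 := by
  have hee : e * e' ≠ 0 := by rw [h2]; exact neg_ne_zero.2 hn
  have he0' : e' ≠ 0 := right_ne_zero_of_mul hee
  have hN : e' * N x - e = 0 := by
    rw [h0]
    field_simp
    ring
  have hne1 : ∀ j, 1 - x j ≠ 0 := by
    intro j hj
    have hz := q2_zero h (z := fun j => 1 - x j) ((Rat.const E.one_mem).sub hx) hj
    have hx1 : ∀ j, x j = 1 := fun j => by
      have : 1 - x j = 0 := hz j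
      linear_combination -this
    apply hne
    have h3 : N x = 1 := by simp only [N, hx1]; ring
    rw [h3] at hN
    linear_combination -hN
  have hR : Rat E θ (fun j => (e' * x j - e) / (1 - x j)) :=
    Rat.div h.cub ((Rat.smul he' hx).sub (Rat.const he)) ((Rat.const E.one_mem).sub hx) hne1
  refine ⟨fun j => (e' * x j - e) / (1 - x j), hR, ?_⟩
  have hid := nf_id (fun j => (e' * x j - e) / (1 - x j)) h1 h2
  have ha : ∀ j, (e' * x j - e) / (1 - x j) + e = (e' - e) * x j * (1 - x j)⁻¹ := by
    intro j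
    have := hne1 j
    field_simp
    ring
  have hb : ∀ j, (e' * x j - e) / (1 - x j) + e' = (e' - e) * (1 - x j)⁻¹ := by
    intro j
    have := hne1 j
    field_simp
    ring
  have key : e' * N ((fun j => (e' * x j - e) / (1 - x j)) + cst e) -
      e * N ((fun j => (e' * x j - e) / (1 - x j)) + cst e') = 0 := by
    have h5 : e' * N ((fun j => (e' * x j - e) / (1 - x j)) + cst e) -
      e * N ((fun j => (e' * x j - e) / (1 - x j)) + cst e') = (e' - e) ^ 3 *
        (e' * N x - e) * ((1 - x 0)⁻¹ * (1 - x 1)⁻¹ * (1 - x 2)⁻¹) := by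
      simp only [N, cst, Pi.add_apply, ha, hb]
      ring
    rw [h5, hN]
    ring
  rw [key] at hid
  exact (mul_eq_zero.1 hid.symm).resolve_left (sub_ne_zero.2 hne.symm)

/-- the third point -/
theorem nf_third (h : Fd E θ) (hn : n ∈ E) (hc : c ∈ E) (hn0 : n ≠ 0)
    (h1 : e + e' = c) (h2 : e * e' = -n) (hne : e ≠ e') (hx : Rat E θ x) (hy : Rat E θ y)
    (hx0 : nf n c x = 0) (hy0 : nf n c y = 0) : (∀ i, x i * y i + n ≠ 0) ∧
      nf n c (fun i => -n * (x i + y i + c) / (x i * y i + n)) = 0 := by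
  have hee : e * e' ≠ 0 := by rw [h2]; exact neg_ne_zero.2 hn0
  have he0 : e ≠ 0 := left_ne_zero_of_mul hee
  have he0' : e' ≠ 0 := right_ne_zero_of_mul hee
  have hs : (e - e') ^ 2 ∈ E := by
    have : (e - e') ^ 2 = c ^ 2 + 4 * n := by
      rw [← h1]
      linear_combination (-4 : A) * h2
    rw [this]
    exact E.add_mem (E.pow_mem hc 2) (E.mul_mem (ofNat_mem E 4) hn)
  have h' : Fd (qext E (e - e') hs) θ := ⟨h.cub.mono le_qext, noroot_qext h.cub h.nr⟩
  have he : e ∈ qext E (e - e') hs :=
    ⟨c / 2, E.div_mem hc (ofNat_mem E 2), 1 / 2, E.div_mem E.one_mem (ofNat_mem E 2), by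
      rw [← h1]; ring⟩
  have he' : e' ∈ qext E (e - e') hs :=
    ⟨c / 2, E.div_mem hc (ofNat_mem E 2), -(1 / 2),
      E.neg_mem (E.div_mem E.one_mem (ofNat_mem E 2)), by rw [← h1]; ring⟩
  have hdx := nf_den h' hn0 h1 h2 he he' hne (hx.mono le_qext) hx0
  have hdy := nf_den h' hn0 h1 h2 he he' hne (hy.mono le_qext) hy0
  have hidx := nf_id x h1 h2
  rw [hx0, mul_zero] at hidx
  have hidy := nf_id y h1 h2
  rw [hy0, mul_zero] at hidy
  have h3 : e' ^ 2 * (N (x + cst e) * N (y + cst e)) =
      e ^ 2 * (N (x + cst e') * N (y + cst e')) := by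
    linear_combination (e' * N (y + cst e)) * hidx + (e * N (x + cst e')) * hidy
  have hnn : n = -(e * e') := by rw [h2]; ring
  have hd : ∀ i, x i * y i + n ≠ 0 := by
    intro i hi
    have hz := q2_zero h (z := fun j => x j * y j + n) ((Rat.mul h.cub hx hy).add (Rat.const hn)) hi
    have hz' : ∀ j, x j * y j = e * e' := fun j => by
      have : x j * y j + n = 0 := hz j
      linear_combination this - h2
    have ha : ∀ j, (x j + e) * (y j + e) = e * (c + x j + y j) := fun j => by
      rw [← h1]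
      linear_combination hz' j
    have hb : ∀ j, (x j + e') * (y j + e') = e' * (c + x j + y j) := fun j => by
      rw [← h1]
      linear_combination hz' j
    have ha' : N (x + cst e) * N (y + cst e) =
        e ^ 3 * ((c + x 0 + y 0) * (c + x 1 + y 1) * (c + x 2 + y 2)) := by
      have : N (x + cst e) * N (y + cst e) = ((x 0 + e) * (y 0 + e)) * ((x 1 + e) * (y 1 + e)) *
          ((x 2 + e) * (y 2 + e)) := by
        simp only [N, cst, Pi.add_apply]
        ring
      rw [this, ha, ha, ha]
      ring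
    have hb' : N (x + cst e') * N (y + cst e') =
        e' ^ 3 * ((c + x 0 + y 0) * (c + x 1 + y 1) * (c + x 2 + y 2)) := by
      have : N (x + cst e') * N (y + cst e') = ((x 0 + e') * (y 0 + e')) *
          ((x 1 + e') * (y 1 + e')) * ((x 2 + e') * (y 2 + e')) := by
        simp only [N, cst, Pi.add_apply]
        ring
      rw [this, hb, hb, hb]
      ring
    have hne0 : (c + x 0 + y 0) * (c + x 1 + y 1) * (c + x 2 + y 2) ≠ 0 := by
      intro h0
      rw [h0, mul_zero] at ha'
      rcases mul_eq_zero.1 ha' with g | g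
      · exact N_ne_zero.2 (fun j => (hdx j).1) g
      · exact N_ne_zero.2 (fun j => (hdy j).1) g
    rw [ha', hb'] at h3
    have h4 : (e * e') ^ 2 * ((c + x 0 + y 0) * (c + x 1 + y 1) * (c + x 2 + y 2)) *
        (e - e') = 0 := by linear_combination h3
    rcases mul_eq_zero.1 h4 with g | g
    · rcases mul_eq_zero.1 g with g' | g'
      · exact hee (pow_eq_zero_iff (by norm_num : (2 : ℕ) ≠ 0) |>.1 g')
      · exact hne0 g'
    · exact hne (sub_eq_zero.1 g)
  refine ⟨hd, ?_⟩
  have hid := nf_id (fun i => -n * (x i + y i + c) / (x i * y i + n)) h1 h2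
  have ha : ∀ i, -n * (x i + y i + c) / (x i * y i + n) + e =
      e * ((x i + e') * (y i + e')) * (x i * y i + n)⁻¹ := by
    intro i
    have := hd i
    field_simp
    rw [← h1, hnn]
    ring
  have hb : ∀ i, -n * (x i + y i + c) / (x i * y i + n) + e' =
      e' * ((x i + e) * (y i + e)) * (x i * y i + n)⁻¹ := by
    intro i
    have := hd i
    field_simp
    rw [← h1, hnn]
    ring
  have key : e' * N ((fun i => -n * (x i + y i + c) / (x i * y i + n)) + cst e) -
      e * N ((fun i => -n * (x i + y i + c) / (x i * y i + n)) + cst e') = 0 := by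
    have h5 : e' * N ((fun i => -n * (x i + y i + c) / (x i * y i + n)) + cst e) -
      e * N ((fun i => -n * (x i + y i + c) / (x i * y i + n)) + cst e') =
        -(e * e') * (e' ^ 2 * (N (x + cst e) * N (y + cst e)) -
          e ^ 2 * (N (x + cst e') * N (y + cst e'))) *
        ((x 0 * y 0 + n)⁻¹ * (x 1 * y 1 + n)⁻¹ * (x 2 * y 2 + n)⁻¹) := by
      simp only [N, cst, Pi.add_apply, ha, hb]
      ring
    rw [h5, h3]
    ring
  rw [key] at hid
  exact (mul_eq_zero.1 hid.symm).resolve_left (sub_ne_zero.2 hne.symm)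

/-- a point over a quadratic extension gives a point -/
theorem nf_descend (h : Fd E θ) (hn : n ∈ E) (hc : c ∈ E) (hn0 : n ≠ 0)
    (h1 : e + e' = c) (h2 : e * e' = -n) (hne : e ≠ e') (hd : d ^ 2 ∈ E)
    (hx : Rat (qext E d hd) θ x) (hx0 : nf n c x = 0) : ∃ y, Rat E θ y ∧ nf n c y = 0 := by
  by_cases hd' : d ∈ E
  · exact ⟨x, hx.mono (qext_le le_rfl hd'), hx0⟩
  obtain ⟨p, r, hp, hr, hxe⟩ := rat_qext.1 hx
  have hxe' : x = fun j => p j + r j * d := funext hxe
  have h' : Fd (qext E d hd) θ := ⟨h.cub.mono le_qext, noroot_qext h.cub h.nr⟩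
  have hR : Rat (qext E d hd) θ (fun j => p j + -r j * d) :=
    rat_qext.2 ⟨p, fun j => -r j, hp, hr.neg, fun j => rfl⟩
  have hNx := N_conj p r d
  have hNy := N_conj p r (-d)
  have h3 : (N p + T (fun j => p j * sh r j) * d ^ 2 + n * (T p + c)) +
      (T (fun j => r j * sh p j) + N r * d ^ 2 + n * T r) * d = 0 := by
    have h4 := hx0
    rw [hxe'] at h4
    unfold nf at h4
    rw [hNx] at h4
    have h5 : T (fun j => p j + r j * d) = T p + T r * d := by
      simp only [T]
      ring
    rw [h5] at h4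
    linear_combination h4
  have m1 : N p + T (fun j => p j * sh r j) * d ^ 2 + n * (T p + c) ∈ E :=
    E.add_mem (E.add_mem (hp.N_mem h.cub) (E.mul_mem ((Rat.mul h.cub hp (hr.sh h.cub)).T_mem h.cub)
      hd)) (E.mul_mem hn (E.add_mem (hp.T_mem h.cub) hc))
  have m2 : T (fun j => r j * sh p j) + N r * d ^ 2 + n * T r ∈ E :=
    E.add_mem (E.add_mem ((Rat.mul h.cub hr (hp.sh h.cub)).T_mem h.cub)
      (E.mul_mem (hr.N_mem h.cub) hd)) (E.mul_mem hn (hr.T_mem h.cub))
  obtain ⟨z1, z2⟩ := qext_coords hd' m1 m2 h3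
  have hy0 : nf n c (fun j => p j + -r j * d) = 0 := by
    have e1 : (fun j => p j + -r j * d) = fun j => p j + r j * -d := by
      funext j
      ring
    have h5 : T (fun j => p j + r j * -d) = T p + T r * -d := by
      simp only [T]
      ring
    unfold nf
    rw [e1, hNy, h5]
    linear_combination z1 - d * z2
  obtain ⟨t1, t2⟩ := nf_third h' (le_qext hn) (le_qext hc) hn0 h1 h2 hne hx hR hx0 hy0
  have hmul : ∀ i, x i * (p i + -r i * d) + n = p i ^ 2 - d ^ 2 * r i ^ 2 + n := by
    intro i
    rw [hxe i]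
    ring
  have hadd : ∀ i, x i + (p i + -r i * d) + c = 2 * p i + c := by
    intro i
    rw [hxe i]
    ring
  refine ⟨fun i => -n * (x i + (p i + -r i * d) + c) / (x i * (p i + -r i * d) + n), ?_, t2⟩
  have e2 : (fun i => -n * (x i + (p i + -r i * d) + c) / (x i * (p i + -r i * d) + n)) =
      fun i => (-n * (2 * p i + c)) / (p i ^ 2 - d ^ 2 * r i ^ 2 + n) := by
    funext i
    rw [hmul, hadd]
  rw [e2]
  refine Rat.div h.cub (Rat.smul (E.neg_mem hn) ((Rat.smul (ofNat_mem E 2) hp).add (Rat.const hc)))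
    (((hp.pow h.cub 2).sub (Rat.smul hd (hr.pow h.cub 2))).add (Rat.const hn)) ?_
  intro i
  have := t1 i
  rw [hmul] at this
  exact this

end Pool.Agent.Helper16.C18.H
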