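import Pool.Agent.Helper64.C18.NF
import Pool.Agent.Helper64.C18.Q2
import Pool.Agent.Helper16.C18.Cyc

set_option autoImplicit false

/-! Project C18: points over extensions of degree prime to 3 (offer C18-DES3) -/

/-!
`fd_of_prime`: if `θ j ∈ L` then `Om(θ j) ≤ L` has degree 3 over `Om` (`cubP_irreducible`), so 3 divides
`finrank Om L`.
`descend3`: if `Θ.d = 0` then `(1 : 0)` is a point; otherwise `normal_form` over `Om`.  (1) norm form
`d N (x + m y)`: the point `(-m : 1)`.  (2): the point `h (1, 0)`.  (3): the normal form `nf n c`; the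
point over `L` of the transformed cube has `y ≠ 0`, so `X = x / y` satisfies `nf n c X = 0`
(`Fd L θ`).  Let `δ ^ 2 = c ^ 2 + 4 n`, `e = (c + δ) / 2`, `e' = (c - δ) / 2`, `z = e / e'`, `G = qext Om δ`,
`L' = L(δ)` (a finite extension of `G` of degree prime to 3: `[L' : Om]` divides `2 [L : Om]`).
`w = (X + e) / (X + e')` is `Rat L' θ` and `N w = z ∈ G` (`nf_w`).  Norm argument: with `w 0 ∈ L'(θ 0)`,
`N w = Algebra.norm L' (w 0)` (the conjugates of `w 0` over `L'` are `w 0, w 1, w 2`: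
`Algebra.norm_eq_prod_embeddings` or the minimal polynomial); put `v = norm_{L'(θ 0) / G(θ 0)} (w 0)` in
`G(θ 0)`, so `norm_{G(θ 0) / G} v = norm_{L' / G} z = z ^ k`, `k = [L' : G]` (transitivity of the norm;
`[L'(θ 0) : L'] = [G(θ 0) : G] = 3`), i.e. `Nm G θ (z ^ k)`.  (Any other norm argument is fine, for example
with determinants of multiplication matrices: choose a basis of `L'` over `G`; the matrix of
multiplication by `w` has entries in `G[θ]`, its determinant `v` (a triple) is `Rat G θ` and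
`N v = z ^ k`.)  With `Nm.cube` and `3 ∤ k`: `Nm G θ z`, then `nf_of_w` over `G`, `nf_descend` to `Om`, and
`Pt.map`.
-/

namespace Pool.Agent.Helper16.C18.H

section

variable {A : Type*} [Field A] {θ : Fin 3 → A}

open Polynomial TensorProduct

private theorem des3_rat_poly {F : Type*} [Field F] [Algebra F A] {E : Subfield A}
    (hE : ∀ x : F, algebraMap F A x ∈ E) (h : Cub E θ) (P : F[X]) :
    Rat E θ (fun j => aeval (θ j) P) := by
  induction P using Polynomial.induction_on' with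
  | add p q hp hq => simpa only [map_add] using hp.add hq
  | monomial n a =>
    have := Rat.smul (hE a) ((Rat.self (L := E) (θ := θ)).pow h n)
    simpa only [aeval_monomial] using this

private theorem des3_prod {R : Type*} [CommRing R] (a b c t0 t1 t2 : R) :
    (a + t0 * b + t0 ^ 2 * c) * (a + t1 * b + t1 ^ 2 * c) * (a + t2 * b + t2 ^ 2 * c) =
      a ^ 3 + a ^ 2 * b * (t0 + t1 + t2) +
        a ^ 2 * c * ((t0 + t1 + t2) ^ 2 - 2 * (t1 * t2 + t2 * t0 + t0 * t1)) +
        a * b ^ 2 * (t1 * t2 + t2 * t0 + t0 * t1) +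
        a * b * c * ((t0 + t1 + t2) * (t1 * t2 + t2 * t0 + t0 * t1) - 3 * (t0 * t1 * t2)) +
        a * c ^ 2 * ((t1 * t2 + t2 * t0 + t0 * t1) ^ 2 - 2 * (t0 + t1 + t2) * (t0 * t1 * t2)) +
        b ^ 3 * (t0 * t1 * t2) + b ^ 2 * c * (t0 + t1 + t2) * (t0 * t1 * t2) +
        b * c ^ 2 * (t1 * t2 + t2 * t0 + t0 * t1) * (t0 * t1 * t2) +
        c ^ 3 * (t0 * t1 * t2) ^ 2 := by
  ring

private theorem des3_norm {F B : Type*} [Field F] [Field B] [Algebra F A] [Algebra F B]
    [Algebra B A] [IsScalarTower F B A] [FiniteDimensional F B] {E E' : Subfield A}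
    (hE : E = (algebraMap F A).fieldRange) (hE' : E' = (algebraMap B A).fieldRange)
    (h : Cub E θ) {z : A} (hz : z ∈ E) (hN : Nm E' θ z) : Nm E θ (z ^ Module.finrank F B) := by
  have hEm : ∀ x : F, algebraMap F A x ∈ E := by
    intro x
    rw [hE]
    exact ⟨x, rfl⟩
  obtain ⟨w, ⟨a, ha, b, hb, c, hc, e⟩, hw⟩ := hN
  have e1 := h.e1
  have e2 := h.e2
  have e3 := h.e3
  rw [hE] at hz e1 e2 e3
  rw [hE'] at ha hb hc
  obtain ⟨a, rfl⟩ := ha
  obtain ⟨b, rfl⟩ := hb
  obtain ⟨c, rfl⟩ := hc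
  obtain ⟨z, rfl⟩ := hz
  obtain ⟨s1, hs1⟩ := e1
  obtain ⟨s2, hs2⟩ := e2
  obtain ⟨s3, hs3⟩ := e3
  have hs1' : algebraMap F A s1 = θ 0 + θ 1 + θ 2 := hs1
  have hs2' : algebraMap F A s2 = θ 1 * θ 2 + θ 2 * θ 0 + θ 0 * θ 1 := hs2
  have hs3' : algebraMap F A s3 = θ 0 * θ 1 * θ 2 := hs3
  -- the norm equation in `B`
  have hB : algebraMap F B z = a ^ 3 + a ^ 2 * b * algebraMap F B s1 +
        a ^ 2 * c * (algebraMap F B s1 ^ 2 - 2 * algebraMap F B s2) +
        a * b ^ 2 * algebraMap F B s2 +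
        a * b * c * (algebraMap F B s1 * algebraMap F B s2 - 3 * algebraMap F B s3) +
        a * c ^ 2 * (algebraMap F B s2 ^ 2 - 2 * algebraMap F B s1 * algebraMap F B s3) +
        b ^ 3 * algebraMap F B s3 + b ^ 2 * c * algebraMap F B s1 * algebraMap F B s3 +
        b * c ^ 2 * algebraMap F B s2 * algebraMap F B s3 +
        c ^ 3 * algebraMap F B s3 ^ 2 := by
    apply (algebraMap B A).injective
    simp only [map_add, map_sub, map_mul, map_pow, map_ofNat, ← IsScalarTower.algebraMap_apply]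
    rw [hs1', hs2', hs3', ← des3_prod, ← hw]
    simp only [N, e]
    ring
  -- the tensor product
  obtain ⟨iR, hiR⟩ : ∃ iR : B →ₐ[F] A ⊗[F] B, iR = Algebra.TensorProduct.includeRight := ⟨_, rfl⟩
  obtain ⟨iL, hiL⟩ : ∃ iL : A →ₐ[F] A ⊗[F] B, iL = Algebra.TensorProduct.includeLeft := ⟨_, rfl⟩
  have hBR := congrArg iR hB
  simp only [map_add, map_sub, map_mul, map_pow, map_ofNat, AlgHom.commutes] at hBR
  have k1 : algebraMap F (A ⊗[F] B) s1 = iL (θ 0) + iL (θ 1) + iL (θ 2) := by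
    rw [← iL.commutes, hs1', map_add, map_add]
  have k2 : algebraMap F (A ⊗[F] B) s2 =
      iL (θ 1) * iL (θ 2) + iL (θ 2) * iL (θ 0) + iL (θ 0) * iL (θ 1) := by
    rw [← iL.commutes, hs2', map_add, map_add, map_mul, map_mul, map_mul]
  have k3 : algebraMap F (A ⊗[F] B) s3 = iL (θ 0) * iL (θ 1) * iL (θ 2) := by
    rw [← iL.commutes, hs3', map_mul, map_mul]
  rw [k1, k2, k3, ← des3_prod] at hBR
  obtain ⟨Z, hZ⟩ : ∃ Z : Fin 3 → A ⊗[F] B, Z = fun j => iR a + iL (θ j) * iR b +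
    iL (θ j) ^ 2 * iR c := ⟨_, rfl⟩
  have hZp : Z 0 * Z 1 * Z 2 = algebraMap A (A ⊗[F] B) (algebraMap F A z) := by
    rw [hZ, ← hBR, IsScalarTower.algebraMap_apply F A (A ⊗[F] B)]
  refine ⟨fun j => Algebra.norm A (Z j), ?_, ?_⟩
  · let b₀ := Module.finBasis F B
    let bA := Algebra.TensorProduct.basis A b₀
    obtain ⟨P, hP⟩ : ∃ P : F[X], P = ((Algebra.leftMulMatrix b₀ a).map C +
      (Algebra.leftMulMatrix b₀ b).map (fun t => X * C t) +
      (Algebra.leftMulMatrix b₀ c).map (fun t => X ^ 2 * C t)).det := ⟨_, rfl⟩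
    have key : (fun j => Algebra.norm A (Z j)) = fun j => aeval (θ j) P := by
      funext j
      rw [Algebra.norm_eq_matrix_det bA, hP, AlgHom.map_det]
      congr 1
      ext k l
      rw [Algebra.leftMulMatrix_eq_repr_mul]
      have h1 : Z j * bA l = (1 : A) ⊗ₜ[F] (a * b₀ l) + (θ j) ⊗ₜ[F] (b * b₀ l) +
          (θ j ^ 2) ⊗ₜ[F] (c * b₀ l) := by
        rw [Algebra.TensorProduct.basis_apply]
        simp [hZ, hiR, hiL, add_mul]
      rw [h1, map_add, map_add]
      simp only [bA, Algebra.TensorProduct.basis_repr_tmul]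
      simp [Algebra.leftMulMatrix_eq_repr_mul]
      ring
    rw [key]
    exact des3_rat_poly hEm h P
  · change Algebra.norm A (Z 0) * Algebra.norm A (Z 1) * Algebra.norm A (Z 2) = _
    rw [← map_mul, ← map_mul, hZp, Algebra.norm_algebraMap, Module.finrank_baseChange]

private theorem des3_desc [CharZero A] {G L' : Subfield A} (h : Cub G θ) (hle : G ≤ L')
    (hk : ¬ 3 ∣ Subfield.relfinrank G L') {z : A} (hz : z ∈ G) (hN : Nm L' θ z) : Nm G θ z := by
  by_cases hz0 : z = 0
  · exact ⟨fun _ => 0, Rat.const G.zero_mem, by simp [N, hz0]⟩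
  rw [Subfield.relfinrank_eq_finrank_of_le hle] at hk
  have hpos : 0 < Module.finrank G (Subfield.extendScalars hle) :=
    Nat.pos_of_ne_zero fun h0 => hk (h0 ▸ dvd_zero 3)
  have : FiniteDimensional G (Subfield.extendScalars hle) := Module.finite_of_finrank_pos hpos
  have h1 := des3_norm (F := G) (B := Subfield.extendScalars hle) (E := G) (E' := L')
    (by
      ext t
      constructor
      · intro ht
        exact ⟨⟨t, ht⟩, rfl⟩
      · rintro ⟨y, rfl⟩
        exact y.2)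
    (by
      ext t
      constructor
      · intro ht
        exact ⟨⟨t, ht⟩, rfl⟩
      · rintro ⟨y, rfl⟩
        exact y.2) h hz hN
  generalize Module.finrank G (Subfield.extendScalars hle) = k at hk hpos h1
  have hc : Nm G θ ((z ^ (k / 3)) ^ 3) := Nm.cube (G.pow_mem hz _)
  have h2 := h1.div h hc
  have hk3 : k % 3 = 1 ∨ k % 3 = 2 := by omega
  have h3 : z ^ k / (z ^ (k / 3)) ^ 3 = z ^ (k % 3) := by
    have h4 : z ^ k = (z ^ (k / 3)) ^ 3 * z ^ (k % 3) := by
      rw [← pow_mul, ← pow_add]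
      congr 1
      omega
    rw [h4, mul_div_cancel_left₀]
    exact pow_ne_zero _ (pow_ne_zero _ hz0)
  rw [h3] at h2
  rcases hk3 with h4 | h4
  · rw [h4, pow_one] at h2
    exact h2
  · rw [h4] at h2
    exact Nm.of_sq h hz h2

private theorem des3_quad {L₁ : Subfield A} {δ : A} (hδ : δ ^ 2 ∈ L₁) :
    ¬ 3 ∣ Subfield.relfinrank L₁ (qext L₁ δ hδ) := by
  have hle : L₁ ≤ qext L₁ δ hδ := le_qext
  rw [Subfield.relfinrank_eq_finrank_of_le hle]
  have hmem : δ ∈ Subfield.extendScalars hle := self_mem_qext (hs := hδ)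
  let f : (Fin 2 → L₁) →ₗ[L₁] Subfield.extendScalars hle :=
    Fintype.linearCombination L₁ ![(1 : Subfield.extendScalars hle), ⟨δ, hmem⟩]
  have hs : Function.Surjective f := by
    rintro ⟨z, a, ha, b, hb, rfl⟩
    refine ⟨![⟨a, ha⟩, ⟨b, hb⟩], ?_⟩
    apply Subtype.ext
    simp only [f, Fintype.linearCombination_apply, Fin.sum_univ_two, Matrix.cons_val_zero,
      Matrix.cons_val_one]
    change a * 1 + b * δ = a + b * δ
    rw [mul_one]
  have := Module.Finite.of_surjective f hs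
  have h1 := LinearMap.finrank_le_finrank_of_surjective hs
  have h2 : Module.finrank L₁ (Fin 2 → L₁) = 2 := by simp
  have h3 : 0 < Module.finrank L₁ (Subfield.extendScalars hle) := Module.finrank_pos
  rw [h2] at h1
  intro h4
  have := Nat.le_of_dvd h3 h4
  omega

end

variable {A : Type*} [Field A] [CharZero A] [IsAlgClosed A] {Om : Subfield A}
  {θ x y : Fin 3 → A} {Θ : Cube A}

open Polynomial in
theorem fd_of_prime (hθ : Fd Om θ) (L : IntermediateField Om A) [FiniteDimensional Om L]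
    (hL : ¬ 3 ∣ Module.finrank Om L) : Fd L.toSubfield θ := by
  refine ⟨hθ.cub.mono (fun x hx => L.algebraMap_mem ⟨x, hx⟩), fun j hj => hL ?_⟩
  have hirr := cubP_irreducible hθ.cub hθ.nr
  have h0 : aeval (⟨θ j, hj⟩ : L) (cubP hθ.cub) = 0 := by
    apply (algebraMap L A).injective
    rw [← aeval_algebraMap_apply, map_zero]
    change aeval (θ j) (cubP hθ.cub) = 0
    rw [cubP_aeval]
    fin_cases j <;> simp
  have hmin : minpoly Om (⟨θ j, hj⟩ : L) = cubP hθ.cub :=
    (minpoly.eq_of_irreducible_of_monic hirr h0 (cubP_monic hθ.cub)).symm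
  have h2 := minpoly.degree_dvd (IsIntegral.of_finite Om (⟨θ j, hj⟩ : L))
  rwa [hmin, cubP_natDegree] at h2

theorem descend3 (hθ : Fd Om θ) (hΘ : Θ.Over Om θ) (L : IntermediateField Om A)
    [FiniteDimensional Om L] (hL : ¬ 3 ∣ Module.finrank Om L)
    (hp : Pt Θ L.toSubfield θ x y) : ∃ x' y', Pt Θ Om θ x' y' := by
  by_cases hd : Θ.d = 0
  · refine ⟨1, 0, Rat.const Om.one_mem, Rat.const Om.zero_mem, Or.inl one_ne_zero, ?_⟩
    simp [Cube.ev, N, T, sh, hd]
  rcases normal_form hθ hΘ hd with ⟨m, hm, he⟩ | ⟨h, k, m, hk, hk0, hm, hm0, he⟩ |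
    ⟨h, k, n, c, hk, hk0, hn, hc, hn0, hD, he⟩
  · refine ⟨fun j => - m j, 1, hm.neg, Rat.const Om.one_mem, Or.inr one_ne_zero, ?_⟩
    rw [he]
    have h1 : (fun j => - m j) + m * 1 = (0 : Fin 3 → A) := by
      funext j
      simp
    rw [h1]
    simp [N]
  · have h1 : Pt (h.act Θ) Om θ 1 0 := ⟨Rat.const Om.one_mem, Rat.const Om.zero_mem,
      Or.inl one_ne_zero, by rw [Mob.act_ev, he]; simp [N, T, sh]⟩
    exact ⟨_, _, Pt.map hθ hθ le_rfl h h1⟩
  · have hL' : Fd L.toSubfield θ := fd_of_prime hθ L hL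
    have hle : Om ≤ L.toSubfield := fun x hx => L.algebraMap_mem ⟨x, hx⟩
    obtain ⟨x', y', hp', -, -⟩ := Pt.comap hθ hL' hle h hp
    have hev := hp'.ev
    rw [Mob.act_ev, he] at hev
    have hev := (mul_eq_zero.1 hev).resolve_left hk0
    have hy0 : y' ≠ 0 := by
      intro h0
      rw [h0] at hev
      have h1 : N x' = 0 := by simpa [N, T, sh] using hev
      have hx0 : x' ≠ 0 := hp'.ne.resolve_right fun h2 => h2 h0
      exact hL'.N_ne hp'.hx hx0 h1
    have hyi := hL'.ne hp'.hy hy0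
    have hXr : Rat L.toSubfield θ (x' / y') := hL'.div hp'.hx hp'.hy
    have hX0 : nf n c (x' / y') = 0 := by
      have h1 : nf n c (x' / y') * N y' = 0 := by
        rw [← hev]
        have i0 := hyi 0
        have i1 := hyi 1
        have i2 := hyi 2
        simp only [nf, N, T, sh, Pi.div_apply, Pi.mul_apply, Matrix.cons_val_zero,
          Matrix.cons_val_one, Matrix.cons_val]
        field_simp
        ring
      exact (mul_eq_zero.1 h1).resolve_right (N_ne_zero.2 hyi)
    obtain ⟨δ, hδ⟩ := IsAlgClosed.exists_pow_nat_eq (c ^ 2 + 4 * n) (n := 2) two_pos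
    have hδ2 : δ ^ 2 ∈ Om := by
      rw [hδ]
      exact Om.add_mem (Om.pow_mem hc 2) (Om.mul_mem (ofNat_mem Om 4) hn)
    have h1 : (c + δ) / 2 + (c - δ) / 2 = c := by ring
    have h2 : (c + δ) / 2 * ((c - δ) / 2) = -n := by linear_combination (-1 / 4 : A) * hδ
    have hne : (c + δ) / 2 ≠ (c - δ) / 2 := by
      intro h3
      have h4 : δ = 0 := by linear_combination h3
      apply hD
      rw [← hδ, h4]
      ring
    have hmem : ∀ {M : Subfield A} (hM : δ ^ 2 ∈ M), c ∈ M →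
        (c + δ) / 2 ∈ qext M δ hM ∧ (c - δ) / 2 ∈ qext M δ hM := by
      intro M hM hcM
      exact ⟨⟨c / 2, M.div_mem hcM (ofNat_mem M 2), 1 / 2, M.div_mem M.one_mem (ofNat_mem M 2),
        by ring⟩, ⟨c / 2, M.div_mem hcM (ofNat_mem M 2), -(1 / 2),
        M.neg_mem (M.div_mem M.one_mem (ofNat_mem M 2)), by ring⟩⟩
    have hδL : δ ^ 2 ∈ L.toSubfield := hle hδ2
    have hGL : qext Om δ hδ2 ≤ qext L.toSubfield δ hδL :=
      qext_le (hle.trans le_qext) self_mem_qext
    have hG : Fd (qext Om δ hδ2) θ := ⟨hθ.cub.mono le_qext, noroot_qext hθ.cub hθ.nr⟩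
    have hF : Fd (qext L.toSubfield δ hδL) θ := ⟨hL'.cub.mono le_qext, noroot_qext hL'.cub hL'.nr⟩
    have hdeg : ¬ 3 ∣ Subfield.relfinrank (qext Om δ hδ2) (qext L.toSubfield δ hδL) := by
      intro h3
      have e1 := Subfield.relfinrank_mul_relfinrank (le_qext (L := Om) (hs := hδ2)) hGL
      have e2 := Subfield.relfinrank_mul_relfinrank hle (le_qext (L := L.toSubfield) (hs := hδL))
      have e3 : Subfield.relfinrank Om L.toSubfield = Module.finrank Om L := by
        rw [Subfield.relfinrank_eq_finrank_of_le hle]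
        have e4 : Subfield.extendScalars hle = L := IntermediateField.ext fun x => Iff.rfl
        rw [e4]
      rw [e3] at e2
      have h4 : 3 ∣ Module.finrank Om L *
          Subfield.relfinrank L.toSubfield (qext L.toSubfield δ hδL) := by
        rw [e2, ← e1]
        exact Dvd.dvd.mul_left h3 _
      rcases (Nat.Prime.dvd_mul Nat.prime_three).1 h4 with h5 | h5
      · exact hL h5
      · exact des3_quad hδL h5
    have hz : Nm (qext L.toSubfield δ hδL) θ ((c + δ) / 2 / ((c - δ) / 2)) :=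
      ⟨(x' / y' + cst ((c + δ) / 2)) / (x' / y' + cst ((c - δ) / 2)),
        hF.div ((hXr.mono le_qext).add (Rat.const (hmem hδL (hle hc)).1))
          ((hXr.mono le_qext).add (Rat.const (hmem hδL (hle hc)).2)),
        nf_w hF hn0 h1 h2 (hmem hδL (hle hc)).1 (hmem hδL (hle hc)).2 hne (hXr.mono le_qext) hX0⟩
    obtain ⟨v, hv, hvN⟩ := des3_desc hG.cub hGL hdeg
      ((qext Om δ hδ2).div_mem (hmem hδ2 hc).1 (hmem hδ2 hc).2) hz
    obtain ⟨u, hu, hu0⟩ := nf_of_w hG hn0 h1 h2 (hmem hδ2 hc).1 (hmem hδ2 hc).2 hne hv hvN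
    obtain ⟨t, ht, ht0⟩ := nf_descend hθ hn hc hn0 h1 h2 hne hδ2 hu hu0
    have h5 : Pt (h.act Θ) Om θ t 1 := by
      refine ⟨ht, Rat.const Om.one_mem, Or.inr one_ne_zero, ?_⟩
      rw [Mob.act_ev, he]
      have h6 : N t + n * T (t * sh 1) + n * c * N 1 = nf n c t := by
        simp only [nf, N, T, sh, Pi.mul_apply, Pi.one_apply, Matrix.cons_val_zero,
          Matrix.cons_val_one, Matrix.cons_val]
        ring
      rw [h6, ht0, mul_zero]
    exact ⟨_, _, Pt.map hθ hθ le_rfl h h5⟩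

end Pool.Agent.Helper16.C18.H
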