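import Pool.Agent.Helper16.C18.Base
import Pool.Agent.Helper16.C18.Quad

set_option autoImplicit false

/-!
Project C18, definitions.  A cubic algebra over a subfield `L` of the big field `A` is given by the
triple `θ` of conjugates of a generator; its elements are the triples `a + b θ + c θ ^ 2`
(`Rat L θ x`, file `Helper16/C18/Base.lean`).
-/

namespace Pool.Agent.Helper16.C18.H

variable {A : Type*} [Field A]

/-- `θ` is the triple of roots of an irreducible separable cubic polynomial over `L` -/
structure Fd (L : Subfield A) (θ : Fin 3 → A) : Prop where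
  cub : Cub L θ
  nr : ∀ j, θ j ∉ L

/-- the constant triple -/
def cst (s : A) : Fin 3 → A := fun _ => s

/-- twisted cube (trilinear form on three conjugate planes) -/
@[ext] structure Cube (A : Type*) where
  c : A
  a : Fin 3 → A
  b : Fin 3 → A
  d : A

/-- value of the twisted cube at a pair of triples -/
def Cube.ev (Θ : Cube A) (x y : Fin 3 → A) : A :=
  Θ.c * N y + T (Θ.a * x * sh y) + T (Θ.b * sh x * y) + Θ.d * N x

/-- the twisted cube is defined over `L` -/
structure Cube.Over (Θ : Cube A) (L : Subfield A) (θ : Fin 3 → A) : Prop where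
  hc : Θ.c ∈ L
  ha : Rat L θ Θ.a
  hb : Rat L θ Θ.b
  hd : Θ.d ∈ L

/-- `(x : y)` is a point of the cube over `L` -/
structure Pt (Θ : Cube A) (L : Subfield A) (θ x y : Fin 3 → A) : Prop where
  hx : Rat L θ x
  hy : Rat L θ y
  ne : x ≠ 0 ∨ y ≠ 0
  ev : Θ.ev x y = 0

/-- the point `(x : y)` over `Om` generates `Om` over `K` -/
def Gen (K Om : Subfield A) (θ x y : Fin 3 → A) : Prop :=
  ∀ L : Subfield A, K ≤ L → L ≤ Om → ∀ x' y' : Fin 3 → A, Rat L θ x' → Rat L θ y' →
    (x' ≠ 0 ∨ y' ≠ 0) → x * y' = x' * y → Om ≤ L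

/-- the affine point `x` over `Om` generates `Om` over `K` -/
def GenA (K Om : Subfield A) (θ x : Fin 3 → A) : Prop :=
  ∀ L : Subfield A, K ≤ L → L ≤ Om → Rat L θ x → Om ≤ L

/-- the subfield generated by `K` and a set -/
def ad (K : Subfield A) (S : Set A) : Subfield A := Subfield.closure (↑K ∪ S)

/-- `Om` has transcendence degree at least two over `K` -/
def Tr2 (K Om : Subfield A) : Prop :=
  ∃ s0 ∈ Om, ∃ s1 ∈ Om, AlgebraicIndependent K ![s0, s1]

/-- every element of `C` is algebraic over `K` -/
def AlgOver (K C : Subfield A) : Prop := ∀ x ∈ C, IsAlgebraic K x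

/-- a fractional linear transformation with coefficients in the algebra -/
structure Mob (L : Subfield A) (θ : Fin 3 → A) where
  p : Fin 3 → A
  q : Fin 3 → A
  r : Fin 3 → A
  s : Fin 3 → A
  hp : Rat L θ p
  hq : Rat L θ q
  hr : Rat L θ r
  hs : Rat L θ s
  det : ∀ i, p i * s i - q i * r i ≠ 0

/-- the equation `N x + n (T x + c) = 0` -/
def nf (n c : A) (x : Fin 3 → A) : A := N x + n * (T x + c)

end Pool.Agent.Helper16.C18.H
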