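import Pool.Agent.Helper64.C18.B3
import Pool.Agent.Helper64.C18.T1

set_option autoImplicit false

/-! Project C18: a rational point gives a rational parametrisation (offer C18-KP) -/

/-!
Move the point to `(1 : 0)` by a transformation `h` over `K` (if the point is `(x0 : y0)`: `p = x0`,
`r = y0`, and `q, s` in `K[θ]` with `p s - q r = 1`, e.g. `(q, s) = (0, 1 / x0)` or `(-1 / y0, 0)`).  The new
cube has `d = 0`: `c N y + T (a x sh y) + T (b sh x y)`; on `y = 1`: `c + T (a x) + T (b sh x)`.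
`a = b = 0` is excluded by the hypothesis `hnd` (then `Θ.ev` is `c` times the norm of a linear form,
use the inverse transformation).
Case `b ≠ 0`: choose `t ≠ 0` in `K[θ]` with `T (b t) = 0` and `v = sh t`, so
`T (b sh v) = N t * T (b t) = 0`; complete `v` to a `K`-basis `v, v1, v2` of `K[θ]` and put
`w = s0 v1 + s1 v2`, `x = s v + w`.  The equation becomes `P + s Q = 0` with `P = c + T (a w) + T (b sh w)`,
`Q = T (a v) + T (b (sh (v + w) - sh v - sh w))`.  The linear part of `Q` in `s0, s1` is not zero: the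
linear form `w ↦ T (b (sh (v + w) - sh v - sh w))` on `K[θ]` vanishes at `v` and is not zero (it is
`T (u w)` with `u = (b 1 v 2 + b 2 v 1, b 2 v 0 + b 0 v 2, b 0 v 1 + b 1 v 0)` which is nonzero as the
determinant `2 b 0 b 1 b 2` is not).  So `Q ≠ 0` by the independence of `s0, s1`, and `s = -P / Q`.
Case `b = 0`, `a ≠ 0`: `v` with `T (a v) = 1`, `v1, v2` a basis of the kernel of `T (a _)`,
`x = -c v + s0 v1 + s1 v2`.
In both cases a subfield `L` containing `K` and (the coordinates of) `x` contains the coordinates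
of `x` in the basis `v, v1, v2`, so `s0, s1`, so it is everything.  Finally `Gen` by `GenA.toGen` and
`Gen.map`.
-/

namespace Pool.Agent.Helper16.C18.H

variable {A : Type*} [Field A] [CharZero A] {K : Subfield A} {θ x0 y0 : Fin 3 → A} {Θ : Cube A}

omit [CharZero A] in
theorem KP_indep {s0 s1 : A} (hs : AlgebraicIndependent K ![s0, s1]) {α β γ : A} (hα : α ∈ K)
    (hβ : β ∈ K) (hγ : γ ∈ K) (h : α + β * s0 + γ * s1 = 0) : β = 0 ∧ γ = 0 := by
  set P : MvPolynomial (Fin 2) K := MvPolynomial.C ⟨α, hα⟩ +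
    MvPolynomial.C ⟨β, hβ⟩ * MvPolynomial.X 0 + MvPolynomial.C ⟨γ, hγ⟩ * MvPolynomial.X 1 with hP
  have h1 : MvPolynomial.aeval ![s0, s1] P = 0 := by
    simp only [hP, map_add, map_mul, MvPolynomial.aeval_X, MvPolynomial.aeval_C,
      Matrix.cons_val_zero, Matrix.cons_val_one]
    exact h
  have h2 : P = 0 := hs.eq_zero_of_aeval_eq_zero P h1
  have e0 := congrArg (MvPolynomial.eval (![0, 0] : Fin 2 → K)) h2
  have e1 := congrArg (MvPolynomial.eval (![1, 0] : Fin 2 → K)) h2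
  have e2 := congrArg (MvPolynomial.eval (![0, 1] : Fin 2 → K)) h2
  simp [hP] at e0 e1 e2
  have f0 : α = 0 := congrArg Subtype.val e0
  have f1 : α + β = 0 := congrArg Subtype.val e1
  have f2 : α + γ = 0 := congrArg Subtype.val e2
  rw [f0, zero_add] at f1 f2
  exact ⟨f1, f2⟩

/-- the triple `v (s + s0 θ + s1 θ ^ 2)` generates -/
theorem KP_gen (hC : Fd K θ) {s0 s1 : A} (hC' : Fd (ad K {s0, s1}) θ) {v : Fin 3 → A}
    (hv : Rat K θ v) (hv0 : v ≠ 0) (s : A) :
    GenA K (ad K {s0, s1}) θ (v * fun j => s + s0 * θ j + s1 * θ j ^ 2) := by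
  intro L hKL hLE hx
  have hL : Fd L θ := hC.down hC' hKL hLE
  have hvi := hC.ne hv hv0
  have h1 := hL.div hx (hv.mono hKL)
  have h2 : (v * fun j => s + s0 * θ j + s1 * θ j ^ 2) / v =
      fun j => s + s0 * θ j + s1 * θ j ^ 2 := by
    funext j
    simp only [Pi.div_apply, Pi.mul_apply]
    exact mul_div_cancel_left₀ _ (hvi j)
  rw [h2] at h1
  obtain ⟨α, hα, β, hβ, γ, hγ, he⟩ := h1
  obtain ⟨-, h3, h4⟩ := coord_unique hC.cub.inj (a := s - α) (b := s0 - β) (c := s1 - γ)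
    (fun i => by linear_combination he i)
  refine ad_le hKL ?_
  rintro t (rfl | rfl)
  · rw [sub_eq_zero.1 h3]
    exact hβ
  · rw [sub_eq_zero.1 h4]
    exact hγ

/-- the affine equation without cubic term -/
theorem KP_solve (hC : Fd K θ) {c : A} {a b : Fin 3 → A} (hc : c ∈ K) (ha : Rat K θ a)
    (hb : Rat K θ b) (hab : a ≠ 0 ∨ b ≠ 0)
    {s0 s1 : A} (hs : AlgebraicIndependent K ![s0, s1]) (hC' : Fd (ad K {s0, s1}) θ) :
    ∃ v : Fin 3 → A, Rat K θ v ∧ v ≠ 0 ∧ ∃ s ∈ ad K {s0, s1},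
      c + T (a * (v * fun j => s + s0 * θ j + s1 * θ j ^ 2)) +
        T (b * sh (v * fun j => s + s0 * θ j + s1 * θ j ^ 2)) = 0 := by
  have hKE : K ≤ ad K {s0, s1} := le_ad K _
  have hs0 : s0 ∈ ad K {s0, s1} := mem_ad (Or.inl rfl)
  have hs1 : s1 ∈ ad K {s0, s1} := mem_ad (Or.inr rfl)
  have h3 : (3 : A) ∈ K := ofNat_mem K 3
  have hw : Rat (ad K {s0, s1}) θ (fun j => s0 * θ j + s1 * θ j ^ 2) :=
    (Rat.smul hs0 Rat.self).add (Rat.smul hs1 (Rat.self.pow hC'.cub 2))
  by_cases hb0 : b = 0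
  · have ha0 : a ≠ 0 := hab.resolve_right fun h => h hb0
    have hai := hC.ne ha ha0
    refine ⟨a⁻¹, hC.inv ha, fun h => hai 0 ?_, -(c + T (fun j => s0 * θ j + s1 * θ j ^ 2)) / 3,
      ?_, ?_⟩
    · have h1 := congrFun h 0
      simpa using h1
    · exact Subfield.div_mem _ (Subfield.neg_mem _ (Subfield.add_mem _ (hKE hc)
        (hw.T_mem hC'.cub))) (hKE h3)
    · rw [← mul_assoc, hb0]
      have h1 : a * a⁻¹ = 1 := by
        funext j
        exact mul_inv_cancel₀ (hai j)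
      rw [h1, one_mul, zero_mul]
      simp only [T, Pi.zero_apply]
      ring
  · have hbi := hC.ne hb hb0
    set t : Fin 3 → A := fun j => 3 * θ j - T θ with ht
    have htK : Rat K θ t := (Rat.smul h3 Rat.self).sub (Rat.const hC.cub.e1)
    have ht0 : t ≠ 0 := by
      intro h
      have h1 := congrFun h 0
      simp only [ht, Pi.zero_apply] at h1
      apply hC.nr 0
      have h2 : θ 0 = T θ / 3 := by
        field_simp
        linear_combination h1
      rw [h2]
      exact K.div_mem hC.cub.e1 h3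
    have hti := hC.ne htK ht0
    have hTt : T t = 0 := by
      simp only [T, ht]
      ring
    set v : Fin 3 → A := b / t with hv
    have hvK : Rat K θ v := hC.div hb htK
    have hv0 : v ≠ 0 := by
      intro h
      have h1 := congrFun h 0
      simp only [hv, Pi.div_apply, Pi.zero_apply, div_eq_zero_iff] at h1
      exact h1.elim (hbi 0) (hti 0)
    have hbv : b = v * t := by
      funext j
      simp only [hv, Pi.mul_apply, Pi.div_apply]
      exact (div_mul_cancel₀ _ (hti j)).symm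
    have hNv : N v ≠ 0 := hC.N_ne hvK hv0
    set w : Fin 3 → A := fun j => s0 * θ j + s1 * θ j ^ 2 with hwd
    have htE := htK.mono hKE
    have hvE := hvK.mono hKE
    have haE := ha.mono hKE
    set Q : A := T (a * v) - N v * T (t * w) with hQ
    set P : A := c + T (a * v * w) + N v * T (t * sh w) with hP
    have hQE : Q ∈ ad K {s0, s1} := Subfield.sub_mem _ ((haE.mul hC'.cub hvE).T_mem hC'.cub)
      (Subfield.mul_mem _ (hvE.N_mem hC'.cub) ((htE.mul hC'.cub hw).T_mem hC'.cub))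
    have hPE : P ∈ ad K {s0, s1} := Subfield.add_mem _ (Subfield.add_mem _ (hKE hc)
      (((haE.mul hC'.cub hvE).mul hC'.cub hw).T_mem hC'.cub))
      (Subfield.mul_mem _ (hvE.N_mem hC'.cub) ((htE.mul hC'.cub (hw.sh hC'.cub)).T_mem hC'.cub))
    have hQ0 : Q ≠ 0 := by
      intro h
      have h1 : T (a * v) + (- N v * T (t * θ)) * s0 + (- N v * T (t * θ ^ 2)) * s1 = 0 := by
        rw [← h, hQ]
        simp only [T, hwd, Pi.mul_apply, Pi.pow_apply]
        ring
      have hm1 : T (t * θ) ∈ K := (htK.mul hC.cub Rat.self).T_mem hC.cub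
      have hm2 : T (t * θ ^ 2) ∈ K := (htK.mul hC.cub (Rat.self.pow hC.cub 2)).T_mem hC.cub
      have hNK := hvK.N_mem hC.cub
      obtain ⟨h2, h4⟩ := KP_indep hs ((ha.mul hC.cub hvK).T_mem hC.cub)
        (K.mul_mem (K.neg_mem hNK) hm1) (K.mul_mem (K.neg_mem hNK) hm2) h1
      have h5 : T (t * θ) = 0 := (mul_eq_zero.1 h2).resolve_left (neg_ne_zero.2 hNv)
      have h6 : T (t * θ ^ 2) = 0 := (mul_eq_zero.1 h4).resolve_left (neg_ne_zero.2 hNv)
      have hz : T (0 : Fin 3 → A) = 0 := by simp [T]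
      exact ht0 (moments_unique hC.cub.inj (by rw [hTt, hz]) (by rw [h5, zero_mul, hz])
        (by rw [h6, zero_mul, hz]))
    refine ⟨v, hvK, hv0, - P / Q, Subfield.div_mem _ (Subfield.neg_mem _ hPE) hQE, ?_⟩
    have key : ∀ s : A, c + T (a * (v * fun j => s + s0 * θ j + s1 * θ j ^ 2)) +
        T (b * sh (v * fun j => s + s0 * θ j + s1 * θ j ^ 2)) = P + s * Q := by
      intro s
      have h7 : (fun j => s + s0 * θ j + s1 * θ j ^ 2) = fun j => s + w j := by
        funext j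
        simp only [hwd]
        ring
      have hTt' : t 0 + t 1 + t 2 = 0 := hTt
      rw [h7, hbv, hP, hQ]
      simp only [T, N, sh, Pi.mul_apply, Matrix.cons_val_zero, Matrix.cons_val_one,
        Matrix.cons_val]
      linear_combination (v 0 * v 1 * v 2 * (s ^ 2 + s * (w 0 + w 1 + w 2))) * hTt'
    rw [key, div_mul_cancel₀ _ hQ0, add_neg_cancel]

/-- a twisted cube with a `K`-point which is not a norm form has a point over `K(s0, s1)` which
generates this field -/
theorem kpoint_param (hC : Fd K θ) (hΘ : Θ.Over K θ) (hp : Pt Θ K θ x0 y0)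
    (hnd : ¬ ∃ (k : A) (l m : Fin 3 → A), Rat K θ l ∧ Rat K θ m ∧
      ∀ x y, Θ.ev x y = k * N (l * x + m * y))
    {s0 s1 : A} (hs : AlgebraicIndependent K ![s0, s1]) (hC' : Fd (ad K {s0, s1}) θ) :
    ∃ x y, Pt Θ (ad K {s0, s1}) θ x y ∧ Gen K (ad K {s0, s1}) θ x y := by
  have hKE : K ≤ ad K {s0, s1} := le_ad K _
  obtain ⟨h, hhp, hhr⟩ : ∃ h : Mob K θ, h.p = x0 ∧ h.r = y0 := by
    by_cases h0 : x0 = 0
    · have hy0 : y0 ≠ 0 := hp.ne.resolve_left fun h => h h0
      have hyi := hC.ne hp.hy hy0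
      refine ⟨⟨x0, 1, y0, 0, hp.hx, Rat.const K.one_mem, hp.hy, Rat.const K.zero_mem,
        fun i => ?_⟩, rfl, rfl⟩
      simpa using hyi i
    · have hxi := hC.ne hp.hx h0
      refine ⟨⟨x0, 0, y0, 1, hp.hx, Rat.const K.zero_mem, hp.hy, Rat.const K.one_mem,
        fun i => ?_⟩, rfl, rfl⟩
      simpa using hxi i
  have hO := Mob.act_over hC.cub h hΘ
  have hd : (h.act Θ).d = 0 := by
    change Θ.ev h.p h.r = 0
    rw [hhp, hhr]
    exact hp.ev
  have hab : (h.act Θ).a ≠ 0 ∨ (h.act Θ).b ≠ 0 := by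
    by_contra hcon
    rw [not_or, not_not, not_not] at hcon
    obtain ⟨g, hg⟩ := Mob.exists_inv hC h
    refine hnd ⟨(h.act Θ).c, g.r, g.s, g.hr, g.hs, fun x y => ?_⟩
    have h1 := (hg x y).2
    have h2 := Mob.act_ev h Θ (g.p * x + g.q * y) (g.r * x + g.s * y)
    rw [h1.1, h1.2] at h2
    rw [← h2, Cube.ev, hcon.1, hcon.2, hd]
    simp [T]
  obtain ⟨v, hv, hv0, s, hs', he⟩ := KP_solve hC hO.hc hO.ha hO.hb hab hs hC'
  set x : Fin 3 → A := v * fun j => s + s0 * θ j + s1 * θ j ^ 2 with hx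
  have hs0 : s0 ∈ ad K {s0, s1} := mem_ad (Or.inl rfl)
  have hs1 : s1 ∈ ad K {s0, s1} := mem_ad (Or.inr rfl)
  have hxE : Rat (ad K {s0, s1}) θ x := (hv.mono hKE).mul hC'.cub
    ⟨s, hs', s0, hs0, s1, hs1, fun j => rfl⟩
  have hgA : GenA K (ad K {s0, s1}) θ x := KP_gen hC hC' hv hv0 s
  have hg : Gen K (ad K {s0, s1}) θ x 1 := GenA.toGen hC hC' hKE hxE hgA
  have h1E : Rat (ad K {s0, s1}) θ 1 := Rat.const (Subfield.one_mem _)
  have hpt : Pt (h.act Θ) (ad K {s0, s1}) θ x 1 := by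
    refine ⟨hxE, h1E, Or.inr one_ne_zero, ?_⟩
    rw [← he, Cube.ev, hd]
    simp only [T, N, sh, Pi.mul_apply, Pi.one_apply, Matrix.cons_val_zero, Matrix.cons_val_one,
      Matrix.cons_val]
    ring
  exact ⟨_, _, Pt.map hC hC' hKE h hpt, Gen.map hC hC' hKE h hxE h1E (Or.inr one_ne_zero) hg⟩

end Pool.Agent.Helper16.C18.H
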