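import Pool.Agent.Helper64.C18.ND
import Pool.Agent.Helper64.C18.RR

set_option autoImplicit false

/-! Project C18: rationality of `X` from a generating point of the generic fibre (offer C18-LAST) -/

/-!
`E = ℂ(r 0, .., r 3)`.  `b ≠ 0`: otherwise `(a : b) = (1 : 0)` is a point over `K` and `Gen` gives `E ≤ K`,
against `htr`.  `X = a / b` is `GenA` (`Gen.toA`), `Θ.ev X 1 = 0` (`Cube.ev_smul`), `X = hat μ x` with
`x` in `E ^ 3` (`hμ2`), and `x` generates `E` over `K` (`hμ`).  `D = det (rowsX M x) ≠ 0`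
(`det_ne_of_gen`).  Put `z = ptw w x (φ x)`, `φ = phi (pen M τ 0) (pen M τ 1)`: `aeval z F = 0` by `transfer` and
`hFΘ`; `z ≠ 0` (`ptw_ne`).  Apply `rational_of_gen`: `h1` with `t = 1`.  `h2`: let `t z` be in `L ^ 6`; then
`t x`, `t φ x` are in `L ^ 3` (the inverse of the complex basis matrix), so
`(t x)ᵀ M i (t φ x) = t ^ 2 D t_i` with `t_i = (1, τ 0, τ 1)` are in `L` (`rowsX_phi`), so `τ k ∈ L`, `K ≤ L`;
`φ (t x) = t ^ 2 φ x` is in `L ^ 3`, and `φ x ≠ 0` (as `D ≠ 0`), so `t ∈ L`, so `x` is in `L ^ 3` and `E ≤ L`.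
-/

namespace Pool.Agent.Helper16.C18.H

open Pool.Agent.Helper64.C18 MvPolynomial Module Matrix

variable {A : Type} [Field A] [CharZero A] [IsAlgClosed A] [Algebra ℂ A]
  {F : MvPolynomial (Fin 6) ℂ}
  {M : Fin 3 → Matrix (Fin 3) (Fin 3) ℂ} {c c' : ℂ} {l l' : Fin 3 → Fin 3 → ℂ}
  {τ : Fin 2 → A} {μ : Fin 3 → Fin 3 → A} {Θ : Cube A} {θ : Fin 3 → A}

omit [CharZero A] [IsAlgClosed A] in
private theorem LAST_coord (w : Basis (Fin 3 ⊕ Fin 3) ℂ (Fin 6 → ℂ)) (x y : Fin 3 → A)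
    (s : Fin 3 ⊕ Fin 3) : Sum.elim x y s =
      ∑ m, algebraMap ℂ A (w.repr (Pi.single m 1) s) * ptw w x y m := by
  have hQ : ∀ s' : Fin 3 ⊕ Fin 3, ∑ m, w.repr (Pi.single m 1) s * w s' m =
      if s' = s then 1 else 0 := by
    intro s'
    have h1 : w s' = ∑ m, (w s' m) • (Pi.single m (1 : ℂ) : Fin 6 → ℂ) := by
      funext j
      simp [Finset.sum_apply, Pi.single_apply]
    have h2 : w.repr (w s') s = ∑ m, w.repr (Pi.single m 1) s * w s' m := by
      conv_lhs => rw [h1]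
      rw [map_sum, Finsupp.finsetSum_apply]
      refine Finset.sum_congr rfl fun m _ => ?_
      rw [map_smul, Finsupp.smul_apply, smul_eq_mul, mul_comm]
    rw [← h2, w.repr_self, Finsupp.single_apply]
  have hQA : ∀ s' : Fin 3 ⊕ Fin 3, ∑ m, algebraMap ℂ A (w.repr (Pi.single m 1) s) *
      algebraMap ℂ A (w s' m) = if s' = s then 1 else 0 := by
    intro s'
    simp only [← map_mul]
    rw [← map_sum, hQ s']
    split_ifs <;> simp
  have h3 : ∑ m, algebraMap ℂ A (w.repr (Pi.single m 1) s) * ptw w x y m =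
      ∑ i, x i * (∑ m, algebraMap ℂ A (w.repr (Pi.single m 1) s) *
        algebraMap ℂ A (w (.inl i) m)) +
      ∑ i, y i * (∑ m, algebraMap ℂ A (w.repr (Pi.single m 1) s) *
        algebraMap ℂ A (w (.inr i) m)) := by
    simp only [ptw, mul_add, Finset.sum_add_distrib, Finset.mul_sum]
    congr 1
    · rw [Finset.sum_comm]
      refine Finset.sum_congr rfl fun i _ => Finset.sum_congr rfl fun m _ => ?_
      ring
    · rw [Finset.sum_comm]
      refine Finset.sum_congr rfl fun i _ => Finset.sum_congr rfl fun m _ => ?_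
      ring
  rw [h3]
  simp only [hQA]
  rcases s with s | s <;> simp

omit [CharZero A] [IsAlgClosed A] [Algebra ℂ A] in
private theorem LAST_phi_mem {L : Subfield A} {P Q : Matrix (Fin 3) (Fin 3) A} {x : Fin 3 → A}
    (hP : ∀ i j, P i j ∈ L) (hQ : ∀ i j, Q i j ∈ L) (hx : ∀ k, x k ∈ L) (i : Fin 3) :
    phi P Q x i ∈ L := by
  have h1 : ∀ j, (x ᵥ* P) j ∈ L := fun j => by
    change ∑ i, x i * P i j ∈ L
    exact L.sum_mem fun i _ => L.mul_mem (hx i) (hP i j)
  have h2 : ∀ j, (x ᵥ* Q) j ∈ L := fun j => by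
    change ∑ i, x i * Q i j ∈ L
    exact L.sum_mem fun i _ => L.mul_mem (hx i) (hQ i j)
  rw [phi, cross_apply]
  fin_cases i
  · exact L.sub_mem (L.mul_mem (h1 1) (h2 2)) (L.mul_mem (h1 2) (h2 1))
  · exact L.sub_mem (L.mul_mem (h1 2) (h2 0)) (L.mul_mem (h1 0) (h2 2))
  · exact L.sub_mem (L.mul_mem (h1 0) (h2 1)) (L.mul_mem (h1 1) (h2 0))

omit [CharZero A] [IsAlgClosed A] [Algebra ℂ A] in
private theorem LAST_phi_smul (P Q : Matrix (Fin 3) (Fin 3) A) (t : A) (x : Fin 3 → A) :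
    phi P Q (t • x) = t ^ 2 • phi P Q x := by
  simp only [phi, Matrix.smul_vecMul, map_smul, LinearMap.smul_apply, smul_smul]
  rw [pow_two]

omit [CharZero A] [IsAlgClosed A] in
private theorem LAST_pen {L : Subfield A} (hC : ∀ z : ℂ, algebraMap ℂ A z ∈ L)
    (hτ : ∀ k, τ k ∈ L) (k : Fin 2) (i j : Fin 3) : pen M τ k i j ∈ L := by
  simp only [pen, toR, Matrix.sub_apply, Matrix.smul_apply, Matrix.map_apply, smul_eq_mul]
  exact L.sub_mem (hC _) (L.mul_mem (hτ k) (hC _))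

theorem rational_of_fibre_gen (hF : F.IsHomogeneous 3) (hs : Smooth F)
    (w : Basis (Fin 3 ⊕ Fin 3) ℂ (Fin 6 → ℂ))
    (h : ∀ x y : Fin 3 → ℂ, eval (∑ i, x i • w (.inl i) + ∑ i, y i • w (.inr i)) F =
      cubF M c c' l l' x y)
    (hτ : AlgebraicIndependent ℂ τ) {K E : Subfield A}
    (hK : K = (IntermediateField.adjoin ℂ (Set.range τ)).toSubfield) (hKE : K ≤ E)
    {r : Fin 4 → A} (hr : AlgebraicIndependent ℂ r)
    (hE : E = (IntermediateField.adjoin ℂ (Set.range r)).toSubfield)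
    (hθ : Fd K θ) (hθE : Fd E θ) (hΘ : Θ.Over K θ)
    (hμ : ∀ L : Subfield A, K ≤ L → ∀ x : Fin 3 → A, Rat L θ (hat μ x) ↔ ∀ k, x k ∈ L)
    (hμ2 : ∀ L : Subfield A, K ≤ L → ∀ X : Fin 3 → A, Rat L θ X →
        ∃ x : Fin 3 → A, (∀ k, x k ∈ L) ∧ X = hat μ x)
    (hc : Θ.c = algebraMap ℂ A c)
    (ha : ∀ x : Fin 3 → A, T (Θ.a * hat μ x) = lin l τ ⬝ᵥ x)
    (hFΘ : ∀ x : Fin 3 → A, cubF M c c' l l' x (phi (pen M τ 0) (pen M τ 1) x) =
      (rowsX M x).det * Θ.ev (hat μ x) 1)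
    (hD : ∃ x : Fin 3 → A, (rowsX M x).det ≠ 0)
    (htr : Tr2 K E) {a b : Fin 3 → A} (hp : Pt Θ E θ a b) (hg : Gen K E θ a b) :
    (Ideal.span {dh F}).IsPrime ∧
      Nonempty (FractionRing (MvPolynomial (Fin 5) ℂ ⧸ Ideal.span {dh F}) ≃ₐ[ℂ]
        FractionRing (MvPolynomial (Fin 4) ℂ)) := by
  classical
  have hCK : ∀ z : ℂ, algebraMap ℂ A z ∈ K := fun z => by
    rw [hK]
    exact (IntermediateField.adjoin ℂ (Set.range τ)).algebraMap_mem z
  have hτK : ∀ k, τ k ∈ K := fun k => by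
    rw [hK]
    exact IntermediateField.subset_adjoin ℂ (Set.range τ) ⟨k, rfl⟩
  -- the point is affine
  have hb0 : b ≠ 0 := by
    intro hb
    have h1 : E ≤ K := hg K le_rfl hKE 1 0 (Rat.const K.one_mem) (Rat.const K.zero_mem)
      (Or.inl one_ne_zero) (by rw [hb, mul_zero, mul_zero])
    obtain ⟨s0, hs0, s1, hs1, hss⟩ := htr
    have h2 : Transcendental K s0 := hss.transcendental 0
    exact h2 (isAlgebraic_algebraMap (⟨s0, h1 hs0⟩ : K))
  have hbi := hθE.ne hp.hy hb0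
  have hXr : Rat E θ (a / b) := hθE.div hp.hx hp.hy
  have hgA : GenA K E θ (a / b) := Gen.toA hθ hθE hKE hp.hx hp.hy hb0 hg
  have hev : Θ.ev (a / b) 1 = 0 := by
    have h1 : a = b * (a / b) := by
      funext i
      simp only [Pi.mul_apply, Pi.div_apply]
      field_simp [hbi i]
    have h2 : Θ.ev (b * (a / b)) (b * 1) = 0 := by
      rw [← h1, mul_one]
      exact hp.ev
    rw [Cube.ev_smul] at h2
    exact (mul_eq_zero.1 h2).resolve_left (hθE.N_ne hp.hy hb0)
  obtain ⟨x, hxE, hX⟩ := hμ2 E hKE _ hXr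
  rw [hX] at hev
  have hgx : ∀ L : Subfield A, K ≤ L → L ≤ E → (∀ k, x k ∈ L) → E ≤ L := by
    intro L hKL hLE hx
    refine hgA L hKL hLE ?_
    rw [hX]
    exact (hμ L hKL x).2 hx
  have hdet : (rowsX M x).det ≠ 0 := det_ne_of_gen hF hs w h hτ hK hKE hθ hΘ hμ hc ha hD htr
    hxE hev hgx
  set φx : Fin 3 → A := phi (pen M τ 0) (pen M τ 1) x with hφx
  have hrow : rowsX M x *ᵥ φx = (rowsX M x).det • ![1, τ 0, τ 1] := rowsX_phi x
  have hrowi : ∀ i, ∑ j, (∑ k, x k * algebraMap ℂ A (M i k j)) * φx j =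
      (rowsX M x).det * (![1, τ 0, τ 1] : Fin 3 → A) i := fun i => congrFun hrow i
  have hφ0 : ∃ i, φx i ≠ 0 := by
    by_contra hcon
    push Not at hcon
    have h1 := hrowi 0
    simp only [hcon, mul_zero, Finset.sum_const_zero, Matrix.cons_val_zero, mul_one] at h1
    exact hdet h1.symm
  have hz : ptw w x φx ≠ 0 := by
    intro h0
    obtain ⟨i, hi⟩ := hφ0
    exact hi (congrFun (ptw_ne w h0).2 i)
  have h0 : aeval (ptw w x φx) F = 0 := by
    rw [transfer w h, hφx, hFΘ, hev, mul_zero]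
  have hCE : ∀ z : ℂ, algebraMap ℂ A z ∈ E := fun z => hKE (hCK z)
  have hφE : ∀ i, φx i ∈ E := LAST_phi_mem (LAST_pen hCE (fun k => hKE (hτK k)) 0)
    (LAST_pen hCE (fun k => hKE (hτK k)) 1) hxE
  refine rational_of_gen hF hs hr hz h0 ⟨1, one_ne_zero, fun m => ?_⟩ ?_
  · rw [one_mul]
    have h1 : ptw w x φx m ∈ E := E.add_mem
      (E.sum_mem fun i _ => E.mul_mem (hxE i) (hCE _))
      (E.sum_mem fun i _ => E.mul_mem (hφE i) (hCE _))
    rw [hE] at h1
    exact h1
  · rintro L hL ⟨t, ht, htz⟩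
    have hcoord : ∀ s : Fin 3 ⊕ Fin 3, t * Sum.elim x φx s ∈ L := by
      intro s
      rw [LAST_coord w x φx s, Finset.mul_sum]
      refine L.sum_mem fun m _ => ?_
      have e : t * (algebraMap ℂ A (w.repr (Pi.single m 1) s) * ptw w x φx m) =
          algebraMap ℂ A (w.repr (Pi.single m 1) s) * (t * ptw w x φx m) := by ring
      rw [e]
      exact L.mul_mem (L.algebraMap_mem _) (htz m)
    have htx : ∀ k, t * x k ∈ L := fun k => hcoord (.inl k)
    have htφ : ∀ k, t * φx k ∈ L := fun k => hcoord (.inr k)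
    have hti : ∀ i, t ^ 2 * ((rowsX M x).det * (![1, τ 0, τ 1] : Fin 3 → A) i) ∈ L := by
      intro i
      rw [← hrowi i]
      have e : t ^ 2 * ∑ j, (∑ k, x k * algebraMap ℂ A (M i k j)) * φx j =
          ∑ j, (∑ k, (t * x k) * algebraMap ℂ A (M i k j)) * (t * φx j) := by
        rw [Finset.mul_sum]
        refine Finset.sum_congr rfl fun j _ => ?_
        have e1 : ∑ k, (t * x k) * algebraMap ℂ A (M i k j) =
            t * ∑ k, x k * algebraMap ℂ A (M i k j) := by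
          rw [Finset.mul_sum]
          exact Finset.sum_congr rfl fun k _ => by ring
        rw [e1]
        ring
      rw [e]
      exact L.sum_mem fun j _ => L.mul_mem
        (L.sum_mem fun k _ => L.mul_mem (htx k) (L.algebraMap_mem _)) (htφ j)
    have hD1 : t ^ 2 * (rowsX M x).det ∈ L := by simpa using hti 0
    have hD0 : t ^ 2 * (rowsX M x).det ≠ 0 := mul_ne_zero (pow_ne_zero 2 ht) hdet
    have hτL : ∀ k, τ k ∈ L := by
      intro k
      have h1 : t ^ 2 * ((rowsX M x).det * τ k) ∈ L := by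
        fin_cases k
        · simpa using hti 1
        · simpa using hti 2
      have h2 : τ k = (t ^ 2 * ((rowsX M x).det * τ k)) / (t ^ 2 * (rowsX M x).det) := by
        field_simp
      rw [h2]
      exact L.div_mem h1 hD1
    have hKL : K ≤ L.toSubfield := by
      rw [hK]
      have h1 : IntermediateField.adjoin ℂ (Set.range τ) ≤ L := by
        rw [IntermediateField.adjoin_le_iff]
        rintro _ ⟨k, rfl⟩
        exact hτL k
      exact h1
    have hLC : ∀ z : ℂ, algebraMap ℂ A z ∈ L.toSubfield := fun z => L.algebraMap_mem z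
    have hφ2 : ∀ i, t ^ 2 * φx i ∈ L := by
      intro i
      have h1 := LAST_phi_mem (L := L.toSubfield) (LAST_pen (M := M) hLC hτL 0)
        (LAST_pen (M := M) hLC hτL 1) (x := t • x) (fun k => htx k) i
      rw [LAST_phi_smul] at h1
      exact h1
    have htL : t ∈ L := by
      obtain ⟨i, hi⟩ := hφ0
      have h2 : t = (t ^ 2 * φx i) / (t * φx i) := by
        field_simp
      rw [h2]
      exact L.div_mem (hφ2 i) (htφ i)
    have hxL : ∀ k, x k ∈ L := by
      intro k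
      have h2 : x k = (t * x k) / t := by
        field_simp
      rw [h2]
      exact L.div_mem (htx k) htL
    have hLE : L.toSubfield ≤ E := by
      rw [hE]
      exact hL
    have hfin := hgx L.toSubfield hKL hLE hxL
    rw [hE] at hfin
    exact hfin

end Pool.Agent.Helper16.C18.H
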