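import Pool.Agent.Helper64.C18.XF

set_option autoImplicit false

/-! Project C18: a double point of the generic fibre is a singular point of `F` (offer C18-SD) -/

/-!
`K = ℂ(τ 0, τ 1)` with `τ` algebraically independent, `φ x = phi (pen M τ 0) (pen M τ 1) x`, `t = (1, τ 0, τ 1)`.
`x0` in `K ^ 3`, `D = det (rowsX M x0) ≠ 0`, and `s ↦ F (x0 + s v, φ (x0 + s v))` vanishes to order two
at `s = 0` for all `v`.  Claim: `F` is singular at `(x0, φ x0)`.
Write `∇x, ∇y` for the partial derivatives of `F` at `(x0, φ x0)`.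
(1) the hypothesis says `∇x · v + ∇y · (dφ_{x0} v) = 0` for all `v` in `A ^ 3`, and `F (x0, φ x0) = 0`.
(2) apply a derivation `D_k` of `K` over `ℂ` with `D_k τ k = 1`, `D_k τ (1 - k) = 0` to `F (x0, φ x0) = 0`:
`∇x · D_k x0 + ∇y · (dφ_{x0} (D_k x0) + (D_k φ)(x0)) = 0`, where `D_k φ` is the derivative of
`φ x = adjugate (rowsX M x) t` with respect to `τ k`, i.e. `(D_k φ)(x) = adjugate (rowsX M x) e_{k+1}`.  With (1):
`∇y · adjugate (rowsX M x0) e_{k+1} = 0` for `k = 0, 1`.
(3) Euler: `∇x · x0 + ∇y · φ x0 = 3 F = 0` and (1) for `v = x0`, `dφ_{x0} x0 = 2 φ x0`: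
`∇x · x0 + 2 ∇y · φ x0 = 0`; so `∇y · φ x0 = 0`, `φ x0 = adjugate (rowsX M x0) t`, so with (2) also
`∇y · adjugate (rowsX M x0) e_0 = 0`.
(4) `adjugate (rowsX M x0)` is invertible, so `∇y = 0`, and by (1) `∇x = 0`.
Instead of derivations one may use a ring homomorphism `ψ : K → K[ε] / (ε ^ 2)` over `ℂ` with
`ψ (τ k) = T (k + 1) / T 0`, `T i = (x0 + ε v)ᵀ M i (φ x0 + ε w)` (it exists since `τ` is algebraically
independent and `T 0` is a unit): then `F (x0 + ε v, φ x0 + ε w)` is, up to units, `ψ` of the fibre equation at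
a point congruent to `x0`, so it is zero in `K[ε] / (ε ^ 2)`; for `v, w` in `K ^ 3`, which is enough.
-/

namespace Pool.Agent.Helper16.C18.H

open Pool.Agent.Helper64.C18 Matrix

section SDnat

variable {R S : Type*} [CommRing R] [CommRing S] [Algebra ℂ R] [Algebra ℂ S]
  (M : Fin 3 → Matrix (Fin 3) (Fin 3) ℂ) (c c' : ℂ) (l l' : Fin 3 → Fin 3 → ℂ)

private theorem SD_map_rowsX (f : R →ₐ[ℂ] S) (x : Fin 3 → R) :
    f (rowsX M x).det = (rowsX M fun j => f (x j)).det := by
  rw [AlgHom.map_det]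
  congr 1
  ext i j
  simp [rowsX, toR, Matrix.vecMul, dotProduct]

private theorem SD_map_rowsY (f : R →ₐ[ℂ] S) (y : Fin 3 → R) :
    f (rowsY M y).det = (rowsY M fun j => f (y j)).det := by
  rw [AlgHom.map_det]
  congr 1
  ext i j
  simp [rowsY, toR, Matrix.mulVec, dotProduct]

private theorem SD_map_T (f : R →ₐ[ℂ] S) (N : Matrix (Fin 3) (Fin 3) ℂ) (x y : Fin 3 → R) :
    f (x ⬝ᵥ (toR R N *ᵥ y)) = (fun j => f (x j)) ⬝ᵥ (toR S N *ᵥ fun j => f (y j)) := by
  simp [toR, Matrix.mulVec, dotProduct]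

private theorem SD_map_cubF (f : R →ₐ[ℂ] S) (x y : Fin 3 → R) :
    f (cubF M c c' l l' x y) = cubF M c c' l l' (fun j => f (x j)) fun j => f (y j) := by
  unfold cubF
  rw [map_add, map_add, map_mul, map_mul, SD_map_rowsX, SD_map_rowsY, map_sum, AlgHom.commutes,
    AlgHom.commutes]
  congr 1
  refine Finset.sum_congr rfl fun i _ => ?_
  rw [map_mul, map_add, SD_map_T, map_sum, map_sum]
  simp only [map_mul, AlgHom.commutes]

private theorem SD_map_phi (f : R →ₐ[ℂ] S) (P Q : Matrix (Fin 3) (Fin 3) R) (x : Fin 3 → R)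
    (i : Fin 3) : f (phi P Q x i) = phi (P.map f) (Q.map f) (fun j => f (x j)) i := by
  unfold phi
  rw [cross_apply, cross_apply]
  fin_cases i <;> simp [Matrix.vecMul, dotProduct]

private theorem SD_map_pen (f : R →ₐ[ℂ] S) (t : Fin 2 → R) (k : Fin 2) :
    (pen M t k).map f = pen M (fun j => f (t j)) k := by
  ext i j
  simp [pen, toR]

private def SD_G (x : Fin 3 → R) (t : Fin 2 → R) : R :=
  cubF M c c' l l' x (phi (pen M t 0) (pen M t 1) x)

private theorem SD_map_G (f : R →ₐ[ℂ] S) (x : Fin 3 → R) (t : Fin 2 → R) :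
    f (SD_G M c c' l l' x t) = SD_G M c c' l l' (fun j => f (x j)) fun j => f (t j) := by
  unfold SD_G
  rw [SD_map_cubF]
  congr 1
  funext i
  rw [SD_map_phi, SD_map_pen, SD_map_pen]

private theorem SD_rowsX_phi (x : Fin 3 → R) (t : Fin 2 → R) :
    rowsX M x *ᵥ phi (pen M t 0) (pen M t 1) x = (rowsX M x).det • ![1, t 0, t 1] := by
  have h0 : x ᵥ* pen M t 0 = fun j => rowsX M x 1 j - t 0 * rowsX M x 0 j := by
    unfold pen
    rw [Matrix.vecMul_sub, Matrix.vecMul_smul]
    rfl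
  have h1 : x ᵥ* pen M t 1 = fun j => rowsX M x 2 j - t 1 * rowsX M x 0 j := by
    unfold pen
    rw [Matrix.vecMul_sub, Matrix.vecMul_smul]
    rfl
  unfold phi
  rw [h0, h1, cross_apply]
  generalize rowsX M x = r
  rw [Matrix.det_fin_three]
  funext i
  fin_cases i <;> simp [Matrix.mulVec, dotProduct, Fin.sum_univ_three] <;> ring

private theorem SD_smul_cubF (m : R) (x y : Fin 3 → R) :
    cubF M c c' l l' (m • x) (m • y) = m ^ 3 * cubF M c c' l l' x y := by
  have h1 : rowsX M (m • x) = m • rowsX M x := by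
    ext i j
    simp [rowsX, Matrix.smul_vecMul]
  have h2 : rowsY M (m • y) = m • rowsY M y := by
    ext i j
    simp [rowsY, Matrix.mulVec_smul]
  have h3 : ∀ (n : Fin 3 → ℂ) (z : Fin 3 → R), ∑ j, algebraMap ℂ R (n j) * (m • z) j =
      m * ∑ j, algebraMap ℂ R (n j) * z j := by
    intro n z
    rw [Finset.mul_sum]
    refine Finset.sum_congr rfl fun j _ => ?_
    rw [Pi.smul_apply, smul_eq_mul]
    ring
  unfold cubF
  rw [h1, h2, Matrix.det_smul, Matrix.det_smul, Fintype.card_fin, mul_add, mul_add, Finset.mul_sum]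
  congr 1
  · ring
  · refine Finset.sum_congr rfl fun i _ => ?_
    rw [h3, h3, Matrix.mulVec_smul, smul_dotProduct, dotProduct_smul, smul_eq_mul, smul_eq_mul]
    ring

omit [Algebra ℂ R] in
private theorem SD_smul_phi (m : R) (P Q : Matrix (Fin 3) (Fin 3) R) (x : Fin 3 → R) :
    phi P Q (m • x) = m ^ 2 • phi P Q x := by
  unfold phi
  rw [Matrix.smul_vecMul, Matrix.smul_vecMul, map_smul, map_smul, LinearMap.smul_apply, smul_smul]
  congr 1
  ring

end SDnat

section SDdual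

open TrivSqZeroExt

variable {A : Type*} [Field A] [CharZero A] [Algebra ℂ A]
  (M : Fin 3 → Matrix (Fin 3) (Fin 3) ℂ) (c c' : ℂ) (l l' : Fin 3 → Fin 3 → ℂ)

/-- a point over the dual numbers -/
private def SD_pt {ι : Type*} (a b : ι → A) : ι → DualNumber A := fun i => inl (a i) + inr (b i)

omit [CharZero A] [Algebra ℂ A] in
private theorem SD_pt_eq {ι : Type*} {a : ι → A} {z : ι → DualNumber A}
    (h : ∀ i, fst (z i) = a i) : z = SD_pt a fun i => snd (z i) := by
  funext i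
  refine TrivSqZeroExt.ext ?_ ?_
  · simp [SD_pt, h]
  · simp [SD_pt]

omit [CharZero A] in
private theorem SD_aeval_fst {ι : Type*} (p : MvPolynomial ι ℂ) (a b : ι → A) :
    fst (MvPolynomial.aeval (SD_pt a b) p) = MvPolynomial.aeval a p := by
  have h := MvPolynomial.comp_aeval_apply (f := SD_pt a b) (fstHom ℂ A A) p
  rw [fstHom_apply] at h
  rw [h]
  congr 2
  funext i
  simp [SD_pt]

omit [CharZero A] in
private theorem SD_aeval_snd {ι : Type*} (p : MvPolynomial ι ℂ) (a b b' : ι → A) :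
    snd (MvPolynomial.aeval (SD_pt a (b + b')) p) =
      snd (MvPolynomial.aeval (SD_pt a b) p) + snd (MvPolynomial.aeval (SD_pt a b') p) := by
  induction p using MvPolynomial.induction_on with
  | C z => simp [algebraMap_eq_inl']
  | add p q hp hq =>
    rw [map_add, map_add, map_add, snd_add, snd_add, snd_add, hp, hq]
    ring
  | mul_X p i hp =>
    have e1 : ∀ b : ι → A, fst (SD_pt a b i) = a i := fun b => by simp [SD_pt]
    have e2 : ∀ b : ι → A, snd (SD_pt a b i) = b i := fun b => by simp [SD_pt]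
    simp only [map_mul, DualNumber.snd_mul, hp, SD_aeval_fst, MvPolynomial.aeval_X, e1, e2,
      Pi.add_apply]
    ring

private noncomputable def SD_Gp : MvPolynomial (Fin 3 ⊕ Fin 2) ℂ :=
  SD_G M c c' l l' (fun j => (MvPolynomial.X (Sum.inl j) : MvPolynomial (Fin 3 ⊕ Fin 2) ℂ))
    fun k => MvPolynomial.X (Sum.inr k)

private theorem SD_G_aeval {R : Type*} [CommRing R] [Algebra ℂ R] (x : Fin 3 → R) (t : Fin 2 → R) :
    SD_G M c c' l l' x t = MvPolynomial.aeval (Sum.elim x t) (SD_Gp M c c' l l') := by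
  unfold SD_Gp
  rw [SD_map_G]
  simp

omit [CharZero A] [Algebra ℂ A] in
private theorem SD_pt_elim (x v : Fin 3 → A) (t u : Fin 2 → A) :
    Sum.elim (SD_pt x v) (SD_pt t u) = SD_pt (Sum.elim x t) (Sum.elim v u) := by
  funext i
  cases i <;> rfl

omit [CharZero A] in
private theorem SD_G_fst (x v : Fin 3 → A) (t u : Fin 2 → A) :
    fst (SD_G M c c' l l' (SD_pt x v) (SD_pt t u)) = SD_G M c c' l l' x t := by
  rw [SD_G_aeval, SD_G_aeval, SD_pt_elim, SD_aeval_fst]

omit [CharZero A] in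
private theorem SD_G_snd (x v v' : Fin 3 → A) (t u u' : Fin 2 → A) :
    snd (SD_G M c c' l l' (SD_pt x (v + v')) (SD_pt t (u + u'))) =
      snd (SD_G M c c' l l' (SD_pt x v) (SD_pt t u)) +
        snd (SD_G M c c' l l' (SD_pt x v') (SD_pt t u')) := by
  rw [SD_G_aeval, SD_G_aeval, SD_G_aeval, SD_pt_elim, SD_pt_elim, SD_pt_elim, ← SD_aeval_snd]
  congr 3
  funext i
  cases i <;> rfl

omit [CharZero A] [Algebra ℂ A] in
private theorem SD_poly (p : Polynomial A) :
    Polynomial.aeval (DualNumber.eps : DualNumber A) p = inl (p.coeff 0) + inr (p.coeff 1) := by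
  have h1 := congrArg (Polynomial.aeval (DualNumber.eps : DualNumber A))
    (Polynomial.divX_mul_X_add p)
  have h2 := congrArg (Polynomial.aeval (DualNumber.eps : DualNumber A))
    (Polynomial.divX_mul_X_add p.divX)
  have ea : ∀ z : A, algebraMap A (DualNumber A) z = inl z := fun z => rfl
  rw [map_add, map_mul, Polynomial.aeval_X, Polynomial.aeval_C, ea] at h1 h2
  rw [← h1, ← h2, add_mul, mul_assoc, DualNumber.eps_mul_eps, mul_zero, zero_add,
    Polynomial.coeff_divX]
  refine TrivSqZeroExt.ext ?_ ?_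
  · simp
  · simp

/-- evaluation of polynomials at `ε` -/
private noncomputable def SD_E : Polynomial A →ₐ[ℂ] DualNumber A :=
  (Polynomial.aeval (DualNumber.eps : DualNumber A)).restrictScalars ℂ

private noncomputable def SD_ev (s : A) : Polynomial A →ₐ[ℂ] A :=
  (Polynomial.aeval s).restrictScalars ℂ

private noncomputable def SD_line {ι : Type*} (a b : ι → A) : ι → Polynomial A :=
  fun i => Polynomial.C (a i) + Polynomial.X * Polynomial.C (b i)

omit [CharZero A] in
private theorem SD_E_line {ι : Type*} (a b : ι → A) : (fun i => SD_E (SD_line a b i)) = SD_pt a b := by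
  funext i
  have ea : ∀ z : A, algebraMap A (DualNumber A) z = inl z := fun z => rfl
  simp only [SD_E, SD_line, SD_pt, AlgHom.restrictScalars_apply, map_add, map_mul,
    Polynomial.aeval_X, Polynomial.aeval_C, ea]
  refine TrivSqZeroExt.ext ?_ ?_
  · simp
  · simp

omit [CharZero A] in
private theorem SD_ev_line {ι : Type*} (s : A) (a b : ι → A) :
    (fun i => SD_ev s (SD_line a b i)) = a + s • b := by
  funext i
  rw [Pi.add_apply, Pi.smul_apply, smul_eq_mul]
  simp [SD_ev, SD_line]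
  ring

omit [CharZero A] in
private theorem SD_ev_apply (s : A) (p : Polynomial A) : SD_ev s p = p.eval s := by
  unfold SD_ev
  rw [AlgHom.restrictScalars_apply, Polynomial.coe_aeval_eq_eval]

/-- The hypothesis in dual numbers. -/
private theorem SD_hyp {x0 v : Fin 3 → A} {τ : Fin 2 → A} (q : Polynomial A)
    (h : ∀ s : A, SD_G M c c' l l' (x0 + s • v) τ = s ^ 2 * q.eval s) :
    SD_G M c c' l l' (SD_pt x0 v) (SD_pt τ 0) = 0 := by
  have h1 : SD_G M c c' l l' (SD_line x0 v) (SD_line τ 0) = Polynomial.X ^ 2 * q := by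
    refine Polynomial.funext fun s => ?_
    rw [← SD_ev_apply, SD_map_G, SD_ev_line, SD_ev_line, smul_zero, add_zero, h s,
      Polynomial.eval_mul, Polynomial.eval_pow, Polynomial.eval_X]
  have h2 := congrArg SD_E h1
  rw [SD_map_G, SD_E_line, SD_E_line] at h2
  rw [h2]
  unfold SD_E
  rw [AlgHom.restrictScalars_apply, map_mul, map_pow, Polynomial.aeval_X, pow_two,
    DualNumber.eps_mul_eps, zero_mul]

omit [CharZero A] in
/-- The conclusion from dual numbers. -/
private theorem SD_concl {x0 v y0 w : Fin 3 → A}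
    (h : cubF M c c' l l' (SD_pt x0 v) (SD_pt y0 w) = 0) :
    ∃ q : Polynomial A, ∀ s : A, cubF M c c' l l' (x0 + s • v) (y0 + s • w) = s ^ 2 * q.eval s := by
  have h1 : SD_E (cubF M c c' l l' (SD_line x0 v) (SD_line y0 w)) = 0 := by
    rw [SD_map_cubF, SD_E_line, SD_E_line, h]
  unfold SD_E at h1
  rw [AlgHom.restrictScalars_apply, SD_poly] at h1
  have h2 : Polynomial.X ^ 2 ∣ cubF M c c' l l' (SD_line x0 v) (SD_line y0 w) := by
    rw [Polynomial.X_pow_dvd_iff]
    intro d hd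
    rcases Nat.lt_succ_iff_lt_or_eq.1 hd with h3 | h3
    · obtain rfl : d = 0 := by omega
      have h4 := congrArg fst h1
      simpa using h4
    · subst h3
      have h4 := congrArg snd h1
      simpa using h4
  obtain ⟨q, hq⟩ := h2
  refine ⟨q, fun s => ?_⟩
  have h3 := congrArg (SD_ev s) hq
  rw [SD_map_cubF, SD_ev_line, SD_ev_line, SD_ev_apply] at h3
  rw [h3, Polynomial.eval_mul, Polynomial.eval_pow, Polynomial.eval_X]

omit [CharZero A] in
/-- The tangent map from an algebraically independent point. -/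
private theorem SD_psi {τ : Fin 2 → A} (hτ : AlgebraicIndependent ℂ τ) (u : Fin 2 → A)
    {x0 : Fin 3 → A} (hx : ∀ k, x0 k ∈ IntermediateField.adjoin ℂ (Set.range τ))
    (h0 : SD_G M c c' l l' x0 τ = 0) :
    ∃ d : Fin 3 → A, SD_G M c c' l l' (SD_pt x0 d) (SD_pt τ u) = 0 := by
  have hinj := algebraicIndependent_iff_injective_aeval.1 hτ
  have hu : ∀ y : nonZeroDivisors (MvPolynomial (Fin 2) ℂ),
      IsUnit (MvPolynomial.aeval (R := ℂ) (SD_pt τ u) (y : MvPolynomial (Fin 2) ℂ)) := by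
    intro y
    rw [isUnit_iff_isUnit_fst, SD_aeval_fst, isUnit_iff_ne_zero]
    intro hy
    exact nonZeroDivisors.coe_ne_zero y (hinj (by rw [hy, map_zero]))
  let ψ : FractionRing (MvPolynomial (Fin 2) ℂ) →ₐ[ℂ] DualNumber A :=
    IsLocalization.liftAlgHom (M := nonZeroDivisors (MvPolynomial (Fin 2) ℂ))
      (f := MvPolynomial.aeval (R := ℂ) (SD_pt τ u)) hu
  have hψ : ∀ r : MvPolynomial (Fin 2) ℂ,
      ψ (algebraMap _ _ r) = MvPolynomial.aeval (SD_pt τ u) r := by
    intro r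
    exact IsLocalization.lift_eq hu r
  let ι : FractionRing (MvPolynomial (Fin 2) ℂ) →ₐ[ℂ] A := (fstHom ℂ A A).comp ψ
  have hι : ∀ r : MvPolynomial (Fin 2) ℂ, ι (algebraMap _ _ r) = MvPolynomial.aeval τ r := by
    intro r
    change fst (ψ (algebraMap _ _ r)) = _
    rw [hψ, SD_aeval_fst]
  have h1 : ∀ k, ∃ X : FractionRing (MvPolynomial (Fin 2) ℂ), ι X = x0 k := by
    intro k
    obtain ⟨r, s, hrs⟩ := (IntermediateField.mem_adjoin_range_iff ℂ τ (x0 k)).1 (hx k)
    refine ⟨algebraMap _ _ r / algebraMap _ _ s, ?_⟩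
    rw [map_div₀, hι, hι, hrs]
  choose X hX using h1
  have h2 : SD_G M c c' l l' X (fun k => algebraMap (MvPolynomial (Fin 2) ℂ) _
      (MvPolynomial.X k)) = 0 := by
    apply RingHom.injective (ι : FractionRing (MvPolynomial (Fin 2) ℂ) →+* A)
    rw [map_zero]
    change ι _ = 0
    rw [SD_map_G]
    have e1 : (fun j => ι (X j)) = x0 := funext hX
    have e2 : (fun k => ι (algebraMap (MvPolynomial (Fin 2) ℂ) _ (MvPolynomial.X k))) = τ := by
      funext k
      rw [hι, MvPolynomial.aeval_X]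
    rw [e1, e2, h0]
  have h3 := congrArg ψ h2
  rw [SD_map_G, map_zero] at h3
  have e1 : (fun j => ψ (X j)) = SD_pt x0 fun j => snd (ψ (X j)) :=
    SD_pt_eq fun j => hX j
  have e2 : (fun k => ψ (algebraMap (MvPolynomial (Fin 2) ℂ) _ (MvPolynomial.X k))) =
      SD_pt τ u := by
    funext k
    rw [hψ, MvPolynomial.aeval_X]
  rw [e1, e2] at h3
  exact ⟨_, h3⟩

/-- All first order deformations. -/
private theorem SD_all {τ : Fin 2 → A} (hτ : AlgebraicIndependent ℂ τ) {x0 : Fin 3 → A}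
    (hx : ∀ k, x0 k ∈ IntermediateField.adjoin ℂ (Set.range τ))
    (h : ∀ v : Fin 3 → A, ∃ q : Polynomial A, ∀ s : A,
      SD_G M c c' l l' (x0 + s • v) τ = s ^ 2 * q.eval s) (v : Fin 3 → A) (u : Fin 2 → A) :
    SD_G M c c' l l' (SD_pt x0 v) (SD_pt τ u) = 0 := by
  have h0 : SD_G M c c' l l' x0 τ = 0 := by
    obtain ⟨q, hq⟩ := h 0
    have h1 := hq 0
    rw [zero_smul, add_zero] at h1
    rw [h1]
    ring
  obtain ⟨d, hd⟩ := SD_psi M c c' l l' hτ u hx h0
  obtain ⟨q, hq⟩ := h (v - d)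
  have h1 := SD_hyp M c c' l l' q hq
  have h2 := SD_G_snd M c c' l l' x0 d (v - d) τ u 0
  rw [hd, h1, add_sub_cancel, add_zero] at h2
  refine TrivSqZeroExt.ext ?_ ?_
  · rw [SD_G_fst, h0]
    rfl
  · rw [h2]
    simp

omit [CharZero A] in
/-- The key computation. -/
private theorem SD_main {τ : Fin 2 → A} {x0 : Fin 3 → A} (hD : (rowsX M x0).det ≠ 0)
    (h : ∀ (v : Fin 3 → A) (u : Fin 2 → A), SD_G M c c' l l' (SD_pt x0 v) (SD_pt τ u) = 0)
    (v w : Fin 3 → A) :
    cubF M c c' l l' (SD_pt x0 v) (SD_pt (phi (pen M τ 0) (pen M τ 1) x0) w) = 0 := by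
  set x : Fin 3 → DualNumber A := SD_pt x0 v with hx
  set y : Fin 3 → DualNumber A := SD_pt (phi (pen M τ 0) (pen M τ 1) x0) w with hy
  have hxf : ∀ j, fst (x j) = x0 j := fun j => by simp [hx, SD_pt]
  have hyf : ∀ j, fst (y j) = phi (pen M τ 0) (pen M τ 1) x0 j := fun j => by simp [hy, SD_pt]
  have hdet : fst (rowsX M x).det = (rowsX M x0).det := by
    have h1 := SD_map_rowsX M (fstHom ℂ A A) x
    rw [fstHom_apply] at h1
    rw [h1]
    congr 2
    exact funext hxf
  have hT : ∀ i, fst ((rowsX M x *ᵥ y) i) = (rowsX M x0).det * ![1, τ 0, τ 1] i := by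
    intro i
    have h1 := congrFun (SD_rowsX_phi M x0 τ) i
    rw [Pi.smul_apply, smul_eq_mul] at h1
    rw [← h1]
    change fstHom ℂ A A ((rowsX M x *ᵥ y) i) = _
    have e1 : (rowsX M x *ᵥ y) i = x ⬝ᵥ (toR (DualNumber A) (M i) *ᵥ y) := by
      rw [Matrix.dotProduct_mulVec]
      rfl
    have e2 : (rowsX M x0 *ᵥ phi (pen M τ 0) (pen M τ 1) x0) i =
        x0 ⬝ᵥ (toR A (M i) *ᵥ phi (pen M τ 0) (pen M τ 1) x0) := by
      rw [Matrix.dotProduct_mulVec]
      rfl
    rw [e1, e2, SD_map_T]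
    have e3 : (fun j => fstHom ℂ A A (x j)) = x0 := funext hxf
    have e4 : (fun j => fstHom ℂ A A (y j)) = phi (pen M τ 0) (pen M τ 1) x0 := funext hyf
    rw [e3, e4]
  have hT0 : fst ((rowsX M x *ᵥ y) 0) = (rowsX M x0).det := by
    rw [hT 0]
    simp
  have hu1 : IsUnit (rowsX M x).det := by
    rw [isUnit_iff_isUnit_fst, hdet, isUnit_iff_ne_zero]
    exact hD
  have hu2 : IsUnit ((rowsX M x *ᵥ y) 0) := by
    rw [isUnit_iff_isUnit_fst, hT0, isUnit_iff_ne_zero]
    exact hD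
  obtain ⟨Di, hDi⟩ := hu1.exists_right_inv
  obtain ⟨Ti, hTi⟩ := hu2.exists_right_inv
  set T : Fin 3 → DualNumber A := rowsX M x *ᵥ y with hTd
  have hDf : (rowsX M x0).det * fst Di = 1 := by
    have h1 := congrArg fst hDi
    rw [fst_mul, hdet, fst_one] at h1
    exact h1
  have hTf : (rowsX M x0).det * fst Ti = 1 := by
    have h1 := congrArg fst hTi
    rw [fst_mul, hT0, fst_one] at h1
    exact h1
  obtain ⟨t, ht⟩ : ∃ t : Fin 2 → DualNumber A, t = fun k => T k.succ * Ti := ⟨_, rfl⟩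
  obtain ⟨m, hm⟩ : ∃ m : DualNumber A, m = T 0 * Di := ⟨_, rfl⟩
  have hmf : fst m = 1 := by
    rw [hm, fst_mul, hT0, hDf]
  have htf : ∀ k, fst (t k) = τ k := by
    intro k
    rw [ht]
    dsimp only
    rw [fst_mul, hT k.succ]
    have e1 : (![1, τ 0, τ 1] : Fin 3 → A) k.succ = τ k := by
      fin_cases k <;> rfl
    rw [e1, mul_right_comm, hTf, one_mul]
  have hTt : T = T 0 • ![1, t 0, t 1] := by
    have e1 : T 0 * (T 1 * Ti) = T 1 := by
      rw [mul_left_comm, hTi, mul_one]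
    have e2 : T 0 * (T 2 * Ti) = T 2 := by
      rw [mul_left_comm, hTi, mul_one]
    funext i
    fin_cases i
    · simp
    · simpa [ht] using e1.symm
    · simpa [ht] using e2.symm
  have hye : y = m • phi (pen M t 0) (pen M t 1) x := by
    have e1 : rowsX M x *ᵥ y = rowsX M x *ᵥ (m • phi (pen M t 0) (pen M t 1) x) := by
      rw [Matrix.mulVec_smul, SD_rowsX_phi, smul_smul, hm, mul_assoc, mul_comm Di, hDi, mul_one,
        ← hTd]
      exact hTt
    have e2 := congrArg (fun z => (rowsX M x).adjugate *ᵥ z) e1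
    rw [Matrix.mulVec_mulVec, Matrix.mulVec_mulVec, Matrix.adjugate_mul, Matrix.smul_mulVec,
      Matrix.smul_mulVec, Matrix.one_mulVec, Matrix.one_mulVec] at e2
    have e3 := congrArg (fun z => Di • z) e2
    rw [smul_smul, smul_smul, mul_comm Di, hDi, one_smul, one_smul] at e3
    exact e3
  have hz : SD_G M c c' l l' (m • x) t = m ^ 3 * cubF M c c' l l' x y := by
    unfold SD_G
    rw [SD_smul_phi, pow_two, ← smul_smul, ← hye, SD_smul_cubF]
  have hmx : m • x = SD_pt x0 fun j => snd ((m • x) j) := by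
    refine SD_pt_eq fun j => ?_
    rw [Pi.smul_apply, smul_eq_mul, fst_mul, hmf, hxf, one_mul]
  have htp : t = SD_pt τ fun k => snd (t k) := SD_pt_eq htf
  rw [hmx, htp, h] at hz
  have hmu : m * ((rowsX M x).det * Ti) = 1 := by
    calc m * ((rowsX M x).det * Ti) = (T 0 * Ti) * ((rowsX M x).det * Di) := by rw [hm]; ring
      _ = 1 := by rw [hDi, hTi, one_mul]
  calc cubF M c c' l l' x y = (m * ((rowsX M x).det * Ti)) ^ 3 * cubF M c c' l l' x y := by
        rw [hmu, one_pow, one_mul]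
    _ = ((rowsX M x).det * Ti) ^ 3 * (m ^ 3 * cubF M c c' l l' x y) := by ring
    _ = 0 := by rw [← hz, mul_zero]

end SDdual

variable {A : Type*} [Field A] [CharZero A] [IsAlgClosed A] [Algebra ℂ A]
  {M : Fin 3 → Matrix (Fin 3) (Fin 3) ℂ} {c c' : ℂ} {l l' : Fin 3 → Fin 3 → ℂ}
  {τ : Fin 2 → A}

theorem sing_of_double (hτ : AlgebraicIndependent ℂ τ) {x0 : Fin 3 → A}
    (hx : ∀ k, x0 k ∈ IntermediateField.adjoin ℂ (Set.range τ)) (hD : (rowsX M x0).det ≠ 0)
    (h : ∀ v : Fin 3 → A, ∃ q : Polynomial A, ∀ s : A,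
      cubF M c c' l l' (x0 + s • v) (phi (pen M τ 0) (pen M τ 1) (x0 + s • v)) =
        s ^ 2 * q.eval s) :
    ∀ v w : Fin 3 → A, ∃ q : Polynomial A, ∀ s : A,
      cubF M c c' l l' (x0 + s • v) (phi (pen M τ 0) (pen M τ 1) x0 + s • w) =
        s ^ 2 * q.eval s := by
  intro v w
  refine SD_concl M c c' l l' (SD_main M c c' l l' hD (fun v u => ?_) v w)
  exact SD_all M c c' l l' hτ hx h v u

end Pool.Agent.Helper16.C18.H
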