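import Pool.Agent.Helper64.C18.XDef
import Pool.Agent.Helper16.CubicEngine

set_option autoImplicit false

/-! Project C18: smoothness over extension fields, change of coordinates (offer C18-SM) -/

namespace Pool.Agent.Helper16.C18.H

open Pool.Agent.Helper64.C18 MvPolynomial Module

variable {A : Type} [Field A] [Algebra ℂ A] {F : MvPolynomial (Fin 6) ℂ}

/-- the first derivatives of a smooth cubic form have no common nonzero zero in any extension
field (Nullstellensatz: a power of each variable is in the ideal generated by the first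
derivatives) -/
theorem smooth_ext (hF : F.IsHomogeneous 3) (hs : Smooth F) {z : Fin 6 → A} (hz : z ≠ 0) :
    ∃ i, aeval z (pderiv i F) ≠ 0 := by
  by_contra hcon
  push Not at hcon
  obtain ⟨I, hI⟩ : ∃ I : Ideal (MvPolynomial (Fin 6) ℂ),
    I = Ideal.span (Set.range fun i => pderiv i F) := ⟨_, rfl⟩
  have hker : ∀ g ∈ I, aeval z g = 0 := by
    intro g hg
    have h1 : I ≤ RingHom.ker (aeval z : MvPolynomial (Fin 6) ℂ →ₐ[ℂ] A) := by
      rw [hI, Ideal.span_le]
      rintro _ ⟨i, rfl⟩
      exact hcon i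
    exact h1 hg
  apply hz
  funext j
  have hrad : (X j : MvPolynomial (Fin 6) ℂ) ∈ I.radical := by
    rw [← vanishingIdeal_zeroLocus_eq_radical (K := ℂ), mem_vanishingIdeal_iff]
    intro x hx
    have hx0 : x = 0 := by
      by_contra hne
      obtain ⟨i, hi⟩ := hs x hne
      apply hi
      have h2 := hx (pderiv i F) (by rw [hI]; exact Ideal.subset_span ⟨i, rfl⟩)
      rwa [aeval_eq_eval] at h2
    rw [hx0, aeval_X]
    rfl
  obtain ⟨k, hk⟩ := hrad
  have h3 := hker _ hk
  rw [map_pow, aeval_X] at h3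
  exact eq_zero_of_pow_eq_zero h3

/-- the first terms of the expansion along a line -/
private theorem SM_taylor (z v : Fin 6 → A) (p : MvPolynomial (Fin 6) ℂ) :
    ∃ r : Polynomial A, aeval (fun j => Polynomial.C (z j) + Polynomial.X * Polynomial.C (v j)) p =
      Polynomial.C (aeval z p) + Polynomial.X * Polynomial.C (∑ j, v j * aeval z (pderiv j p)) +
        Polynomial.X ^ 2 * r := by
  induction p using MvPolynomial.induction_on with
  | C a =>
    refine ⟨0, ?_⟩
    simp only [aeval_C, pderiv_C, map_zero, mul_zero, Finset.sum_const_zero, add_zero]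
    rfl
  | add p q hp hq =>
    obtain ⟨r, hr⟩ := hp
    obtain ⟨r', hr'⟩ := hq
    refine ⟨r + r', ?_⟩
    have h1 : ∑ j, v j * aeval z (pderiv j (p + q)) =
        ∑ j, v j * aeval z (pderiv j p) + ∑ j, v j * aeval z (pderiv j q) := by
      rw [← Finset.sum_add_distrib]
      refine Finset.sum_congr rfl fun j _ => ?_
      rw [map_add, map_add, mul_add]
    rw [map_add, hr, hr', h1, map_add, map_add, map_add]
    ring
  | mul_X p i hp =>
    obtain ⟨r, hr⟩ := hp
    have h1 : ∑ j, v j * aeval z (pderiv j (p * X i)) =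
        (∑ j, v j * aeval z (pderiv j p)) * z i + aeval z p * v i := by
      have h2 : ∀ j, v j * aeval z (pderiv j (p * X i)) =
          (v j * aeval z (pderiv j p)) * z i + (if j = i then aeval z p * v j else 0) := by
        intro j
        rw [pderiv_mul, pderiv_X, map_add, map_mul, map_mul, aeval_X]
        by_cases hji : j = i
        · subst hji
          rw [if_pos rfl, Pi.single_eq_same, map_one]
          ring
        · rw [if_neg hji, Pi.single_eq_of_ne (Ne.symm hji), map_zero]
          ring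
      rw [Finset.sum_congr rfl fun j _ => h2 j, Finset.sum_add_distrib, ← Finset.sum_mul,
        Finset.sum_ite_eq' Finset.univ i, if_pos (Finset.mem_univ i)]
    refine ⟨r * (Polynomial.C (z i) + Polynomial.X * Polynomial.C (v i)) +
      Polynomial.C (∑ j, v j * aeval z (pderiv j p)) * Polynomial.C (v i), ?_⟩
    rw [map_mul, hr, h1, aeval_X, map_mul, aeval_X, map_add, map_mul, map_mul, map_mul]
    ring

/-- in other words: a smooth form does not vanish to order two on all lines through a point -/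
theorem smooth_line [Infinite A] (hF : F.IsHomogeneous 3) (hs : Smooth F) {z : Fin 6 → A}
    (hz : z ≠ 0) : ¬ ∀ v : Fin 6 → A, ∃ q : Polynomial A, ∀ s : A,
      aeval (z + s • v) F = s ^ 2 * q.eval s := by
  intro hall
  obtain ⟨i, hi⟩ := smooth_ext hF hs hz
  obtain ⟨q, hq⟩ := hall (Pi.single i 1)
  obtain ⟨r, hr⟩ := SM_taylor z (Pi.single i 1) F
  have h1 : ∑ j, (Pi.single i 1 : Fin 6 → A) j * aeval z (pderiv j F) =
      aeval z (pderiv i F) := by
    rw [Finset.sum_eq_single i]
    · rw [Pi.single_eq_same, one_mul]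
    · intro j _ hj
      rw [Pi.single_eq_of_ne hj, zero_mul]
    · intro h
      exact absurd (Finset.mem_univ i) h
  rw [h1] at hr
  have h2 : aeval (fun j => Polynomial.C (z j) +
      Polynomial.X * Polynomial.C ((Pi.single i 1 : Fin 6 → A) j)) F =
      Polynomial.X ^ 2 * q := by
    apply Polynomial.funext
    intro s
    rw [Polynomial.eval_mul, Polynomial.eval_pow, Polynomial.eval_X, ← hq s]
    have h3 : ∀ p : MvPolynomial (Fin 6) ℂ, Polynomial.eval s (aeval (fun j => Polynomial.C (z j) +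
        Polynomial.X * Polynomial.C ((Pi.single i 1 : Fin 6 → A) j)) p) =
        aeval (z + s • (Pi.single i 1 : Fin 6 → A)) p := by
      intro p
      induction p using MvPolynomial.induction_on with
      | C a =>
        rw [aeval_C, aeval_C, Polynomial.algebraMap_apply, Polynomial.eval_C]
      | add p q hp hq => rw [map_add, map_add, Polynomial.eval_add, hp, hq]
      | mul_X p j hp =>
        rw [map_mul, map_mul, Polynomial.eval_mul, hp, aeval_X, aeval_X, Polynomial.eval_add,
          Polynomial.eval_mul, Polynomial.eval_C, Polynomial.eval_C, Polynomial.eval_X]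
        rfl
    exact h3 F
  rw [hr] at h2
  have h4 := congrArg (fun p => Polynomial.coeff p 1) h2
  simp only [Polynomial.coeff_add, Polynomial.coeff_C, Polynomial.coeff_X_mul,
    Polynomial.coeff_X_pow_mul', one_ne_zero, if_false, if_true] at h4
  norm_num at h4
  exact hi h4

/-- the point with coordinates `(x, y)` in the basis `w` -/
noncomputable def ptw (w : Basis (Fin 3 ⊕ Fin 3) ℂ (Fin 6 → ℂ)) (x y : Fin 3 → A) : Fin 6 → A :=
  fun m => ∑ i, x i * algebraMap ℂ A (w (.inl i) m) + ∑ i, y i * algebraMap ℂ A (w (.inr i) m)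

private theorem SM_ptw (w : Basis (Fin 3 ⊕ Fin 3) ℂ (Fin 6 → ℂ)) (x y : Fin 3 → A) (m : Fin 6) :
    ptw w x y m = ∑ b, Sum.elim x y b * algebraMap ℂ A (w b m) := by
  rw [Fintype.sum_sum_type]
  rfl

private theorem SM_inv1 (w : Basis (Fin 3 ⊕ Fin 3) ℂ (Fin 6 → ℂ)) (m m' : Fin 6) :
    ∑ b, w.repr (Pi.single m 1) b * w b m' = if m = m' then 1 else 0 := by
  have h1 := congrFun (w.sum_repr (Pi.single m 1)) m'
  rw [Finset.sum_apply] at h1
  simp only [Pi.smul_apply, smul_eq_mul] at h1
  rw [h1]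
  by_cases h : m = m'
  · subst h; rw [Pi.single_eq_same, if_pos rfl]
  · rw [Pi.single_eq_of_ne (Ne.symm h), if_neg h]

private theorem SM_inv2 (w : Basis (Fin 3 ⊕ Fin 3) ℂ (Fin 6 → ℂ)) (b b' : Fin 3 ⊕ Fin 3) :
    ∑ m, w b' m * w.repr (Pi.single m 1) b = if b' = b then 1 else 0 := by
  have h1 : w b' = ∑ m, w b' m • (Pi.single m 1 : Fin 6 → ℂ) := by
    funext m'
    rw [Finset.sum_apply, Finset.sum_eq_single m']
    · rw [Pi.smul_apply, Pi.single_eq_same, smul_eq_mul, mul_one]
    · intro m _ hm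
      rw [Pi.smul_apply, Pi.single_eq_of_ne (Ne.symm hm), smul_zero]
    · intro h
      exact absurd (Finset.mem_univ m') h
  have h2 : w.repr (w b') b = ∑ m, w b' m * w.repr (Pi.single m 1) b := by
    conv_lhs => rw [h1]
    rw [map_sum, Finsupp.finsetSum_apply]
    refine Finset.sum_congr rfl fun m _ => ?_
    rw [map_smul, Finsupp.smul_apply, smul_eq_mul]
  rw [← h2, w.repr_self, Finsupp.single_apply]

theorem ptw_surj (w : Basis (Fin 3 ⊕ Fin 3) ℂ (Fin 6 → ℂ)) (z : Fin 6 → A) :
    ∃ x y, z = ptw w x y := by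
  obtain ⟨X, hX⟩ : ∃ X : Fin 3 ⊕ Fin 3 → A,
    X = fun b => ∑ m, z m * algebraMap ℂ A (w.repr (Pi.single m 1) b) := ⟨_, rfl⟩
  refine ⟨fun i => X (.inl i), fun i => X (.inr i), ?_⟩
  funext m'
  rw [SM_ptw]
  have h1 : ∀ b, Sum.elim (fun i => X (.inl i)) (fun i => X (.inr i)) b = X b := by
    rintro (b | b) <;> rfl
  have h2 : ∑ b, Sum.elim (fun i => X (.inl i)) (fun i => X (.inr i)) b *
      algebraMap ℂ A (w b m') = ∑ m, z m * ∑ b, algebraMap ℂ A (w.repr (Pi.single m 1) b) *
        algebraMap ℂ A (w b m') := by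
    have h4 : ∀ b, Sum.elim (fun i => X (.inl i)) (fun i => X (.inr i)) b *
        algebraMap ℂ A (w b m') = ∑ m, z m * (algebraMap ℂ A (w.repr (Pi.single m 1) b) *
          algebraMap ℂ A (w b m')) := by
      intro b
      rw [h1 b, congrFun hX b, Finset.sum_mul]
      exact Finset.sum_congr rfl fun m _ => by ring
    rw [Finset.sum_congr rfl fun b _ => h4 b, Finset.sum_comm]
    refine Finset.sum_congr rfl fun m _ => ?_
    rw [Finset.mul_sum]
  rw [h2, Finset.sum_eq_single m']
  · have h3 : ∑ b, algebraMap ℂ A (w.repr (Pi.single m' 1) b) * algebraMap ℂ A (w b m') =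
        algebraMap ℂ A (∑ b, w.repr (Pi.single m' 1) b * w b m') := by
      rw [map_sum]
      exact Finset.sum_congr rfl fun b _ => (map_mul _ _ _).symm
    rw [h3, SM_inv1, if_pos rfl, map_one, mul_one]
  · intro m _ hm
    have h3 : ∑ b, algebraMap ℂ A (w.repr (Pi.single m 1) b) * algebraMap ℂ A (w b m') =
        algebraMap ℂ A (∑ b, w.repr (Pi.single m 1) b * w b m') := by
      rw [map_sum]
      exact Finset.sum_congr rfl fun b _ => (map_mul _ _ _).symm
    rw [h3, SM_inv1, if_neg hm, map_zero, mul_zero]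
  · intro h
    exact absurd (Finset.mem_univ m') h

theorem ptw_ne (w : Basis (Fin 3 ⊕ Fin 3) ℂ (Fin 6 → ℂ)) {x y : Fin 3 → A}
    (h : ptw w x y = 0) : x = 0 ∧ y = 0 := by
  have key : ∀ b, Sum.elim x y b = 0 := by
    intro b
    have h1 : ∑ m, ptw w x y m * algebraMap ℂ A (w.repr (Pi.single m 1) b) = 0 := by
      rw [h]
      simp
    have h2 : ∑ m, ptw w x y m * algebraMap ℂ A (w.repr (Pi.single m 1) b) =
        ∑ b', Sum.elim x y b' * algebraMap ℂ A (∑ m, w b' m * w.repr (Pi.single m 1) b) := by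
      simp only [SM_ptw, Finset.sum_mul, map_sum, map_mul, Finset.mul_sum]
      rw [Finset.sum_comm]
      refine Finset.sum_congr rfl fun b' _ => Finset.sum_congr rfl fun m _ => ?_
      ring
    rw [h2, Finset.sum_eq_single b] at h1
    · rwa [SM_inv2, if_pos rfl, map_one, mul_one] at h1
    · intro b' _ hb
      rw [SM_inv2, if_neg hb, map_zero, mul_zero]
    · intro h'
      exact absurd (Finset.mem_univ b) h'
  exact ⟨funext fun i => key (.inl i), funext fun i => key (.inr i)⟩

/-- `cubF` is natural -/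
private theorem SM_cubF {R S : Type*} [CommRing R] [Algebra ℂ R] [CommRing S] [Algebra ℂ S]
    (φ : R →ₐ[ℂ] S) (M : Fin 3 → Matrix (Fin 3) (Fin 3) ℂ) (c c' : ℂ) (l l' : Fin 3 → Fin 3 → ℂ)
    (x y : Fin 3 → R) : φ (cubF M c c' l l' x y) =
      cubF M c c' l l' (fun i => φ (x i)) (fun i => φ (y i)) := by
  have e1 : φ (rowsX M x).det = (rowsX M fun i => φ (x i)).det := by
    rw [AlgHom.map_det]
    congr 1
    ext i j
    simp only [rowsX, toR, AlgHom.mapMatrix_apply, Matrix.map_apply, Matrix.of_apply,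
      Matrix.vecMul, dotProduct, map_sum, map_mul, AlgHom.commutes]
  have e2 : φ (rowsY M y).det = (rowsY M fun i => φ (y i)).det := by
    rw [AlgHom.map_det]
    congr 1
    ext i j
    simp only [rowsY, toR, AlgHom.mapMatrix_apply, Matrix.map_apply, Matrix.of_apply,
      Matrix.mulVec, dotProduct, map_sum, map_mul, AlgHom.commutes]
  unfold cubF
  rw [map_add, map_add, map_mul, map_mul, e1, e2, AlgHom.commutes, AlgHom.commutes]
  simp only [toR, Matrix.map_apply, Matrix.mulVec, dotProduct, map_sum, map_add, map_mul,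
    AlgHom.commutes]

/-- an identity of values over `ℂ` holds over every extension -/
theorem transfer {M : Fin 3 → Matrix (Fin 3) (Fin 3) ℂ} {c c' : ℂ} {l l' : Fin 3 → Fin 3 → ℂ}
    (w : Basis (Fin 3 ⊕ Fin 3) ℂ (Fin 6 → ℂ))
    (h : ∀ x y : Fin 3 → ℂ, eval (∑ i, x i • w (.inl i) + ∑ i, y i • w (.inr i)) F =
      cubF M c c' l l' x y) (x y : Fin 3 → A) :
    aeval (ptw w x y) F = cubF M c c' l l' x y := by
  obtain ⟨P1, hP1⟩ : ∃ P1 : MvPolynomial (Fin 3 ⊕ Fin 3) ℂ,
    P1 = aeval (fun m => ∑ i, X (.inl i) * C (w (.inl i) m) +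
      ∑ i, X (.inr i) * C (w (.inr i) m)) F := ⟨_, rfl⟩
  obtain ⟨P2, hP2⟩ : ∃ P2 : MvPolynomial (Fin 3 ⊕ Fin 3) ℂ,
    P2 = cubF M c c' l l' (fun i => X (.inl i)) (fun i => X (.inr i)) := ⟨_, rfl⟩
  have hval : ∀ (B : Type) [CommRing B] [Algebra ℂ B] (u v : Fin 3 → B),
      aeval (Sum.elim u v) P1 = aeval (fun m => ∑ i, u i * algebraMap ℂ B (w (.inl i) m) +
        ∑ i, v i * algebraMap ℂ B (w (.inr i) m)) F ∧
      aeval (Sum.elim u v) P2 = cubF M c c' l l' u v := by
    intro B _ _ u v
    constructor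
    · rw [hP1, ← AlgHom.comp_apply, comp_aeval]
      congr 2
      funext m
      rw [map_add, map_sum, map_sum]
      congr 1 <;>
      · refine Finset.sum_congr rfl fun i _ => ?_
        rw [map_mul, aeval_X, ← algebraMap_eq, AlgHom.commutes]
        rfl
    · rw [hP2, SM_cubF]
      simp only [aeval_X, Sum.elim_inl, Sum.elim_inr]
  have hP : P1 = P2 := by
    apply MvPolynomial.funext
    intro t
    have ht : t = Sum.elim (fun i => t (.inl i)) (fun i => t (.inr i)) := by
      funext b
      rcases b with b | b <;> rfl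
    rw [ht]
    obtain ⟨h1, h2⟩ := hval ℂ (fun i => t (.inl i)) (fun i => t (.inr i))
    rw [aeval_eq_eval] at h1 h2
    have h3 : (fun m => ∑ i, t (.inl i) * algebraMap ℂ ℂ (w (.inl i) m) +
        ∑ i, t (.inr i) * algebraMap ℂ ℂ (w (.inr i) m)) =
        ∑ i, t (.inl i) • w (.inl i) + ∑ i, t (.inr i) • w (.inr i) := by
      funext m
      simp only [Pi.add_apply, Finset.sum_apply, Pi.smul_apply, smul_eq_mul,
        Algebra.algebraMap_self, RingHom.id_apply]
    rw [h1, h2, ← h, aeval_eq_eval, h3]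
  obtain ⟨h1, h2⟩ := hval A x y
  rw [← h2, ← hP, h1]
  rfl

end Pool.Agent.Helper16.C18.H
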