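import Pool.Agent.Helper64.C18.XF
import Pool.Agent.Helper64.C18.SD
import Pool.Agent.Helper64.C18.SM
import Pool.Agent.Helper64.C18.T1

set_option autoImplicit false

/-! Project C18: the generic fibre of a smooth `X` is not a norm form (offer C18-NN) -/

/-!
Suppose `Θ.ev x y = k N (l1 x + m1 y)`.  Choose `x0` in `K ^ 3` with `det (rowsX M x0) ≠ 0` and
`Θ.ev (hat μ (x0 + s v)) 1 = s ^ 3 * const`: if `k ≠ 0` and `l1 ≠ 0`: `N (l1 X̂ + m1) = 0` gives
`X̂ = hat μ X = -m1 / l1` (all components, by `Fd Om θ`, `Fd.ne`), which is `Rat K θ`, so `X` is in `K ^ 3`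
(`hμ`), take `x0 = X` (`hat` is linear).  If `k ≠ 0`, `l1 = 0`: `N m1 = 0`, so `m1 = 0` and `Θ.ev = 0`
identically; if `k = 0` also; then any `x0` in `K ^ 3` with nonzero determinant works (it exists because
`det (rowsX M X) ≠ 0`, so the cubic form `det (rowsX M x)` is not zero and `K` is infinite).
By `hF` `cubF (x0 + s v) (phi ..) = s ^ 3 * ...` (the determinant is a polynomial in `s`), so
`sing_of_double` shows that `F` vanishes to order two at `ptw w x0 (phi .. x0)` on all lines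
(`transfer`, `ptw_surj`, `ptw` is additive), and `x0 ≠ 0`: contradiction to `smooth_line`, `ptw_ne`.
-/

namespace Pool.Agent.Helper16.C18.H

open Pool.Agent.Helper64.C18 MvPolynomial Module Matrix

variable {A : Type} [Field A] [CharZero A] [IsAlgClosed A] [Algebra ℂ A]
  {F : MvPolynomial (Fin 6) ℂ}
  {M : Fin 3 → Matrix (Fin 3) (Fin 3) ℂ} {c c' : ℂ} {l l' : Fin 3 → Fin 3 → ℂ}
  {τ : Fin 2 → A} {μ : Fin 3 → Fin 3 → A} {Θ : Cube A} {θ : Fin 3 → A}

omit [CharZero A] [IsAlgClosed A] in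
private theorem NN_rows_add (x v : Fin 3 → A) (s : A) :
    rowsX M (x + s • v) = rowsX M x + s • rowsX M v := by
  ext i j
  change ((x + s • v) ᵥ* toR A (M i)) j = (x ᵥ* toR A (M i)) j + s * (v ᵥ* toR A (M i)) j
  rw [Matrix.add_vecMul, Matrix.smul_vecMul]
  rfl

omit [CharZero A] [IsAlgClosed A] in
/-- the determinant is a polynomial on lines -/
private theorem NN_det (x v : Fin 3 → A) :
    ∃ q : Polynomial A, ∀ s : A, (rowsX M (x + s • v)).det = q.eval s := by
  refine ⟨((rowsX M x).map Polynomial.C + (Polynomial.X : Polynomial A) •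
    (rowsX M v).map Polynomial.C).det, fun s => ?_⟩
  rw [NN_rows_add, ← Polynomial.coe_evalRingHom, RingHom.map_det]
  congr 1
  ext i j
  simp
  exact mul_comm _ _

omit [CharZero A] [IsAlgClosed A] in
/-- a complex point with nonzero determinant -/
private theorem NN_exists {X : Fin 3 → A} (hD : (rowsX M X).det ≠ 0) :
    ∃ x : Fin 3 → ℂ, (rowsX M fun k => algebraMap ℂ A (x k)).det ≠ 0 := by
  let P : MvPolynomial (Fin 3) ℂ :=
    (Matrix.of fun i j : Fin 3 => ∑ k : Fin 3, MvPolynomial.X k * MvPolynomial.C (M i k j)).det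
  have hP : ∀ x : Fin 3 → A, aeval x P = (rowsX M x).det := by
    intro x
    rw [← AlgHom.coe_toRingHom, RingHom.map_det]
    congr 1
    ext i j
    simp only [RingHom.mapMatrix_apply, Matrix.map_apply, Matrix.of_apply, map_sum, map_mul,
      AlgHom.coe_toRingHom, aeval_X, aeval_C]
    rfl
  by_contra hcon
  push Not at hcon
  have h1 : P = 0 := by
    refine MvPolynomial.funext fun x => ?_
    have h2 := hP fun k => algebraMap ℂ A (x k)
    rw [hcon x] at h2
    have h3 : aeval (fun k => algebraMap ℂ A (x k)) P = algebraMap ℂ A (eval x P) := by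
      have h4 := MvPolynomial.aeval_algebraMap_apply A x P
      rw [MvPolynomial.aeval_eq_eval] at h4
      exact h4
    rw [h3] at h2
    rw [map_zero]
    exact (algebraMap ℂ A).injective (by rw [h2, map_zero])
  apply hD
  rw [← hP, h1, map_zero]

omit [CharZero A] [IsAlgClosed A] [Algebra ℂ A] in
private theorem NN_hat (x v : Fin 3 → A) (s : A) :
    hat μ (x + s • v) = hat μ x + s • hat μ v := by
  funext j
  simp only [hat, Pi.add_apply, Pi.smul_apply, smul_eq_mul, Fin.sum_univ_three]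
  ring

omit [CharZero A] [IsAlgClosed A] in
private theorem NN_ptw (w : Basis (Fin 3 ⊕ Fin 3) ℂ (Fin 6 → ℂ)) (x y a b : Fin 3 → A) (s : A) :
    ptw w x y + s • ptw w a b = ptw w (x + s • a) (y + s • b) := by
  funext m
  simp only [ptw, Pi.add_apply, Pi.smul_apply, smul_eq_mul, Fin.sum_univ_three]
  ring

theorem not_norm (hF : F.IsHomogeneous 3) (hs : Smooth F)
    (w : Basis (Fin 3 ⊕ Fin 3) ℂ (Fin 6 → ℂ))
    (h : ∀ x y : Fin 3 → ℂ, eval (∑ i, x i • w (.inl i) + ∑ i, y i • w (.inr i)) F =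
      cubF M c c' l l' x y)
    (hτ : AlgebraicIndependent ℂ τ) {K Om : Subfield A}
    (hK : K = (IntermediateField.adjoin ℂ (Set.range τ)).toSubfield) (hKO : K ≤ Om)
    (hθ : Fd K θ) (hθO : Fd Om θ)
    (hμ : ∀ L : Subfield A, K ≤ L → ∀ x : Fin 3 → A, Rat L θ (hat μ x) ↔ ∀ k, x k ∈ L)
    (hFΘ : ∀ x : Fin 3 → A, cubF M c c' l l' x (phi (pen M τ 0) (pen M τ 1) x) =
      (rowsX M x).det * Θ.ev (hat μ x) 1)
    {X : Fin 3 → A} (hX : ∀ k, X k ∈ Om) (hD : (rowsX M X).det ≠ 0)
    (h0 : Θ.ev (hat μ X) 1 = 0) :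
    ¬ ∃ (k : A) (l1 m1 : Fin 3 → A), Rat K θ l1 ∧ Rat K θ m1 ∧
      ∀ x y, Θ.ev x y = k * N (l1 * x + m1 * y) := by
  rintro ⟨k, l1, m1, hl1, hm1, hev⟩
  have hCK : ∀ z : ℂ, algebraMap ℂ A z ∈ K := by
    intro z
    rw [hK]
    exact (IntermediateField.adjoin ℂ (Set.range τ)).algebraMap_mem z
  -- the point
  obtain ⟨x0, hx0, hD0, hx3⟩ : ∃ x0 : Fin 3 → A, (∀ i, x0 i ∈ K) ∧ (rowsX M x0).det ≠ 0 ∧
      ∀ v : Fin 3 → A, ∃ e : A, ∀ s : A, Θ.ev (hat μ (x0 + s • v)) 1 = s ^ 3 * e := by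
    have hz : (k = 0 ∨ l1 = 0) → ∀ x, Θ.ev x 1 = 0 := by
      rintro (h1 | h1) x
      · rw [hev, h1, zero_mul]
      · by_cases hk : k = 0
        · rw [hev, hk, zero_mul]
        · have h2 := hev (hat μ X) 1
          rw [h0, h1, zero_mul, zero_add, mul_one] at h2
          have h3 : N m1 = 0 := (mul_eq_zero.1 h2.symm).resolve_left hk
          have h4 : m1 = 0 := by
            by_contra h5
            exact hθ.N_ne hm1 h5 h3
          rw [hev, h1, h4, zero_mul, zero_mul, zero_add]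
          simp [N]
    by_cases hk : k = 0 ∨ l1 = 0
    · obtain ⟨x, hx⟩ := NN_exists hD
      refine ⟨fun i => algebraMap ℂ A (x i), fun i => hCK _, hx, fun v => ⟨0, fun s => ?_⟩⟩
      rw [hz hk, mul_zero]
    · push Not at hk
      obtain ⟨hk, hl0⟩ := hk
      have hXO : Rat Om θ (hat μ X) := (hμ Om hKO X).2 hX
      have h2 := hev (hat μ X) 1
      rw [h0, mul_one] at h2
      have h3 : N (l1 * hat μ X + m1) = 0 := (mul_eq_zero.1 h2.symm).resolve_left hk
      have h4 : l1 * hat μ X + m1 = 0 := by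
        by_contra h5
        exact hθO.N_ne ((Rat.mul hθO.cub (hl1.mono hKO) hXO).add (hm1.mono hKO)) h5 h3
      have h5 : hat μ X = (fun i => -m1 i) / l1 := by
        funext i
        rw [Pi.div_apply, eq_div_iff (hθ.ne hl1 hl0 i)]
        have h6 := congrFun h4 i
        simp only [Pi.add_apply, Pi.mul_apply, Pi.zero_apply] at h6
        linear_combination h6
      have h6 : ∀ i, X i ∈ K := by
        refine (hμ K le_rfl X).1 ?_
        rw [h5]
        exact hθ.div hm1.neg hl1
      refine ⟨X, h6, hD, fun v => ⟨k * N (l1 * hat μ v), fun s => ?_⟩⟩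
      rw [hev, NN_hat, mul_one]
      have h7 : l1 * (hat μ X + s • hat μ v) + m1 = s • (l1 * hat μ v) := by
        funext i
        have h8 := congrFun h4 i
        simp only [Pi.add_apply, Pi.mul_apply, Pi.zero_apply, Pi.smul_apply, smul_eq_mul] at h8 ⊢
        linear_combination h8
      rw [h7]
      simp only [N, Pi.smul_apply, smul_eq_mul]
      ring
  have hsing := sing_of_double (M := M) (c := c) (c' := c') (l := l) (l' := l') hτ
    (x0 := x0) (fun i => by
      have := hx0 i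
      rw [hK] at this
      exact this) hD0 (fun v => by
      obtain ⟨e, he⟩ := hx3 v
      obtain ⟨q, hq⟩ := NN_det (M := M) x0 v
      refine ⟨Polynomial.X * Polynomial.C e * q, fun s => ?_⟩
      rw [hFΘ, he, hq, Polynomial.eval_mul, Polynomial.eval_mul, Polynomial.eval_X,
        Polynomial.eval_C]
      ring)
  have hne : ptw w x0 (phi (pen M τ 0) (pen M τ 1) x0) ≠ 0 := by
    intro h1
    have h2 := (ptw_ne w h1).1
    apply hD0
    have h3 : rowsX M (0 : Fin 3 → A) = 0 := by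
      ext i j
      change ((0 : Fin 3 → A) ᵥ* toR A (M i)) j = 0
      rw [Matrix.zero_vecMul]
      rfl
    rw [h2, h3]
    simp
  refine smooth_line hF hs hne fun v => ?_
  obtain ⟨a, b, rfl⟩ := ptw_surj w v
  obtain ⟨q, hq⟩ := hsing a b
  refine ⟨q, fun s => ?_⟩
  rw [NN_ptw, transfer w h, hq]

end Pool.Agent.Helper16.C18.H
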