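import Pool.Agent.Helper64.C18.T1

set_option autoImplicit false

/-! Project C18: transcendence degree in `ℂ(u)` (offer C18-TD) -/

/-!
`tr2_of`: `adjoin ℂ (range u)` has transcendence degree 4 over `ℂ`, `adjoin ℂ (range τ)` has 2; so the
first has transcendence degree 2 over the second (for example: complete `τ` to a transcendence basis of
`adjoin ℂ (range u)` over `ℂ` by two elements; `trdeg` is additive in towers in Mathlib).
`indep4`: towers of algebraically independent families (`AlgebraicIndependent.sumElim` or
`algebraicIndependent` over intermediate fields), and the equality of the two generated fields.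
-/

namespace Pool.Agent.Helper16.C18.H

variable {A : Type*} [Field A] [CharZero A] [Algebra ℂ A]

omit [CharZero A] in
/-- one element of an independent family of four elements is outside of the closure of a smaller
independent set -/
private theorem TD_aug {u : Fin 4 → A} (hu : AlgebraicIndependent ℂ u) {I : Set A}
    (hI : (AlgebraicIndependent.matroid ℂ A).Indep I) (hc : I.encard < 4) :
    ∃ k, u k ∉ I ∧ (AlgebraicIndependent.matroid ℂ A).Indep (insert (u k) I) := by
  have h1 : (AlgebraicIndependent.matroid ℂ A).Indep (Set.range u) :=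
    AlgebraicIndependent.matroid_indep_iff.mpr hu.to_subtype_range
  have h2 : (Set.range u).encard = 4 := by
    rw [← Set.image_univ, hu.injective.injOn.encard_image, Set.encard_univ]
    simp
  by_contra hcon
  push Not at hcon
  have h3 : Set.range u ⊆ (AlgebraicIndependent.matroid ℂ A).closure I := by
    rintro _ ⟨k, rfl⟩
    by_contra h4
    have h5 := (hI.notMem_closure_iff (e := u k) (Set.mem_univ _)).1 h4
    exact hcon k h5.2 h5.1
  have h4 : (AlgebraicIndependent.matroid ℂ A).eRk (Set.range u) ≤
      (AlgebraicIndependent.matroid ℂ A).eRk ((AlgebraicIndependent.matroid ℂ A).closure I) :=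
    Matroid.eRk_mono _ h3
  rw [Matroid.eRk_closure_eq, h1.eRk_eq_encard, h2, hI.eRk_eq_encard] at h4
  exact absurd h4 (not_le.2 hc)

theorem tr2_of {u : Fin 4 → A} (hu : AlgebraicIndependent ℂ u) {τ : Fin 2 → A}
    (hτ : AlgebraicIndependent ℂ τ)
    (h : ∀ k, τ k ∈ IntermediateField.adjoin ℂ (Set.range u)) :
    Tr2 (IntermediateField.adjoin ℂ (Set.range τ)).toSubfield
      (IntermediateField.adjoin ℂ (Set.range u)).toSubfield := by
  have hI : (AlgebraicIndependent.matroid ℂ A).Indep (Set.range τ) :=
    AlgebraicIndependent.matroid_indep_iff.mpr hτ.to_subtype_range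
  have hcard : (Set.range τ).encard = 2 := by
    rw [← Set.image_univ, hτ.injective.injOn.encard_image, Set.encard_univ]
    simp
  obtain ⟨k1, hk1, hI1⟩ := TD_aug hu hI (by rw [hcard]; norm_num)
  have hcard1 : (insert (u k1) (Set.range τ)).encard = 3 := by
    rw [Set.encard_insert_of_notMem hk1, hcard]
    norm_num
  obtain ⟨k0, hk0, hI0⟩ := TD_aug hu hI1 (by rw [hcard1]; norm_num)
  have hmem : ∀ k, u k ∈ (IntermediateField.adjoin ℂ (Set.range u)).toSubfield := fun k =>
    IntermediateField.subset_adjoin ℂ _ ⟨k, rfl⟩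
  refine ⟨u k0, hmem k0, u k1, hmem k1, ?_⟩
  -- independence over `ℂ`
  have h01 : u k0 ≠ u k1 := fun h => hk0 (h ▸ Set.mem_insert _ _)
  have h0τ : ∀ j, u k0 ≠ τ j := fun j h => hk0 (Set.mem_insert_of_mem _ ⟨j, h.symm⟩)
  have h1τ : ∀ j, u k1 ≠ τ j := fun j h => hk1 ⟨j, h.symm⟩
  have hinj : Function.Injective (Sum.elim ![u k0, u k1] τ) := by
    refine Function.Injective.sumElim ?_ hτ.injective ?_
    · intro i j hij
      fin_cases i <;> fin_cases j <;> simp_all
    · intro i j
      fin_cases i
      · exact h0τ j
      · exact h1τ j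
  have hr : Set.range (Sum.elim ![u k0, u k1] τ) = insert (u k0) (insert (u k1) (Set.range τ)) := by
    rw [Set.Sum.elim_range]
    have : Set.range ![u k0, u k1] = {u k0, u k1} := by
      simp [Set.pair_comm]
    rw [this]
    ext x
    simp only [Set.mem_union, Set.mem_insert_iff, Set.mem_singleton_iff, or_assoc]
  have hind : AlgebraicIndependent ℂ (Sum.elim ![u k0, u k1] τ) := by
    rw [← algebraicIndependent_subtype_range hinj, hr]
    exact AlgebraicIndependent.matroid_indep_iff.mp hI0
  have hR := (AlgebraicIndependent.sumElim_iff.1 hind).2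
  -- from the ring to its field of fractions
  set R := Algebra.adjoin ℂ (Set.range τ) with hRdef
  set K := (IntermediateField.adjoin ℂ (Set.range τ)).toSubfield with hK
  have hle : ∀ y : R, (y : A) ∈ K := by
    rintro ⟨y, hy⟩
    exact IntermediateField.algebra_adjoin_le_adjoin ℂ _ hy
  let _ : Algebra R K := (RingHom.codRestrict R.val.toRingHom K hle).toAlgebra
  have _ : IsScalarTower R K A := .of_algebraMap_eq fun _ => rfl
  have hmem2 : ∀ y ∈ Subfield.closure (Set.range (algebraMap ℂ A) ∪ Set.range τ),
      IsAlgebraic R y := by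
    intro y hy
    induction hy using Subfield.closure_induction with
    | mem x hx =>
      rcases hx with ⟨c, rfl⟩ | hx
      · exact isAlgebraic_algebraMap (A := A) (⟨algebraMap ℂ A c, R.algebraMap_mem c⟩ : R)
      · exact isAlgebraic_algebraMap (A := A) (⟨x, Algebra.subset_adjoin hx⟩ : R)
    | one => exact isAlgebraic_one
    | add x y _ _ hx hy => exact hx.add hy
    | neg x _ hx => exact hx.neg
    | inv x _ hx => exact hx.inv
    | mul x y _ _ hx hy => exact hx.mul hy
  have _ : Algebra.IsAlgebraic R K := ⟨fun c =>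
    (isAlgebraic_algebraMap_iff (algebraMap K A).injective).mp (hmem2 c c.2)⟩
  exact hR.extendScalars K

theorem indep4 {τ : Fin 2 → A} (hτ : AlgebraicIndependent ℂ τ) {K : Subfield A}
    (hK : K = (IntermediateField.adjoin ℂ (Set.range τ)).toSubfield) {s0 s1 : A}
    (hs : AlgebraicIndependent K ![s0, s1]) :
    AlgebraicIndependent ℂ ![τ 0, τ 1, s0, s1] ∧
      ad K {s0, s1} =
        (IntermediateField.adjoin ℂ (Set.range ![τ 0, τ 1, s0, s1])).toSubfield := by
  have hCK : ∀ c : ℂ, algebraMap ℂ A c ∈ K := by
    intro c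
    rw [hK]
    exact (IntermediateField.adjoin ℂ (Set.range τ)).algebraMap_mem c
  have hτK : ∀ j, τ j ∈ K := by
    intro j
    rw [hK]
    exact IntermediateField.subset_adjoin ℂ _ ⟨j, rfl⟩
  constructor
  · let _ : Algebra ℂ K := (RingHom.codRestrict (algebraMap ℂ A) K hCK).toAlgebra
    have _ : IsScalarTower ℂ K A := .of_algebraMap_eq fun _ => rfl
    have h1 : AlgebraicIndependent ℂ (Sum.elim ![s0, s1] τ) := by
      refine hτ.sumElim_of_tower (S := K) ?_ hs
      rintro _ ⟨j, rfl⟩
      exact ⟨⟨τ j, hτK j⟩, rfl⟩
    let e : Fin 4 → Fin 2 ⊕ Fin 2 := ![Sum.inr 0, Sum.inr 1, Sum.inl 0, Sum.inl 1]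
    have he : Function.Injective e := by decide
    have h2 := h1.comp e he
    have h3 : Sum.elim ![s0, s1] τ ∘ e = ![τ 0, τ 1, s0, s1] := by
      funext i
      fin_cases i <;> rfl
    rwa [h3] at h2
  · apply le_antisymm
    · rw [ad, Subfield.closure_le]
      rintro x (hx | hx)
      · rw [hK] at hx
        have h1 : IntermediateField.adjoin ℂ (Set.range τ) ≤
            IntermediateField.adjoin ℂ (Set.range ![τ 0, τ 1, s0, s1]) := by
          rw [IntermediateField.adjoin_le_iff]
          rintro _ ⟨j, rfl⟩
          apply IntermediateField.subset_adjoin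
          fin_cases j
          · exact ⟨0, rfl⟩
          · exact ⟨1, rfl⟩
        exact h1 hx
      · apply IntermediateField.subset_adjoin
        rcases hx with rfl | hx
        · exact ⟨2, rfl⟩
        · rw [Set.mem_singleton_iff] at hx
          rw [hx]
          exact ⟨3, rfl⟩
    · have h1 : (IntermediateField.adjoin ℂ (Set.range ![τ 0, τ 1, s0, s1])).toSubfield =
          Subfield.closure (Set.range (algebraMap ℂ A) ∪ Set.range ![τ 0, τ 1, s0, s1]) := rfl
      rw [h1, Subfield.closure_le]
      rintro x (⟨c, rfl⟩ | ⟨i, rfl⟩)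
      · exact le_ad K _ (hCK c)
      · fin_cases i
        · exact le_ad K _ (hτK 0)
        · exact le_ad K _ (hτK 1)
        · exact mem_ad (Or.inl rfl)
        · exact mem_ad (Or.inr rfl)

end Pool.Agent.Helper16.C18.H
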