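import Pool.Agent.Helper64.C18.XDef

set_option autoImplicit false

/-! Project C18: no section of the plane cubic of the net over the plane (offer C18-XI) -/

/-!
`h(w) = det (w 0 M 0 + w 1 M 1 + w 2 M 2)` irreducible over `ℂ`, `K = ℂ(τ 0, τ 1)`.  The cubic
`P = h(-(τ 0 + X τ 1), 1, X)` in `ℂ[τ 0, τ 1][X]` is prime: with
`ρ : ℂ[w 0, w 1, w 2][t] → ℂ[τ 0, τ 1][X]`, `w ↦ (-(τ 0 + X τ 1), 1, X)`, `t ↦ τ 1`, and
`β : ℂ[τ 0, τ 1][X] → ℂ[w][t][1 / w 1]` we have `ρ β = id` and `β P = h / w 1 ^ 3`, where `h` is prime.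
Its leading coefficient is `h(-τ 1, 0, 1) ≠ 0`, so by the Gauss lemma it is irreducible over `K`, of
degree three, and has no root in `K`.
-/

namespace Pool.Agent.Helper16.C18.H

open Pool.Agent.Helper64.C18 Matrix

/-- the determinant of `w 0 M 0 + w 1 M 1 + w 2 M 2` -/
def XI_H (M : Fin 3 → Matrix (Fin 3) (Fin 3) ℂ) {B : Type*} [CommRing B] [Algebra ℂ B]
    (w : Fin 3 → B) : B := (∑ i, w i • toR B (M i)).det

theorem XI_map (M : Fin 3 → Matrix (Fin 3) (Fin 3) ℂ) {B C : Type*} [CommRing B] [Algebra ℂ B]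
    [CommRing C] [Algebra ℂ C] (φ : B →ₐ[ℂ] C) (w : Fin 3 → B) :
    φ (XI_H M w) = XI_H M (fun i => φ (w i)) := by
  unfold XI_H
  rw [AlgHom.map_det]
  congr 1
  ext a b
  simp [toR, Matrix.sum_apply, Matrix.smul_apply]

theorem XI_smul (M : Fin 3 → Matrix (Fin 3) (Fin 3) ℂ) {B : Type*} [CommRing B] [Algebra ℂ B]
    (c : B) (w : Fin 3 → B) : XI_H M (fun i => c * w i) = c ^ 3 * XI_H M w := by
  unfold XI_H
  have : (∑ i, (c * w i) • toR B (M i)) = c • ∑ i, w i • toR B (M i) := by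
    rw [Finset.smul_sum]
    exact Finset.sum_congr rfl fun i _ => by rw [smul_smul]
  rw [this, Matrix.det_smul]
  simp

section

open MvPolynomial (X)

variable {M : Fin 3 → Matrix (Fin 3) (Fin 3) ℂ}

/-- the cubic as a polynomial in `a` over `ℂ[τ]` -/
noncomputable def XI_P (M : Fin 3 → Matrix (Fin 3) (Fin 3) ℂ) :
    Polynomial (MvPolynomial (Fin 2) ℂ) :=
  XI_H M ![-(Polynomial.C (X 0) + Polynomial.X * Polynomial.C (X 1)), 1, Polynomial.X]

/-- the parametrisation -/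
noncomputable def XI_ρ : Polynomial (MvPolynomial (Fin 3) ℂ) →ₐ[ℂ]
    Polynomial (MvPolynomial (Fin 2) ℂ) :=
  Polynomial.eval₂AlgHom (MvPolynomial.aeval
    ![-(Polynomial.C (X 0) + Polynomial.X * Polynomial.C (X 1)), 1, Polynomial.X])
    (Polynomial.C (X 1)) (fun _ => Commute.all _ _)

theorem XI_lead (hM : Irreducible (XI_H M (X : Fin 3 → MvPolynomial (Fin 3) ℂ))) :
    XI_H M (![-X 1, 0, 1] : Fin 3 → MvPolynomial (Fin 2) ℂ) ≠ 0 := by
  intro h
  -- the restriction to `w 1 = 0` vanishes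
  have h1 : XI_H M (![X 0, 0, X 2] : Fin 3 → MvPolynomial (Fin 3) ℂ) = 0 := by
    have h2 : (X 2 : MvPolynomial (Fin 3) ℂ) * XI_H M (![X 0, 0, X 2] : Fin 3 → MvPolynomial (Fin 3) ℂ) = 0 := by
      refine MvPolynomial.funext fun w => ?_
      by_cases hw : w 2 = 0
      · simp [hw]
      have h3 := congrArg (MvPolynomial.aeval (![0, -w 0 / w 2] : Fin 2 → ℂ)) h
      rw [XI_map, map_zero] at h3
      have h4 : (MvPolynomial.aeval w : MvPolynomial (Fin 3) ℂ →ₐ[ℂ] ℂ)
          (XI_H M (![X 0, 0, X 2] : Fin 3 → MvPolynomial (Fin 3) ℂ)) = 0 := by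
        rw [XI_map]
        have h5 := XI_smul M (w 2) (fun i => (MvPolynomial.aeval (![0, -w 0 / w 2] : Fin 2 → ℂ))
          ((![-X 1, 0, 1] : Fin 3 → MvPolynomial (Fin 2) ℂ) i))
        rw [h3, mul_zero] at h5
        rw [← h5]
        congr 1
        funext i
        fin_cases i
        · simp
          field_simp
        · simp
        · simp
      rw [map_mul, map_zero]
      rw [MvPolynomial.aeval_eq_eval] at h4
      rw [h4, mul_zero]
    exact (mul_eq_zero.1 h2).resolve_left (MvPolynomial.X_ne_zero 2)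
  have h2 : (X 1 : MvPolynomial (Fin 3) ℂ) ∣ XI_H M (X : Fin 3 → MvPolynomial (Fin 3) ℂ) := by
    rw [← Ideal.mem_span_singleton, ← Ideal.Quotient.eq_zero_iff_mem]
    have h3 := congrArg (Ideal.Quotient.mkₐ ℂ (Ideal.span {(X 1 : MvPolynomial (Fin 3) ℂ)})) h1
    rw [XI_map, map_zero] at h3
    have h4 := XI_map M (Ideal.Quotient.mkₐ ℂ (Ideal.span {(X 1 : MvPolynomial (Fin 3) ℂ)}))
      (X : Fin 3 → MvPolynomial (Fin 3) ℂ)
    rw [Ideal.Quotient.mkₐ_eq_mk] at h4
    rw [h4, ← h3]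
    congr 1
    funext i
    fin_cases i
    · simp
    · simp only [Fin.mk_one, Fin.isValue, Matrix.cons_val_one, Matrix.cons_val_zero, map_zero]
      exact Ideal.Quotient.eq_zero_iff_mem.2 (Ideal.mem_span_singleton_self _)
    · simp
  obtain ⟨q, hq⟩ := h2
  have hX : ¬ IsUnit (X 1 : MvPolynomial (Fin 3) ℂ) := by
    intro h3
    have h4 := h3.map (MvPolynomial.aeval (0 : Fin 3 → ℂ))
    simp at h4
  have hq1 : IsUnit q := (hM.isUnit_or_isUnit hq).resolve_left hX
  obtain ⟨c, hc, hc'⟩ := MvPolynomial.isUnit_iff_eq_C_of_isReduced.1 hq1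
  -- homogeneity
  have h3 : ∀ w : Fin 3 → ℂ, XI_H M w = w 1 * c := by
    intro w
    have h4 := congrArg (MvPolynomial.aeval w : MvPolynomial (Fin 3) ℂ →ₐ[ℂ] ℂ) hq
    rw [XI_map, map_mul, hc'] at h4
    simpa using h4
  have h4 := XI_smul M (2 : ℂ) (fun _ => 1)
  rw [h3, h3] at h4
  have h5 : (2 : ℂ) * 1 * c = 2 ^ 3 * (1 * c) := h4
  have : c = 0 := by linear_combination (-1 / 6 : ℂ) * h5
  exact hc.ne_zero this

theorem XI_ρH : XI_ρ (Polynomial.C (XI_H M (X : Fin 3 → MvPolynomial (Fin 3) ℂ))) = XI_P M := by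
  unfold XI_ρ XI_P
  rw [Polynomial.eval₂AlgHom_apply, Polynomial.eval₂_C]
  change (MvPolynomial.aeval _) _ = _
  rw [XI_map]
  congr 1
  funext i
  fin_cases i <;> simp

/-- the polynomial `w 1` -/
noncomputable def XI_x : Polynomial (MvPolynomial (Fin 3) ℂ) := Polynomial.C (X 1)

theorem XI_ρx : XI_ρ XI_x = 1 := by
  simp [XI_ρ, XI_x]

section

variable {L : Type*} [CommRing L] [Algebra ℂ L] [Algebra (Polynomial (MvPolynomial (Fin 3) ℂ)) L]
  [IsScalarTower ℂ (Polynomial (MvPolynomial (Fin 3) ℂ)) L] (i : L)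

/-- the structure map -/
noncomputable def XI_a (L : Type*) [CommRing L] [Algebra ℂ L]
    [Algebra (Polynomial (MvPolynomial (Fin 3) ℂ)) L]
    [IsScalarTower ℂ (Polynomial (MvPolynomial (Fin 3) ℂ)) L] :
    Polynomial (MvPolynomial (Fin 3) ℂ) →ₐ[ℂ] L := IsScalarTower.toAlgHom ℂ _ L

/-- the inverse parametrisation -/
noncomputable def XI_β : Polynomial (MvPolynomial (Fin 2) ℂ) →ₐ[ℂ] L :=
  Polynomial.eval₂AlgHom
    (MvPolynomial.aeval ![-((XI_a L (Polynomial.C (X 0)) +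
      XI_a L Polynomial.X * XI_a L (Polynomial.C (X 2))) * i), XI_a L Polynomial.X])
    (XI_a L (Polynomial.C (X 2)) * i) (fun _ => Commute.all _ _)

theorem XI_β0 : XI_β i (Polynomial.C (X 0)) = -((XI_a L (Polynomial.C (X 0)) +
      XI_a L Polynomial.X * XI_a L (Polynomial.C (X 2))) * i) := by
  simp [XI_β]

theorem XI_β1 : XI_β i (Polynomial.C (X 1)) = XI_a L Polynomial.X := by
  simp [XI_β]

theorem XI_βX : XI_β i Polynomial.X = XI_a L (Polynomial.C (X 2)) * i := by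
  simp [XI_β]

theorem XI_βP (hi : XI_a L XI_x * i = 1) : XI_β i (XI_P M) = i ^ 3 * XI_a L (Polynomial.C (XI_H M
    (X : Fin 3 → MvPolynomial (Fin 3) ℂ))) := by
  have h1 : XI_a L (Polynomial.C (XI_H M (X : Fin 3 → MvPolynomial (Fin 3) ℂ))) =
      XI_H M (fun j => XI_a L (Polynomial.C (X j))) :=
    XI_map M ((XI_a L).comp (IsScalarTower.toAlgHom ℂ (MvPolynomial (Fin 3) ℂ)
      (Polynomial (MvPolynomial (Fin 3) ℂ)))) (X : Fin 3 → MvPolynomial (Fin 3) ℂ)
  rw [h1, ← XI_smul, XI_P, XI_map]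
  congr 1
  funext j
  fin_cases j
  · simp only [Fin.zero_eta, Fin.isValue, Matrix.cons_val_zero, map_neg, map_add, map_mul,
      XI_β0, XI_β1, XI_βX]
    ring
  · have : XI_a L (Polynomial.C (X 1)) * i = 1 := hi
    simp only [Fin.mk_one, Fin.isValue, Matrix.cons_val_one, Matrix.cons_val_zero, map_one]
    rw [mul_comm]
    exact this.symm
  · simp only [Fin.reduceFinMk, Fin.isValue, Matrix.cons_val]
    rw [XI_βX, mul_comm]

theorem XI_ρβ {ρ' : L →+* Polynomial (MvPolynomial (Fin 2) ℂ)} (hρ : ∀ z, ρ' (XI_a L z) = XI_ρ z)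
    (hi : ρ' i = 1) (z : Polynomial (MvPolynomial (Fin 2) ℂ)) : ρ' (XI_β i z) = z := by
  have h : (ρ'.comp (XI_β i).toRingHom) = RingHom.id _ := by
    refine Polynomial.ringHom_ext' (MvPolynomial.ringHom_ext ?_ ?_) ?_
    · intro c
      change ρ' (XI_β i (algebraMap ℂ _ c)) = algebraMap ℂ _ c
      rw [AlgHom.commutes, ← (XI_a L).commutes, hρ, AlgHom.commutes]
    · intro j
      change ρ' (XI_β i (Polynomial.C (X j))) = Polynomial.C (X j)
      fin_cases j
      · change ρ' (XI_β i (Polynomial.C (X 0))) = Polynomial.C (X 0)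
        rw [XI_β0, map_neg, map_mul, hi, map_add, map_mul, hρ, hρ, hρ]
        simp [XI_ρ]
      · change ρ' (XI_β i (Polynomial.C (X 1))) = Polynomial.C (X 1)
        rw [XI_β1, hρ]
        simp [XI_ρ]
    · change ρ' (XI_β i Polynomial.X) = Polynomial.X
      rw [XI_βX, map_mul, hi, hρ]
      simp [XI_ρ]
  exact DFunLike.congr_fun h z

end

theorem XI_dvd (hM : Irreducible (XI_H M (X : Fin 3 → MvPolynomial (Fin 3) ℂ)))
    {u v : Polynomial (MvPolynomial (Fin 2) ℂ)} (h : XI_P M ∣ u * v) :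
    XI_P M ∣ u ∨ XI_P M ∣ v ∨ IsUnit (XI_P M) := by
  obtain ⟨q, hq⟩ := h
  have hx0 : (XI_x : Polynomial (MvPolynomial (Fin 3) ℂ)) ≠ 0 :=
    Polynomial.C_ne_zero.2 (MvPolynomial.X_ne_zero 1)
  let L := Localization.Away XI_x
  let i : L := IsLocalization.Away.invSelf XI_x
  have hi : XI_a L XI_x * i = 1 := IsLocalization.Away.mul_invSelf XI_x
  have hρx : IsUnit (XI_ρ.toRingHom XI_x) := by
    have : XI_ρ.toRingHom XI_x = 1 := XI_ρx
    rw [this]
    exact isUnit_one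
  let ρ' : L →+* Polynomial (MvPolynomial (Fin 2) ℂ) := IsLocalization.Away.lift XI_x hρx
  have hρa : ∀ z, ρ' (XI_a L z) = XI_ρ z := fun z => IsLocalization.Away.lift_eq XI_x hρx z
  have hρi : ρ' i = 1 := by
    have := congrArg ρ' hi
    rw [map_mul, hρa, XI_ρx, one_mul, map_one] at this
    exact this
  have hinj : Function.Injective (XI_a L) :=
    IsLocalization.injective L (powers_le_nonZeroDivisors_of_noZeroDivisors hx0)
  have key : ∀ z, ∃ (n : ℕ) (z' : Polynomial (MvPolynomial (Fin 3) ℂ)),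
      XI_β i z * XI_a L XI_x ^ n = XI_a L z' ∧ XI_ρ z' = z := by
    intro z
    obtain ⟨n, z', h⟩ := IsLocalization.Away.surj XI_x (XI_β i z)
    refine ⟨n, z', h, ?_⟩
    have h2 := congrArg ρ' h
    change ρ' (XI_β i z * XI_a L XI_x ^ n) = ρ' (XI_a L z') at h2
    rw [map_mul, map_pow, hρa, hρa, XI_ρβ i hρa hρi, XI_ρx, one_pow, mul_one] at h2
    exact h2.symm
  obtain ⟨n1, u', hu, hu'⟩ := key u
  obtain ⟨n2, v', hv, hv'⟩ := key v
  obtain ⟨n3, q', hq1, hq'⟩ := key q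
  have h1 := congrArg (XI_β i) hq
  rw [map_mul, map_mul, XI_βP i hi] at h1
  have h2 : u' * v' * XI_x ^ (n3 + 3) = XI_x ^ (n1 + n2) *
      (Polynomial.C (XI_H M (X : Fin 3 → MvPolynomial (Fin 3) ℂ)) * q') := by
    apply hinj
    simp only [map_mul, map_pow, ← hu, ← hv, ← hq1]
    set x := XI_a L XI_x
    set H := XI_a L (Polynomial.C (XI_H M (X : Fin 3 → MvPolynomial (Fin 3) ℂ)))
    have h3 : i ^ 3 * x ^ 3 = 1 := by
      rw [← mul_pow, mul_comm i, hi, one_pow]
    calc XI_β i u * x ^ n1 * (XI_β i v * x ^ n2) * x ^ (n3 + 3)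
        = XI_β i u * XI_β i v * x ^ (n1 + n2) * x ^ n3 * x ^ 3 := by ring
      _ = i ^ 3 * H * XI_β i q * x ^ (n1 + n2) * x ^ n3 * x ^ 3 := by rw [h1]
      _ = x ^ (n1 + n2) * (H * (XI_β i q * x ^ n3)) * (i ^ 3 * x ^ 3) := by ring
      _ = x ^ (n1 + n2) * (H * (XI_β i q * x ^ n3)) := by rw [h3, mul_one]
  have hp : Prime (Polynomial.C (XI_H M (X : Fin 3 → MvPolynomial (Fin 3) ℂ))) :=
    Polynomial.prime_C_iff.2 hM.prime
  have h3 : Polynomial.C (XI_H M (X : Fin 3 → MvPolynomial (Fin 3) ℂ)) ∣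
      u' * v' * XI_x ^ (n3 + 3) := by
    rw [h2]
    exact ⟨XI_x ^ (n1 + n2) * q', by ring⟩
  rcases hp.dvd_or_dvd h3 with h4 | h4
  · rcases hp.dvd_or_dvd h4 with ⟨c, hc⟩ | ⟨c, hc⟩
    · left
      rw [← hu', hc, map_mul, XI_ρH]
      exact dvd_mul_right _ _
    · right
      left
      rw [← hv', hc, map_mul, XI_ρH]
      exact dvd_mul_right _ _
  · right
    right
    obtain ⟨c, hc⟩ := hp.dvd_of_dvd_pow h4
    have h5 := congrArg XI_ρ hc
    rw [map_mul, XI_ρH, XI_ρx] at h5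
    exact IsUnit.of_mul_eq_one _ h5.symm

theorem XI_coeff : (XI_P M).coeff 3 = XI_H M (![-X 1, 0, 1] : Fin 3 → MvPolynomial (Fin 2) ℂ) := by
  have h := Polynomial.coeff_det_X_add_C_card
    (∑ i, (![-X 1, 0, 1] : Fin 3 → MvPolynomial (Fin 2) ℂ) i • toR (MvPolynomial (Fin 2) ℂ) (M i))
    (∑ i, (![-X 0, 1, 0] : Fin 3 → MvPolynomial (Fin 2) ℂ) i • toR (MvPolynomial (Fin 2) ℂ) (M i))
  rw [Fintype.card_fin] at h
  rw [XI_H, ← h, XI_P, XI_H]
  congr 2
  ext a b : 2
  simp only [Fin.sum_univ_three, Matrix.add_apply, Matrix.smul_apply, Matrix.map_apply, toR,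
    Matrix.cons_val_zero, Matrix.cons_val_one, Matrix.cons_val, smul_eq_mul, map_add, map_mul,
    map_neg, map_zero, map_one, Polynomial.algebraMap_apply]
  ring_nf

theorem XI_irred (hM : Irreducible (XI_H M (X : Fin 3 → MvPolynomial (Fin 3) ℂ))) :
    Irreducible (XI_P M) ∧ 3 ≤ (XI_P M).natDegree := by
  have h3 : (XI_P M).coeff 3 ≠ 0 := by
    rw [XI_coeff]
    exact XI_lead hM
  have hd : 3 ≤ (XI_P M).natDegree := Polynomial.le_natDegree_of_ne_zero h3
  have hu : ¬ IsUnit (XI_P M) := by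
    intro h
    have := Polynomial.natDegree_eq_zero_of_isUnit h
    omega
  have h0 : XI_P M ≠ 0 := by
    intro h
    rw [h] at h3
    simp at h3
  have hp : Prime (XI_P M) := ⟨h0, hu, fun u v h => by
    rcases XI_dvd hM h with h | h | h
    · exact Or.inl h
    · exact Or.inr h
    · exact absurd h hu⟩
  exact ⟨hp.irreducible, hd⟩

end

variable {A : Type*} [Field A] [Algebra ℂ A] [IsAlgClosed A]
  {M : Fin 3 → Matrix (Fin 3) (Fin 3) ℂ} {τ : Fin 2 → A}

omit [IsAlgClosed A] in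
theorem XI_pen (a b : A) : (a • pen M τ 0 + b • pen M τ 1).det =
    XI_H M ![-(a * τ 0 + b * τ 1), a, b] := by
  unfold XI_H pen
  congr 1
  ext i j
  simp only [Fin.sum_univ_three, Matrix.add_apply, Matrix.smul_apply, Matrix.sub_apply,
    Matrix.cons_val_zero, Matrix.cons_val_one, Matrix.cons_val, smul_eq_mul, Fin.isValue,
    Fin.succ_zero_eq_one, Fin.succ_one_eq_two]
  ring

theorem x_irr (hM : Irreducible (∑ i, (MvPolynomial.X i : MvPolynomial (Fin 3) ℂ) •
      (M i).map (MvPolynomial.C : ℂ → MvPolynomial (Fin 3) ℂ)).det)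
    (hτ : AlgebraicIndependent ℂ τ) :
    ∀ a ∈ IntermediateField.adjoin ℂ (Set.range τ), ∀ b ∈ IntermediateField.adjoin ℂ (Set.range τ),
      (a • pen M τ 0 + b • pen M τ 1).det = 0 → a = 0 ∧ b = 0 := by
  intro a ha b hb h
  have hM' : Irreducible (XI_H M (MvPolynomial.X : Fin 3 → MvPolynomial (Fin 3) ℂ)) := hM
  rw [XI_pen] at h
  by_contra hab
  by_cases ha0 : a = 0
  · have hb0 : b ≠ 0 := fun hb0 => hab ⟨ha0, hb0⟩
    apply XI_lead hM'
    apply hτ.eq_zero_of_aeval_eq_zero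
    rw [XI_map]
    have h1 := XI_smul M b⁻¹ (![-(a * τ 0 + b * τ 1), a, b] : Fin 3 → A)
    rw [h, mul_zero] at h1
    rw [← h1]
    congr 1
    funext i
    fin_cases i
    · simp [ha0, hb0]
    · simp [ha0]
    · simp [hb0]
  · have hz : b / a ∈ IntermediateField.adjoin ℂ (Set.range τ) := div_mem hb ha
    let FR := FractionRing (MvPolynomial (Fin 2) ℂ)
    let ψ : FR →ₐ[ℂ] A :=
      (IntermediateField.val (IntermediateField.adjoin ℂ (Set.range τ))).comp
        hτ.aevalEquivField.toAlgHom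
    let z : FR := hτ.aevalEquivField.symm ⟨b / a, hz⟩
    have hψz : ψ z = b / a := by
      change ((hτ.aevalEquivField (hτ.aevalEquivField.symm ⟨b / a, hz⟩) :
        IntermediateField.adjoin ℂ (Set.range τ)) : A) = b / a
      rw [AlgEquiv.apply_symm_apply]
    have hψX : ∀ i : Fin 2, ψ (algebraMap (MvPolynomial (Fin 2) ℂ) FR (MvPolynomial.X i)) =
        τ i := by
      intro i
      change ((hτ.aevalEquivField (algebraMap (MvPolynomial (Fin 2) ℂ) FR (MvPolynomial.X i)) :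
        IntermediateField.adjoin ℂ (Set.range τ)) : A) = τ i
      rw [hτ.aevalEquivField_algebraMap_apply_coe]
      simp
    have hψi : Function.Injective ψ := ψ.toRingHom.injective
    let ev : Polynomial (MvPolynomial (Fin 2) ℂ) →ₐ[ℂ] FR :=
      (Polynomial.aeval z).restrictScalars ℂ
    have hevX : ev Polynomial.X = z := Polynomial.aeval_X z
    have hevC : ∀ i : Fin 2, ev (Polynomial.C (MvPolynomial.X i)) =
        algebraMap (MvPolynomial (Fin 2) ℂ) FR (MvPolynomial.X i) :=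
      fun i => Polynomial.aeval_C z _
    have hroot : ev (XI_P M) = 0 := by
      apply hψi
      rw [map_zero, XI_P, XI_map, XI_map]
      have h1 := XI_smul M a⁻¹ (![-(a * τ 0 + b * τ 1), a, b] : Fin 3 → A)
      rw [h, mul_zero] at h1
      rw [← h1]
      congr 1
      funext i
      fin_cases i
      · simp only [Fin.zero_eta, Fin.isValue, Matrix.cons_val_zero, map_neg, map_add, map_mul,
          hevX, hevC, hψz, hψX]
        field_simp
      · simp [ha0]
      · simp only [Fin.reduceFinMk, Fin.isValue, Matrix.cons_val, hevX, hψz]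
        field_simp
    obtain ⟨hirr, hdeg⟩ := XI_irred hM'
    have hprim : (XI_P M).IsPrimitive := hirr.isPrimitive (by omega)
    have hirr' := (hprim.irreducible_iff_irreducible_map_fraction_map (K := FR)).1 hirr
    have hr : ((XI_P M).map (algebraMap _ FR)).IsRoot z := by
      rw [Polynomial.IsRoot.def, Polynomial.eval_map_algebraMap]
      exact hroot
    have h1 := Polynomial.degree_eq_one_of_irreducible_of_root hirr' hr
    have h2 : ((XI_P M).map (algebraMap (MvPolynomial (Fin 2) ℂ) FR)).natDegree = 1 :=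
      Polynomial.natDegree_eq_of_degree_eq_some h1
    rw [Polynomial.natDegree_map_eq_of_injective (IsFractionRing.injective _ _)] at h2
    omega

end Pool.Agent.Helper16.C18.H
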