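import Pool.Agent.Helper64.C18.YS
import Pool.Agent.Helper64.C18.XI
import Pool.Agent.Helper64.C18.CORE
import Pool.Agent.Helper64.C18.CL
import Pool.Agent.Helper64.C18.KP
import Pool.Agent.Helper64.C18.NN
import Pool.Agent.Helper64.C18.LAST
import Pool.Agent.Helper64.C18.TD
import Pool.Agent.Helper64.C18.DES3

set_option autoImplicit false

/-! Project C18: final assembly (helper64) -/

namespace Pool.Agent.Helper16.C18.H

open Pool.Agent.Helper64.C18 MvPolynomial Module Matrix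

section W

variable {A : Type} [Field A] [CharZero A] [IsAlgClosed A] [Algebra ℂ A]

/-- combination with coefficients `(1, τ 0, τ 1)` -/
def comb {ι : Type} (τ : Fin 2 → A) (p : Fin 3 → ι → ℂ) (j : ι) : A :=
  algebraMap ℂ A (p 0 j) + τ 0 * algebraMap ℂ A (p 1 j) + τ 1 * algebraMap ℂ A (p 2 j)

/-- the theorem inside one algebraically closed field -/
theorem main_in_field {F : MvPolynomial (Fin 6) ℂ} (hF : F.IsHomogeneous 3) (hs : Smooth F)
    {M : Fin 3 → Matrix (Fin 3) (Fin 3) ℂ}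
    (hM : Irreducible (∑ i, (MvPolynomial.X i : MvPolynomial (Fin 3) ℂ) •
      (M i).map (MvPolynomial.C : ℂ → MvPolynomial (Fin 3) ℂ)).det)
    {c c' : ℂ} {l l' : Fin 3 → Fin 3 → ℂ}
    (w : Basis (Fin 3 ⊕ Fin 3) ℂ (Fin 6 → ℂ))
    (h : ∀ x y : Fin 3 → ℂ, eval (∑ i, x i • w (.inl i) + ∑ i, y i • w (.inr i)) F =
      cubF M c c' l l' x y)
    (p r : Fin 3 → Fin 4 → ℂ) (s : Fin 3 → Fin 3 → ℂ) (κ α : Fin 3 → ℂ)
    {u : Fin 4 → A} (hu : AlgebraicIndependent ℂ u)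
    {τ : Fin 2 → A} (hτ : AlgebraicIndependent ℂ τ)
    (hτu : ∀ k, τ k ∈ IntermediateField.adjoin ℂ (Set.range u))
    (h1 : skew (comb τ p) u = comb τ (fun i _ => κ i) ())
    (h2 : quart (comb τ p) (comb τ r) (comb τ s) (comb τ (fun i _ => α i) ()) u = 0)
    (hp : ∀ x ∈ IntermediateField.adjoin ℂ (Set.range u),
      ∀ y ∈ IntermediateField.adjoin ℂ (Set.range u), bin (comb τ p) x y = 0 → x = 0 ∧ y = 0)
    {Om : Subfield A} (hOm : Om = (IntermediateField.adjoin ℂ (Set.range u)).toSubfield)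
    (L : IntermediateField Om A) [FiniteDimensional Om L] (hL : ¬ 3 ∣ Module.finrank Om L)
    {x y : Fin 3 → A} {lam : A} (hx : ∀ k, x k ∈ L)
    (hy : ∀ k, y k ∈ L) (hlam : lam ≠ 0)
    (hxy : ∀ i, x ⬝ᵥ (toR A (M i) *ᵥ y) = lam * (![1, τ 0, τ 1] : Fin 3 → A) i)
    (h0 : cubF M c c' l l' x y = 0) :
    (Ideal.span {dh F}).IsPrime ∧
      Nonempty (FractionRing (MvPolynomial (Fin 5) ℂ ⧸ Ideal.span {dh F}) ≃ₐ[ℂ]
        FractionRing (MvPolynomial (Fin 4) ℂ)) := by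
  classical
  set KI := IntermediateField.adjoin ℂ (Set.range τ) with hKI
  set OI := IntermediateField.adjoin ℂ (Set.range u) with hOI
  set K : Subfield A := KI.toSubfield with hKdef
  have hKOI : KI ≤ OI := by
    rw [hKI, IntermediateField.adjoin_le_iff]
    rintro _ ⟨k, rfl⟩
    exact hτu k
  have hKO : K ≤ Om := fun z hz => by
    rw [hOm]
    exact hKOI hz
  have hCK : ∀ z : ℂ, algebraMap ℂ A z ∈ K := fun z => KI.algebraMap_mem z
  have hτK : ∀ k, τ k ∈ K := fun k =>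
    IntermediateField.subset_adjoin ℂ (Set.range τ) ⟨k, rfl⟩
  have huO : ∀ k, u k ∈ Om := fun k => by
    rw [hOm]
    exact IntermediateField.subset_adjoin ℂ (Set.range u) ⟨k, rfl⟩
  have hcomb : ∀ {ι : Type} (p : Fin 3 → ι → ℂ) (j : ι), comb τ p j ∈ K := fun p j =>
    K.add_mem (K.add_mem (hCK _) (K.mul_mem (hτK 0) (hCK _))) (K.mul_mem (hτK 1) (hCK _))
  have htr : Tr2 K Om := by
    rw [hOm]
    exact tr2_of hu hτ hτu
  -- the W side
  obtain ⟨ϑ, Θ', hϑ, hroot, hY, hd, hW⟩ := w_side K (comb τ p) (comb τ r) (comb τ s)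
    (comb τ (fun i _ => κ i) ()) (comb τ (fun i _ => α i) ()) (hcomb p) (hcomb r) (hcomb s)
    (hcomb _ _) (hcomb _ _) (fun a ha b hb hab => hp a (hKOI ha) b (hKOI hb) hab)
  obtain ⟨ξ, hξ, hξ0, hξg⟩ := hW Om hKO u huO h1 h2
  have hg : GenA K Om ϑ ξ := by
    intro L hKL hLO hL z hz
    have hL' : OI ≤ (Subfield.toIntermediateField L (fun z => hKL (hCK z))) := by
      rw [hOI, IntermediateField.adjoin_le_iff]
      rintro _ ⟨k, rfl⟩
      exact hξg L hKL hL k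
    rw [hOm] at hz
    exact hL' hz
  have hϑO : Fd Om ϑ := hϑ.up hKO fun j hj => by
    rw [hOm] at hj
    exact one_ne_zero (hp _ hj 1 OI.one_mem (hroot j)).2
  have hac : ∀ z ∈ Om, IsAlgebraic K z → z ∈ K := fun z hz ha =>
    core_closed hKO htr hϑ hϑO hY hd hξ hξ0 hg hz ha
  -- the X side
  have hpen : ∀ k i j, pen M τ k i j ∈ K := by
    intro k i j
    simp only [pen, toR, Matrix.sub_apply, Matrix.smul_apply, Matrix.map_apply, smul_eq_mul]
    exact K.sub_mem (hCK _) (K.mul_mem (hτK k) (hCK _))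
  have hlin : ∀ (l : Fin 3 → Fin 3 → ℂ) (j : Fin 3), lin l τ j ∈ K := fun l j =>
    K.add_mem (K.add_mem (hCK _) (K.mul_mem (hτK 0) (hCK _))) (K.mul_mem (hτK 1) (hCK _))
  obtain ⟨θ, μ, Θ, hθ, hΘ, hdet, hμ, hμ2, hc, ha, hb, hdd⟩ := x_side K (pen M τ 0) (pen M τ 1)
    (hpen 0) (hpen 1) (x_irr hM hτ) (algebraMap ℂ A c) (algebraMap ℂ A c') (hCK _) (hCK _)
    (lin l τ) (lin l' τ) (hlin l) (hlin l')
  have hθO : Fd Om θ := hθ.up hKO fun i hi => hθ.nr i (hac _ hi (core_alg hθ.cub i))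
  have hFΘ := cubF_phi (M := M) (c := c) (c' := c') (l := l) (l' := l') (τ := τ) (μ := μ) (Θ := Θ)
    hc ha hb hdd
  have hθL : Fd L.toSubfield θ := fd_of_prime hθO L hL
  have hOL : Om ≤ L.toSubfield := fun z hz => L.algebraMap_mem (⟨z, hz⟩ : Om)
  have hKL : K ≤ L.toSubfield := hKO.trans hOL
  obtain ⟨X, hX, hXD, hX0⟩ := x_point hFΘ L.toSubfield (fun z => hKL (hCK z))
    (fun k => hKL (hτK k))
    (by
      intro a ha b hb hab
      obtain ⟨j, hj⟩ := hdet a b hab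
      have hb0 : b = 0 := by
        by_contra hb0
        apply hθL.nr j
        have : θ j = -a / b := by
          field_simp
          linear_combination hj
        rw [this]
        exact L.toSubfield.div_mem (L.toSubfield.neg_mem ha) hb
      subst hb0
      refine ⟨?_, rfl⟩
      simpa using hj) hx hy hlam hxy h0
  have hPtL : Pt Θ L.toSubfield θ (hat μ X) 1 :=
    ⟨(hμ _ hKL X).2 hX, Rat.const L.toSubfield.one_mem, Or.inr one_ne_zero, hX0⟩
  obtain ⟨X1, X2, hPt⟩ := descend3 hθO (hΘ.mono hKO) L hL hPtL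
  have hnn := not_norm hF hs w h hτ rfl hKL hθ hθL hμ hFΘ hX hXD hX0
  rcases core hKO hac htr hϑ hθ hY hd hξ hξ0 hg hΘ hPt with ⟨x', y', hpK⟩ | ⟨-, a, b, hpO, hgO⟩
  · obtain ⟨s0, hs0, s1, hs1, hss⟩ := htr
    have hC' : Fd (ad K {s0, s1}) θ := hθ.up (le_ad _ _) fun i hi =>
      hθ.nr i (mem_of_isAlgebraic hss hi (core_alg hθ.cub i))
    obtain ⟨a, b, hp', hg'⟩ := kpoint_param hθ hΘ hpK hnn hss hC'
    obtain ⟨hi4, he4⟩ := indep4 hτ rfl hss
    exact rational_of_fibre_gen hF hs w h hτ rfl (le_ad _ _) hi4 he4 hθ hC' hΘ hμ hμ2 hc ha hFΘ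
      ⟨X, hXD⟩ ⟨s0, mem_ad (by simp), s1, mem_ad (by simp), hss⟩ hp' hg'
  · exact rational_of_fibre_gen hF hs w h hτ rfl hKO hu hOm hθ hθO hΘ hμ hμ2 hc ha hFΘ
      ⟨X, hXD⟩ htr hpO hgO

end W

end Pool.Agent.Helper16.C18.H
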