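import Pool.Agent.Helper64.C18.FIN

set_option autoImplicit false

/-! Project C18: from the statement over `ℂ(u)` to the big field. -/

namespace Pool.Agent.Helper16.C18.H

open Pool.Agent.Helper64.C18 MvPolynomial Module Matrix

section maps

variable {R S : Type} [CommRing R] [CommRing S] (f : R →+* S)

theorem skew_map (p u : Fin 4 → R) : skew (f ∘ p) (f ∘ u) = f (skew p u) := by
  have h3 : f 3 = 3 := map_ofNat f 3
  simp [skew, h3]

theorem hess_map (u : Fin 4 → R) (i : Fin 3) : hess (f ∘ u) i = f (hess u i) := by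
  fin_cases i <;> simp [hess]

theorem cov_map (u : Fin 4 → R) : cov (f ∘ u) = f ∘ cov u := by
  have h3 : f 3 = 3 := map_ofNat f 3
  have h2 : f 2 = 2 := map_ofNat f 2
  funext i
  fin_cases i <;> simp [cov, h2, h3]

theorem bin_map (p : Fin 4 → R) (x y : R) : bin (f ∘ p) (f x) (f y) = f (bin p x y) := by
  have h3 : f 3 = 3 := map_ofNat f 3
  simp [bin, h3]

theorem quart_map (p r : Fin 4 → R) (s : Fin 3 → R) (a : R) (u : Fin 4 → R) :
    quart (f ∘ p) (f ∘ r) (f ∘ s) (f a) (f ∘ u) = f (quart p r s a u) := by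
  simp only [quart, cov_map, skew_map, hess_map, map_add, map_mul, Function.comp]

end maps

section alg

variable {R S : Type} [CommRing R] [CommRing S] [Algebra ℂ R] [Algebra ℂ S] (f : R →ₐ[ℂ] S)

theorem toR_map (N : Matrix (Fin 3) (Fin 3) ℂ) : (toR R N).map f = toR S N := by
  ext i j
  simp [toR]

theorem cubF_map (M : Fin 3 → Matrix (Fin 3) (Fin 3) ℂ) (c c' : ℂ) (l l' : Fin 3 → Fin 3 → ℂ)
    (x y : Fin 3 → R) : cubF M c c' l l' (f ∘ x) (f ∘ y) = f (cubF M c c' l l' x y) := by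
  simp [cubF, rowsX, rowsY, Matrix.det_fin_three, toR, Matrix.vecMul, Matrix.mulVec, dotProduct,
    Fin.sum_univ_three]

end alg

/-- rational functions in four variables -/
abbrev Fld : Type := FractionRing (MvPolynomial (Fin 4) ℂ)

/-- the generic point of `ℂ ^ 4` -/
noncomputable def gpt : Fin 4 → Fld := fun i => algebraMap (MvPolynomial (Fin 4) ℂ) Fld (X i)

/-- the map `t = E1 × E2` -/
def tmap {R : Type} [CommRing R] [Algebra ℂ R] (p r : Fin 3 → Fin 4 → ℂ) (s : Fin 3 → Fin 3 → ℂ)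
    (κ α : Fin 3 → ℂ) (u : Fin 4 → R) : Fin 3 → R :=
  crossProduct
    (fun i => skew (fun j => algebraMap ℂ R (p i j)) u - algebraMap ℂ R (κ i))
    (fun i => quart (fun j => algebraMap ℂ R (p i j)) (fun j => algebraMap ℂ R (r i j))
      (fun j => algebraMap ℂ R (s i j)) (algebraMap ℂ R (α i)) u)

theorem main_over_Fld {F : MvPolynomial (Fin 6) ℂ} (hF : F.IsHomogeneous 3) (hs : Smooth F)
    {M : Fin 3 → Matrix (Fin 3) (Fin 3) ℂ}
    (hM : Irreducible (∑ i, (MvPolynomial.X i : MvPolynomial (Fin 3) ℂ) •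
      (M i).map (MvPolynomial.C : ℂ → MvPolynomial (Fin 3) ℂ)).det)
    {c c' : ℂ} {l l' : Fin 3 → Fin 3 → ℂ}
    (w : Basis (Fin 3 ⊕ Fin 3) ℂ (Fin 6 → ℂ))
    (h : ∀ x y : Fin 3 → ℂ, eval (∑ i, x i • w (.inl i) + ∑ i, y i • w (.inr i)) F =
      cubF M c c' l l' x y)
    (p r : Fin 3 → Fin 4 → ℂ) (s : Fin 3 → Fin 3 → ℂ) (κ α : Fin 3 → ℂ)
    {t : Fin 3 → Fld} (ht : t = tmap p r s κ α gpt)
    (h1 : AlgebraicIndependent ℂ ![t 1 / t 0, t 2 / t 0])
    (h2 : ∀ x y : Fld, bin (fun j => ∑ i, t i * algebraMap ℂ Fld (p i j)) x y = 0 →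
      x = 0 ∧ y = 0)
    (L : Type) [Field L] [Algebra ℂ L] [Algebra Fld L] [IsScalarTower ℂ Fld L]
    [FiniteDimensional Fld L] (hL : ¬ 3 ∣ Module.finrank Fld L)
    {x y : Fin 3 → L} {lam : L} (hlam : lam ≠ 0)
    (hxy : ∀ i, x ⬝ᵥ (toR L (M i) *ᵥ y) = lam * algebraMap Fld L (t i))
    (h0 : cubF M c c' l l' x y = 0) :
    (Ideal.span {dh F}).IsPrime ∧
      Nonempty (FractionRing (MvPolynomial (Fin 5) ℂ ⧸ Ideal.span {dh F}) ≃ₐ[ℂ]
        FractionRing (MvPolynomial (Fin 4) ℂ)) := by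
  classical
  have ht0 : t 0 ≠ 0 := by
    intro h0
    have := h1.ne_zero 0
    simp [h0] at this
  let A := AlgebraicClosure Fld
  have : CharZero A := charZero_of_injective_algebraMap (algebraMap ℂ A).injective
  let f : Fld →ₐ[ℂ] A := IsScalarTower.toAlgHom ℂ Fld A
  have hf : Function.Injective f := f.toRingHom.injective
  let u : Fin 4 → A := f ∘ gpt
  have hgpt : AlgebraicIndependent ℂ gpt := by
    have h3 : AlgebraicIndependent ℂ (X : Fin 4 → MvPolynomial (Fin 4) ℂ) :=
      MvPolynomial.algebraicIndependent_X (Fin 4) ℂ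
    exact h3.map' (f := IsScalarTower.toAlgHom ℂ (MvPolynomial (Fin 4) ℂ) Fld)
      (IsFractionRing.injective (MvPolynomial (Fin 4) ℂ) Fld)
  have hu : AlgebraicIndependent ℂ u := hgpt.map' hf
  let τ : Fin 2 → A := fun k => f (![t 1 / t 0, t 2 / t 0] k)
  have hτ : AlgebraicIndependent ℂ τ := h1.map' hf
  have hall : ∀ z : Fld, f z ∈ IntermediateField.adjoin ℂ (Set.range u) := by
    intro z
    obtain ⟨a, b, hb, rfl⟩ := IsFractionRing.div_surjective (A := MvPolynomial (Fin 4) ℂ) z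
    rw [map_div₀]
    have hpoly : ∀ a : MvPolynomial (Fin 4) ℂ,
        f (algebraMap _ Fld a) ∈ IntermediateField.adjoin ℂ (Set.range u) := by
      intro a
      have : f (algebraMap _ Fld a) = aeval u a := by
        have e : f.comp (IsScalarTower.toAlgHom ℂ (MvPolynomial (Fin 4) ℂ) Fld) = aeval u := by
          apply MvPolynomial.algHom_ext
          intro i
          simp [u, gpt]
        exact DFunLike.congr_fun e a
      rw [this]
      have h4 : aeval u a ∈ Algebra.adjoin ℂ (Set.range u) := by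
        rw [Algebra.adjoin_range_eq_range_aeval]
        exact ⟨a, rfl⟩
      exact IntermediateField.algebra_adjoin_le_adjoin ℂ _ h4
    exact div_mem (hpoly a) (hpoly b)
  have hsurj : ∀ z ∈ IntermediateField.adjoin ℂ (Set.range u), ∃ z', f z' = z := by
    intro z hz
    have h5 : IntermediateField.adjoin ℂ (Set.range u) ≤ f.fieldRange := by
      rw [IntermediateField.adjoin_le_iff]
      rintro _ ⟨i, rfl⟩
      exact ⟨gpt i, rfl⟩
    exact h5 hz
  -- orthogonality
  have hE1 : ∑ i, t i * (skew (fun j => algebraMap ℂ Fld (p i j)) gpt - algebraMap ℂ Fld (κ i))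
      = 0 := by
    rw [ht]
    simp only [tmap, cross_apply, Fin.sum_univ_three, Matrix.cons_val_zero, Matrix.cons_val_one,
      Matrix.cons_val]
    ring
  have hE2 : ∑ i, t i * (quart (fun j => algebraMap ℂ Fld (p i j))
      (fun j => algebraMap ℂ Fld (r i j)) (fun j => algebraMap ℂ Fld (s i j))
      (algebraMap ℂ Fld (α i)) gpt) = 0 := by
    rw [ht]
    simp only [tmap, cross_apply, Fin.sum_univ_three, Matrix.cons_val_zero, Matrix.cons_val_one,
      Matrix.cons_val]
    ring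
  -- the combination over `Fld`
  let σ : Fin 2 → Fld := ![t 1 / t 0, t 2 / t 0]
  let cb : ∀ {ι : Type} (_ : Fin 3 → ι → ℂ) (_ : ι), Fld := fun p j =>
    algebraMap ℂ Fld (p 0 j) + σ 0 * algebraMap ℂ Fld (p 1 j) + σ 1 * algebraMap ℂ Fld (p 2 j)
  have hcb : ∀ {ι : Type} (p : Fin 3 → ι → ℂ), comb τ p = f ∘ (cb p) := by
    intro ι p
    funext j
    simp [comb, cb, τ, σ]
  have e0 : σ 0 = t 1 / t 0 := rfl
  have e1 : σ 1 = t 2 / t 0 := rfl
  have g1 : skew (cb p) gpt = cb (fun i _ => κ i) () := by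
    have h6 : t 0 * (skew (cb p) gpt - cb (fun i _ => κ i) ()) = 0 := by
      rw [← hE1]
      simp only [cb, skew, Fin.sum_univ_three, e0, e1]
      field_simp
      ring
    rcases mul_eq_zero.1 h6 with h7 | h7
    · exact absurd h7 ht0
    · exact sub_eq_zero.1 h7
  have g2 : quart (cb p) (cb r) (cb s) (cb (fun i _ => α i) ()) gpt = 0 := by
    have h6 : t 0 * quart (cb p) (cb r) (cb s) (cb (fun i _ => α i) ()) gpt = 0 := by
      rw [← hE2]
      simp only [cb, quart, skew, Fin.sum_univ_three, e0, e1]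
      field_simp
      ring
    rcases mul_eq_zero.1 h6 with h7 | h7
    · exact absurd h7 ht0
    · exact h7
  -- the extension `L` inside `A`
  let g : L →ₐ[Fld] A := IsAlgClosed.lift
  let gC : L →ₐ[ℂ] A := g.restrictScalars ℂ
  have hg : Function.Injective g := g.toRingHom.injective
  set Om : Subfield A := (IntermediateField.adjoin ℂ (Set.range u)).toSubfield with hOm
  have hmemO : ∀ z : A, z ∈ Om ↔ ∃ z', f z' = z := fun z => ⟨fun hz => hsurj z hz, by
    rintro ⟨z', rfl⟩
    exact hall z'⟩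
  let LI : IntermediateField Om A :=
    Subfield.toIntermediateField g.toRingHom.fieldRange (by
      intro z
      obtain ⟨z', hz'⟩ := (hmemO z).1 z.2
      refine ⟨algebraMap Fld L z', ?_⟩
      change g (algebraMap Fld L z') = z
      rw [g.commutes]
      exact hz')
  let iO : Fld ≃+* Om := RingEquiv.ofBijective
    (f.toRingHom.codRestrict Om (fun z => hall z))
    ⟨fun a b hab => hf (congrArg Subtype.val hab), fun z => by
      obtain ⟨z', hz'⟩ := (hmemO z).1 z.2
      exact ⟨z', Subtype.ext hz'⟩⟩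
  let iL : L ≃+* LI := RingEquiv.ofBijective
    (g.toRingHom.codRestrict LI (fun z => ⟨z, rfl⟩))
    ⟨fun a b hab => hg (congrArg Subtype.val hab), fun z => by
      obtain ⟨z', hz'⟩ := z.2
      exact ⟨z', Subtype.ext hz'⟩⟩
  have hcomm : (algebraMap Om LI).comp (iO : Fld →+* Om) = (iL : L →+* LI).comp (algebraMap Fld L) := by
    apply RingHom.ext
    intro z
    apply Subtype.ext
    change f z = g (algebraMap Fld L z)
    rw [g.commutes]
    rfl
  have hfin : Module.finrank Fld L = Module.finrank Om LI :=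
    Algebra.finrank_eq_of_equiv_equiv iO iL hcomm
  have hLI : ¬ 3 ∣ Module.finrank Om LI := hfin ▸ hL
  have : FiniteDimensional Om LI := by
    apply FiniteDimensional.of_finrank_pos
    rw [← hfin]
    exact Module.finrank_pos
  have hgmem : ∀ z : L, g z ∈ LI := fun z => ⟨z, rfl⟩
  refine main_in_field hF hs hM w h p r s κ α hu hτ (fun k => hall _) ?_ ?_ ?_ hOm LI hLI
    (x := g ∘ x) (y := g ∘ y) (lam := g lam * f (t 0)) (fun k => hgmem _) (fun k => hgmem _)
    ?_ ?_ ?_
  · rw [hcb, hcb]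
    change skew (f.toRingHom ∘ cb p) (f.toRingHom ∘ gpt) = f.toRingHom _
    rw [skew_map, g1]
  · rw [hcb, hcb, hcb, hcb]
    change quart (f.toRingHom ∘ cb p) (f.toRingHom ∘ cb r) (f.toRingHom ∘ cb s)
      (f.toRingHom (cb (fun i _ => α i) ())) (f.toRingHom ∘ gpt) = 0
    rw [quart_map, g2, map_zero]
  · intro a ha b hb hab
    obtain ⟨a, rfl⟩ := hsurj a ha
    obtain ⟨b, rfl⟩ := hsurj b hb
    rw [hcb] at hab
    have h8 : f.toRingHom (bin (cb p) a b) = 0 := by
      rw [← bin_map]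
      exact hab
    have h9 : bin (cb p) a b = 0 := by
      apply f.toRingHom.injective
      rw [h8, map_zero]
    have h10 : bin (fun j => ∑ i, t i * algebraMap ℂ Fld (p i j)) a b = t 0 * bin (cb p) a b := by
      simp only [cb, bin, Fin.sum_univ_three, e0, e1]
      field_simp
    rw [h9, mul_zero] at h10
    obtain ⟨ha0, hb0⟩ := h2 a b h10
    rw [ha0, hb0]
    exact ⟨map_zero f, map_zero f⟩
  · exact mul_ne_zero ((map_ne_zero g).2 hlam) ((map_ne_zero f).2 ht0)
  · intro i
    have hgc : ∀ z : ℂ, g (algebraMap ℂ L z) = algebraMap ℂ A z := fun z => gC.commutes z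
    have h11 : (g ∘ x) ⬝ᵥ (toR A (M i) *ᵥ (g ∘ y)) = g (x ⬝ᵥ (toR L (M i) *ᵥ y)) := by
      simp [dotProduct, Matrix.mulVec, toR, Fin.sum_univ_three, hgc]
    rw [h11, hxy i, map_mul, g.commutes]
    change g lam * f (t i) = _
    have : f (t i) = f (t 0) * (![1, τ 0, τ 1] : Fin 3 → A) i := by
      fin_cases i
      · simp
      · change f (t 1) = f (t 0) * f (t 1 / t 0)
        rw [← map_mul, mul_div_cancel₀ _ ht0]
      · change f (t 2) = f (t 0) * f (t 2 / t 0)
        rw [← map_mul, mul_div_cancel₀ _ ht0]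
    rw [this]
    ring
  · change cubF M c c' l l' (gC ∘ x) (gC ∘ y) = 0
    rw [cubF_map, h0, map_zero]

end Pool.Agent.Helper16.C18.H
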