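import Pool.Agent.Helper64.C18.B3

set_option autoImplicit false

/-! Project C18: the link between cubes over two cubic fields (offers C18-LK, C18-TR) -/

namespace Pool.Agent.Helper16.C18.H

variable {A : Type*} [Field A] [CharZero A] {K E Om : Subfield A} {θ ϑ : Fin 3 → A}
  {Θ Θ' : Cube A}

/-- `Θ` over `K[θ]` and `Θ'` over `K[ϑ]` define the same cubic surface -/
def Linked (θ ϑ : Fin 3 → A) (Θ Θ' : Cube A) : Prop :=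
  ∀ p q r s : A, Θ.ev (cst p + cst r * θ) (cst q + cst s * θ) =
    Θ'.ev (cst p - cst q * ϑ) (cst r - cst s * ϑ)

/-! C18-LK -/

/-- existence of the linked cube.  The cubic form `F = Θ.ev (p + r θ) (q + s θ)` in `p, q, r, s` has
coefficients in `K`.  Put `e1 = T ϑ`, `e2 = T (sh ϑ)`, `e3 = N ϑ`.  For `b'` in `K[ϑ]` with moments
`m0 = T b'`, `m1 = T (b' ϑ)`, `m2 = T (b' ϑ ^ 2)`:
`T (b' * sh (p - q ϑ) * (r - s ϑ)) = m0 p² r + (m1 - e1 m0) p q r + (m2 - e1 m1 + e2 m0) q² r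
 - m1 p² s - (m2 - e1 m1) p q s - e3 m0 q² s`.
The part of `F` of degree 2 in `(p, q)` and 1 in `(r, s)` is
`k1 p² r + k2 p q r + k3 q² r + k4 p² s + k5 p q s + k6 q² s`, and as
`F (t0 (1, ·)...)` restricted to `(p, q) = α (t0, t1)`, `(r, s) = β (t0, t1)` is
`N (α + β θ) * ε ∏ (t0 - ϑ j t1)` (by `hg`), one gets `k1 = ε A21`, `k2 + k4 = -e1 k1`,
`k3 + k5 = e2 k1`, `k6 = -e3 k1`; so `m0 = k1`, `m1 = -k4`, `m2 = e1 m1 - k5` works.  In the same way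
for `a'` (degree 1 in `(p, q)`, 2 in `(r, s)`), and `d' = ε`, `c' = ε N θ`.
In terms of `Θ = (c, a, b, d)`: `hg` says `d = ε`, `T b = -ε e1`, `T a = ε e2`, `c = -ε e3`
(compare coefficients), and explicitly `k1 = d T θ`, ... (expand).  Existence of the elements with
given moments: `exists_moments`. -/
theorem exists_link (hθ : Fd K θ) (hϑ : Fd K ϑ) (hΘ : Θ.Over K θ) {ε : A} (hε : ε ∈ K)
    (hg : ∀ p q : A, Θ.ev (cst p) (cst q) = ε * N (cst p - cst q * ϑ)) :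
    ∃ Θ' : Cube A, Θ'.Over K ϑ ∧ Linked θ ϑ Θ Θ' := by
  have e1K := hϑ.cub.e1
  have e2K := hϑ.cub.e2
  have e3K := hϑ.cub.e3
  have g10 := hg 1 0
  have g01 := hg 0 1
  have g11 := hg 1 1
  have g1m := hg 1 (-1)
  have hsθ : Rat K θ (sh θ) := Rat.self.sh hθ.cub
  have hTθ : T θ ∈ K := hθ.cub.e1
  have hSθ : T (sh θ) ∈ K := hθ.cub.e2
  have hbθ : T (Θ.b * θ) ∈ K := (Rat.mul hθ.cub hΘ.hb Rat.self).T_mem hθ.cub
  have haθ : T (Θ.a * θ) ∈ K := (Rat.mul hθ.cub hΘ.ha Rat.self).T_mem hθ.cub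
  have hbs : T (Θ.b * sh θ) ∈ K := (Rat.mul hθ.cub hΘ.hb hsθ).T_mem hθ.cub
  have has : T (Θ.a * sh θ) ∈ K := (Rat.mul hθ.cub hΘ.ha hsθ).T_mem hθ.cub
  obtain ⟨b', hb', hm0, hm1, hm2⟩ := exists_moments hϑ.cub
    (m0 := ε * T θ) (m1 := -T (Θ.b * θ))
    (m2 := T (Θ.a * θ) - T ϑ * T (Θ.b * θ) - T (sh ϑ) * (ε * T θ))
    (K.mul_mem hε hTθ) (K.neg_mem hbθ)
    (K.sub_mem (K.sub_mem haθ (K.mul_mem e1K hbθ)) (K.mul_mem e2K (K.mul_mem hε hTθ)))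
  obtain ⟨a', ha', hn0, hn1, hn2⟩ := exists_moments hϑ.cub
    (m0 := ε * T (sh θ)) (m1 := -T (Θ.b * sh θ))
    (m2 := T (Θ.a * sh θ) - T ϑ * T (Θ.b * sh θ) - T (sh ϑ) * (ε * T (sh θ)))
    (K.mul_mem hε hSθ) (K.neg_mem hbs)
    (K.sub_mem (K.sub_mem has (K.mul_mem e1K hbs)) (K.mul_mem e2K (K.mul_mem hε hSθ)))
  refine ⟨⟨ε * N θ, a', b', ε⟩, ⟨K.mul_mem hε hθ.cub.e3, ha', hb', hε⟩, ?_⟩
  have hd : Θ.d = ε := by
    simp only [Cube.ev, N, T, sh, cst, Pi.mul_apply, Pi.sub_apply, Matrix.cons_val_zero,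
      Matrix.cons_val_one, Matrix.cons_val] at g10
    linear_combination g10
  have hc : Θ.c = -ε * N ϑ := by
    simp only [Cube.ev, N, T, sh, cst, Pi.mul_apply, Pi.sub_apply, Matrix.cons_val_zero,
      Matrix.cons_val_one, Matrix.cons_val] at g01 ⊢
    linear_combination g01
  have hTa : T Θ.a = ε * T (sh ϑ) := by
    simp only [Cube.ev, N, T, sh, cst, Pi.mul_apply, Pi.sub_apply, Matrix.cons_val_zero,
      Matrix.cons_val_one, Matrix.cons_val] at g11 g1m hd hc ⊢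
    linear_combination (1 / 2 : A) * g11 + (1 / 2 : A) * g1m - hd
  have hTb : T Θ.b = -ε * T ϑ := by
    simp only [Cube.ev, N, T, sh, cst, Pi.mul_apply, Pi.sub_apply, Matrix.cons_val_zero,
      Matrix.cons_val_one, Matrix.cons_val] at g11 g1m hd hc ⊢
    linear_combination (1 / 2 : A) * g11 - (1 / 2 : A) * g1m - hc
  intro p q r s
  have gpq := hg p q
  have grs := hg r s
  clear hg g10 g01 g11 g1m hbθ haθ hbs has hTθ hSθ hsθ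
  simp only [Cube.ev, N, T, sh, cst, Pi.mul_apply, Pi.add_apply, Pi.sub_apply, Pi.pow_apply,
    Matrix.cons_val_zero, Matrix.cons_val_one, Matrix.cons_val] at *
  linear_combination gpq + (θ 0 * θ 1 * θ 2) * grs
    + (p ^ 2 * r) * ((θ 0 + θ 1 + θ 2) * hd - hm0) + (p ^ 2 * s) * hm1
    + (p * q * r) * ((θ 0 + θ 1 + θ 2) * hTb + (ϑ 0 + ϑ 1 + ϑ 2) * hm0 - hm1)
    + (q ^ 2 * r) * (-hm2 + (ϑ 0 + ϑ 1 + ϑ 2) * hm1
      - (ϑ 1 * ϑ 2 + ϑ 2 * ϑ 0 + ϑ 0 * ϑ 1) * hm0)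
    + (p * q * s) * ((θ 0 + θ 1 + θ 2) * hTa + hm2 - (ϑ 0 + ϑ 1 + ϑ 2) * hm1)
    + (q ^ 2 * s) * ((θ 0 + θ 1 + θ 2) * hc + ϑ 0 * ϑ 1 * ϑ 2 * hm0)
    + (p * r ^ 2) * ((θ 1 * θ 2 + θ 2 * θ 0 + θ 0 * θ 1) * hd - hn0) + (q * r ^ 2) * hn1
    + (p * r * s) * ((θ 1 * θ 2 + θ 2 * θ 0 + θ 0 * θ 1) * hTb + (ϑ 0 + ϑ 1 + ϑ 2) * hn0 - hn1)
    + (p * s ^ 2) * (-hn2 + (ϑ 0 + ϑ 1 + ϑ 2) * hn1
      - (ϑ 1 * ϑ 2 + ϑ 2 * ϑ 0 + ϑ 0 * ϑ 1) * hn0)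
    + (q * r * s) * ((θ 1 * θ 2 + θ 2 * θ 0 + θ 0 * θ 1) * hTa + hn2
      - (ϑ 0 + ϑ 1 + ϑ 2) * hn1)
    + (q * s ^ 2) * ((θ 1 * θ 2 + θ 2 * θ 0 + θ 0 * θ 1) * hc + ϑ 0 * ϑ 1 * ϑ 2 * hn0)

end Pool.Agent.Helper16.C18.H
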