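import Pool.Agent.Helper64.C18.XF
import Pool.Agent.Helper64.C18.T1
import Pool.Agent.Helper64.C18.SM

set_option autoImplicit false

/-! Project C18: a generating point of the fibre has `det (rowsX M x) ≠ 0` (offer C18-ND) -/

/-!
Suppose `D(x) = det (rowsX M x) = 0`.  `x ≠ 0` (else `E ≤ K`, against `htr`).  Put `x = ρ x'` with `ρ = x j ≠ 0`,
`x' j = 1`.  `D(x') = 0` is a nontrivial algebraic relation over `ℂ` (`D` is a nonzero cubic form:
`hD`), so the two other coordinates of `x'` are algebraic over `ℂ(z)` for one of them (or any `z`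
if both are algebraic over `ℂ`); so `E = K(ρ, x')` is algebraic over `K(z, ρ)`, and by `htr` (`Tr2.not_one`,
`Tr2.indep`-type arguments) `z, ρ` are algebraically independent over `K`, so `ρ` is transcendental over
`K(x')`.  The equation of the point: `Θ.ev (hat μ (ρ x')) 1 = Θ.c + ρ T (Θ.a X') + ρ² T (Θ.b sh X') + ρ³ Θ.d N X'`
with `X' = hat μ x'` and coefficients in `K(x')`, up to the algebraic elements `θ j` (all of
`T (...)`, `N X'` are in `K(x')`), so `c = Θ.c = 0` and `lin l τ ⬝ᵥ x' = T (Θ.a X') = 0`.  As `τ 0, τ 1` are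
algebraically independent over `ℂ(z)` (`z` is transcendental over `K = ℂ(τ)`), also over `ℂ(x')`, and
`lin l τ ⬝ᵥ x' = l 0 · x' + τ 0 (l 1 · x') + τ 1 (l 2 · x')`, all `l i · x' = 0`.
Then `F` vanishes to order two at `(x', 0)`: `cubF (x' + s v) (s w) = 0 + O(s ^ 3) +
Σ i, (l i · (x' + s v) + s l' i · w) ((x' + s v) · M i (s w)) = O(s ^ 2)`; contradiction to `smooth_line`
through `transfer`.
-/

namespace Pool.Agent.Helper16.C18.H

open Pool.Agent.Helper64.C18 MvPolynomial Module Matrix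

variable {A : Type} [Field A] [CharZero A] [IsAlgClosed A] [Algebra ℂ A]
  {F : MvPolynomial (Fin 6) ℂ}
  {M : Fin 3 → Matrix (Fin 3) (Fin 3) ℂ} {c c' : ℂ} {l l' : Fin 3 → Fin 3 → ℂ}
  {τ : Fin 2 → A} {μ : Fin 3 → Fin 3 → A} {Θ : Cube A} {θ : Fin 3 → A}

/-- the relative algebraic closure of `ℂ(S)` -/
private noncomputable def ND_cl (S : Set A) : IntermediateField ℂ A :=
  Subalgebra.toIntermediateField
    ((Subalgebra.algebraicClosure (Algebra.adjoin ℂ S) A).restrictScalars ℂ)
    fun _ hx => IsAlgebraic.inv hx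

omit [CharZero A] [IsAlgClosed A] in
private theorem ND_sub {S : Set A} {a : A} (h : a ∈ S) : a ∈ ND_cl S :=
  isAlgebraic_algebraMap (A := A) (⟨a, Algebra.subset_adjoin h⟩ : Algebra.adjoin ℂ S)

omit [CharZero A] [IsAlgClosed A] in
private theorem ND_trans {S T : Set A} (h : ∀ s ∈ S, s ∈ ND_cl T) {a : A} (ha : a ∈ ND_cl S) :
    a ∈ ND_cl T :=
  IsAlgebraic.adjoin_of_forall_isAlgebraic (fun x hx => h x hx.1) ha

omit [CharZero A] [IsAlgClosed A] in
private theorem ND_mono {S T : Set A} (h : S ⊆ T) {a : A} (ha : a ∈ ND_cl S) : a ∈ ND_cl T :=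
  ND_trans (fun _ hs => ND_sub (h hs)) ha

omit [CharZero A] [IsAlgClosed A] in
private theorem ND_poly {S : Set A} {ρ : A} (hρ : ρ ∉ ND_cl S) {c0 c1 c2 c3 : A}
    (h0 : c0 ∈ ND_cl S) (h1 : c1 ∈ ND_cl S) (h2 : c2 ∈ ND_cl S) (h3 : c3 ∈ ND_cl S)
    (h : c0 + ρ * c1 + ρ ^ 2 * c2 + ρ ^ 3 * c3 = 0) : c0 = 0 ∧ c1 = 0 := by
  by_contra hcon
  apply hρ
  have hs : ∀ a ∈ ND_cl S, a ∈ Algebra.adjoin ℂ (ND_cl S : Set A) := fun a ha =>
    Algebra.subset_adjoin ha
  have key : IsAlgebraic (Algebra.adjoin ℂ (ND_cl S : Set A)) ρ := by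
    refine ⟨Polynomial.C ⟨c0, hs _ h0⟩ + Polynomial.C ⟨c1, hs _ h1⟩ * Polynomial.X +
      Polynomial.C ⟨c2, hs _ h2⟩ * Polynomial.X ^ 2 +
      Polynomial.C ⟨c3, hs _ h3⟩ * Polynomial.X ^ 3, ?_, ?_⟩
    · intro hp
      have e0 := congrArg (fun p => Polynomial.coeff p 0) hp
      have e1 := congrArg (fun p => Polynomial.coeff p 1) hp
      simp [Polynomial.coeff_X_pow, Polynomial.coeff_C, Polynomial.coeff_X] at e0 e1
      exact hcon ⟨congrArg Subtype.val e0, congrArg Subtype.val e1⟩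
    · simp only [map_add, map_mul, map_pow, Polynomial.aeval_C, Polynomial.aeval_X]
      change c0 + c1 * ρ + c2 * ρ ^ 2 + c3 * ρ ^ 3 = 0
      linear_combination h
  exact IsAlgebraic.adjoin_of_forall_isAlgebraic (fun x hx => hx.1) key

omit [CharZero A] [IsAlgClosed A] in
private theorem ND_const {S : Set A} {a : A} (h : IsAlgebraic ℂ a) : a ∈ ND_cl S :=
  h.extendScalars (FaithfulSMul.algebraMap_injective ℂ (Algebra.adjoin ℂ S))

omit [CharZero A] [IsAlgClosed A] in
/-- a dependent pair is algebraic over one element -/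
private theorem ND_pair {u : Fin 2 → A} (h : ¬ AlgebraicIndependent ℂ u) :
    ∃ z, ∀ i, u i ∈ ND_cl {z} := by
  by_cases h0 : IsAlgebraic ℂ (u 0)
  · refine ⟨u 1, fun i => ?_⟩
    fin_cases i
    · exact ND_const h0
    · exact ND_sub rfl
  · refine ⟨u 0, fun i => ?_⟩
    fin_cases i
    · exact ND_sub rfl
    · by_contra h1
      apply h
      rw [AlgebraicIndependent.iff_transcendental_adjoin_image 1]
      constructor
      · have hsub : Subsingleton {j : Fin 2 // j ≠ 1} := by
          constructor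
          rintro ⟨a, ha⟩ ⟨b, hb⟩
          apply Subtype.ext
          change a = b
          omega
        rw [algebraicIndependent_singleton_iff ⟨0, by decide⟩]
        exact h0
      · intro h2
        apply h1
        refine ND_mono (S := u '' {1}ᶜ) ?_ h2
        rintro _ ⟨a, ha, rfl⟩
        have ha' : a ≠ 1 := ha
        have : a = 0 := by omega
        rw [this]
        rfl

private theorem ND_rows {R S : Type} [CommRing R] [Algebra ℂ R] [CommRing S] [Algebra ℂ S]
    (M : Fin 3 → Matrix (Fin 3) (Fin 3) ℂ) (g : R →ₐ[ℂ] S) (x : Fin 3 → R) :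
    g (rowsX M x).det = (rowsX M (fun k => g (x k))).det := by
  rw [AlgHom.map_det]
  congr 1
  ext i j
  change g (∑ k, x k * algebraMap ℂ R (M i k j)) = ∑ k, g (x k) * algebraMap ℂ S (M i k j)
  rw [map_sum]
  refine Finset.sum_congr rfl fun k _ => ?_
  rw [map_mul, AlgHom.commutes]

omit [CharZero A] [IsAlgClosed A] in
private theorem ND_rows_smul (m : A) (x : Fin 3 → A) : (rowsX M (m • x)).det =
    m ^ 3 * (rowsX M x).det := by
  have h : rowsX M (m • x) = m • rowsX M x := by
    ext i j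
    change ((m • x) ᵥ* toR A (M i)) j = m * (x ᵥ* toR A (M i)) j
    rw [Matrix.smul_vecMul]
    rfl
  rw [h, Matrix.det_smul, Fintype.card_fin]

omit [IsAlgClosed A] in
/-- a nonzero cubic form does not vanish identically on the affine chart `x j = 1` -/
private theorem ND_chart (hD : ∃ x : Fin 3 → A, (rowsX M x).det ≠ 0) (j : Fin 3) :
    (rowsX M (j.insertNth 1 X : Fin 3 → MvPolynomial (Fin 2) ℂ)).det ≠ 0 := by
  obtain ⟨v, hv⟩ := hD
  intro h0
  -- the polynomial `D (v + s e_j)`
  set p : Polynomial A := (rowsX M (fun k => Polynomial.C (v k) +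
    if k = j then Polynomial.X else 0)).det with hp
  have hev : ∀ s : A, p.eval s = (rowsX M (fun k => v k + if k = j then s else 0)).det := by
    intro s
    have h1 := ND_rows M ((Polynomial.aeval (R := A) s).restrictScalars ℂ)
      (fun k => Polynomial.C (v k) + if k = j then Polynomial.X else 0)
    change p.eval s = _ at h1
    rw [h1]
    congr 2
    funext k
    change Polynomial.aeval s (_ + _) = _
    rw [map_add, Polynomial.aeval_C]
    congr 1
    split_ifs
    · rw [Polynomial.aeval_X]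
    · rw [map_zero]
  have hp0 : p ≠ 0 := by
    intro h1
    apply hv
    have h2 := hev 0
    rw [h1, Polynomial.eval_zero] at h2
    rw [h2]
    congr 2
    funext k
    simp
  have hq : p * (Polynomial.X + Polynomial.C (v j)) ≠ 0 :=
    mul_ne_zero hp0 (Polynomial.X_add_C_ne_zero _)
  apply hq
  apply Polynomial.funext
  intro s
  rw [Polynomial.eval_mul, Polynomial.eval_add, Polynomial.eval_X, Polynomial.eval_C,
    Polynomial.eval_zero]
  by_cases hs : s + v j = 0
  · rw [hs, mul_zero]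
  · rw [hev s]
    set u : Fin 3 → A := fun k => v k + if k = j then s else 0 with hu
    have huj : u j = s + v j := by
      rw [hu]
      simp [add_comm]
    have huj0 : u j ≠ 0 := by rw [huj]; exact hs
    have h1 := ND_rows M (aeval (fun k => (u j)⁻¹ * u (j.succAbove k)) :
      MvPolynomial (Fin 2) ℂ →ₐ[ℂ] A) (j.insertNth 1 X)
    rw [h0, map_zero] at h1
    have h2 : (fun k => (aeval (fun k => (u j)⁻¹ * u (j.succAbove k)) :
        MvPolynomial (Fin 2) ℂ →ₐ[ℂ] A) ((j.insertNth 1 X : Fin 3 → MvPolynomial (Fin 2) ℂ) k))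
        = (u j)⁻¹ • u := by
      funext k
      rw [Pi.smul_apply, smul_eq_mul]
      rcases Fin.eq_self_or_eq_succAbove j k with rfl | ⟨k, rfl⟩
      · rw [Fin.insertNth_apply_same, map_one, inv_mul_cancel₀ huj0]
      · rw [Fin.insertNth_apply_succAbove, aeval_X]
    rw [h2, ND_rows_smul] at h1
    have h3 := (mul_eq_zero.1 h1.symm).resolve_left (pow_ne_zero 3 (inv_ne_zero huj0))
    rw [h3, zero_mul]

theorem det_ne_of_gen (hF : F.IsHomogeneous 3) (hs : Smooth F)
    (w : Basis (Fin 3 ⊕ Fin 3) ℂ (Fin 6 → ℂ))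
    (h : ∀ x y : Fin 3 → ℂ, eval (∑ i, x i • w (.inl i) + ∑ i, y i • w (.inr i)) F =
      cubF M c c' l l' x y)
    (hτ : AlgebraicIndependent ℂ τ) {K E : Subfield A}
    (hK : K = (IntermediateField.adjoin ℂ (Set.range τ)).toSubfield) (hKE : K ≤ E)
    (hθ : Fd K θ) (hΘ : Θ.Over K θ)
    (hμ : ∀ L : Subfield A, K ≤ L → ∀ x : Fin 3 → A, Rat L θ (hat μ x) ↔ ∀ k, x k ∈ L)
    (hc : Θ.c = algebraMap ℂ A c)
    (ha : ∀ x : Fin 3 → A, T (Θ.a * hat μ x) = lin l τ ⬝ᵥ x)
    (hD : ∃ x : Fin 3 → A, (rowsX M x).det ≠ 0)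
    (htr : Tr2 K E) {x : Fin 3 → A} (hx : ∀ k, x k ∈ E) (h0 : Θ.ev (hat μ x) 1 = 0)
    (hg : ∀ L : Subfield A, K ≤ L → L ≤ E → (∀ k, x k ∈ L) → E ≤ L) :
    (rowsX M x).det ≠ 0 := by
  classical
  intro hdet
  -- closures
  have hKcl : ∀ S : Set A, Set.range τ ⊆ S → K ≤ (ND_cl S).toSubfield := by
    intro S hS
    rw [hK]
    have h1 : IntermediateField.adjoin ℂ (Set.range τ) ≤ ND_cl S :=
      IntermediateField.adjoin_le_iff.2 fun a ha => ND_sub (hS ha)
    exact fun a ha => h1 ha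
  have hEcl : ∀ S : Set A, Set.range τ ⊆ S → (∀ k, x k ∈ ND_cl S) →
      ∀ a ∈ E, a ∈ ND_cl S := by
    intro S hS hxS a ha
    have h1 := hg (E ⊓ (ND_cl S).toSubfield) (le_inf hKE (hKcl S hS)) inf_le_left
      (fun k => ⟨hx k, hxS k⟩)
    exact (h1 ha).2
  have hτK : ∀ i, τ i ∈ K := by
    intro i
    rw [hK]
    exact IntermediateField.subset_adjoin ℂ _ ⟨i, rfl⟩
  have hCK : ∀ z : ℂ, algebraMap ℂ A z ∈ K := by
    intro z
    rw [hK]
    exact (IntermediateField.adjoin ℂ (Set.range τ)).algebraMap_mem z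
  have key0 : ∀ a : A, ¬ ∀ e ∈ E, e ∈ ND_cl (Set.range τ ∪ {a}) := by
    intro a hall
    refine htr.not_one le_rfl (fun y hy => isAlgebraic_algebraMap (A := A) (⟨y, hy⟩ : K))
      (x0 := a) fun e he => ?_
    have h1 : IsAlgebraic (Algebra.adjoin ℂ (Set.range τ ∪ {a})) e := hall e he
    have hle : ∀ y : Algebra.adjoin ℂ (Set.range τ ∪ {a}),
        (Algebra.adjoin ℂ (Set.range τ ∪ {a})).val.toRingHom y ∈ ad K {a} := by
      rintro ⟨y, hy⟩
      change y ∈ ad K {a}
      induction hy using Algebra.adjoin_induction with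
      | mem y hy =>
        rcases hy with ⟨i, rfl⟩ | hy
        · exact le_ad K _ (hτK i)
        · exact mem_ad hy
      | algebraMap r => exact le_ad K _ (hCK r)
      | add y z _ _ hy hz => exact (ad K {a}).add_mem hy hz
      | mul y z _ _ hy hz => exact (ad K {a}).mul_mem hy hz
    let _ : Algebra (Algebra.adjoin ℂ (Set.range τ ∪ {a})) (ad K {a}) :=
      (RingHom.codRestrict (Algebra.adjoin ℂ (Set.range τ ∪ {a})).val.toRingHom
        (ad K {a}) hle).toAlgebra
    have _ : IsScalarTower (Algebra.adjoin ℂ (Set.range τ ∪ {a})) (ad K {a}) A :=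
      .of_algebraMap_eq fun _ => rfl
    refine h1.extendScalars ?_
    intro y y' hyz
    have h2 : ((algebraMap _ (ad K {a}) y : ad K {a}) : A) = (algebraMap _ (ad K {a}) y' : ad K {a}) :=
      congrArg Subtype.val hyz
    exact Subtype.ext h2
  -- `x ≠ 0`
  obtain ⟨j, hj⟩ : ∃ j, x j ≠ 0 := by
    by_contra hcon
    push Not at hcon
    refine key0 0 fun e he => ?_
    refine hEcl _ Set.subset_union_left (fun k => ?_) e he
    rw [hcon k]
    exact zero_mem _
  set ρ := x j with hρ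
  set x' : Fin 3 → A := ρ⁻¹ • x with hx'
  have hx'j : x' j = 1 := by
    rw [hx', Pi.smul_apply, smul_eq_mul, ← hρ, inv_mul_cancel₀ hj]
  have hxx' : x = ρ • x' := by
    rw [hx', smul_smul, mul_inv_cancel₀ hj, one_smul]
  have hdet' : (rowsX M x').det = 0 := by
    rw [hx', ND_rows_smul, hdet, mul_zero]
  -- the two other coordinates are dependent over `ℂ`
  have hdep : ¬ AlgebraicIndependent ℂ (fun k : Fin 2 => x' (j.succAbove k)) := by
    intro hind
    refine ND_chart hD j ((algebraicIndependent_iff.1 hind) _ ?_)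
    rw [ND_rows, ← hdet']
    congr 2
    funext k
    rcases Fin.eq_self_or_eq_succAbove j k with rfl | ⟨k, rfl⟩
    · rw [Fin.insertNth_apply_same, map_one, hx'j]
    · rw [Fin.insertNth_apply_succAbove, aeval_X]
  obtain ⟨z, hz⟩ := ND_pair hdep
  have hx'z : ∀ k, x' k ∈ ND_cl {z} := by
    intro k
    rcases Fin.eq_self_or_eq_succAbove j k with rfl | ⟨k, rfl⟩
    · rw [hx'j]
      exact one_mem _
    · exact hz k
  -- `ρ` is transcendental over `K(x')`
  have hρt : ρ ∉ ND_cl (Set.range τ ∪ {z}) := by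
    intro hcon
    refine key0 z fun e he => hEcl _ Set.subset_union_left (fun k => ?_) e he
    rw [hxx', Pi.smul_apply, smul_eq_mul]
    exact mul_mem hcon (ND_mono Set.subset_union_right (hx'z k))
  -- `z` is transcendental over `K`
  have hzt : z ∉ ND_cl (Set.range τ) := by
    intro hcon
    refine key0 ρ fun e he => hEcl _ Set.subset_union_left (fun k => ?_) e he
    rw [hxx', Pi.smul_apply, smul_eq_mul]
    refine mul_mem (ND_sub (Or.inr rfl)) (ND_trans ?_ (hx'z k))
    rintro s rfl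
    exact ND_mono Set.subset_union_left hcon
  have hind3 := (hτ.option_iff_transcendental z).2 hzt
  have hlin : ∀ α ∈ ND_cl {z}, ∀ β ∈ ND_cl {z}, ∀ γ ∈ ND_cl {z},
      α + τ 0 * β + τ 1 * γ = 0 → α = 0 ∧ β = 0 ∧ γ = 0 := by
    intro α hα β hβ γ hγ h1
    have hγ0 : γ = 0 := by
      by_contra hne
      have h2 := hind3.transcendental_adjoin (s := {none, some 0}) (i := some 1) (by simp)
      apply h2
      have h3 : τ 1 ∈ ND_cl {z, τ 0} := by
        have e : τ 1 = -(α + τ 0 * β) / γ := by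
          rw [eq_div_iff hne]
          linear_combination h1
        rw [e]
        have hm : ∀ a ∈ ND_cl {z}, a ∈ ND_cl {z, τ 0} := fun a ha => ND_mono (by simp) ha
        exact div_mem (neg_mem (add_mem (hm _ hα) (mul_mem (ND_sub (by simp)) (hm _ hβ))))
          (hm _ hγ)
      have h4 : ((fun o : Option (Fin 2) => o.elim z τ) '' {none, some 0}) = {z, τ 0} := by
        rw [Set.image_pair]
        rfl
      rw [h4]
      exact h3
    subst hγ0
    have hβ0 : β = 0 := by
      by_contra hne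
      have h2 := hind3.transcendental_adjoin (s := {none}) (i := some 0) (by simp)
      apply h2
      have h3 : τ 0 ∈ ND_cl {z} := by
        have e : τ 0 = -α / β := by
          rw [eq_div_iff hne]
          linear_combination h1
        rw [e]
        exact div_mem (neg_mem hα) hβ
      have h4 : ((fun o : Option (Fin 2) => o.elim z τ) '' {none}) = {z} := by
        rw [Set.image_singleton]
        rfl
      rw [h4]
      exact h3
    subst hβ0
    exact ⟨by linear_combination h1, rfl, rfl⟩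
  -- the equation of the point
  set L' : Subfield A := (ND_cl (Set.range τ ∪ {z})).toSubfield with hL'
  have hKL' : K ≤ L' := hKcl _ Set.subset_union_left
  have hx'L : ∀ k, x' k ∈ L' := fun k => ND_mono Set.subset_union_right (hx'z k)
  have hcub : Cub L' θ := hθ.cub.mono hKL'
  have hX : Rat L' θ (hat μ x') := (hμ L' hKL' x').2 hx'L
  have hhat : hat μ x = fun i => ρ * hat μ x' i := by
    funext i
    change ∑ k, x k * μ k i = ρ * ∑ k, x' k * μ k i
    rw [Finset.mul_sum]
    refine Finset.sum_congr rfl fun k _ => ?_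
    rw [hxx', Pi.smul_apply, smul_eq_mul, mul_assoc]
  have hev : Θ.c + ρ * T (Θ.a * hat μ x') + ρ ^ 2 * T (Θ.b * sh (hat μ x')) +
      ρ ^ 3 * (Θ.d * N (hat μ x')) = 0 := by
    have n1 : N (1 : Fin 3 → A) = 1 := by simp [N]
    have s1 : sh (1 : Fin 3 → A) = 1 := by
      ext i
      fin_cases i <;> simp [sh]
    rw [Cube.ev, n1, s1, hhat] at h0
    rw [← h0]
    simp only [T, N, sh, Pi.mul_apply, Pi.one_apply, Matrix.cons_val_zero, Matrix.cons_val_one,
      Matrix.cons_val]
    ring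
  obtain ⟨hc0, hl0⟩ := ND_poly hρt (hKL' hΘ.hc)
    ((Rat.mul hcub (hΘ.ha.mono hKL') hX).T_mem hcub)
    ((Rat.mul hcub (hΘ.hb.mono hKL') (hX.sh hcub)).T_mem hcub)
    (L'.mul_mem (hKL' hΘ.hd) (hX.N_mem hcub)) hev
  have hl : ∀ i, ∑ k, algebraMap ℂ A (l i k) * x' k = 0 := by
    have hm : ∀ i, ∑ k, algebraMap ℂ A (l i k) * x' k ∈ ND_cl {z} := fun i =>
      sum_mem fun k _ => mul_mem ((ND_cl {z}).algebraMap_mem _) (hx'z k)
    have e : (∑ k, algebraMap ℂ A (l 0 k) * x' k) + τ 0 * (∑ k, algebraMap ℂ A (l 1 k) * x' k) +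
        τ 1 * (∑ k, algebraMap ℂ A (l 2 k) * x' k) = 0 := by
      have e6 : T (Θ.a * hat μ x') = 0 := hl0
      rw [← e6, ha x']
      simp only [lin, dotProduct, Finset.mul_sum, ← Finset.sum_add_distrib]
      refine Finset.sum_congr rfl fun k _ => ?_
      ring
    obtain ⟨e0, e1, e2⟩ := hlin _ (hm 0) _ (hm 1) _ (hm 2) e
    intro i
    fin_cases i
    · exact e0
    · exact e1
    · exact e2
  rw [hc] at hc0
  -- contradiction to smoothness
  have hx'0 : x' ≠ 0 := by
    intro h1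
    rw [h1] at hx'j
    exact zero_ne_one hx'j
  clear_value x'
  refine smooth_line hF hs (z := ptw w x' 0) (fun h1 => hx'0 (ptw_ne w h1).1) fun v => ?_
  obtain ⟨a, b, rfl⟩ := ptw_surj w v
  refine ⟨Polynomial.C (∑ i, ((∑ k, algebraMap ℂ A (l i k) * a k) +
      ∑ k, algebraMap ℂ A (l' i k) * b k) * (x' ⬝ᵥ (toR A (M i) *ᵥ b))) +
    Polynomial.X * Polynomial.C (algebraMap ℂ A c' * (rowsY M b).det +
      ∑ i, ((∑ k, algebraMap ℂ A (l i k) * a k) + ∑ k, algebraMap ℂ A (l' i k) * b k) *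
        (a ⬝ᵥ (toR A (M i) *ᵥ b))), fun s => ?_⟩
  have hpt : ptw w x' 0 + s • ptw w a b = ptw w (x' + s • a) (s • b) := by
    funext m
    simp only [ptw, Pi.add_apply, Pi.smul_apply, smul_eq_mul, Pi.zero_apply, zero_mul,
      Finset.sum_const_zero, add_zero, add_mul, Finset.sum_add_distrib, mul_add, Finset.mul_sum,
      mul_assoc]
    ring
  have hY : (rowsY M (s • b)).det = s ^ 3 * (rowsY M b).det := by
    have h1 : rowsY M (s • b) = s • rowsY M b := by
      ext i k
      change (toR A (M i) *ᵥ (s • b)) k = s * (toR A (M i) *ᵥ b) k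
      rw [Matrix.mulVec_smul]
      rfl
    rw [h1, Matrix.det_smul, Fintype.card_fin]
  rw [hpt, transfer w h, cubF, hc0, zero_mul, zero_add, hY]
  simp only [Polynomial.eval_add, Polynomial.eval_mul, Polynomial.eval_C, Polynomial.eval_X]
  have h1 : ∀ i, (∑ k, algebraMap ℂ A (l i k) * (x' + s • a) k) +
      ∑ k, algebraMap ℂ A (l' i k) * (s • b) k
      = s * ((∑ k, algebraMap ℂ A (l i k) * a k) + ∑ k, algebraMap ℂ A (l' i k) * b k) := by
    intro i
    have e1 : ∑ k, algebraMap ℂ A (l i k) * (x' + s • a) k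
        = (∑ k, algebraMap ℂ A (l i k) * x' k) + s * ∑ k, algebraMap ℂ A (l i k) * a k := by
      rw [Finset.mul_sum, ← Finset.sum_add_distrib]
      refine Finset.sum_congr rfl fun k _ => ?_
      simp only [Pi.add_apply, Pi.smul_apply, smul_eq_mul]
      ring
    have e2 : ∑ k, algebraMap ℂ A (l' i k) * (s • b) k
        = s * ∑ k, algebraMap ℂ A (l' i k) * b k := by
      rw [Finset.mul_sum]
      refine Finset.sum_congr rfl fun k _ => ?_
      simp only [Pi.smul_apply, smul_eq_mul]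
      ring
    rw [e1, e2, hl i]
    ring
  have h2 : ∀ i, (x' + s • a) ⬝ᵥ (toR A (M i) *ᵥ (s • b))
      = s * (x' ⬝ᵥ (toR A (M i) *ᵥ b)) + s ^ 2 * (a ⬝ᵥ (toR A (M i) *ᵥ b)) := by
    intro i
    rw [Matrix.mulVec_smul, dotProduct_smul, add_dotProduct, smul_dotProduct]
    simp only [smul_eq_mul]
    ring
  rw [Finset.sum_congr rfl fun i _ => by rw [h1 i, h2 i]]
  simp only [Finset.mul_sum, ← Finset.sum_add_distrib, mul_add]
  simp only [Fin.sum_univ_three]
  ring

end Pool.Agent.Helper16.C18.H
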