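import Pool.Agent.Helper64.C18.FIN2

set_option autoImplicit false

namespace Pool.Agent.Helper64.C18.StatementDraft

open MvPolynomial Module Matrix

section Algebra

variable {R : Type} [CommRing R] [Algebra ℂ R]

/-- A complex tuple as a tuple in a `ℂ`-algebra. -/
def cst {ι : Type} (v : ι → ℂ) : ι → R := fun i => algebraMap ℂ R (v i)

/-- A complex matrix as a matrix over a `ℂ`-algebra. -/
def mat (N : Matrix (Fin 3) (Fin 3) ℂ) : Matrix (Fin 3) (Fin 3) R := N.map (algebraMap ℂ R)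

/-- The invariant skew form on binary cubics.  Here `u` stands for the binary cubic
`u 0 * X ^ 3 + 3 * u 1 * X ^ 2 * Y + 3 * u 2 * X * Y ^ 2 + u 3 * Y ^ 3`. -/
def skew (p u : Fin 4 → R) : R := p 0 * u 3 - 3 * p 1 * u 2 + 3 * p 2 * u 1 - p 3 * u 0

/-- The coefficients of the Hessian of the binary cubic `u`. -/
def hessian (u : Fin 4 → R) : Fin 3 → R :=
  ![u 0 * u 2 - u 1 ^ 2, u 0 * u 3 - u 1 * u 2, u 1 * u 3 - u 2 ^ 2]

/-- The cubic covariant of the binary cubic `u` (again a binary cubic). -/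
def covariant (u : Fin 4 → R) : Fin 4 → R :=
  ![u 0 ^ 2 * u 3 - 3 * u 0 * u 1 * u 2 + 2 * u 1 ^ 3,
    u 0 * u 1 * u 3 - 2 * u 0 * u 2 ^ 2 + u 1 ^ 2 * u 2,
    -(u 0 * u 2 * u 3 - 2 * u 1 ^ 2 * u 3 + u 1 * u 2 ^ 2),
    -(u 0 * u 3 ^ 2 - 3 * u 1 * u 2 * u 3 + 2 * u 2 ^ 3)]

/-- The value of the binary cubic `p` at `(x, y)`. -/
def value (p : Fin 4 → R) (x y : R) : R :=
  p 0 * x ^ 3 + 3 * p 1 * x ^ 2 * y + 3 * p 2 * x * y ^ 2 + p 3 * y ^ 3

/-- The cubic form
`F(x, y) = c det(xᵀ A i)_i + c' det(A i y)_i + Σ i, l i (x, y) (xᵀ A i y)`. -/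
def cubic (A : Fin 3 → Matrix (Fin 3) (Fin 3) ℂ) (c c' : ℂ) (l : Fin 3 → Fin 3 ⊕ Fin 3 → ℂ)
    (x y : Fin 3 → R) : R :=
  algebraMap ℂ R c * (Matrix.of fun i => x ᵥ* mat (A i)).det +
    algebraMap ℂ R c' * (Matrix.of fun i => mat (A i) *ᵥ y).det +
    ∑ i, (cst (l i) ⬝ᵥ Sum.elim x y) * (x ⬝ᵥ (mat (A i) *ᵥ y))

/-- Complex parameters of a fourfold `W`: for `i = 0, 1, 2` binary cubics `p i` and `r i`, a vector
`s i`, and numbers `k i` and `a i`. -/
structure Data where
  p : Fin 3 → Fin 4 → ℂ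
  r : Fin 3 → Fin 4 → ℂ
  s : Fin 3 → Fin 3 → ℂ
  k : Fin 3 → ℂ
  a : Fin 3 → ℂ

/-- The rational map `t` from the space of binary cubics `u` to the plane: `t` spans the orthogonal
complement of the two vectors of polynomials in `u`, so the closure `W` of its graph is given by
`Σ t i (skew (p i) u - k i) = 0` and
`Σ t i (a i + skew (r i) u + s i · hessian u + skew (p i) (covariant u)) = 0`. -/
def Data.t (D : Data) (u : Fin 4 → R) : Fin 3 → R :=
  crossProduct (fun i => skew (cst (D.p i)) u - algebraMap ℂ R (D.k i))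
    (fun i => algebraMap ℂ R (D.a i) + skew (cst (D.r i)) u + cst (D.s i) ⬝ᵥ hessian u +
      skew (cst (D.p i)) (covariant u))

end Algebra

/-- The field `ℂ(u 0, u 1, u 2, u 3)`. -/
abbrev K4 : Type := FractionRing (MvPolynomial (Fin 4) ℂ)

/-- The generic binary cubic. -/
noncomputable def generic : Fin 4 → K4 := fun i => algebraMap (MvPolynomial (Fin 4) ℂ) K4 (X i)

/-- The map `t` is dominant, and the binary cubic `Σ t i (p i)` is irreducible over
`ℂ(u 0, u 1, u 2, u 3)`. -/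
def Data.Nondegenerate (D : Data) : Prop :=
  AlgebraicIndependent ℂ ![D.t generic 1 / D.t generic 0, D.t generic 2 / D.t generic 0] ∧
    ∀ x y : K4, value (∑ i, D.t generic i • cst (D.p i)) x y = 0 → x = 0 ∧ y = 0

/-- Let `X = {F = 0}` be a smooth complex cubic fourfold which contains the elliptic scroll
`xᵀ A i y = 0` of a net of 3 x 3 matrices with irreducible determinant; the three quadrics
`xᵀ A i y` define the fibration of `X` in sextic del Pezzo surfaces over the plane.  Suppose that there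
is a rational map over the plane from one of the fourfolds `W` to `X`, or more generally from a
finite cover of `W` of degree prime to 3 (`L` is its function field, `(x : y)` the map and `m` the
factor between the two maps to the plane).  Then `X` is rational. -/
theorem result (F : MvPolynomial (Fin 6) ℂ) (hF : F.IsHomogeneous 3)
    (hs : ∀ x : Fin 6 → ℂ, x ≠ 0 → ∃ i, eval x (pderiv i F) ≠ 0)
    (A : Fin 3 → Matrix (Fin 3) (Fin 3) ℂ)
    (hA : Irreducible (∑ i, (X i : MvPolynomial (Fin 3) ℂ) •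
      (A i).map (C : ℂ → MvPolynomial (Fin 3) ℂ)).det)
    (c c' : ℂ) (l : Fin 3 → Fin 3 ⊕ Fin 3 → ℂ)
    (w : Basis (Fin 3 ⊕ Fin 3) ℂ (Fin 6 → ℂ))
    (hw : ∀ x y : Fin 3 → ℂ,
      eval (∑ i, x i • w (.inl i) + ∑ i, y i • w (.inr i)) F = cubic A c c' l x y)
    (D : Data) (hD : D.Nondegenerate)
    (L : Type) [Field L] [Algebra ℂ L] [Algebra K4 L] [IsScalarTower ℂ K4 L]
    [FiniteDimensional K4 L] (hL : ¬ 3 ∣ finrank K4 L)
    (x y : Fin 3 → L) (m : L) (hm : m ≠ 0)
    (hxy : ∀ i, x ⬝ᵥ (mat (A i) *ᵥ y) = m * algebraMap K4 L (D.t generic i))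
    (h0 : cubic A c c' l x y = 0) :
    (Ideal.span {aeval (Fin.cons 1 X : Fin 6 → MvPolynomial (Fin 5) ℂ) F}).IsPrime ∧
      Nonempty (FractionRing (MvPolynomial (Fin 5) ℂ ⧸
          Ideal.span {aeval (Fin.cons 1 X : Fin 6 → MvPolynomial (Fin 5) ℂ) F}) ≃ₐ[ℂ]
        FractionRing (MvPolynomial (Fin 4) ℂ)) := by
  have hcub : ∀ {R : Type} [CommRing R] [Algebra ℂ R] (x y : Fin 3 → R),
      Pool.Agent.Helper64.C18.cubF A c c' (fun i j => l i (.inl j)) (fun i j => l i (.inr j)) x y =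
        cubic A c c' l x y := by
    intro R _ _ x y
    simp only [Pool.Agent.Helper64.C18.cubF, cubic, Pool.Agent.Helper64.C18.rowsX, Pool.Agent.Helper64.C18.rowsY,
      Pool.Agent.Helper64.C18.toR, mat, cst, dotProduct, Fintype.sum_sum_type, Sum.elim_inl, Sum.elim_inr]
  refine Pool.Agent.Helper16.C18.H.main_over_Fld hF hs hA w (fun x y => (hw x y).trans (hcub x y).symm)
    D.p D.r D.s D.k D.a (t := D.t generic) ?_ hD.1 ?_ L hL hm hxy ((hcub x y).trans h0)
  · have e : ∀ (p q p' q' : Fin 3 → K4), p = p' → q = q' →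
        crossProduct p q = crossProduct p' q' := by
      rintro p q _ _ rfl rfl
      rfl
    refine e _ _ _ _ rfl ?_
    funext i
    simp only [Pool.Agent.Helper64.C18.quart, Pool.Agent.Helper64.C18.skew, skew, cst,
      dotProduct, Fin.sum_univ_three, hessian, covariant, Pool.Agent.Helper64.C18.hess, Pool.Agent.Helper64.C18.cov]
    simp only [Pool.Agent.Helper16.C18.H.gpt, generic]
    ring
  · intro a b hab
    refine hD.2 a b ?_
    rw [← hab]
    simp only [value, Pool.Agent.Helper64.C18.bin, cst, Finset.sum_apply, Pi.smul_apply, smul_eq_mul]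

end Pool.Agent.Helper64.C18.StatementDraft
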