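import Pool.Agent.Helper64.C18.T1

set_option autoImplicit false

/-! Project C18: extension of isomorphisms (offer C18-T3) -/

/-!
`σ` and `x ↦ y` induce an isomorphism of polynomial rings `C[x0, x1] ≅ C'[y0, y1]` inside `A`; extend
it to the fields of fractions (for example `IsFractionRing.lift` or `IsLocalization.lift`, with
`AlgebraicIndependent.aevalEquiv`, `MvPolynomial.mapEquiv`).
-/

namespace Pool.Agent.Helper16.C18.H

variable {A : Type*} [Field A] [CharZero A] {K C Om E : Subfield A}

/-- extension of an isomorphism of the base fields to purely transcendental extensions -/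
theorem exists_ext {C' : Subfield A} (σ : C ≃+* C') {x0 x1 y0 y1 : A}
    (hx : AlgebraicIndependent C ![x0, x1]) (hy : AlgebraicIndependent C' ![y0, y1]) :
    ∃ s : (ad C {x0, x1} : Subfield A) →+* A, (∀ (c : A) (hc : c ∈ C),
      s ⟨c, le_ad C _ hc⟩ = σ ⟨c, hc⟩) ∧ s ⟨x0, mem_ad (by simp)⟩ = y0 ∧
      s ⟨x1, mem_ad (by simp)⟩ = y1 := by
  classical
  let R := MvPolynomial (Fin 2) C
  let F := FractionRing R
  let ι : R →+* A := (MvPolynomial.aeval (R := C) ![x0, x1]).toRingHom
  have hι : Function.Injective ι := hx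
  let φ : R →+* A :=
    ((MvPolynomial.aeval (R := C') ![y0, y1]).toRingHom).comp (MvPolynomial.map (σ : C →+* C'))
  have hφ : Function.Injective φ := by
    have h1 : Function.Injective ((MvPolynomial.aeval (R := C') ![y0, y1]).toRingHom) := hy
    have h2 : Function.Injective (MvPolynomial.map (σ := Fin 2) (σ : C →+* C')) :=
      MvPolynomial.map_injective _ σ.injective
    exact h1.comp h2
  let ι' : F →+* A := IsFractionRing.lift hι
  let φ' : F →+* A := IsFractionRing.lift hφ
  have hι' : ∀ p : R, ι' (algebraMap R F p) = ι p := fun p => IsFractionRing.lift_algebraMap hι p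
  have hφ' : ∀ p : R, φ' (algebraMap R F p) = φ p := fun p => IsFractionRing.lift_algebraMap hφ p
  have hC : ∀ c : C, ι (MvPolynomial.C c) = c := by
    intro c
    change MvPolynomial.aeval (R := C) ![x0, x1] (MvPolynomial.C c) = _
    rw [MvPolynomial.aeval_C]
    rfl
  have hX : ∀ i : Fin 2, ι (MvPolynomial.X i) = ![x0, x1] i := by
    intro i
    change MvPolynomial.aeval (R := C) ![x0, x1] (MvPolynomial.X i) = _
    rw [MvPolynomial.aeval_X]
  have hC2 : ∀ c : C, φ (MvPolynomial.C c) = σ c := by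
    intro c
    change MvPolynomial.aeval (R := C') ![y0, y1] (MvPolynomial.map (σ : C →+* C')
      (MvPolynomial.C c)) = _
    rw [MvPolynomial.map_C, MvPolynomial.aeval_C]
    rfl
  have hX2 : ∀ i : Fin 2, φ (MvPolynomial.X i) = ![y0, y1] i := by
    intro i
    change MvPolynomial.aeval (R := C') ![y0, y1] (MvPolynomial.map (σ : C →+* C')
      (MvPolynomial.X i)) = _
    rw [MvPolynomial.map_X, MvPolynomial.aeval_X]
  have hle : ad C {x0, x1} ≤ ι'.fieldRange := by
    refine ad_le ?_ ?_
    · intro c hc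
      exact ⟨algebraMap R F (MvPolynomial.C ⟨c, hc⟩), by rw [hι', hC]⟩
    · intro x hx'
      rcases hx' with rfl | hx'
      · exact ⟨algebraMap R F (MvPolynomial.X 0), by rw [hι', hX]; rfl⟩
      · rw [Set.mem_singleton_iff] at hx'
        subst hx'
        exact ⟨algebraMap R F (MvPolynomial.X 1), by rw [hι', hX]; rfl⟩
  let e : F ≃+* ι'.fieldRange := RingEquiv.ofBijective ι'.rangeRestrictField
    ι'.rangeRestrictField_bijective
  have he : ∀ (p : F) (z : A) (hz : z ∈ ι'.fieldRange), ι' p = z → e.symm ⟨z, hz⟩ = p := by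
    intro p z hz h
    rw [RingEquiv.symm_apply_eq]
    exact Subtype.ext h.symm
  refine ⟨(φ'.comp (e.symm : ι'.fieldRange →+* F)).comp (Subfield.inclusion hle), ?_, ?_, ?_⟩
  · intro c hc
    change φ' (e.symm ⟨c, _⟩) = _
    rw [he (algebraMap R F (MvPolynomial.C ⟨c, hc⟩)) c _ (by rw [hι', hC]), hφ', hC2]
  · change φ' (e.symm ⟨x0, _⟩) = _
    rw [he (algebraMap R F (MvPolynomial.X 0)) x0 _ (by rw [hι', hX]; rfl), hφ', hX2]
    rfl
  · change φ' (e.symm ⟨x1, _⟩) = _
    rw [he (algebraMap R F (MvPolynomial.X 1)) x1 _ (by rw [hι', hX]; rfl), hφ', hX2]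
    rfl

end Pool.Agent.Helper16.C18.H
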