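import Mathlib

set_option autoImplicit false

/-! Project C18: binary cubics and the fourfolds `W`, the cubic forms `F`. -/

namespace Pool.Agent.Helper64.C18

variable {R : Type*} [CommRing R]

/-- The invariant skew form of two binary cubics
`u = u 0 * X ^ 3 + 3 * u 1 * X ^ 2 * Y + 3 * u 2 * X * Y ^ 2 + u 3 * Y ^ 3`. -/
def skew (p u : Fin 4 → R) : R := p 0 * u 3 - 3 * p 1 * u 2 + 3 * p 2 * u 1 - p 3 * u 0

/-- The coefficients of the Hessian of a binary cubic. -/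
def hess (u : Fin 4 → R) : Fin 3 → R :=
  ![u 0 * u 2 - u 1 ^ 2, u 0 * u 3 - u 1 * u 2, u 1 * u 3 - u 2 ^ 2]

/-- The cubic covariant of a binary cubic. -/
def cov (u : Fin 4 → R) : Fin 4 → R :=
  ![u 0 ^ 2 * u 3 - 3 * u 0 * u 1 * u 2 + 2 * u 1 ^ 3,
    u 0 * u 1 * u 3 - 2 * u 0 * u 2 ^ 2 + u 1 ^ 2 * u 2,
    -(u 0 * u 2 * u 3 - 2 * u 1 ^ 2 * u 3 + u 1 * u 2 ^ 2),
    -(u 0 * u 3 ^ 2 - 3 * u 1 * u 2 * u 3 + 2 * u 2 ^ 3)]

/-- value of a binary cubic -/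
def bin (p : Fin 4 → R) (x y : R) : R :=
  p 0 * x ^ 3 + 3 * p 1 * x ^ 2 * y + 3 * p 2 * x * y ^ 2 + p 3 * y ^ 3

/-- the second form of `W` -/
def quart (p r : Fin 4 → R) (s : Fin 3 → R) (a : R) (u : Fin 4 → R) : R :=
  a + skew r u + s 0 * hess u 0 + s 1 * hess u 1 + s 2 * hess u 2 + skew p (cov u)

end Pool.Agent.Helper64.C18
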