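import Mathlib

set_option autoImplicit false

/-! Project C18: the cubic forms of the family. -/

namespace Pool.Agent.Helper64.C18

open Matrix

variable {R : Type*} [CommRing R] [Algebra ℂ R]

/-- complex matrix over `R` -/
def toR (R : Type*) [CommRing R] [Algebra ℂ R] (N : Matrix (Fin 3) (Fin 3) ℂ) :
    Matrix (Fin 3) (Fin 3) R := N.map (algebraMap ℂ R)

/-- the matrix with rows `x ᵥ* M i` -/
def rowsX (M : Fin 3 → Matrix (Fin 3) (Fin 3) ℂ) (x : Fin 3 → R) : Matrix (Fin 3) (Fin 3) R :=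
  Matrix.of fun i => x ᵥ* toR R (M i)

/-- the matrix with rows `M i *ᵥ y` -/
def rowsY (M : Fin 3 → Matrix (Fin 3) (Fin 3) ℂ) (y : Fin 3 → R) : Matrix (Fin 3) (Fin 3) R :=
  Matrix.of fun i => toR R (M i) *ᵥ y

/-- `c det(xᵀ M i)_i + c' det(M i y)_i + Σ i, (l i · x + l' i · y) (xᵀ M i y)` -/
def cubF (M : Fin 3 → Matrix (Fin 3) (Fin 3) ℂ) (c c' : ℂ) (l l' : Fin 3 → Fin 3 → ℂ)
    (x y : Fin 3 → R) : R :=
  algebraMap ℂ R c * (rowsX M x).det + algebraMap ℂ R c' * (rowsY M y).det +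
    ∑ i, ((∑ j, algebraMap ℂ R (l i j) * x j) + ∑ j, algebraMap ℂ R (l' i j) * y j) *
      (x ⬝ᵥ (toR R (M i) *ᵥ y))

/-- `M (k + 1) - τ k M 0` -/
def pen (M : Fin 3 → Matrix (Fin 3) (Fin 3) ℂ) (τ : Fin 2 → R) (k : Fin 2) :
    Matrix (Fin 3) (Fin 3) R := toR R (M k.succ) - τ k • toR R (M 0)

/-- the quadratic map `x ↦ (xᵀ P) × (xᵀ Q)` -/
def phi (P Q : Matrix (Fin 3) (Fin 3) R) (x : Fin 3 → R) : Fin 3 → R :=
  crossProduct (x ᵥ* P) (x ᵥ* Q)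

/-- `t · l` for `t = (1, τ 0, τ 1)` -/
def lin (l : Fin 3 → Fin 3 → ℂ) (τ : Fin 2 → R) (j : Fin 3) : R :=
  algebraMap ℂ R (l 0 j) + τ 0 * algebraMap ℂ R (l 1 j) + τ 1 * algebraMap ℂ R (l 2 j)

end Pool.Agent.Helper64.C18
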