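import Pool.Agent.Helper64.C18.XS

set_option autoImplicit false

/-! Project C18: the cubic form on the fibre (offer C18-XF) -/

/-!
`t = (1, τ 0, τ 1)`, `D = det (rowsX M x)`.  `(rowsX M x) φ = D t` (`φ` is `adjugate (rowsX M x) t`), and
`det (rowsY M y) = (M 0 y) · (P y × Q y)` (row operations).
`cubF_phi`: so `F (x, φ) = D (c + l_t · x + l'_t · φ) + c' (M 0 φ) · (P φ × Q φ)` and
`c' (P φ × Q φ) = (Θ.d N X) x`, `x · M 0 φ = D`.
`x_point`: `y` and `φ x` are both orthogonal to `x P` and `x Q`, which are independent by `hL`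
(`a (x P) + b (x Q) = 0` means `x (a P + b Q) = 0`, `x ≠ 0` as `λ ≠ 0`); so `φ x ≠ 0`, `y = m (φ x)` with
`m ∈ L`, `λ = m D`.  Take `X = m x`: `φ X = m ^ 2 φ x = m y`, so `F (X, φ X) = m ^ 3 F (x, y) = 0` and
`D (X) = m ^ 3 D (x) ≠ 0`.
-/

namespace Pool.Agent.Helper16.C18.H

open Pool.Agent.Helper64.C18 Matrix

variable {A : Type*} [Field A] [CharZero A] [IsAlgClosed A] [Algebra ℂ A]
  {M : Fin 3 → Matrix (Fin 3) (Fin 3) ℂ} {c c' : ℂ} {l l' : Fin 3 → Fin 3 → ℂ}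
  {τ : Fin 2 → A} {μ : Fin 3 → Fin 3 → A} {Θ : Cube A}

omit [CharZero A] [IsAlgClosed A] [Algebra ℂ A] in
private theorem XF_cross (R : Matrix (Fin 3) (Fin 3) A) (s t : A) :
    R *ᵥ crossProduct (R 1 - s • R 0) (R 2 - t • R 0) = R.det • ![1, s, t] := by
  ext i
  rw [cross_apply]
  fin_cases i <;>
    simp [Matrix.mulVec, dotProduct, Fin.sum_univ_three, Matrix.det_fin_three] <;> ring

omit [CharZero A] [IsAlgClosed A] in
private theorem XF_vecMul (x : Fin 3 → A) (k : Fin 2) :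
    x ᵥ* pen M τ k = rowsX M x k.succ - τ k • rowsX M x 0 := by
  rw [pen, Matrix.vecMul_sub, Matrix.vecMul_smul]
  rfl

omit [CharZero A] [IsAlgClosed A] in
private theorem XF_phi (x : Fin 3 → A) : phi (pen M τ 0) (pen M τ 1) x =
    crossProduct (rowsX M x 1 - τ 0 • rowsX M x 0) (rowsX M x 2 - τ 1 • rowsX M x 0) := by
  rw [phi, XF_vecMul, XF_vecMul]
  rfl

omit [CharZero A] [IsAlgClosed A] in
private theorem XF_dot (x y : Fin 3 → A) (i : Fin 3) :
    x ⬝ᵥ (toR A (M i) *ᵥ y) = (rowsX M x *ᵥ y) i := by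
  rw [Matrix.dotProduct_mulVec]
  rfl

theorem rowsX_phi (x : Fin 3 → A) :
    rowsX M x *ᵥ phi (pen M τ 0) (pen M τ 1) x = (rowsX M x).det • ![1, τ 0, τ 1] := by
  rw [XF_phi]
  exact XF_cross _ _ _

omit [CharZero A] [IsAlgClosed A] in
private theorem XF_detY (y : Fin 3 → A) : (rowsY M y).det =
    (toR A (M 0) *ᵥ y) ⬝ᵥ crossProduct (pen M τ 0 *ᵥ y) (pen M τ 1 *ᵥ y) := by
  have h0 : pen M τ 0 *ᵥ y = rowsY M y 1 - τ 0 • rowsY M y 0 := by
    rw [pen, Matrix.sub_mulVec, Matrix.smul_mulVec]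
    rfl
  have h1 : pen M τ 1 *ᵥ y = rowsY M y 2 - τ 1 • rowsY M y 0 := by
    rw [pen, Matrix.sub_mulVec, Matrix.smul_mulVec]
    rfl
  have h2 : toR A (M 0) *ᵥ y = rowsY M y 0 := rfl
  rw [h0, h1, h2, cross_apply]
  simp [dotProduct, Fin.sum_univ_three, Matrix.det_fin_three]
  ring

theorem cubF_phi (hc : Θ.c = algebraMap ℂ A c)
    (ha : ∀ x : Fin 3 → A, T (Θ.a * hat μ x) = lin l τ ⬝ᵥ x)
    (hb : ∀ x : Fin 3 → A, T (Θ.b * sh (hat μ x)) = lin l' τ ⬝ᵥ phi (pen M τ 0) (pen M τ 1) x)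
    (hd : ∀ x : Fin 3 → A, algebraMap ℂ A c' • crossProduct
        (pen M τ 0 *ᵥ phi (pen M τ 0) (pen M τ 1) x) (pen M τ 1 *ᵥ phi (pen M τ 0) (pen M τ 1) x) =
      (Θ.d * N (hat μ x)) • x) (x : Fin 3 → A) :
    cubF M c c' l l' x (phi (pen M τ 0) (pen M τ 1) x) =
      (rowsX M x).det * Θ.ev (hat μ x) 1 := by
  set P := pen M τ 0 with hP
  set Q := pen M τ 1 with hQ
  set φ := phi P Q x with hφ
  set D := (rowsX M x).det with hD
  have e0 : ∀ i, x ⬝ᵥ (toR A (M i) *ᵥ φ) = D * (![1, τ 0, τ 1] : Fin 3 → A) i := by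
    intro i
    rw [XF_dot, hφ, hP, hQ, rowsX_phi]
    rfl
  have e1 : algebraMap ℂ A c' * (rowsY M φ).det = Θ.d * N (hat μ x) * D := by
    have h1 := congrArg (fun w => (toR A (M 0) *ᵥ φ) ⬝ᵥ w) (hd x)
    simp only [dotProduct_smul, smul_eq_mul] at h1
    rw [XF_detY (τ := τ) φ, ← hP, ← hQ, h1, dotProduct_comm, e0 0]
    simp
  have e2 := ha x
  have e3 := hb x
  rw [← hφ] at e3
  rw [cubF, e1, Fin.sum_univ_three, e0 0, e0 1, e0 2, ← hD, ← hc]
  have e4 : Θ.ev (hat μ x) 1 = Θ.c + T (Θ.a * hat μ x) + T (Θ.b * sh (hat μ x)) +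
      Θ.d * N (hat μ x) := by
    have n1 : N (1 : Fin 3 → A) = 1 := by simp [N]
    have s1 : sh (1 : Fin 3 → A) = 1 := by
      ext i
      fin_cases i <;> simp [sh]
    rw [Cube.ev, n1, s1, mul_one, mul_one, mul_one]
  rw [e4, e2, e3]
  simp only [lin, dotProduct, Fin.sum_univ_three, Matrix.cons_val_zero, Matrix.cons_val_one,
    Matrix.cons_val]
  ring

omit [CharZero A] [IsAlgClosed A] in
private theorem XF_rows_smul (m : A) (x : Fin 3 → A) : rowsX M (m • x) = m • rowsX M x := by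
  ext i j
  change ((m • x) ᵥ* toR A (M i)) j = m * (x ᵥ* toR A (M i)) j
  rw [Matrix.smul_vecMul]
  rfl

omit [CharZero A] [IsAlgClosed A] in
private theorem XF_rowsY_smul (m : A) (x : Fin 3 → A) : rowsY M (m • x) = m • rowsY M x := by
  ext i j
  change (toR A (M i) *ᵥ (m • x)) j = m * (toR A (M i) *ᵥ x) j
  rw [Matrix.mulVec_smul]
  rfl

omit [CharZero A] [IsAlgClosed A] in
private theorem XF_cubF_smul (m : A) (x y : Fin 3 → A) :
    cubF M c c' l l' (m • x) (m • y) = m ^ 3 * cubF M c c' l l' x y := by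
  have h1 : ∀ i, (m • x) ⬝ᵥ (toR A (M i) *ᵥ (m • y)) = m ^ 2 * (x ⬝ᵥ (toR A (M i) *ᵥ y)) := by
    intro i
    rw [Matrix.mulVec_smul, smul_dotProduct, dotProduct_smul, smul_eq_mul, smul_eq_mul]
    ring
  simp only [cubF, XF_rows_smul, XF_rowsY_smul, Matrix.det_smul, Fintype.card_fin, h1,
    Fin.sum_univ_three, Pi.smul_apply, smul_eq_mul]
  ring

theorem x_point (hF : ∀ x : Fin 3 → A, cubF M c c' l l' x (phi (pen M τ 0) (pen M τ 1) x) =
      (rowsX M x).det * Θ.ev (hat μ x) 1) (L : Subfield A) (hC : ∀ z : ℂ, algebraMap ℂ A z ∈ L)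
    (hτ : ∀ k, τ k ∈ L)
    (hL : ∀ a ∈ L, ∀ b ∈ L, (a • pen M τ 0 + b • pen M τ 1).det = 0 → a = 0 ∧ b = 0)
    {x y : Fin 3 → A} {lam : A} (hx : ∀ k, x k ∈ L) (hy : ∀ k, y k ∈ L) (hlam : lam ≠ 0)
    (hxy : ∀ i, x ⬝ᵥ (toR A (M i) *ᵥ y) = lam * (![1, τ 0, τ 1] : Fin 3 → A) i)
    (h0 : cubF M c c' l l' x y = 0) :
    ∃ X : Fin 3 → A, (∀ k, X k ∈ L) ∧ (rowsX M X).det ≠ 0 ∧ Θ.ev (hat μ X) 1 = 0 := by
  set u := x ᵥ* pen M τ 0 with hu
  set v := x ᵥ* pen M τ 1 with hv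
  set w := crossProduct u v with hw
  have hMi : ∀ i j k, toR A (M i) j k ∈ L := fun i j k => hC _
  have hpen : ∀ k i j, pen M τ k i j ∈ L := fun k i j =>
    L.sub_mem (hMi _ _ _) (L.mul_mem (hτ k) (hMi _ _ _))
  have huL : ∀ k, u k ∈ L := by
    intro k
    change ∑ i, x i * pen M τ 0 i k ∈ L
    exact L.sum_mem fun i _ => L.mul_mem (hx i) (hpen _ _ _)
  have hvL : ∀ k, v k ∈ L := by
    intro k
    change ∑ i, x i * pen M τ 1 i k ∈ L
    exact L.sum_mem fun i _ => L.mul_mem (hx i) (hpen _ _ _)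
  have hx0 : x ≠ 0 := by
    intro h
    have h1 := hxy 0
    rw [h, zero_dotProduct] at h1
    simp at h1
    exact hlam h1.symm
  have key : ∀ a ∈ L, ∀ b ∈ L, a • u + b • v = 0 → a = 0 ∧ b = 0 := by
    intro a ha b hb hab
    refine hL a ha b hb (Matrix.exists_vecMul_eq_zero_iff.1 ⟨x, hx0, ?_⟩)
    rw [Matrix.vecMul_add, Matrix.vecMul_smul, Matrix.vecMul_smul]
    exact hab
  have hw0 : w ≠ 0 := by
    intro h
    rw [hw, cross_apply] at h
    have c0 : u 1 * v 2 - u 2 * v 1 = 0 := congrFun h 0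
    have c1 : u 2 * v 0 - u 0 * v 2 = 0 := congrFun h 1
    have c2 : u 0 * v 1 - u 1 * v 0 = 0 := congrFun h 2
    have h1 : ∀ k, u k = 0 := by
      intro k
      refine neg_eq_zero.1 (key (v k) (hvL k) (-u k) (L.neg_mem (huL k)) ?_).2
      ext i
      simp only [Pi.add_apply, Pi.smul_apply, smul_eq_mul, Pi.zero_apply]
      fin_cases k <;> fin_cases i <;> simp only [Fin.zero_eta, Fin.mk_one, Fin.reduceFinMk]
      · ring
      · linear_combination -c2
      · linear_combination c1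
      · linear_combination c2
      · ring
      · linear_combination -c0
      · linear_combination -c1
      · linear_combination c0
      · ring
    refine one_ne_zero (key 1 L.one_mem 0 L.zero_mem ?_).1
    ext i
    simp [h1 i]
  have huy : u ⬝ᵥ y = 0 := by
    rw [hu, XF_vecMul, sub_dotProduct, smul_dotProduct]
    have h0 := hxy 0
    have h1 := hxy 1
    rw [XF_dot] at h0 h1
    change (rowsX M x *ᵥ y) 1 - τ 0 • (rowsX M x *ᵥ y) 0 = 0
    rw [h0, h1]
    simp [mul_comm]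
  have hvy : v ⬝ᵥ y = 0 := by
    rw [hv, XF_vecMul, sub_dotProduct, smul_dotProduct]
    have h0 := hxy 0
    have h1 := hxy 2
    rw [XF_dot] at h0 h1
    change (rowsX M x *ᵥ y) 2 - τ 1 • (rowsX M x *ᵥ y) 0 = 0
    rw [h0, h1]
    simp [mul_comm]
  have hwL : ∀ k, w k ∈ L := by
    intro k
    rw [hw, cross_apply]
    fin_cases k
    · exact L.sub_mem (L.mul_mem (huL _) (hvL _)) (L.mul_mem (huL _) (hvL _))
    · exact L.sub_mem (L.mul_mem (huL _) (hvL _)) (L.mul_mem (huL _) (hvL _))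
    · exact L.sub_mem (L.mul_mem (huL _) (hvL _)) (L.mul_mem (huL _) (hvL _))
  have hwy : ∀ i j, w i * y j = w j * y i := by
    simp only [dotProduct, Fin.sum_univ_three] at huy hvy
    have w0 : w 0 = u 1 * v 2 - u 2 * v 1 := by rw [hw, cross_apply]; rfl
    have w1 : w 1 = u 2 * v 0 - u 0 * v 2 := by rw [hw, cross_apply]; rfl
    have w2 : w 2 = u 0 * v 1 - u 1 * v 0 := by rw [hw, cross_apply]; rfl
    intro i j
    fin_cases i <;> fin_cases j <;>
      simp only [Fin.zero_eta, Fin.mk_one, Fin.reduceFinMk, w0, w1, w2]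
    · linear_combination v 2 * huy - u 2 * hvy
    · linear_combination -v 1 * huy + u 1 * hvy
    · linear_combination -v 2 * huy + u 2 * hvy
    · linear_combination v 0 * huy - u 0 * hvy
    · linear_combination v 1 * huy - u 1 * hvy
    · linear_combination -v 0 * huy + u 0 * hvy
  obtain ⟨k, hk⟩ := Function.ne_iff.1 hw0
  rw [Pi.zero_apply] at hk
  set m := y k / w k with hm
  have hym : y = m • w := by
    ext i
    rw [Pi.smul_apply, smul_eq_mul, hm, div_mul_eq_mul_div, eq_div_iff hk]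
    linear_combination hwy k i
  have hmL : m ∈ L := L.div_mem (hy k) (hwL k)
  have hφ : phi (pen M τ 0) (pen M τ 1) x = w := rfl
  have hD : lam = m * (rowsX M x).det := by
    have h1 := hxy 0
    rw [XF_dot, hym, Matrix.mulVec_smul, ← hφ, rowsX_phi] at h1
    simp at h1
    exact h1.symm
  have hm0 : m ≠ 0 := by
    intro h
    rw [h, zero_mul] at hD
    exact hlam hD
  have hD0 : (rowsX M x).det ≠ 0 := by
    intro h
    rw [h, mul_zero] at hD
    exact hlam hD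
  have hdet : (rowsX M (m • x)).det = m ^ 3 * (rowsX M x).det := by
    rw [XF_rows_smul, Matrix.det_smul, Fintype.card_fin]
  have hdet0 : (rowsX M (m • x)).det ≠ 0 := by
    rw [hdet]
    exact mul_ne_zero (pow_ne_zero _ hm0) hD0
  refine ⟨m • x, fun j => L.mul_mem hmL (hx j), hdet0, ?_⟩
  have hφm : phi (pen M τ 0) (pen M τ 1) (m • x) = m • y := by
    rw [phi, Matrix.smul_vecMul, Matrix.smul_vecMul, hym, ← hu, ← hv, hw]
    simp [smul_smul]
  have h1 := hF (m • x)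
  rw [hφm, XF_cubF_smul, h0, mul_zero] at h1
  exact (mul_eq_zero.1 h1.symm).resolve_left hdet0

end Pool.Agent.Helper16.C18.H
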