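import Pool.Agent.Helper64.C18.B3
import Pool.Agent.Helper64.C18.XDef

set_option autoImplicit false

/-! Project C18: the fibres of `X` are twisted cubes (offer C18-XS) -/

/-!
`det P ≠ 0`.  `det (ν P - Q) = det P ∏ (ν - θ j)`, cubic polynomial over `K` without root in `K`
(`hirr`), so `Fd K θ` (distinct roots: irreducible, characteristic zero).
Eigenvectors: `v j := (adjugate (θ j P - Q)) e_m` (column `m`), so `(θ j P - Q) v j = 0`; the entries of
`v` are `Rat K θ` (polynomials of degree `≤ 2` in `θ j` over `K`); for a suitable `m` the vector is not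
zero for one `j`, so for all `j` (`Fd.ne`): if all three columns vanish then the adjugate of
`θ 0 P - Q` is zero and `θ 0` is a double root (derivative of the determinant is the trace of
`adjugate * P`).  `v 0, v 1, v 2` are independent (eigenvectors of `P⁻¹ Q` for distinct eigenvalues);
`V` the matrix with columns `v j`, `det V ≠ 0`, and `det V = (element of K) * ∏ (θ i - θ j)`.
`μ k := (P v)_k`, i.e. `μ k j = Σ_m P k m (v j)_m`; so `X j = Σ_k x_k μ k j = x · P v j`, and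
`x · Q v j = θ j X j`.  `μ` is a `K`-basis of `K[θ]` (`P` invertible, `v j` independent).
`T (a X) = l · x`: `exists_moments`-type dual basis argument (any `K`-linear form on `K[θ]` is
`T (a ·)`), or solve `Σ_j a_j μ k j = l k` over `A` (unique) and show `Rat K θ a` by `Rat.of_traces`.
`φ x = (x P) × (x Q)`: `w · φ x = det (w, x P, x Q)`, multiply by `det V`:
`det V * (w · φ x) = Σ_j (w · v j) (θ l - θ k) X k X l` for `(j, k, l)` cyclic, so
`b j = (l' · v j) (θ l - θ k) / det V`; `Rat K θ b` since `(θ l - θ k) / det V = ± (1 / Dt θ j) / (element of K)`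
or by the argument of `Cube.over_of_ev` (its values `T (b sh X) = l' · φ x` are in `K`).
`φ x = Σ_j v j η j`, `η j = (θ l - θ k) X k X l / det V`; `P φ = Σ η j P v j`, `Q φ = Σ θ j η j P v j`;
`P v k × P v l = det (P V) * (dual basis vector)` and `x = Σ_j X j (P v k × P v l) / det (P V)`, so
`P φ × Q φ = (det P ∏ (differences of the θ) * N X / det V) x` up to sign:
`Θ.d = d * (that constant)`, in `K` for the same reason.
-/

namespace Pool.Agent.Helper16.C18.H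

open Pool.Agent.Helper64.C18 Matrix

section gen

variable {R : Type*} [CommRing R]

private def XS_e2 (M : Matrix (Fin 3) (Fin 3) R) : R :=
  M 0 0 * M 1 1 - M 0 1 * M 1 0 + (M 0 0 * M 2 2 - M 0 2 * M 2 0) +
    (M 1 1 * M 2 2 - M 1 2 * M 2 1)

private theorem XS_cross (B : Matrix (Fin 3) (Fin 3) R) (u w : Fin 3 → R) :
    B *ᵥ crossProduct (u ᵥ* B) (w ᵥ* B) = B.det • crossProduct u w := by
  ext i
  fin_cases i <;>
    simp [Matrix.mulVec, Matrix.vecMul, dotProduct, Fin.sum_univ_three, cross_apply,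
      Matrix.det_fin_three] <;> ring

private theorem XS_triple (a b c : Fin 3 → R) :
    crossProduct (crossProduct a b) c = (a ⬝ᵥ c) • b - (b ⬝ᵥ c) • a := by
  ext i
  fin_cases i <;> simp [cross_apply, dotProduct, Fin.sum_univ_three] <;> ring

private theorem XS_vm (z r0 r1 r2 : Fin 3 → R) :
    z ᵥ* (Matrix.of ![r0, r1, r2] : Matrix (Fin 3) (Fin 3) R) =
      z 0 • r0 + z 1 • r1 + z 2 • r2 := by
  funext j
  simp [Matrix.vecMul, dotProduct, Fin.sum_univ_three]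

private theorem XS_CH (M : Matrix (Fin 3) (Fin 3) R) :
    M * M * M = (M 0 0 + M 1 1 + M 2 2) • (M * M) - XS_e2 M • M +
      M.det • (1 : Matrix (Fin 3) (Fin 3) R) := by
  ext i j
  fin_cases i <;> fin_cases j <;>
    simp [Matrix.mul_apply, Fin.sum_univ_three, XS_e2, Matrix.det_fin_three] <;> ring

private theorem XS_det (M : Matrix (Fin 3) (Fin 3) R) (a b : R) :
    (a • (1 : Matrix (Fin 3) (Fin 3) R) + b • M).det =
      a ^ 3 + a ^ 2 * b * (M 0 0 + M 1 1 + M 2 2) + a * b ^ 2 * XS_e2 M + b ^ 3 * M.det := by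
  simp [XS_e2, Matrix.det_fin_three]
  ring

end gen

section alg

variable {A : Type*} [Field A] [CharZero A] [IsAlgClosed A]

omit [CharZero A] in
private theorem XS_roots (e1 e2 e3 : A) : ∃ θ : Fin 3 → A, T θ = e1 ∧ T (sh θ) = e2 ∧ N θ = e3 := by
  obtain ⟨r, hr⟩ := IsAlgClosed.exists_root
    (Polynomial.X ^ 3 - Polynomial.C e1 * Polynomial.X ^ 2 + Polynomial.C e2 * Polynomial.X -
      Polynomial.C e3) (by
      have : (Polynomial.X ^ 3 - Polynomial.C e1 * Polynomial.X ^ 2 +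
        Polynomial.C e2 * Polynomial.X - Polynomial.C e3).degree = 3 := by compute_degree!
      rw [this]; decide)
  obtain ⟨s, hs⟩ := IsAlgClosed.exists_root
    (Polynomial.X ^ 2 - Polynomial.C (e1 - r) * Polynomial.X +
      Polynomial.C (e2 - r * (e1 - r))) (by
      have : (Polynomial.X ^ 2 - Polynomial.C (e1 - r) * Polynomial.X +
        Polynomial.C (e2 - r * (e1 - r))).degree = 2 := by compute_degree!
      rw [this]; decide)
  simp only [Polynomial.IsRoot.def, Polynomial.eval_add, Polynomial.eval_sub,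
    Polynomial.eval_mul, Polynomial.eval_pow, Polynomial.eval_X, Polynomial.eval_C] at hr hs
  refine ⟨![r, s, e1 - r - s], ?_, ?_, ?_⟩
  · simp [T]
  · simp [T, sh]
    linear_combination (-1 : A) * hs
  · simp [N]
    linear_combination hr - r * hs

omit [IsAlgClosed A] in
private theorem XS_double {K : Subfield A} {α β : A} (h1 : 2 * α + β ∈ K)
    (h2 : α ^ 2 + 2 * α * β ∈ K) (h3 : α ^ 2 * β ∈ K) : α ∈ K := by
  have k3 : (3 : A) ∈ K := ofNat_mem K 3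
  have k2 : (2 : A) ∈ K := ofNat_mem K 2
  have k9 : (9 : A) ∈ K := ofNat_mem K 9
  by_cases h : α = β
  · subst h
    have : α = (2 * α + α) / 3 := by field_simp; ring
    rw [this]
    exact K.div_mem h1 k3
  · have h0 : α - β ≠ 0 := sub_ne_zero.2 h
    have : α = (9 * (α ^ 2 * β) - (2 * α + β) * (α ^ 2 + 2 * α * β)) /
        (2 * (3 * (α ^ 2 + 2 * α * β) - (2 * α + β) ^ 2)) := by
      have e1 : 9 * (α ^ 2 * β) - (2 * α + β) * (α ^ 2 + 2 * α * β) =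
        -(2 * α) * (α - β) ^ 2 := by ring
      have e2 : 2 * (3 * (α ^ 2 + 2 * α * β) - (2 * α + β) ^ 2) = -2 * (α - β) ^ 2 := by ring
      rw [e1, e2, eq_div_iff (mul_ne_zero (by norm_num) (pow_ne_zero 2 h0))]
      ring
    rw [this]
    exact K.div_mem (K.sub_mem (K.mul_mem k9 h3) (K.mul_mem h1 h2))
      (K.mul_mem k2 (K.sub_mem (K.mul_mem k3 h2) (K.pow_mem h1 2)))

omit [IsAlgClosed A] in
/-- no root in `K`: the roots are distinct -/
private theorem XS_fd {K : Subfield A} {θ : Fin 3 → A} (h1 : T θ ∈ K) (h2 : T (sh θ) ∈ K)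
    (h3 : N θ ∈ K) (hn : ∀ j, θ j ∉ K) : Fd K θ := by
  have e1 : T θ = θ 0 + θ 1 + θ 2 := rfl
  have e2 : T (sh θ) = θ 1 * θ 2 + θ 2 * θ 0 + θ 0 * θ 1 := by simp [T, sh]
  have e3 : N θ = θ 0 * θ 1 * θ 2 := rfl
  have d : ∀ i j k : Fin 3, θ 0 + θ 1 + θ 2 = θ i + θ j + θ k →
      θ 1 * θ 2 + θ 2 * θ 0 + θ 0 * θ 1 = θ i * θ j + θ j * θ k + θ k * θ i →
      θ 0 * θ 1 * θ 2 = θ i * θ j * θ k → θ i ≠ θ j := by
    intro i j k f1 f2 f3 he
    apply hn i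
    refine XS_double (β := θ k) ?_ ?_ ?_
    · have : 2 * θ i + θ k = T θ := by rw [e1, f1, ← he]; ring
      rw [this]; exact h1
    · have : θ i ^ 2 + 2 * θ i * θ k = T (sh θ) := by rw [e2, f2, ← he]; ring
      rw [this]; exact h2
    · have : θ i ^ 2 * θ k = N θ := by rw [e3, f3, ← he]; ring
      rw [this]; exact h3
  have h01 := d 0 1 2 rfl (by ring) rfl
  have h12 := d 1 2 0 (by ring) (by ring) (by ring)
  have h02 := d 0 2 1 (by ring) (by ring) (by ring)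
  refine ⟨⟨?_, h1, h2, h3⟩, hn⟩
  intro i j hij
  fin_cases i <;> fin_cases j <;> simp_all

omit [CharZero A] [IsAlgClosed A] in
/-- a row vector with its images is a basis -/
private theorem XS_cyc {K : Subfield A} {θ : Fin 3 → A} (h : Cub K θ) (hn : ∀ j, θ j ∉ K)
    (M : Matrix (Fin 3) (Fin 3) K) (t1 : ((M 0 0 + M 1 1 + M 2 2 : K) : A) = T θ)
    (t2 : ((XS_e2 M : K) : A) = T (sh θ)) (t3 : ((M.det : K) : A) = N θ) :
    (Matrix.of ![![1, 0, 0], ![1, 0, 0] ᵥ* M, ![1, 0, 0] ᵥ* M ᵥ* M] :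
      Matrix (Fin 3) (Fin 3) K).det ≠ 0 := by
  intro hdet
  obtain ⟨z, hz0, hz⟩ := Matrix.exists_vecMul_eq_zero_iff.2 hdet
  have hirr := cubP_irreducible h hn
  set g : Polynomial K := Polynomial.C (z 0) + Polynomial.C (z 1) * Polynomial.X +
    Polynomial.C (z 2) * Polynomial.X ^ 2 with hg
  have hg0 : g ≠ 0 := by
    intro h0
    apply hz0
    have c0 := congrArg (fun p => p.coeff 0) h0
    have c1 := congrArg (fun p => p.coeff 1) h0
    have c2 := congrArg (fun p => p.coeff 2) h0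
    simp [hg, Polynomial.coeff_X, Polynomial.coeff_C, Polynomial.coeff_X_pow] at c0 c1 c2
    funext j
    fin_cases j
    · exact c0
    · exact c1
    · exact c2
  have hdeg : g.natDegree < (cubP h).natDegree := by
    rw [cubP_natDegree]
    have : g.natDegree ≤ 2 := by
      rw [hg]
      compute_degree
    omega
  have hcop : IsCoprime (cubP h) g :=
    hirr.coprime_iff_not_dvd.2 fun hd => hg0 (Polynomial.eq_zero_of_dvd_of_natDegree_lt hd hdeg)
  obtain ⟨u, v, huv⟩ := hcop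
  have hf : Polynomial.aeval M (cubP h) = 0 := by
    have k1 : (⟨_, h.e1⟩ : K) = M 0 0 + M 1 1 + M 2 2 := Subtype.ext t1.symm
    have k2 : (⟨_, h.e2⟩ : K) = XS_e2 M := Subtype.ext t2.symm
    have k3 : (⟨_, h.e3⟩ : K) = M.det := Subtype.ext t3.symm
    have hCH := XS_CH M
    unfold cubP
    rw [k1, k2, k3]
    generalize M 0 0 + M 1 1 + M 2 2 = a at hCH ⊢
    simp only [map_add, map_sub, map_mul, map_pow, Polynomial.aeval_X, Polynomial.aeval_C]
    rw [pow_succ, pow_two, hCH]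
    simp only [Algebra.algebraMap_eq_smul_one, smul_mul_assoc, one_mul]
    abel
  have hgz : ![1, 0, 0] ᵥ* Polynomial.aeval M g = 0 := by
    rw [← hz, hg, XS_vm]
    simp only [map_add, map_mul, Polynomial.aeval_X, Polynomial.aeval_C,
      Algebra.algebraMap_eq_smul_one, smul_mul_assoc, one_mul, Matrix.vecMul_add,
      Matrix.vecMul_smul, Matrix.vecMul_one, pow_two, ← Matrix.vecMul_vecMul]
  have h1 := congrArg (Polynomial.aeval M) huv
  rw [mul_comm v g, map_add, map_mul, map_mul, hf, mul_zero, zero_add, map_one] at h1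
  have h2 : (![1, 0, 0] : Fin 3 → K) = 0 := by
    calc (![1, 0, 0] : Fin 3 → K) = ![1, 0, 0] ᵥ* (1 : Matrix (Fin 3) (Fin 3) K) :=
          (Matrix.vecMul_one _).symm
      _ = 0 := by rw [← h1, ← Matrix.vecMul_vecMul, hgz, Matrix.zero_vecMul]
  exact one_ne_zero (congrFun h2 0)

end alg

variable {A : Type*} [Field A] [CharZero A] [IsAlgClosed A]

/-- coordinates in the basis `μ` -/
def hat (μ : Fin 3 → Fin 3 → A) (x : Fin 3 → A) : Fin 3 → A := fun j => ∑ k, x k * μ k j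

theorem x_side (K : Subfield A) (P Q : Matrix (Fin 3) (Fin 3) A) (hP : ∀ i j, P i j ∈ K)
    (hQ : ∀ i j, Q i j ∈ K) (hirr : ∀ a ∈ K, ∀ b ∈ K, (a • P + b • Q).det = 0 → a = 0 ∧ b = 0)
    (c d : A) (hc : c ∈ K) (hd : d ∈ K) (l l' : Fin 3 → A) (hl : ∀ j, l j ∈ K)
    (hl' : ∀ j, l' j ∈ K) :
    ∃ (θ : Fin 3 → A) (μ : Fin 3 → Fin 3 → A) (Θ : Cube A), Fd K θ ∧ Θ.Over K θ ∧
      (∀ a b : A, (a • P + b • Q).det = 0 → ∃ j, a + b * θ j = 0) ∧
      (∀ L : Subfield A, K ≤ L → ∀ x : Fin 3 → A, Rat L θ (hat μ x) ↔ ∀ k, x k ∈ L) ∧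
      (∀ L : Subfield A, K ≤ L → ∀ X : Fin 3 → A, Rat L θ X →
        ∃ x : Fin 3 → A, (∀ k, x k ∈ L) ∧ X = hat μ x) ∧
      Θ.c = c ∧ (∀ x : Fin 3 → A, T (Θ.a * hat μ x) = l ⬝ᵥ x) ∧
      (∀ x : Fin 3 → A, T (Θ.b * sh (hat μ x)) = l' ⬝ᵥ phi P Q x) ∧
      (∀ x : Fin 3 → A, d • crossProduct (P *ᵥ phi P Q x) (Q *ᵥ phi P Q x) =
        (Θ.d * N (hat μ x)) • x) := by
  -- matrices over `K`
  obtain ⟨P', mP⟩ : ∃ P' : Matrix (Fin 3) (Fin 3) K, P'.map K.subtype = P :=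
    ⟨Matrix.of fun i j => ⟨P i j, hP i j⟩, by ext i j; rfl⟩
  obtain ⟨Q', mQ⟩ : ∃ Q' : Matrix (Fin 3) (Fin 3) K, Q'.map K.subtype = Q :=
    ⟨Matrix.of fun i j => ⟨Q i j, hQ i j⟩, by ext i j; rfl⟩
  have mdet : ∀ B : Matrix (Fin 3) (Fin 3) K, (B.map K.subtype).det = ((B.det : K) : A) := by
    intro B
    exact (RingHom.map_det K.subtype B).symm
  have hPd : P.det ≠ 0 := by
    intro h0
    have h1 := hirr 1 K.one_mem 0 K.zero_mem (by rw [one_smul, zero_smul, add_zero, h0])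
    exact one_ne_zero h1.1
  have hPd' : P'.det ≠ 0 := by
    intro h0
    apply hPd
    rw [← mP, mdet, h0]
    rfl
  have hPK : P.det ∈ K := by rw [← mP, mdet]; exact P'.det.2
  obtain ⟨M', hM'⟩ : ∃ M' : Matrix (Fin 3) (Fin 3) K, M' * P' = Q' :=
    ⟨Q' * P'⁻¹, Matrix.nonsing_inv_mul_cancel_right _ _ (Ne.isUnit hPd')⟩
  obtain ⟨M, mM⟩ : ∃ M : Matrix (Fin 3) (Fin 3) A, M'.map K.subtype = M := ⟨_, rfl⟩
  have hM : M * P = Q := by
    rw [← mM, ← mP, ← mQ, ← hM', Matrix.map_mul]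
  obtain ⟨Pn, hPn, hPnK⟩ : ∃ Pn : Matrix (Fin 3) (Fin 3) A, Pn * P = 1 ∧
      ∀ i j, Pn i j ∈ K := by
    refine ⟨(P'⁻¹).map K.subtype, ?_, fun i j => (P'⁻¹ i j).2⟩
    rw [← mP, ← Matrix.map_mul, Matrix.nonsing_inv_mul _ (Ne.isUnit hPd')]
    simp
  -- the roots
  obtain ⟨θ, f1, f2, f3⟩ := XS_roots ((M' 0 0 + M' 1 1 + M' 2 2 : K) : A)
    ((XS_e2 M' : K) : A) ((M'.det : K) : A)
  have g1 : M 0 0 + M 1 1 + M 2 2 = T θ := by rw [f1, ← mM]; rfl
  have g2 : XS_e2 M = T (sh θ) := by rw [f2, ← mM]; rfl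
  have g3 : M.det = N θ := by rw [f3, ← mM, mdet]
  have hfac : ∀ a b : A, (a • P + b • Q).det =
      P.det * ((a + b * θ 0) * (a + b * θ 1) * (a + b * θ 2)) := by
    intro a b
    have h1 : a • P + b • Q = (a • (1 : Matrix (Fin 3) (Fin 3) A) + b • M) * P := by
      rw [add_mul, smul_mul_assoc, smul_mul_assoc, one_mul, hM]
    rw [h1, Matrix.det_mul, XS_det, g1, g2, g3]
    simp only [T, N, sh, Matrix.cons_val_zero, Matrix.cons_val_one, Matrix.cons_val]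
    ring
  have hn : ∀ j, θ j ∉ K := by
    intro j hj
    have h1 : (θ j • P + (-1 : A) • Q).det = 0 := by
      rw [hfac]
      have : (θ j + -1 * θ 0) * (θ j + -1 * θ 1) * (θ j + -1 * θ 2) = 0 := by
        fin_cases j
        · simp
        · simp
        · simp
      rw [this, mul_zero]
    have h2 := hirr (θ j) hj (-1) (K.neg_mem K.one_mem) h1
    exact neg_ne_zero.2 one_ne_zero h2.2
  have hF : Fd K θ := XS_fd (f1 ▸ (M' 0 0 + M' 1 1 + M' 2 2 : K).2) (f2 ▸ (XS_e2 M' : K).2)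
    (f3 ▸ (M'.det : K).2) hn
  -- the basis
  obtain ⟨C', hC'⟩ : ∃ C' : Matrix (Fin 3) (Fin 3) K,
      C' = Matrix.of ![![1, 0, 0], ![1, 0, 0] ᵥ* M', ![1, 0, 0] ᵥ* M' ᵥ* M'] := ⟨_, rfl⟩
  have hCd' : C'.det ≠ 0 := by
    rw [hC']
    exact XS_cyc hF.cub hn M' f1.symm f2.symm f3.symm
  obtain ⟨r0, hr0⟩ : ∃ r0 : Fin 3 → A, r0 = ![1, 0, 0] := ⟨_, rfl⟩
  obtain ⟨r1, hr1⟩ : ∃ r1 : Fin 3 → A, r1 = r0 ᵥ* M := ⟨_, rfl⟩
  obtain ⟨r2, hr2⟩ : ∃ r2 : Fin 3 → A, r2 = r1 ᵥ* M := ⟨_, rfl⟩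
  have hm : ∀ v : Fin 3 → K, (fun j => (((v ᵥ* M') j : K) : A)) = (fun j => ((v j : K) : A)) ᵥ* M := by
    intro v
    funext j
    rw [← mM]
    exact RingHom.map_vecMul K.subtype M' v j
  have q0 : (fun j => (((![1, 0, 0] : Fin 3 → K) j : K) : A)) = r0 := by
    rw [hr0]
    funext j
    fin_cases j <;> rfl
  have q1 : (fun j => (((![1, 0, 0] ᵥ* M') j : K) : A)) = r1 := by
    rw [hm, q0, hr1]
  have q2 : (fun j => (((![1, 0, 0] ᵥ* M' ᵥ* M') j : K) : A)) = r2 := by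
    rw [hm, q1, hr2]
  have mC : C'.map K.subtype = Matrix.of ![r0, r1, r2] := by
    rw [← q0, ← q1, ← q2, hC']
    ext i j
    fin_cases i <;> rfl
  have r0K : ∀ j, r0 j ∈ K := fun j => by rw [← q0]; exact ((![1, 0, 0] : Fin 3 → K) j).2
  have r1K : ∀ j, r1 j ∈ K := fun j => by rw [← q1]; exact ((![1, 0, 0] ᵥ* M') j).2
  have r2K : ∀ j, r2 j ∈ K := fun j => by rw [← q2]; exact ((![1, 0, 0] ᵥ* M' ᵥ* M') j).2
  obtain ⟨C, hC⟩ : ∃ C : Matrix (Fin 3) (Fin 3) A, C = Matrix.of ![r0, r1, r2] := ⟨_, rfl⟩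
  have hCdet : C.det = ((C'.det : K) : A) := by rw [hC, ← mC, mdet]
  have hCK : C.det ∈ K := by rw [hCdet]; exact C'.det.2
  obtain ⟨D, hDC, hCD, hDK⟩ : ∃ D : Matrix (Fin 3) (Fin 3) A, D * C = 1 ∧ C * D = 1 ∧
      ∀ i j, D i j ∈ K := by
    refine ⟨(C'⁻¹).map K.subtype, ?_, ?_, fun i j => (C'⁻¹ i j).2⟩
    · rw [hC, ← mC, ← Matrix.map_mul, Matrix.nonsing_inv_mul _ (Ne.isUnit hCd')]
      simp
    · rw [hC, ← mC, ← Matrix.map_mul, Matrix.mul_nonsing_inv _ (Ne.isUnit hCd')]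
      simp
  obtain ⟨V, hV⟩ : ∃ V : Matrix (Fin 3) (Fin 3) A,
      V = Matrix.of ![fun _ => 1, θ, fun j => θ j ^ 2] := ⟨_, rfl⟩
  obtain ⟨W, hW⟩ : ∃ W : Matrix (Fin 3) (Fin 3) A, W = D * V := ⟨_, rfl⟩
  have hCW : C * W = V := by rw [hW, ← mul_assoc, hCD, one_mul]
  have w0 : r0 ᵥ* W = fun _ => 1 := by
    have h1 : (C * W) 0 = C 0 ᵥ* W := Matrix.mul_apply_eq_vecMul C W 0
    rw [hCW, hC, hV] at h1
    exact h1.symm
  have w1 : r1 ᵥ* W = θ := by
    have h1 : (C * W) 1 = C 1 ᵥ* W := Matrix.mul_apply_eq_vecMul C W 1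
    rw [hCW, hC, hV] at h1
    exact h1.symm
  have w2 : r2 ᵥ* W = fun j => θ j ^ 2 := by
    have h1 : (C * W) 2 = C 2 ᵥ* W := Matrix.mul_apply_eq_vecMul C W 2
    rw [hCW, hC, hV] at h1
    exact h1.symm
  have w3 : (r2 ᵥ* M) ᵥ* W = fun j => θ j ^ 3 := by
    have h1 : r2 ᵥ* M = T θ • r2 - T (sh θ) • r1 + N θ • r0 := by
      have h2 := congrArg (fun B => r0 ᵥ* B) (XS_CH M)
      simp only [Matrix.vecMul_add, Matrix.vecMul_sub, Matrix.vecMul_smul, Matrix.vecMul_one,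
        ← Matrix.vecMul_vecMul, g1, g2, g3, ← hr1, ← hr2] at h2
      exact h2
    rw [h1, Matrix.add_vecMul, Matrix.sub_vecMul, Matrix.smul_vecMul, Matrix.smul_vecMul,
      Matrix.smul_vecMul, w0, w1, w2]
    funext j
    simp only [Pi.add_apply, Pi.sub_apply, Pi.smul_apply, smul_eq_mul, mul_one]
    exact (Cub.cube θ j).symm
  have hz : ∀ x : Fin 3 → A, x = (x ᵥ* D) 0 • r0 + (x ᵥ* D) 1 • r1 + (x ᵥ* D) 2 • r2 := by
    intro x
    rw [← XS_vm, ← hC, Matrix.vecMul_vecMul, hDC, Matrix.vecMul_one]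
  have hhat : ∀ x : Fin 3 → A, hat (fun k j => W k j) x = x ᵥ* W := fun x => rfl
  have hco : ∀ (x : Fin 3 → A) (j : Fin 3), (x ᵥ* W) j =
      (x ᵥ* D) 0 + (x ᵥ* D) 1 * θ j + (x ᵥ* D) 2 * θ j ^ 2 := by
    intro x j
    conv_lhs => rw [hz x]
    rw [Matrix.add_vecMul, Matrix.add_vecMul, Matrix.smul_vecMul, Matrix.smul_vecMul,
      Matrix.smul_vecMul, w0, w1, w2]
    simp only [Pi.add_apply, Pi.smul_apply, smul_eq_mul, mul_one]
  have v0 : r0 ᵥ* (M * W) = θ := by rw [← Matrix.vecMul_vecMul, ← hr1, w1]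
  have v1 : r1 ᵥ* (M * W) = fun j => θ j ^ 2 := by rw [← Matrix.vecMul_vecMul, ← hr2, w2]
  have v2 : r2 ᵥ* (M * W) = fun j => θ j ^ 3 := by rw [← Matrix.vecMul_vecMul, w3]
  have hMW : ∀ (x : Fin 3 → A), (x ᵥ* M) ᵥ* W = fun j => θ j * (x ᵥ* W) j := by
    intro x
    funext j
    rw [hco x j, Matrix.vecMul_vecMul]
    conv_lhs => rw [hz x]
    rw [Matrix.add_vecMul, Matrix.add_vecMul, Matrix.smul_vecMul, Matrix.smul_vecMul,
      Matrix.smul_vecMul, v0, v1, v2]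
    simp only [Pi.add_apply, Pi.smul_apply, smul_eq_mul]
    ring
  have h01 : θ 0 - θ 1 ≠ 0 := sub_ne_zero.2 hF.cub.ne.1
  have h12 : θ 1 - θ 2 ≠ 0 := sub_ne_zero.2 hF.cub.ne.2.1
  have h20 : θ 2 - θ 0 ≠ 0 := sub_ne_zero.2 hF.cub.ne.2.2
  have hVd : V.det = (θ 1 - θ 0) * (θ 2 - θ 0) * (θ 2 - θ 1) := by
    rw [hV, Matrix.det_fin_three]
    simp
    ring
  have hWC : C.det * W.det = V.det := by rw [← Matrix.det_mul, hCW]
  have hV0 : V.det ≠ 0 := by
    rw [hVd]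
    refine mul_ne_zero (mul_ne_zero ?_ h20) ?_
    · rw [← neg_sub]; exact neg_ne_zero.2 h01
    · rw [← neg_sub]; exact neg_ne_zero.2 h12
  have hW0 : W.det ≠ 0 := fun h => hV0 (by rw [← hWC, h, mul_zero])
  have hDt := Dt_ne hF.cub.inj
  -- the quadratic forms
  have hG : ∀ x u : Fin 3 → A, u ⬝ᵥ crossProduct x (x ᵥ* M) =
      C.det * T (fun j => (u ᵥ* W) j * sh (x ᵥ* W) j / Dt θ j) := by
    intro x u
    have h1 := XS_cross W x (x ᵥ* M)
    rw [hMW x] at h1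
    have h2 : W.det * (u ⬝ᵥ crossProduct x (x ᵥ* M)) =
        (u ᵥ* W) ⬝ᵥ crossProduct (x ᵥ* W) (fun j => θ j * (x ᵥ* W) j) := by
      rw [← Matrix.dotProduct_mulVec, h1, dotProduct_smul, smul_eq_mul]
    have h3 : (u ᵥ* W) ⬝ᵥ crossProduct (x ᵥ* W) (fun j => θ j * (x ᵥ* W) j) =
        V.det * T (fun j => (u ᵥ* W) j * sh (x ᵥ* W) j / Dt θ j) := by
      have e0 : Dt θ 0 = (θ 0 - θ 1) * (θ 0 - θ 2) := rfl
      have e1 : Dt θ 1 = (θ 1 - θ 2) * (θ 1 - θ 0) := rfl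
      have e2 : Dt θ 2 = (θ 2 - θ 0) * (θ 2 - θ 1) := rfl
      have k0 : V.det / Dt θ 0 = θ 2 - θ 1 := by
        rw [div_eq_iff (hDt 0), hVd, e0]; ring
      have k1 : V.det / Dt θ 1 = θ 0 - θ 2 := by
        rw [div_eq_iff (hDt 1), hVd, e1]; ring
      have k2 : V.det / Dt θ 2 = θ 1 - θ 0 := by
        rw [div_eq_iff (hDt 2), hVd, e2]; ring
      have k3 : V.det * T (fun j => (u ᵥ* W) j * sh (x ᵥ* W) j / Dt θ j) =
          (u ᵥ* W) 0 * sh (x ᵥ* W) 0 * (V.det / Dt θ 0) +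
          (u ᵥ* W) 1 * sh (x ᵥ* W) 1 * (V.det / Dt θ 1) +
          (u ᵥ* W) 2 * sh (x ᵥ* W) 2 * (V.det / Dt θ 2) := by
        simp only [T]; ring
      rw [k3, k0, k1, k2]
      simp [dotProduct, Fin.sum_univ_three, cross_apply, sh]
      ring
    apply mul_left_cancel₀ hW0
    rw [h2, h3, ← hWC]
    ring
  have hN : ∀ x : Fin 3 → A, ((x ᵥ* M) ᵥ* M) ⬝ᵥ crossProduct x (x ᵥ* M) =
      C.det * N (x ᵥ* W) := by
    intro x
    rw [hG, hMW, hMW]
    congr 1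
    have k : ∀ j, θ j * (θ j * (x ᵥ* W) j) * sh (x ᵥ* W) j / Dt θ j =
        N (x ᵥ* W) * (θ j ^ 2 / Dt θ j) := by
      intro j
      have h1 := mul_sh (x ᵥ* W) j
      rw [← h1]
      ring
    have k' : (fun j => θ j * (θ j * (x ᵥ* W) j) * sh (x ᵥ* W) j / Dt θ j) =
        fun j => N (x ᵥ* W) * (θ j ^ 2 / Dt θ j) := funext k
    have e0 : Dt θ 0 = (θ 0 - θ 1) * (θ 0 - θ 2) := rfl
    have e1 : Dt θ 1 = (θ 1 - θ 2) * (θ 1 - θ 0) := rfl
    have e2 : Dt θ 2 = (θ 2 - θ 0) * (θ 2 - θ 1) := rfl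
    have h10 : θ 1 - θ 0 ≠ 0 := by rw [← neg_sub]; exact neg_ne_zero.2 h01
    have h21 : θ 2 - θ 1 ≠ 0 := by rw [← neg_sub]; exact neg_ne_zero.2 h12
    have h02 : θ 0 - θ 2 ≠ 0 := by rw [← neg_sub]; exact neg_ne_zero.2 h20
    have k4 : θ 0 ^ 2 / Dt θ 0 + θ 1 ^ 2 / Dt θ 1 + θ 2 ^ 2 / Dt θ 2 = 1 := by
      rw [e0, e1, e2]
      field_simp
      ring
    show T (fun j => θ j * (θ j * (x ᵥ* W) j) * sh (x ᵥ* W) j / Dt θ j) = N (x ᵥ* W)
    rw [k']
    simp only [T]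
    rw [← mul_add, ← mul_add, k4, mul_one]
  have hphi : ∀ x : Fin 3 → A, P *ᵥ phi P Q x = P.det • crossProduct x (x ᵥ* M) := by
    intro x
    unfold phi
    rw [← hM, ← Matrix.vecMul_vecMul]
    exact XS_cross P x (x ᵥ* M)
  -- rational points
  have hRat : ∀ L : Subfield A, K ≤ L → ∀ x : Fin 3 → A,
      Rat L θ (hat (fun k j => W k j) x) ↔ ∀ k, x k ∈ L := by
    intro L hL x
    rw [hhat]
    constructor
    · rintro ⟨a, ha, b, hb, c, hc, e⟩
      obtain ⟨k0, k1, k2⟩ := coord_unique hF.cub.inj (a := a - (x ᵥ* D) 0)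
        (b := b - (x ᵥ* D) 1) (c := c - (x ᵥ* D) 2) (fun i => by
          have h1 := e i
          rw [hco] at h1
          linear_combination (-1 : A) * h1)
      rw [sub_eq_zero] at k0 k1 k2
      intro k
      rw [hz x, ← k0, ← k1, ← k2]
      exact L.add_mem (L.add_mem (L.mul_mem ha (hL (r0K k))) (L.mul_mem hb (hL (r1K k))))
        (L.mul_mem hc (hL (r2K k)))
    · intro hx
      have hzL : ∀ m, (x ᵥ* D) m ∈ L := by
        intro m
        show ∑ k, x k * D k m ∈ L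
        exact L.sum_mem fun k _ => L.mul_mem (hx k) (hL (hDK k m))
      exact ⟨_, hzL 0, _, hzL 1, _, hzL 2, hco x⟩
  have hSur : ∀ L : Subfield A, K ≤ L → ∀ X : Fin 3 → A, Rat L θ X →
      ∃ x : Fin 3 → A, (∀ k, x k ∈ L) ∧ X = hat (fun k j => W k j) x := by
    rintro L hL X ⟨a, ha, b, hb, c, hc, e⟩
    refine ⟨a • r0 + b • r1 + c • r2, fun k => L.add_mem (L.add_mem (L.mul_mem ha (hL (r0K k)))
      (L.mul_mem hb (hL (r1K k)))) (L.mul_mem hc (hL (r2K k))), ?_⟩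
    rw [hhat, Matrix.add_vecMul, Matrix.add_vecMul, Matrix.smul_vecMul, Matrix.smul_vecMul,
      Matrix.smul_vecMul, w0, w1, w2]
    funext j
    simp only [Pi.add_apply, Pi.smul_apply, smul_eq_mul, mul_one]
    exact e j
  -- the coefficients
  have hdot : ∀ r : Fin 3 → A, (∀ j, r j ∈ K) → r ⬝ᵥ l ∈ K := fun r hr =>
    K.sum_mem fun k _ => K.mul_mem (hr k) (hl k)
  obtain ⟨a, haK, ha0, ha1, ha2⟩ := exists_moments hF.cub (hdot r0 r0K) (hdot r1 r1K)
    (hdot r2 r2K)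
  have huK : ∀ k, (l' ᵥ* Pn) k ∈ K := by
    intro m
    show ∑ k, l' k * Pn k m ∈ K
    exact K.sum_mem fun k _ => K.mul_mem (hl' k) (hPnK k m)
  have hbR : Rat K θ (fun j => P.det * C.det *
      (hat (fun k j => W k j) (l' ᵥ* Pn) j / Dt θ j)) :=
    Rat.smul (K.mul_mem hPK hCK) (Rat.div hF.cub ((hRat K le_rfl _).2 huK)
      ((Rat.self (L := K) (θ := θ)).Dt hF.cub) hDt)
  refine ⟨θ, fun k j => W k j, ⟨c, a, fun j => P.det * C.det *
      (hat (fun k j => W k j) (l' ᵥ* Pn) j / Dt θ j), -(d * P.det ^ 2 * C.det)⟩, hF,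
    ⟨hc, haK, hbR, K.neg_mem (K.mul_mem (K.mul_mem hd (K.pow_mem hPK 2)) hCK)⟩, ?_, hRat, hSur,
    rfl, ?_, ?_, ?_⟩
  · intro a b hab
    rw [hfac] at hab
    have h1 := (mul_eq_zero.1 hab).resolve_left hPd
    rcases mul_eq_zero.1 h1 with h2 | h2
    · rcases mul_eq_zero.1 h2 with h3 | h3
      · exact ⟨0, h3⟩
      · exact ⟨1, h3⟩
    · exact ⟨2, h2⟩
  · intro x
    have h1 : T (a * hat (fun k j => W k j) x) = (x ᵥ* D) 0 * T a +
        (x ᵥ* D) 1 * T (a * θ) + (x ᵥ* D) 2 * T (a * θ ^ 2) := by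
      rw [hhat]
      simp only [T, Pi.mul_apply, Pi.pow_apply, hco]
      ring
    show T (a * hat (fun k j => W k j) x) = l ⬝ᵥ x
    rw [h1, ha0, ha1, ha2, dotProduct_comm l x]
    conv_rhs => rw [hz x]
    rw [add_dotProduct, add_dotProduct, smul_dotProduct, smul_dotProduct, smul_dotProduct]
    rfl
  · intro x
    show T ((fun j => P.det * C.det * (hat (fun k j => W k j) (l' ᵥ* Pn) j / Dt θ j)) *
      sh (hat (fun k j => W k j) x)) = l' ⬝ᵥ phi P Q x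
    have h1 : l' ⬝ᵥ phi P Q x = (l' ᵥ* Pn) ⬝ᵥ (P *ᵥ phi P Q x) := by
      rw [Matrix.dotProduct_mulVec, Matrix.vecMul_vecMul, hPn, Matrix.vecMul_one]
    rw [h1, hphi, dotProduct_smul, hG, hhat, hhat, smul_eq_mul]
    simp only [T, Pi.mul_apply]
    ring
  · intro x
    show d • crossProduct (P *ᵥ phi P Q x) (Q *ᵥ phi P Q x) =
      (-(d * P.det ^ 2 * C.det) * N (hat (fun k j => W k j) x)) • x
    have h1 : Q *ᵥ phi P Q x = P.det • (M *ᵥ crossProduct x (x ᵥ* M)) := by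
      rw [← Matrix.mulVec_smul, ← hphi, Matrix.mulVec_mulVec, hM]
    have h2 : x ⬝ᵥ (M *ᵥ crossProduct x (x ᵥ* M)) = 0 := by
      rw [Matrix.dotProduct_mulVec, dot_cross_self]
    have h3 : (x ᵥ* M) ⬝ᵥ (M *ᵥ crossProduct x (x ᵥ* M)) = C.det * N (x ᵥ* W) := by
      rw [Matrix.dotProduct_mulVec, hN]
    rw [h1, hphi, map_smul, map_smul, LinearMap.smul_apply, XS_triple, h2, h3, hhat, zero_smul,
      zero_sub]
    simp only [smul_neg, smul_smul, neg_mul, neg_smul]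
    congr 2
    ring

end Pool.Agent.Helper16.C18.H
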