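import Pool.Agent.Helper64.C18.B3
import Pool.Agent.Helper64.C18.WDef
import Pool.Agent.Helper16.C18.Cyc

set_option autoImplicit false

/-! Project C18: the fibres of `W` are twisted cubes (offer C18-YS) -/

/-!
`bin p x y = p 0 (x - ϑ 0 y) (x - ϑ 1 y) (x - ϑ 2 y)` with `p 0 ≠ 0`, `ϑ j ∉ K`
(`p 0 = bin p 1 0`, `bin p (ϑ j) 1 = 0`; distinct roots since an irreducible polynomial in
characteristic zero is separable), so `3 p 1 = -p 0 e1`, `3 p 2 = p 0 e2`, `p 3 = -p 0 e3`.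
For `x : Fin 3 → A` put `m j = T (x ϑ ^ j)`, and `u = (-m 0, m 1, -m 2, m 3 + κ / p 0)`.
Then `skew p u = κ`, and every `u` with `skew p u = κ` is of this form (moments of `x`:
`exists_moments`, the fourth one by `skew p u = κ`).
`quart p r s α (u x)` is a polynomial in `x 0, x 1, x 2` which is of degree at most one in each `x i`
(checked numerically), with `x 0 x 1 x 2`-coefficient `-2 p 0 ((ϑ 0 - ϑ 1) (ϑ 1 - ϑ 2) (ϑ 2 - ϑ 0)) ^ 2`.
So it is `Θ.ev x 1` for an explicit cube `Θ` (coefficients by inclusion-exclusion of the values at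
`x i ∈ {0, 1}`), which is defined over `K` because `Θ.ev (x) 1 ∈ K` for all `x` in `K[ϑ]` (scale
`x` by rational numbers to separate the homogeneous parts, then argue as in `Cube.over_of_ev`).
-/

namespace Pool.Agent.Helper16.C18.H

open Pool.Agent.Helper64.C18

variable {A : Type*} [Field A] [CharZero A] [IsAlgClosed A]

/-- the point of the affine space with moments given by `x` -/
def YS_u (ϑ x : Fin 3 → A) (k : A) : Fin 4 → A :=
  ![-T x, T (fun j => x j * ϑ j), -T (fun j => x j * ϑ j ^ 2),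
    T (fun j => x j * ϑ j ^ 3) + k]

/-- the cube of a fibre of `W` -/
def YS_cube (ϑ : Fin 3 → A) (p0 k α : A) (r : Fin 4 → A) (s : Fin 3 → A) : Cube A where
  c := α + r 0 * k
  a := fun j => (r 0 * ϑ j ^ 3 + 3 * r 1 * ϑ j ^ 2 + 3 * r 2 * ϑ j + r 3)
    - s 1 * k + s 2 * k * ϑ j + k ^ 2 * p0
  b := fun j => ((T ϑ - ϑ j) ^ 2 - 4 * sh ϑ j) *
    (s 0 - s 1 * (T ϑ - ϑ j) + s 2 * sh ϑ j + k * p0 * (T ϑ - 3 * ϑ j))
  d := -2 * p0 * ((ϑ 0 - ϑ 1) * (ϑ 1 - ϑ 2) * (ϑ 2 - ϑ 0)) ^ 2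

omit [CharZero A] [IsAlgClosed A] in
theorem YS_ev (ϑ x : Fin 3 → A) (p r : Fin 4 → A) (s : Fin 3 → A) (k α : A)
    (h1 : 3 * p 1 = -(p 0 * T ϑ)) (h2 : 3 * p 2 = p 0 * T (sh ϑ)) (h3 : p 3 = -(p 0 * N ϑ)) :
    quart p r s α (YS_u ϑ x k) = (YS_cube ϑ (p 0) k α r s).ev x 1 := by
  simp only [quart, skew, hess, cov, YS_u, YS_cube, Cube.ev, Pi.mul_apply, Pi.one_apply, T, sh, N,
    Matrix.cons_val_zero, Matrix.cons_val_one, Matrix.cons_val] at *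
  rw [h1, h2, h3]
  ring

omit [IsAlgClosed A] in
theorem YS_over {K : Subfield A} {ϑ : Fin 3 → A} (hC : Cub K ϑ) {p0 k α : A} {r : Fin 4 → A}
    {s : Fin 3 → A} (hp : p0 ∈ K) (hk : k ∈ K) (hα : α ∈ K) (hr : ∀ i, r i ∈ K)
    (hs : ∀ i, s i ∈ K) : (YS_cube ϑ p0 k α r s).Over K ϑ := by
  have hn : ∀ n : ℕ, (OfNat.ofNat (n + 2) : A) ∈ K := fun n => ofNat_mem K (n + 2)
  have h2 : (2 : A) ∈ K := ofNat_mem K 2
  have h3 : (3 : A) ∈ K := ofNat_mem K 3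
  have h4 : (4 : A) ∈ K := ofNat_mem K 4
  have hϑ : Rat K ϑ ϑ := Rat.self
  have hsh := hϑ.sh hC
  have hc : ∀ {c : A}, c ∈ K → Rat K ϑ (fun _ => c) := fun h => Rat.const h
  refine ⟨K.add_mem hα (K.mul_mem (hr 0) hk), ?_, ?_, ?_⟩
  · exact ((((((Rat.smul (hr 0) (hϑ.pow hC 3)).add
      (Rat.smul (K.mul_mem h3 (hr 1)) (hϑ.pow hC 2))).add
      (Rat.smul (K.mul_mem h3 (hr 2)) hϑ)).add (hc (hr 3))).sub
      (hc (K.mul_mem (hs 1) hk))).add (Rat.smul (K.mul_mem (hs 2) hk) hϑ)).add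
      (hc (K.mul_mem (K.pow_mem hk 2) hp))
  · have d1 : Rat K ϑ (fun j => T ϑ - ϑ j) := (hc hC.e1).sub hϑ
    exact Rat.mul hC ((d1.pow hC 2).sub (Rat.smul h4 hsh))
      ((((hc (hs 0)).sub (Rat.smul (hs 1) d1)).add (Rat.smul (hs 2) hsh)).add
        (Rat.smul (K.mul_mem hk hp) ((hc hC.e1).sub (Rat.smul h3 hϑ))))
  · exact K.mul_mem (K.mul_mem (K.neg_mem h2) hp) (dis_sq hC)

/-- three roots of an irreducible cubic -/
theorem YS_roots {K : Subfield A} {p : Fin 4 → A} (hp : ∀ i, p i ∈ K)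
    (hirr : ∀ x ∈ K, ∀ y ∈ K, bin p x y = 0 → x = 0 ∧ y = 0) :
    ∃ ϑ : Fin 3 → A, Fd K ϑ ∧ p 0 ≠ 0 ∧ 3 * p 1 = -(p 0 * T ϑ) ∧ 3 * p 2 = p 0 * T (sh ϑ) ∧
      p 3 = -(p 0 * N ϑ) := by
  have hp0 : p 0 ≠ 0 := by
    intro h
    have := hirr 1 K.one_mem 0 K.zero_mem (by simp [bin, h])
    exact one_ne_zero this.1
  obtain ⟨ϑ0, h0⟩ := IsAlgClosed.exists_root
    (Polynomial.X ^ 3 + Polynomial.C (3 * p 1 / p 0) * Polynomial.X ^ 2
      + Polynomial.C (3 * p 2 / p 0) * Polynomial.X + Polynomial.C (p 3 / p 0)) (by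
      have : (Polynomial.X ^ 3 + Polynomial.C (3 * p 1 / p 0) * Polynomial.X ^ 2
        + Polynomial.C (3 * p 2 / p 0) * Polynomial.X
        + Polynomial.C (p 3 / p 0)).degree = 3 := by compute_degree!
      rw [this]
      norm_num)
  simp only [Polynomial.IsRoot, Polynomial.eval_add, Polynomial.eval_mul, Polynomial.eval_pow,
    Polynomial.eval_X, Polynomial.eval_C] at h0
  obtain ⟨ϑ1, h1⟩ := IsAlgClosed.exists_root
    (Polynomial.X ^ 2 + Polynomial.C (ϑ0 + 3 * p 1 / p 0) * Polynomial.X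
      + Polynomial.C (ϑ0 ^ 2 + 3 * p 1 / p 0 * ϑ0 + 3 * p 2 / p 0)) (by
      have : (Polynomial.X ^ 2 + Polynomial.C (ϑ0 + 3 * p 1 / p 0) * Polynomial.X
        + Polynomial.C (ϑ0 ^ 2 + 3 * p 1 / p 0 * ϑ0 + 3 * p 2 / p 0)).degree = 2 := by
          compute_degree!
      rw [this]
      norm_num)
  simp only [Polynomial.IsRoot, Polynomial.eval_add, Polynomial.eval_mul, Polynomial.eval_pow,
    Polynomial.eval_X, Polynomial.eval_C] at h1
  set f1 : A := 3 * p 1 / p 0 with hf1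
  set f2 : A := 3 * p 2 / p 0 with hf2
  set f3 : A := p 3 / p 0 with hf3
  have m1 : f1 ∈ K := K.div_mem (K.mul_mem (ofNat_mem K 3) (hp 1)) (hp 0)
  have m2 : f2 ∈ K := K.div_mem (K.mul_mem (ofNat_mem K 3) (hp 2)) (hp 0)
  have m3 : f3 ∈ K := K.div_mem (hp 3) (hp 0)
  have g1 : 3 * p 1 = p 0 * f1 := by
    rw [hf1]
    field_simp
  have g2 : 3 * p 2 = p 0 * f2 := by
    rw [hf2]
    field_simp
  have g3 : p 3 = p 0 * f3 := by
    rw [hf3]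
    field_simp
  let ϑ : Fin 3 → A := ![ϑ0, ϑ1, -f1 - ϑ0 - ϑ1]
  have e1 : T ϑ = -f1 := by
    simp only [ϑ, T, Matrix.cons_val_zero, Matrix.cons_val_one, Matrix.cons_val]
    ring
  have e2 : T (sh ϑ) = f2 := by
    simp only [ϑ, T, sh, Matrix.cons_val_zero, Matrix.cons_val_one, Matrix.cons_val]
    linear_combination -h1
  have e3 : N ϑ = -f3 := by
    simp only [ϑ, N, Matrix.cons_val_zero, Matrix.cons_val_one, Matrix.cons_val]
    linear_combination h0 - ϑ0 * h1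
  have hnr : ∀ j, ϑ j ∉ K := by
    intro j hj
    have h2 := Cub.root (θ := ϑ) j
    have h3 : bin p (ϑ j) 1 = 0 := by
      rw [e1, e2, e3] at h2
      simp only [bin]
      linear_combination p 0 * h2 + ϑ j ^ 2 * g1 + ϑ j * g2 + g3
    exact one_ne_zero (hirr _ hj 1 K.one_mem h3).2
  -- a double root is in `K`
  have dbl : ∀ ρ τ : A, T ϑ = 2 * ρ + τ → T (sh ϑ) = ρ ^ 2 + 2 * ρ * τ → N ϑ = ρ ^ 2 * τ →
      ρ ∈ K := by
    intro ρ τ k1 k2 k3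
    have kT : T ϑ ∈ K := by rw [e1]; exact K.neg_mem m1
    have kS : T (sh ϑ) ∈ K := by rw [e2]; exact m2
    have kN : N ϑ ∈ K := by rw [e3]; exact K.neg_mem m3
    by_cases h : ρ = τ
    · have : ρ = T ϑ / 3 := by
        rw [k1, ← h]
        ring
      rw [this]
      exact K.div_mem kT (ofNat_mem K 3)
    · have hd : T ϑ ^ 2 - 3 * T (sh ϑ) ≠ 0 := by
        rw [k1, k2]
        have : (2 * ρ + τ) ^ 2 - 3 * (ρ ^ 2 + 2 * ρ * τ) = (ρ - τ) ^ 2 := by ring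
        rw [this]
        exact pow_ne_zero 2 (sub_ne_zero.2 h)
      have : ρ = (T ϑ * T (sh ϑ) - 9 * N ϑ) / (2 * (T ϑ ^ 2 - 3 * T (sh ϑ))) := by
        rw [eq_div_iff (mul_ne_zero two_ne_zero hd), k1, k2, k3]
        ring
      rw [this]
      exact K.div_mem (K.sub_mem (K.mul_mem kT kS) (K.mul_mem (ofNat_mem K 9) kN))
        (K.mul_mem (ofNat_mem K 2) (K.sub_mem (K.pow_mem kT 2) (K.mul_mem (ofNat_mem K 3) kS)))
  have eT : T ϑ = ϑ 0 + ϑ 1 + ϑ 2 := rfl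
  have eS : T (sh ϑ) = ϑ 1 * ϑ 2 + ϑ 2 * ϑ 0 + ϑ 0 * ϑ 1 := rfl
  have eN : N ϑ = ϑ 0 * ϑ 1 * ϑ 2 := rfl
  have h01 : ϑ 0 ≠ ϑ 1 := fun h => hnr 0 (dbl (ϑ 0) (ϑ 2)
    (by rw [eT, ← h]; ring) (by rw [eS, ← h]; ring) (by rw [eN, ← h]; ring))
  have h12 : ϑ 1 ≠ ϑ 2 := fun h => hnr 1 (dbl (ϑ 1) (ϑ 0)
    (by rw [eT, ← h]; ring) (by rw [eS, ← h]; ring) (by rw [eN, ← h]; ring))
  have h02 : ϑ 0 ≠ ϑ 2 := fun h => hnr 0 (dbl (ϑ 0) (ϑ 1)
    (by rw [eT, ← h]; ring) (by rw [eS, ← h]; ring) (by rw [eN, ← h]; ring))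
  have hinj : Function.Injective ϑ := by
    intro a b hab
    fin_cases a <;> fin_cases b <;> first
      | rfl
      | exact absurd hab h01
      | exact absurd hab h12
      | exact absurd hab h02
      | exact absurd hab.symm h01
      | exact absurd hab.symm h12
      | exact absurd hab.symm h02
  refine ⟨ϑ, ⟨⟨hinj, ?_, ?_, ?_⟩, hnr⟩, hp0, ?_, ?_, ?_⟩
  · rw [e1]; exact K.neg_mem m1
  · rw [e2]; exact m2
  · rw [e3]; exact K.neg_mem m3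
  · rw [e1, g1]; ring
  · rw [e2, g2]
  · rw [e3, g3]; ring

theorem w_side (K : Subfield A) (p r : Fin 4 → A) (s : Fin 3 → A) (κ α : A)
    (hp : ∀ i, p i ∈ K) (hr : ∀ i, r i ∈ K) (hs : ∀ i, s i ∈ K) (hκ : κ ∈ K) (hα : α ∈ K)
    (hirr : ∀ x ∈ K, ∀ y ∈ K, bin p x y = 0 → x = 0 ∧ y = 0) :
    ∃ (ϑ : Fin 3 → A) (Θ : Cube A), Fd K ϑ ∧ (∀ j, bin p (ϑ j) 1 = 0) ∧ Θ.Over K ϑ ∧ Θ.d ≠ 0 ∧
      ∀ (L : Subfield A), K ≤ L → ∀ u : Fin 4 → A, (∀ i, u i ∈ L) → skew p u = κ →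
        quart p r s α u = 0 → ∃ x, Rat L ϑ x ∧ Θ.ev x 1 = 0 ∧
          ∀ L' : Subfield A, K ≤ L' → Rat L' ϑ x → ∀ i, u i ∈ L' := by
  obtain ⟨ϑ, hϑ, hp0, h1, h2, h3⟩ := YS_roots hp hirr
  have hk : κ / p 0 ∈ K := K.div_mem hκ (hp 0)
  refine ⟨ϑ, YS_cube ϑ (p 0) (κ / p 0) α r s, hϑ, ?_, YS_over hϑ.cub (hp 0) hk hα hr hs, ?_, ?_⟩
  · intro j
    have hj := Cub.root (θ := ϑ) j
    simp only [bin]
    linear_combination p 0 * hj + ϑ j ^ 2 * h1 + ϑ j * h2 + h3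
  · obtain ⟨n01, n12, n20⟩ := hϑ.cub.ne
    exact mul_ne_zero (mul_ne_zero (neg_ne_zero.2 two_ne_zero) hp0) (pow_ne_zero 2
      (mul_ne_zero (mul_ne_zero (sub_ne_zero.2 n01) (sub_ne_zero.2 n12)) (sub_ne_zero.2 n20)))
  · intro L hKL u hu hsk hq
    obtain ⟨x, hx, k0, k1, k2⟩ := exists_moments (hϑ.cub.mono hKL) (m0 := -u 0) (m1 := u 1)
      (m2 := -u 2) (L.neg_mem (hu 0)) (hu 1) (L.neg_mem (hu 2))
    have k1' : T (fun j => x j * ϑ j) = u 1 := k1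
    have k2' : T (fun j => x j * ϑ j ^ 2) = -u 2 := k2
    have k3 : T (fun j => x j * ϑ j ^ 3) = T ϑ * T (fun j => x j * ϑ j ^ 2)
        - T (sh ϑ) * T (fun j => x j * ϑ j) + N ϑ * T x := by
      simp only [T, sh, N, Matrix.cons_val_zero, Matrix.cons_val_one, Matrix.cons_val]
      ring
    have eu : YS_u ϑ x (κ / p 0) = u := by
      funext i
      fin_cases i
      · simp [YS_u, k0]
      · simp [YS_u, k1']
      · simp [YS_u, k2']
      · have : T (fun j => x j * ϑ j ^ 3) + κ / p 0 = u 3 := by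
          rw [k3, k0, k1', k2', ← hsk]
          simp only [skew]
          field_simp
          linear_combination -(u 2) * h1 + u 1 * h2 - u 0 * h3
        simpa [YS_u] using this
    refine ⟨x, hx, ?_, ?_⟩
    · rw [← YS_ev ϑ x p r s (κ / p 0) α h1 h2 h3, eu]
      exact hq
    · intro L' hKL' hx' i
      have hC' := hϑ.cub.mono hKL'
      have t0 : T x ∈ L' := hx'.T_mem hC'
      have t1 : T (fun j => x j * ϑ j) ∈ L' := (Rat.mul hC' hx' Rat.self).T_mem hC'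
      have t2 : T (fun j => x j * ϑ j ^ 2) ∈ L' :=
        (Rat.mul hC' hx' (Rat.self.pow hC' 2)).T_mem hC'
      have t3 : T (fun j => x j * ϑ j ^ 3) ∈ L' :=
        (Rat.mul hC' hx' (Rat.self.pow hC' 3)).T_mem hC'
      rw [← eu]
      fin_cases i
      · exact L'.neg_mem t0
      · exact t1
      · exact L'.neg_mem t2
      · exact L'.add_mem t3 (hKL' hk)

end Pool.Agent.Helper16.C18.H
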